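import Pool.Agent.Lib.MP_f1e3b4_an.Prob

/-!
Problem MP_f1e3b4_an, module INV: unitary invariance of the Gaussian measures.
-/

set_option autoImplicit false

open MeasureTheory ProbabilityTheory Filter Topology Set
open scoped ENNReal ComplexConjugate

namespace MPf1e3

namespace InvM

open ProbM

lemma herm_eq {n : ℕ} (u v : Fin n → ℂ) : herm u v = dotProduct (star u) v := rfl

lemma herm_self {n : ℕ} (u : Fin n → ℂ) : herm u u = (nsq u : ℂ) := by
  unfold herm nsq
  push_cast
  refine Finset.sum_congr rfl fun j _ => ?_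
  rw [← Complex.conj_mul']

lemma herm_mulVec {n : ℕ} {V : Matrix (Fin n) (Fin n) ℂ}
    (hV : V ∈ Matrix.unitaryGroup (Fin n) ℂ) (u v : Fin n → ℂ) :
    herm (Matrix.mulVec V u) (Matrix.mulVec V v) = herm u v := by
  rw [herm_eq, herm_eq, Matrix.star_mulVec, Matrix.dotProduct_mulVec, Matrix.vecMul_vecMul]
  have h : V.conjTranspose * V = 1 := by
    have := Matrix.mem_unitaryGroup_iff'.1 hV
    rwa [Matrix.star_eq_conjTranspose] at this
  rw [h, Matrix.vecMul_one]

lemma nsq_mulVec {n : ℕ} {V : Matrix (Fin n) (Fin n) ℂ}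
    (hV : V ∈ Matrix.unitaryGroup (Fin n) ℂ) (u : Fin n → ℂ) :
    nsq (Matrix.mulVec V u) = nsq u := by
  have h := herm_mulVec hV u u
  rw [herm_self, herm_self] at h
  exact_mod_cast h

lemma transpose_mem {n : ℕ} {V : Matrix (Fin n) (Fin n) ℂ}
    (hV : V ∈ Matrix.unitaryGroup (Fin n) ℂ) : V.transpose ∈ Matrix.unitaryGroup (Fin n) ℂ := by
  rw [Matrix.mem_unitaryGroup_iff]
  have h := Matrix.mem_unitaryGroup_iff'.1 hV
  rw [Matrix.star_eq_conjTranspose] at h ⊢
  have h2 := congrArg Matrix.transpose h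
  rw [Matrix.transpose_mul, Matrix.transpose_one] at h2
  exact h2

lemma star_mem {n : ℕ} {V : Matrix (Fin n) (Fin n) ℂ}
    (hV : V ∈ Matrix.unitaryGroup (Fin n) ℂ) : star V ∈ Matrix.unitaryGroup (Fin n) ℂ := by
  rw [Matrix.mem_unitaryGroup_iff, star_star]
  exact Matrix.mem_unitaryGroup_iff'.1 hV

/-- product density -/
noncomputable def dn {n : ℕ} (a : Fin n → ℂ) : ℝ≥0∞ := ∏ i, rho (a i)

lemma meas_dn (n : ℕ) : Measurable (dn (n := n)) :=
  Finset.measurable_fun_prod _ fun i _ => meas_rho.comp (measurable_pi_apply i)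

lemma dn_eq {n : ℕ} (a : Fin n → ℂ) :
    dn a = ENNReal.ofReal (((2 * Real.pi)⁻¹) ^ n * Real.exp (-(nsq a / 2))) := by
  unfold dn rho nsq
  rw [← ENNReal.ofReal_prod_of_nonneg fun i _ => by positivity]
  congr 1
  rw [Finset.prod_mul_distrib, Finset.prod_const, Finset.card_univ, Fintype.card_fin,
    ← Real.exp_sum]
  congr 2
  rw [Finset.sum_neg_distrib, Finset.sum_div]

lemma mp_of_nsq {n : ℕ} (L : (Fin n → ℂ) ≃ₗ[ℝ] (Fin n → ℂ)) (hL : ∀ a, nsq (L a) = nsq a) :
    MeasurePreserving L (G n) (G n) := by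
  have hm : Measurable L := (LinearMap.continuous_of_finiteDimensional
    (L : (Fin n → ℂ) →ₗ[ℝ] (Fin n → ℂ))).measurable
  have hdet : LinearMap.det (L : (Fin n → ℂ) →ₗ[ℝ] (Fin n → ℂ)) ≠ 0 :=
    (LinearEquiv.isUnit_det' L).ne_zero
  have hmap := Measure.map_linearMap_addHaar_eq_smul_addHaar
    (volume : Measure (Fin n → ℂ)) hdet
  set c : ℝ≥0∞ := ENNReal.ofReal |(LinearMap.det (L : (Fin n → ℂ) →ₗ[ℝ] (Fin n → ℂ)))⁻¹|
  have hmp : MeasurePreserving L (volume : Measure (Fin n → ℂ)) (c • volume) :=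
    ⟨hm, hmap⟩
  have h1 : (G n).map L = c • G n := by
    have hd : (dn ∘ L : (Fin n → ℂ) → ℝ≥0∞) = dn := by
      funext a
      simp only [Function.comp, dn_eq, hL]
    have hG : G n = (volume : Measure (Fin n → ℂ)).withDensity dn := G_dens n
    have h2 := map_withDensity hmp (meas_dn n)
    rw [hd, withDensity_smul_measure, ← hG] at h2
    exact h2
  have hc : c = 1 := by
    have h2 := congrArg (fun μ : Measure (Fin n → ℂ) => μ univ) h1
    simp only [Measure.map_apply hm MeasurableSet.univ, preimage_univ, Measure.smul_apply,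
      measure_univ, smul_eq_mul, mul_one] at h2
    exact h2.symm
  exact ⟨hm, by rw [h1, hc, one_smul]⟩

lemma mp_mulVec {n : ℕ} {V : Matrix (Fin n) (Fin n) ℂ}
    (hV : V ∈ Matrix.unitaryGroup (Fin n) ℂ) :
    MeasurePreserving (fun a => Matrix.mulVec V a) (G n) (G n) := by
  have h1 : ∀ a, Matrix.mulVec (star V) (Matrix.mulVec V a) = a := by
    intro a
    rw [Matrix.mulVec_mulVec, Matrix.mem_unitaryGroup_iff'.1 hV, Matrix.one_mulVec]
  have h2 : ∀ a, Matrix.mulVec V (Matrix.mulVec (star V) a) = a := by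
    intro a
    rw [Matrix.mulVec_mulVec, Matrix.mem_unitaryGroup_iff.1 hV, Matrix.one_mulVec]
  let L : (Fin n → ℂ) ≃ₗ[ℝ] (Fin n → ℂ) :=
    { toFun := fun a => Matrix.mulVec V a
      invFun := fun a => Matrix.mulVec (star V) a
      left_inv := h1
      right_inv := h2
      map_add' := fun x y => Matrix.mulVec_add V x y
      map_smul' := fun r x => by
        simp only [RingHom.id_apply]
        exact (Matrix.mulVec_smul V r x) }
  exact mp_of_nsq L fun a => nsq_mulVec hV a

lemma mp_vecMul {n : ℕ} {V : Matrix (Fin n) (Fin n) ℂ}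
    (hV : V ∈ Matrix.unitaryGroup (Fin n) ℂ) :
    MeasurePreserving (fun a => Matrix.vecMul a V) (G n) (G n) := by
  have h := mp_mulVec (transpose_mem hV)
  have e : (fun a => Matrix.mulVec V.transpose a) = fun a => Matrix.vecMul a V := by
    funext a
    exact Matrix.mulVec_transpose V a
  rwa [e] at h

end InvM

theorem specInv : SpecInv where
  row := fun _ _ hV => InvM.mp_vecMul hV
  col := fun _ _ hV => InvM.mp_mulVec hV
  mat := fun N n V hV =>
    measurePreserving_pi (fun _ : Fin N => G n) (fun _ => G n) fun _ => InvM.mp_vecMul hV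

end MPf1e3
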