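import Mathlib

/-!
Problem MP_f1e3b4_an (frozen S06663): `4M-5` random measurements do not do phase retrieval.
Common definitions of all modules.  Normalisation of the frozen statement: `E|z|^2 = 2`.
`M = m + 2`, number of rows `4M - 5 = 4m + 3`.
-/

set_option autoImplicit false

open MeasureTheory ProbabilityTheory Filter Topology Set
open scoped ENNReal ComplexConjugate

namespace MPf1e3

/-! ### Gaussian measures -/

/-- the complex Gaussian of the frozen statement -/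
noncomputable def cg : Measure ℂ :=
  ((gaussianReal 0 1).prod (gaussianReal 0 1)).map
    (fun p : ℝ × ℝ => (p.1 : ℂ) + (p.2 : ℂ) * Complex.I)

/-- Gaussian rows in `ℂ^n` -/
noncomputable def G (n : ℕ) : Measure (Fin n → ℂ) := Measure.pi fun _ => cg

/-- Gaussian `N × n` matrices -/
noncomputable def GM (N n : ℕ) : Measure (Fin N → Fin n → ℂ) := Measure.pi fun _ => G n

/-- the uniform probability measure of the circle, as a measure on `ℝ` -/
noncomputable def cav : Measure ℝ :=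
  (ENNReal.ofReal (2 * Real.pi))⁻¹ • volume.restrict (Ioc 0 (2 * Real.pi))

/-- the point of the circle with argument `φ` -/
noncomputable def ee (φ : ℝ) : ℂ := Complex.exp (φ * Complex.I)

/-! ### vectors -/

section vectors
variable {n : ℕ}

/-- squared norm -/
noncomputable def nsq (u : Fin n → ℂ) : ℝ := ∑ j, ‖u j‖ ^ 2

/-- Hermitian product, linear on the right -/
def herm (u v : Fin n → ℂ) : ℂ := ∑ j, conj (u j) * v j

/-- row times column (no conjugation), as in `Matrix.mulVec` -/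
def dot (a u : Fin n → ℂ) : ℂ := ∑ j, a j * u j

/-- orthonormal pairs -/
structure ON (u v : Fin n → ℂ) : Prop where
  uu : nsq u = 1
  vv : nsq v = 1
  uv : herm u v = 0

/-- normalisation -/
noncomputable def nz (u : Fin n → ℂ) : Fin n → ℂ := fun j => u j / (Real.sqrt (nsq u) : ℂ)

/-- first vector of the Gram-Schmidt frame -/
noncomputable def fu (g : Fin n → ℂ) : Fin n → ℂ := nz g

/-- second vector of the Gram-Schmidt frame -/
noncomputable def fv (g h : Fin n → ℂ) : Fin n → ℂ :=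
  nz fun j => h j - herm (fu g) h * fu g j

/-- row times matrix -/
def rmul (a : Fin n → ℂ) (V : Matrix (Fin n) (Fin n) ℂ) : Fin n → ℂ := Matrix.vecMul a V

end vectors

/-! ### the kernel -/

/-- one summand of the kernel; `α`, `β` are the coordinates of a row in the planted frame -/
noncomputable def kphi (τ φ : ℝ) (α β : ℂ) : ℝ :=
  (1 - τ)⁻¹ * Real.exp (-(τ / (1 - τ)) * (‖α - ee φ * β‖ ^ 2 / 4)) *
    ((1 - τ) + τ * (‖α + ee φ * β‖ ^ 2 / 4))

/-- density of the planted law of a row with respect to the Gaussian law -/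
noncomputable def kern (τ : ℝ) (α β : ℂ) : ℝ≥0∞ := ∫⁻ φ, ENNReal.ofReal (kphi τ φ α β) ∂cav

/-- likelihood ratio of the mixture over all frames -/
noncomputable def LL (τ : ℝ) {N n : ℕ} (A : Fin N → Fin n → ℂ) : ℝ≥0∞ :=
  ∫⁻ ω : (Fin n → ℂ) × (Fin n → ℂ),
    ∏ i, kern τ (dot (A i) (fu ω.1)) (dot (A i) (fv ω.1 ω.2)) ∂((G n).prod (G n))

/-! ### overlaps -/

/-- `2 × 2` overlap matrices, by entries -/
structure OM where
  a : ℂ
  b : ℂ
  c : ℂ
  d : ℂ

namespace OM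
/-- scaling -/
def smul (τ : ℝ) (C : OM) : OM := ⟨τ * C.a, τ * C.b, τ * C.c, τ * C.d⟩
/-- adjoint -/
def adj (C : OM) : OM := ⟨conj C.a, conj C.c, conj C.b, conj C.d⟩
/-- squared Hilbert-Schmidt norm -/
noncomputable def fr (C : OM) : ℝ := ‖C.a‖ ^ 2 + ‖C.b‖ ^ 2 + ‖C.c‖ ^ 2 + ‖C.d‖ ^ 2
/-- `det (1 - C* C)` -/
noncomputable def dl (C : OM) : ℝ := 1 - C.fr + ‖C.a * C.d - C.b * C.c‖ ^ 2
/-- strict contractions (both conditions are symmetric under the adjoint) -/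
def Ctr (C : OM) : Prop := 0 < C.dl ∧ C.fr < 2
/-- `‖C f_φ‖²`, `f_φ = (1, -e^{iφ}) / √2` -/
noncomputable def yy (C : OM) (φ : ℝ) : ℝ :=
  (‖C.a - ee φ * C.b‖ ^ 2 + ‖C.c - ee φ * C.d‖ ^ 2) / 2
/-- `‖C* f_φ‖²` -/
noncomputable def xx (C : OM) (φ : ℝ) : ℝ := C.adj.yy φ
/-- `|⟨f_φ, C f_ψ⟩|²` -/
noncomputable def gg (C : OM) (φ ψ : ℝ) : ℝ :=
  ‖(C.a - ee ψ * C.b) - conj (ee φ) * (C.c - ee ψ * C.d)‖ ^ 2 / 4
/-- the integrand of `kap` -/
noncomputable def Ph (C : OM) (φ ψ : ℝ) : ℝ :=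
  2 * (1 - C.xx φ) * (1 - C.yy ψ) / (1 - C.gg φ ψ) ^ 3 - C.dl / (1 - C.gg φ ψ) ^ 2
/-- the pair correlation function -/
noncomputable def kap (C : OM) : ℝ := ∫ ψ, ∫ φ, C.Ph φ ψ ∂cav ∂cav
end OM

/-- overlap of the standard frame `(e_0, e_1)` with the frame `(u, v)` -/
def ov {m : ℕ} (u v : Fin (m + 2) → ℂ) : OM := ⟨u 0, v 0, u 1, v 1⟩

/-! ### non-injectivity -/

/-- pairs `(x, y)` which are quantitatively not proportional -/
def Kset (n : ℕ) : Set ((Fin n → ℂ) × (Fin n → ℂ)) :=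
  {p | nsq p.1 ≤ 4 ∧ nsq p.2 ≤ 4 ∧ 1 / 2 ≤ nsq p.1 * nsq p.2 - ‖herm p.1 p.2‖ ^ 2}

/-- matrices with a collision in `Kset` -/
def Coll (N n : ℕ) : Set (Fin N → Fin n → ℂ) :=
  {A | ∃ p ∈ Kset n, ∀ i, ‖dot (A i) p.1‖ = ‖dot (A i) p.2‖}

/-! ### the planted row law and the Jacobian -/

/-- planted law of a row, standard frame -/
noncomputable def nu (τ : ℝ) (m : ℕ) : Measure (Fin (m + 2) → ℂ) :=
  (G (m + 2)).withDensity fun a => kern τ (a 0) (a 1)

/-- law of the coordinate `z₁ = (α - e^{iφ} β) / √2` (variance `2 (1 - τ)`) -/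
noncomputable def mu1 (τ : ℝ) : Measure ℂ :=
  cg.withDensity fun z => ENNReal.ofReal ((1 - τ)⁻¹ * Real.exp (-(τ / (1 - τ)) * (‖z‖ ^ 2 / 2)))

/-- law of the coordinate `z₂ = (α + e^{iφ} β) / √2` -/
noncomputable def mu2 (τ : ℝ) : Measure ℂ :=
  cg.withDensity fun z => ENNReal.ofReal ((1 - τ) + τ * (‖z‖ ^ 2 / 2))

/-- a row from its coordinates -/
noncomputable def mkrow {m : ℕ} (φ : ℝ) (z₁ z₂ : ℂ) (r : Fin m → ℂ) : Fin (m + 2) → ℂ :=
  Fin.cons ((z₁ + z₂) / (Real.sqrt 2 : ℂ))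
    (Fin.cons (conj (ee φ) * (z₂ - z₁) / (Real.sqrt 2 : ℂ)) r)

/-- directions: `(s, z, x, y)`, real dimension `4m + 3` -/
abbrev Dir (m : ℕ) : Type := ℝ × ℂ × (Fin m → ℂ) × (Fin m → ℂ)

/-- the last `m` entries -/
def tl {m : ℕ} (a : Fin (m + 2) → ℂ) : Fin m → ℂ := fun j => a j.succ.succ

/-- the candidates `x = (1 + s, z, x)` and `y = (0, 1, y)` -/
def Xw {m : ℕ} (w : Dir m) : Fin (m + 2) → ℂ := Fin.cons (1 + (w.1 : ℂ)) (Fin.cons w.2.1 w.2.2.1)
/-- see `Xw` -/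
def Yw {m : ℕ} (w : Dir m) : Fin (m + 2) → ℂ := Fin.cons 0 (Fin.cons 1 w.2.2.2)

/-- half the differential of `|a·x|² - |a·y|²` -/
noncomputable def jrow {m : ℕ} (a : Fin (m + 2) → ℂ) (w : Dir m) : ℝ :=
  ‖a 0‖ ^ 2 * w.1 + (conj (a 0) * a 1 * w.2.1).re + (conj (a 0) * dot (tl a) w.2.2.1).re
    - (conj (a 1) * dot (tl a) w.2.2.2).re

end MPf1e3
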