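import Mathlib
import Pool.Agent.Lib.MP_f1e3b4_an.Defs

set_option autoImplicit false

open MeasureTheory ProbabilityTheory
open scoped ENNReal

namespace MPf1e3

namespace G1

lemma meas_toC : Measurable (fun p : ℝ × ℝ => (p.1 : ℂ) + (p.2 : ℂ) * Complex.I) := by
  fun_prop

instance instCg : IsProbabilityMeasure cg :=
  Measure.isProbabilityMeasure_map meas_toC.aemeasurable

instance instG (M : ℕ) : IsProbabilityMeasure (G M) := by
  unfold G; infer_instance

lemma real_tilt (s lam : ℝ) (hs : 0 < s) (hl : s ^ 2 * (1 + lam) = 1) (h : ℝ → ℝ≥0∞)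
    (hh : Measurable h) :
    ∫⁻ x, h x * ENNReal.ofReal (Real.exp (-(lam / 2) * x ^ 2)) ∂(gaussianReal 0 1) =
      ENNReal.ofReal s * ∫⁻ x, h (s * x) ∂(gaussianReal 0 1) := by
  have h1 : (1 : NNReal) ≠ 0 := one_ne_zero
  have hv : (NNReal.mk (s ^ 2) (sq_nonneg _)) * 1 ≠ 0 := by
    rw [mul_one]
    intro hc
    have := congrArg NNReal.toReal hc
    rw [NNReal.coe_mk, NNReal.coe_zero] at this
    exact (pow_ne_zero 2 hs.ne') this
  have e1 : ∫⁻ x, h (s * x) ∂(gaussianReal 0 1) =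
      ∫⁻ x, h x ∂((gaussianReal 0 1).map (fun x => s * x)) := by
    rw [lintegral_map hh (by fun_prop)]
  rw [e1]
  have e2 : (gaussianReal 0 1).map (fun x => s * x) = gaussianReal 0 (NNReal.mk (s ^ 2) (sq_nonneg _) * 1) := by
    have := gaussianReal_map_const_mul (μ := 0) (v := 1) s
    rw [mul_zero] at this
    exact this
  rw [e2, gaussianReal_of_var_ne_zero _ hv, gaussianReal_of_var_ne_zero _ h1]
  rw [lintegral_withDensity_eq_lintegral_mul _ (measurable_gaussianPDF _ _) hh,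
    lintegral_withDensity_eq_lintegral_mul _ (measurable_gaussianPDF _ _) (by fun_prop),
    ← lintegral_const_mul _ (by
      exact (measurable_gaussianPDF _ _).mul hh)]
  refine lintegral_congr fun x => ?_
  simp only [Pi.mul_apply]
  have key : gaussianPDF 0 1 x * ENNReal.ofReal (Real.exp (-(lam / 2) * x ^ 2)) =
      ENNReal.ofReal s * gaussianPDF 0 (NNReal.mk (s ^ 2) (sq_nonneg _) * 1) x := by
    rw [gaussianPDF_def, gaussianPDF_def]
    simp only
    rw [← ENNReal.ofReal_mul (gaussianPDFReal_nonneg _ _ _), ← ENNReal.ofReal_mul hs.le]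
    congr 1
    rw [gaussianPDFReal_def, gaussianPDFReal_def]
    simp only [NNReal.coe_one, mul_one, NNReal.coe_mk, sub_zero]
    have hs2 : (0:ℝ) < s ^ 2 := by positivity
    have e3 : Real.sqrt (2 * Real.pi * s ^ 2) = Real.sqrt (2 * Real.pi) * s := by
      rw [Real.sqrt_mul (by positivity), Real.sqrt_sq hs.le]
    rw [e3, mul_assoc, ← Real.exp_add]
    have hpi : (0:ℝ) < Real.sqrt (2 * Real.pi) := Real.sqrt_pos.mpr (by positivity)
    have e4 : -x ^ 2 / 2 + -(lam / 2) * x ^ 2 = -x ^ 2 / (2 * s ^ 2) := by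
      have : 1 + lam = 1 / s ^ 2 := by
        field_simp
        linarith
      have e5 : lam = 1 / s ^ 2 - 1 := by linarith
      rw [e5]
      field_simp
      ring
    rw [e4]
    field_simp
  calc gaussianPDF 0 1 x * (h x * ENNReal.ofReal (Real.exp (-(lam / 2) * x ^ 2)))
      = h x * (gaussianPDF 0 1 x * ENNReal.ofReal (Real.exp (-(lam / 2) * x ^ 2))) := by ring
    _ = _ := by rw [key]; ring

lemma cg_lintegral (h : ℂ → ℝ≥0∞) (hh : Measurable h) :
    ∫⁻ z, h z ∂cg = ∫⁻ x, ∫⁻ y, h ((x : ℂ) + (y : ℂ) * Complex.I) ∂(gaussianReal 0 1)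
      ∂(gaussianReal 0 1) := by
  unfold cg
  rw [lintegral_map hh meas_toC, lintegral_prod _ (by fun_prop)]

lemma cg_tilt (s lam : ℝ) (hs : 0 < s) (hl : s ^ 2 * (1 + lam) = 1) (h : ℂ → ℝ≥0∞)
    (hh : Measurable h) :
    ∫⁻ z, h z * ENNReal.ofReal (Real.exp (-(lam / 2) * ‖z‖ ^ 2)) ∂cg =
      ENNReal.ofReal (s ^ 2) * ∫⁻ z, h ((s : ℂ) * z) ∂cg := by
  rw [cg_lintegral _ (by fun_prop), cg_lintegral _ (by fun_prop)]
  have e1 : ∀ x y : ℝ, h ((x : ℂ) + (y : ℂ) * Complex.I) *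
      ENNReal.ofReal (Real.exp (-(lam / 2) * ‖(x : ℂ) + (y : ℂ) * Complex.I‖ ^ 2)) =
      h ((x : ℂ) + (y : ℂ) * Complex.I) * ENNReal.ofReal (Real.exp (-(lam / 2) * y ^ 2)) *
        ENNReal.ofReal (Real.exp (-(lam / 2) * x ^ 2)) := by
    intro x y
    rw [mul_assoc, ← ENNReal.ofReal_mul (Real.exp_nonneg _), ← Real.exp_add]
    have : ‖(x : ℂ) + (y : ℂ) * Complex.I‖ ^ 2 = x ^ 2 + y ^ 2 := by
      rw [← Complex.normSq_eq_norm_sq, Complex.normSq_add_mul_I]
    rw [this]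
    congr 3
    ring
  simp_rw [e1]
  have hm : ∀ x : ℝ, Measurable (fun y : ℝ => h ((x : ℂ) + (y : ℂ) * Complex.I)) := fun x => by
    fun_prop
  have hm2 : Measurable (Function.uncurry fun (x y : ℝ) => h ((x : ℂ) + (y : ℂ) * Complex.I)) := by
    unfold Function.uncurry; fun_prop
  have e2 : ∀ x : ℝ, ∫⁻ y, h ((x : ℂ) + (y : ℂ) * Complex.I) *
      ENNReal.ofReal (Real.exp (-(lam / 2) * y ^ 2)) * ENNReal.ofReal (Real.exp (-(lam / 2) * x ^ 2))
        ∂(gaussianReal 0 1) =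
      (ENNReal.ofReal s * ∫⁻ y, h ((x : ℂ) + ((s * y : ℝ) : ℂ) * Complex.I) ∂(gaussianReal 0 1)) *
        ENNReal.ofReal (Real.exp (-(lam / 2) * x ^ 2)) := by
    intro x
    rw [lintegral_mul_const _ (by fun_prop)]
    congr 1
    exact real_tilt s lam hs hl (fun y => h ((x : ℂ) + (y : ℂ) * Complex.I)) (hm x)
  simp_rw [e2]
  have hm3 : Measurable (fun x : ℝ => ∫⁻ y, h ((x : ℂ) + ((s * y : ℝ) : ℂ) * Complex.I)
      ∂(gaussianReal 0 1)) := by
    refine Measurable.lintegral_prod_right' (f := fun p : ℝ × ℝ =>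
      h ((p.1 : ℂ) + ((s * p.2 : ℝ) : ℂ) * Complex.I)) ?_
    fun_prop
  rw [real_tilt s lam hs hl (fun x => ENNReal.ofReal s *
    ∫⁻ y, h ((x : ℂ) + ((s * y : ℝ) : ℂ) * Complex.I) ∂(gaussianReal 0 1)) (by fun_prop)]
  rw [lintegral_const_mul _ (by fun_prop), ← mul_assoc, ← ENNReal.ofReal_mul hs.le, ← sq]
  congr 1
  refine lintegral_congr fun x => lintegral_congr fun y => ?_
  congr 1
  push_cast
  ring

/-- `cg` in terms of its Lebesgue density. -/
lemma cg_density (h : ℂ → ℝ≥0∞) (hh : Measurable h) :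
    ∫⁻ z, h z ∂cg = ∫⁻ z : ℂ, h z *
      ENNReal.ofReal ((2 * Real.pi)⁻¹ * Real.exp (-(1 / 2) * ‖z‖ ^ 2)) := by
  rw [cg_lintegral h hh]
  have h1 : (1 : NNReal) ≠ 0 := one_ne_zero
  rw [← (Complex.volume_preserving_equiv_real_prod.symm).lintegral_comp_emb
    Complex.measurableEquivRealProd.symm.measurableEmbedding, Measure.volume_eq_prod,
    lintegral_prod _ (by
      apply Measurable.aemeasurable
      have hm := Complex.measurableEquivRealProd.symm.measurable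
      fun_prop)]
  rw [gaussianReal_of_var_ne_zero _ h1]
  have hm1 : Measurable (fun x : ℝ => ∫⁻ y, h ((x : ℂ) + (y : ℂ) * Complex.I)
      ∂(volume.withDensity (gaussianPDF 0 1))) := by
    refine Measurable.lintegral_prod_right' (f := fun p : ℝ × ℝ =>
      h ((p.1 : ℂ) + (p.2 : ℂ) * Complex.I)) ?_
    fun_prop
  rw [lintegral_withDensity_eq_lintegral_mul _ (measurable_gaussianPDF _ _) hm1]
  refine lintegral_congr fun x => ?_
  simp only [Pi.mul_apply]
  have hm2 : Measurable (fun y : ℝ => h ((x : ℂ) + (y : ℂ) * Complex.I)) := by fun_prop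
  rw [lintegral_withDensity_eq_lintegral_mul _ (measurable_gaussianPDF _ _) hm2,
    ← lintegral_const_mul _ ((measurable_gaussianPDF _ _).mul hm2)]
  refine lintegral_congr fun y => ?_
  simp only [Pi.mul_apply, Complex.measurableEquivRealProd_symm_apply]
  have e0 : ((x : ℂ) + (y : ℂ) * Complex.I) = ⟨x, y⟩ := (Complex.mk_eq_add_mul_I x y).symm
  rw [e0]
  have e1 : gaussianPDF 0 1 x * gaussianPDF 0 1 y =
      ENNReal.ofReal ((2 * Real.pi)⁻¹ * Real.exp (-(1 / 2) * ‖(⟨x, y⟩ : ℂ)‖ ^ 2)) := by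
    rw [gaussianPDF_def]
    simp only
    rw [← ENNReal.ofReal_mul (gaussianPDFReal_nonneg _ _ _)]
    congr 1
    rw [gaussianPDFReal_def]
    simp only [NNReal.coe_one, mul_one, sub_zero]
    have hs : Real.sqrt (2 * Real.pi) * Real.sqrt (2 * Real.pi) = 2 * Real.pi :=
      Real.mul_self_sqrt (by positivity)
    have hn : ‖(⟨x, y⟩ : ℂ)‖ ^ 2 = x ^ 2 + y ^ 2 := by
      rw [← Complex.normSq_eq_norm_sq, Complex.normSq_mk]; ring
    rw [hn]
    have : (Real.sqrt (2 * Real.pi))⁻¹ * Real.exp (-x ^ 2 / 2) *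
        ((Real.sqrt (2 * Real.pi))⁻¹ * Real.exp (-y ^ 2 / 2)) =
        (Real.sqrt (2 * Real.pi) * Real.sqrt (2 * Real.pi))⁻¹ *
          (Real.exp (-x ^ 2 / 2) * Real.exp (-y ^ 2 / 2)) := by
      rw [mul_inv]; ring
    rw [this, hs, ← Real.exp_add]
    congr 2
    ring
  rw [← e1]
  ring

lemma cg_moment (k : ℕ) (c : ℝ) (hc : (2:ℝ) ^ k * (k.factorial : ℝ) = c) :
    ∫⁻ z, ENNReal.ofReal (‖z‖ ^ (2 * k)) ∂cg = ENNReal.ofReal c := by
  rw [cg_density _ (by fun_prop)]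
  have e1 : ∀ z : ℂ, ENNReal.ofReal (‖z‖ ^ (2 * k)) *
      ENNReal.ofReal ((2 * Real.pi)⁻¹ * Real.exp (-(1 / 2) * ‖z‖ ^ 2)) =
      ENNReal.ofReal ((2 * Real.pi)⁻¹ * (‖z‖ ^ ((2 * k : ℕ) : ℝ) *
        Real.exp (-(1 / 2) * ‖z‖ ^ (2:ℝ)))) := by
    intro z
    rw [← ENNReal.ofReal_mul (by positivity), Real.rpow_natCast, Real.rpow_two]
    congr 1
    ring
  simp_rw [e1]
  have hI := Complex.integral_rpow_mul_exp_neg_mul_rpow (p := 2) (q := ((2 * k : ℕ) : ℝ))
    (b := 1 / 2) (by norm_num) (by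
      have : (0:ℝ) ≤ ((2 * k : ℕ) : ℝ) := Nat.cast_nonneg _
      linarith) (by norm_num)
  have e2 : (((2 * k : ℕ) : ℝ) + 2) / 2 = (k : ℝ) + 1 := by push_cast; ring
  have e3 : -(((2 * k : ℕ) : ℝ) + 2) / 2 = -((k : ℝ) + 1) := by push_cast; ring
  rw [e2, e3, Real.Gamma_nat_eq_factorial] at hI
  have e4 : (1 / 2 : ℝ) ^ (-((k : ℝ) + 1)) = 2 ^ (k + 1) := by
    rw [one_div, Real.inv_rpow (by norm_num), Real.rpow_neg (by norm_num), inv_inv]
    rw [show ((k : ℝ) + 1) = ((k + 1 : ℕ) : ℝ) by push_cast; ring, Real.rpow_natCast]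
  rw [e4] at hI
  have hne : (2 * Real.pi / 2) * 2 ^ (k + 1) * (k.factorial : ℝ) ≠ 0 := by positivity
  have hint : Integrable (fun x : ℂ => ‖x‖ ^ ((2 * k : ℕ) : ℝ) *
      Real.exp (-(1 / 2) * ‖x‖ ^ (2:ℝ))) := by
    by_contra hcon
    rw [integral_undef hcon] at hI
    exact hne hI.symm
  rw [← ofReal_integral_eq_lintegral_ofReal (hint.const_mul _)
    (Filter.Eventually.of_forall fun z => by positivity), integral_const_mul, hI]
  congr 1
  rw [← hc]
  field_simp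
  ring

lemma cg_norm2 : ∫⁻ z, ENNReal.ofReal (‖z‖ ^ 2) ∂cg = ENNReal.ofReal 2 :=
  cg_moment 1 2 (by norm_num)

lemma cg_norm4 : ∫⁻ z, ENNReal.ofReal (‖z‖ ^ 4) ∂cg = ENNReal.ofReal 8 :=
  cg_moment 2 8 (by norm_num [Nat.factorial])

lemma cg_neg (h : ℂ → ℝ≥0∞) (hh : Measurable h) : ∫⁻ z, h (-z) ∂cg = ∫⁻ z, h z ∂cg := by
  rw [cg_density _ (by fun_prop), cg_density _ hh]
  rw [← lintegral_neg_eq_self (fun z : ℂ => h z *
      ENNReal.ofReal ((2 * Real.pi)⁻¹ * Real.exp (-(1 / 2) * ‖z‖ ^ 2)))]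
  simp only [norm_neg]

/-- the fourth moment of two linear forms of two independent Gaussians. -/
lemma cg2_moment (al be : ℝ) (ha : 0 ≤ al) (hb : 0 ≤ be) (x c d : ℂ) :
    ∫⁻ z, ∫⁻ w, ENNReal.ofReal ((al + be * (‖x * z‖ ^ 2 / 2)) * (al + be * (‖c * z + d * w‖ ^ 2 / 2)))
      ∂cg ∂cg =
      ENNReal.ofReal ((al + be * ‖x‖ ^ 2) * (al + be * (‖c‖ ^ 2 + ‖d‖ ^ 2)) +
        be ^ 2 * (‖x‖ ^ 2 * ‖c‖ ^ 2)) := by
  have e1 : ∀ z : ℂ, ∫⁻ w, ENNReal.ofReal ((al + be * (‖x * z‖ ^ 2 / 2)) *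
      (al + be * (‖c * z + d * w‖ ^ 2 / 2))) ∂cg =
      ENNReal.ofReal ((al + be * (‖x * z‖ ^ 2 / 2)) *
        (al + be * (‖c‖ ^ 2 * ‖z‖ ^ 2 / 2) + be * ‖d‖ ^ 2)) := by
    intro z
    set A : ℝ := (al + be * (‖x * z‖ ^ 2 / 2)) with hA
    have hA0 : 0 ≤ A := by positivity
    have hm : Measurable (fun w : ℂ => ENNReal.ofReal (A *
      (al + be * (‖c * z + d * w‖ ^ 2 / 2)))) := by fun_prop
    have s1 : 2 * ∫⁻ w, ENNReal.ofReal (A * (al + be * (‖c * z + d * w‖ ^ 2 / 2))) ∂cg =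
        2 * ENNReal.ofReal (A * (al + be * (‖c‖ ^ 2 * ‖z‖ ^ 2 / 2) + be * ‖d‖ ^ 2)) := by
      have s2 := cg_neg _ hm
      calc 2 * ∫⁻ w, ENNReal.ofReal (A * (al + be * (‖c * z + d * w‖ ^ 2 / 2))) ∂cg
          = ∫⁻ w, ENNReal.ofReal (A * (al + be * (‖c * z + d * w‖ ^ 2 / 2))) ∂cg +
            ∫⁻ w, ENNReal.ofReal (A * (al + be * (‖c * z + d * (-w)‖ ^ 2 / 2))) ∂cg := by
            rw [s2, two_mul]
        _ = ∫⁻ w, (ENNReal.ofReal (2 * (A * (al + be * (‖c‖ ^ 2 * ‖z‖ ^ 2 / 2)))) +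
              ENNReal.ofReal (A * be * ‖d‖ ^ 2) * ENNReal.ofReal (‖w‖ ^ 2)) ∂cg := by
            rw [← lintegral_add_left hm]
            refine lintegral_congr fun w => ?_
            rw [← ENNReal.ofReal_add (by positivity) (by positivity),
              ← ENNReal.ofReal_mul (by positivity), ← ENNReal.ofReal_add (by positivity)
                (by positivity)]
            congr 1
            have hp := parallelogram_law_with_norm ℝ (c * z) (d * w)
            rw [show c * z + d * -w = c * z - d * w by ring]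
            have h1 : ‖c * z‖ = ‖c‖ * ‖z‖ := norm_mul _ _
            have h2 : ‖d * w‖ = ‖d‖ * ‖w‖ := norm_mul _ _
            rw [h1, h2] at hp
            linear_combination (A * be / 2) * hp
        _ = _ := by
            rw [lintegral_add_left (by fun_prop), lintegral_const, measure_univ, mul_one,
              lintegral_const_mul _ (by fun_prop), cg_norm2,
              ← ENNReal.ofReal_mul (by positivity), ← ENNReal.ofReal_add (by positivity)
                (by positivity)]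
            rw [show (2 : ℝ≥0∞) = ENNReal.ofReal 2 by simp, ← ENNReal.ofReal_mul (by norm_num)]
            congr 1
            ring
    exact (ENNReal.mul_right_inj (by norm_num) (by norm_num)).mp s1
  simp_rw [e1]
  have e2 : ∀ z : ℂ, ENNReal.ofReal ((al + be * (‖x * z‖ ^ 2 / 2)) *
        (al + be * (‖c‖ ^ 2 * ‖z‖ ^ 2 / 2) + be * ‖d‖ ^ 2)) =
      ENNReal.ofReal (al * (al + be * ‖d‖ ^ 2)) +
        (ENNReal.ofReal (be * ‖x‖ ^ 2 / 2 * (al + be * ‖d‖ ^ 2) + al * be * ‖c‖ ^ 2 / 2) *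
          ENNReal.ofReal (‖z‖ ^ 2) +
        ENNReal.ofReal (be ^ 2 * (‖x‖ ^ 2 * ‖c‖ ^ 2) / 4) * ENNReal.ofReal (‖z‖ ^ 4)) := by
    intro z
    rw [← ENNReal.ofReal_mul (by positivity), ← ENNReal.ofReal_mul (by positivity),
      ← ENNReal.ofReal_add (by positivity) (by positivity),
      ← ENNReal.ofReal_add (by positivity) (by positivity)]
    congr 1
    rw [norm_mul]
    ring
  simp_rw [e2]
  rw [lintegral_add_left (by fun_prop), lintegral_const, measure_univ, mul_one,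
    lintegral_add_left (by fun_prop), lintegral_const_mul _ (by fun_prop), cg_norm2,
    lintegral_const_mul _ (by fun_prop), cg_norm4,
    ← ENNReal.ofReal_mul (by positivity), ← ENNReal.ofReal_mul (by positivity),
      ← ENNReal.ofReal_add (by positivity) (by positivity),
      ← ENNReal.ofReal_add (by positivity) (by positivity)]
  congr 1
  ring

end G1

end MPf1e3
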