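import Mathlib
import Pool.Agent.Lib.MP_f1e3b4_an.G1

set_option autoImplicit false

open MeasureTheory ProbabilityTheory Matrix
open scoped ENNReal

namespace MPf1e3

namespace G2

open G1

variable {M : ℕ}

lemma charFun_cg (t : ℂ) : charFun cg t = Complex.exp (-(‖t‖ ^ 2 : ℝ) / 2) := by
  rw [charFun_apply]
  unfold cg
  rw [integral_map meas_toC.aemeasurable (by fun_prop)]
  have e1 : ∀ p : ℝ × ℝ, Complex.exp (((inner ℝ ((p.1 : ℂ) + (p.2 : ℂ) * Complex.I) t : ℝ) : ℂ) *
      Complex.I) = Complex.exp (((inner ℝ p.1 t.re : ℝ) : ℂ) * Complex.I) *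
        Complex.exp (((inner ℝ p.2 t.im : ℝ) : ℂ) * Complex.I) := by
    intro p
    rw [← Complex.exp_add, ← add_mul]
    congr 2
    rw [← Complex.ofReal_add]
    congr 1
    rw [Complex.inner]
    simp [Complex.mul_re]
  simp_rw [e1]
  rw [integral_prod_mul (μ := gaussianReal 0 1) (ν := gaussianReal 0 1)
    (fun x : ℝ => Complex.exp (((inner ℝ x t.re : ℝ) : ℂ) * Complex.I))
    (fun y : ℝ => Complex.exp (((inner ℝ y t.im : ℝ) : ℂ) * Complex.I)),
    ← charFun_apply, ← charFun_apply, charFun_gaussianReal, charFun_gaussianReal, ← Complex.exp_add]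
  congr 1
  rw [← Complex.normSq_eq_norm_sq, Complex.normSq_apply]
  push_cast
  ring

lemma nsq_eq_norm (p : Fin M → ℂ) : nsq p = ‖(WithLp.toLp 2 p : EuclideanSpace ℂ (Fin M))‖ ^ 2 := by
  rw [EuclideanSpace.norm_sq_eq]; rfl

lemma nsq_eq_herm (p : Fin M → ℂ) : ((nsq p : ℝ) : ℂ) = herm p p := by
  unfold nsq herm
  push_cast
  refine Finset.sum_congr rfl fun j _ => ?_
  rw [Complex.conj_mul']

lemma nsq_nonneg (p : Fin M → ℂ) : 0 ≤ nsq p := Finset.sum_nonneg fun _ _ => by positivity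

lemma prod_charFun (t : Fin M → ℂ) :
    ∏ i, charFun cg (t i) = Complex.exp (-(nsq t : ℝ) / 2) := by
  simp_rw [charFun_cg]
  rw [← Complex.exp_sum]
  congr 1
  unfold nsq
  push_cast
  rw [← Finset.sum_div, Finset.sum_neg_distrib]

/-- `Re` of the Hermitian product as the real inner product of `PiLp 2`. -/
lemma re_herm (x t : PiLp 2 (fun _ : Fin M => ℂ)) : (inner ℝ x t : ℝ) = (herm x t).re := by
  rw [PiLp.inner_apply]
  unfold herm
  rw [Complex.re_sum]
  refine Finset.sum_congr rfl fun j _ => ?_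
  rw [Complex.inner, mul_comm]

lemma herm_vecMul (U : Matrix (Fin M) (Fin M) ℂ) (a t : Fin M → ℂ) :
    herm (a ᵥ* U) t = herm a (t ᵥ* Uᴴ) := by
  unfold herm vecMul dotProduct
  simp only [map_sum, Finset.sum_mul, Finset.mul_sum, map_mul, conjTranspose_apply]
  rw [Finset.sum_comm]
  refine Finset.sum_congr rfl fun i _ => Finset.sum_congr rfl fun j _ => ?_
  simp only [RCLike.star_def]
  ring

lemma nsq_vecMul (U : Matrix (Fin M) (Fin M) ℂ) (hU : U * Uᴴ = 1) (a : Fin M → ℂ) :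
    nsq (a ᵥ* U) = nsq a := by
  have : ((nsq (a ᵥ* U) : ℝ) : ℂ) = ((nsq a : ℝ) : ℂ) := by
    rw [nsq_eq_herm, nsq_eq_herm, herm_vecMul, vecMul_vecMul, hU, vecMul_one]
  exact_mod_cast this

/-- unitary invariance of the law of a row -/
theorem G_unitary (U : Matrix (Fin M) (Fin M) ℂ) (hU : U * Uᴴ = 1) :
    (G M).map (fun a => a ᵥ* U) = G M := by
  have hm : Measurable (fun a : Fin M → ℂ => a ᵥ* U) := by
    unfold vecMul dotProduct; fun_prop
  have : IsProbabilityMeasure ((G M).map (fun a => a ᵥ* U)) :=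
    Measure.isProbabilityMeasure_map hm.aemeasurable
  unfold G
  refine (charFun_eq_pi_iff (μ := fun _ : Fin M => cg)
    (ν := (Measure.pi (fun _ : Fin M => cg)).map (fun a => a ᵥ* U))).mp fun t => ?_
  have hUH : Uᴴ * Uᴴᴴ = 1 := by
    rw [conjTranspose_conjTranspose]
    exact mul_eq_one_comm.mp hU
  rw [prod_charFun, ← nsq_vecMul Uᴴ hUH, ← prod_charFun]
  have h2 := charFun_pi (μ := fun _ : Fin M => cg) (WithLp.toLp 2 ((t : Fin M → ℂ) ᵥ* Uᴴ))
  simp only at h2
  rw [← h2, charFun_apply, charFun_apply, Measure.map_map (by fun_prop) hm,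
    integral_map (by
      apply Measurable.aemeasurable
      exact (by fun_prop : Measurable (WithLp.toLp 2 : (Fin M → ℂ) → PiLp 2 (fun _ : Fin M => ℂ))).comp hm)
      (by fun_prop), integral_map (by fun_prop) (by fun_prop)]
  refine integral_congr_ae (Filter.Eventually.of_forall fun a => ?_)
  simp only [Function.comp]
  rw [re_herm, re_herm]
  congr 4
  exact herm_vecMul U a t

lemma lintegral_unitary (U : Matrix (Fin M) (Fin M) ℂ) (hU : U * Uᴴ = 1) (h : (Fin M → ℂ) → ℝ≥0∞)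
    (hh : Measurable h) : ∫⁻ a, h (a ᵥ* U) ∂(G M) = ∫⁻ a, h a ∂(G M) := by
  have hm : Measurable (fun a : Fin M → ℂ => a ᵥ* U) := by
    unfold vecMul dotProduct; fun_prop
  conv_rhs => rw [← G_unitary U hU]
  rw [lintegral_map hh hm]

lemma meas_vecMul (U : Matrix (Fin M) (Fin M) ℂ) : Measurable (fun a : Fin M → ℂ => a ᵥ* U) := by
  unfold vecMul dotProduct; fun_prop

lemma meas_dot (p : Fin M → ℂ) : Measurable (fun a : Fin M → ℂ => dot a p) := by
  unfold dot; fun_prop

/-- Fubini for the first coordinate -/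
lemma row_cons (n : ℕ) (h : (Fin (n + 1) → ℂ) → ℝ≥0∞) (hh : Measurable h) :
    ∫⁻ a, h a ∂(G (n + 1)) = ∫⁻ z, ∫⁻ b, h (Fin.cons z b) ∂(G n) ∂cg := by
  unfold G
  have hp := (measurePreserving_piFinSuccAbove (fun _ : Fin (n + 1) => cg) 0).symm
  rw [← hp.lintegral_comp_emb (MeasurableEquiv.measurableEmbedding _)]
  rw [lintegral_prod _ (by
    apply Measurable.aemeasurable
    exact hh.comp (MeasurableEquiv.measurable _))]
  refine lintegral_congr fun z => lintegral_congr fun b => ?_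
  congr 1
  funext i
  refine Fin.cases ?_ (fun j => ?_) i
  · simp [MeasurableEquiv.piFinSuccAbove]
  · simp [MeasurableEquiv.piFinSuccAbove]

lemma meas_cons (n : ℕ) : Measurable (fun p : ℂ × (Fin n → ℂ) => (Fin.cons p.1 p.2 : Fin (n+1) → ℂ)) := by
  refine measurable_pi_lambda _ fun i => ?_
  refine Fin.cases ?_ (fun j => ?_) i
  · simp only [Fin.cons_zero]; fun_prop
  · simp only [Fin.cons_succ]; fun_prop

/-- tilt in the direction of the first coordinate -/
lemma tilt_zero (n : ℕ) (s lam : ℝ) (hs : 0 < s) (hl : s ^ 2 * (1 + lam) = 1)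
    (h : (Fin (n + 1) → ℂ) → ℝ≥0∞) (hh : Measurable h) :
    ∫⁻ a, h a * ENNReal.ofReal (Real.exp (-(lam / 2) * ‖a 0‖ ^ 2)) ∂(G (n + 1)) =
      ENNReal.ofReal (s ^ 2) * ∫⁻ a, h (Function.update a 0 ((s : ℂ) * a 0)) ∂(G (n + 1)) := by
  have hm1 : Measurable (fun a : Fin (n+1) → ℂ => Function.update a 0 ((s : ℂ) * a 0)) := by
    refine measurable_pi_lambda _ fun i => ?_
    rcases eq_or_ne i 0 with rfl | hi
    · simp only [Function.update_self]; fun_prop
    · simp only [Function.update_of_ne hi]; fun_prop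
  rw [row_cons n _ (by fun_prop), row_cons n (fun a => h (Function.update a 0 ((s : ℂ) * a 0)))
    (hh.comp hm1)]
  simp only [Fin.cons_zero, Fin.update_cons_zero]
  have hmc : Measurable (fun p : ℂ × (Fin n → ℂ) => h (Fin.cons p.1 p.2)) := hh.comp (meas_cons n)
  have e1 : ∀ z : ℂ, ∫⁻ b, h (Fin.cons z b) * ENNReal.ofReal (Real.exp (-(lam / 2) * ‖z‖ ^ 2))
      ∂(G n) = (∫⁻ b, h (Fin.cons z b) ∂(G n)) *
        ENNReal.ofReal (Real.exp (-(lam / 2) * ‖z‖ ^ 2)) := by
    intro z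
    have hz : Measurable (fun b : Fin n → ℂ => h (Fin.cons z b)) :=
      hmc.comp (by fun_prop : Measurable fun b : Fin n → ℂ => (z, b))
    rw [lintegral_mul_const _ hz]
  simp_rw [e1]
  exact cg_tilt s lam hs hl (fun z => ∫⁻ b, h (Fin.cons z b) ∂(G n))
    (Measurable.lintegral_prod_right' hmc)

/-- Gram-Schmidt: a unitary matrix adapted to two vectors -/
lemma exists_unitary (n : ℕ) (p q : Fin (n + 2) → ℂ) :
    ∃ U : Matrix (Fin (n + 2)) (Fin (n + 2)) ℂ, U * Uᴴ = 1 ∧ ∃ x y z : ℂ,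
      (∀ a : Fin (n + 2) → ℂ, dot a p = x * (a ᵥ* U) 0) ∧
      (∀ a : Fin (n + 2) → ℂ, dot a q = y * (a ᵥ* U) 0 + z * (a ᵥ* U) 1) ∧
      nsq p = ‖x‖ ^ 2 ∧ nsq q = ‖y‖ ^ 2 + ‖z‖ ^ 2 ∧ ‖herm p q‖ ^ 2 = ‖x‖ ^ 2 * ‖y‖ ^ 2 := by
  classical
  let f : Fin (n + 2) → EuclideanSpace ℂ (Fin (n + 2)) := fun i => if i = 0 then WithLp.toLp 2 p else
    if i = 1 then WithLp.toLp 2 q else 0
  have hcard : Module.finrank ℂ (EuclideanSpace ℂ (Fin (n + 2))) = Fintype.card (Fin (n + 2)) := by simp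
  let b := InnerProductSpace.gramSchmidtOrthonormalBasis hcard f
  have hb : ∀ i j, inner ℂ (b i) (b j) = if i = j then (1 : ℂ) else 0 := fun i j => by
    have := orthonormal_iff_ite.mp b.orthonormal i j
    simpa using this
  let U : Matrix (Fin (n + 2)) (Fin (n + 2)) ℂ := Matrix.of fun j k => b k j
  have hUU : Uᴴ * U = 1 := by
    ext i j
    rw [mul_apply, one_apply, ← hb i j, PiLp.inner_apply]
    simp only [conjTranspose_apply, U, of_apply, RCLike.inner_apply, RCLike.star_def]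
    exact Finset.sum_congr rfl fun k _ => by ring
  have hU : U * Uᴴ = 1 := mul_eq_one_comm.mp hUU
  have hf0 : f 0 = WithLp.toLp 2 p := by simp [f]
  have hf1 : f 1 = WithLp.toLp 2 q := by simp [f]
  have hp0 : ∀ j, j ≠ 0 → inner ℂ (b j) (f 0) = 0 := fun j hj =>
    InnerProductSpace.gramSchmidtOrthonormalBasis_inv_triangular hcard f (Fin.pos_of_ne_zero hj)
  have hq0 : ∀ j, j ≠ 0 → j ≠ 1 → inner ℂ (b j) (f 1) = 0 := fun j hj hj1 =>
    InnerProductSpace.gramSchmidtOrthonormalBasis_inv_triangular hcard f (by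
      have h0 : (0 : ℕ) < j.val := Nat.pos_of_ne_zero (fun h => hj (Fin.ext h))
      have h1 : j.val ≠ 1 := fun h => hj1 (Fin.ext (by simpa using h))
      rw [Fin.lt_def]
      simp only [Fin.val_one]
      omega)
  have hpe : f 0 = inner ℂ (b 0) (f 0) • b 0 := by
    conv_lhs => rw [← b.sum_repr' (f 0)]
    rw [Finset.sum_eq_single 0]
    · intro j _ hj
      rw [hp0 j hj, zero_smul]
    · intro h; exact absurd (Finset.mem_univ _) h
  have hqe : f 1 = inner ℂ (b 0) (f 1) • b 0 + inner ℂ (b 1) (f 1) • b 1 := by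
    conv_lhs => rw [← b.sum_repr' (f 1)]
    rw [← Finset.sum_subset (Finset.subset_univ {0, 1})]
    · rw [Finset.sum_pair (by
        intro h
        have := congrArg Fin.val h
        simp at this)]
    · intro j _ hj
      simp only [Finset.mem_insert, Finset.mem_singleton, not_or] at hj
      rw [hq0 j hj.1 hj.2, zero_smul]
  have hfherm : ∀ u v : Fin (n + 2) → ℂ, herm u v =
      inner ℂ (WithLp.toLp 2 u : EuclideanSpace ℂ (Fin (n + 2)))
        (WithLp.toLp 2 v : EuclideanSpace ℂ (Fin (n + 2))) := by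
    intro u v
    unfold herm
    rw [PiLp.inner_apply]
    exact Finset.sum_congr rfl fun k _ => by simp [RCLike.inner_apply, mul_comm]
  refine ⟨U, hU, inner ℂ (b 0) (f 0), inner ℂ (b 0) (f 1), inner ℂ (b 1) (f 1), ?_, ?_, ?_, ?_, ?_⟩
  · intro a
    have h1 : ∀ j, p j = inner ℂ (b 0) (f 0) * b 0 j := fun j => by
      have := congrArg (fun v : EuclideanSpace ℂ (Fin (n + 2)) => v j) hpe
      simp only [PiLp.smul_apply, smul_eq_mul] at this
      rw [← this, hf0]
    unfold vecMul dotProduct dot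
    rw [Finset.mul_sum]
    refine Finset.sum_congr rfl fun j _ => ?_
    rw [h1 j]
    simp only [U, of_apply]
    ring
  · intro a
    have h1 : ∀ j, q j = inner ℂ (b 0) (f 1) * b 0 j + inner ℂ (b 1) (f 1) * b 1 j := fun j => by
      have := congrArg (fun v : EuclideanSpace ℂ (Fin (n + 2)) => v j) hqe
      simp only [PiLp.add_apply, PiLp.smul_apply, smul_eq_mul] at this
      rw [← this, hf1]
    unfold vecMul dotProduct dot
    rw [Finset.mul_sum, Finset.mul_sum, ← Finset.sum_add_distrib]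
    refine Finset.sum_congr rfl fun j _ => ?_
    rw [h1 j]
    simp only [U, of_apply]
    ring
  · rw [nsq_eq_norm]
    conv_lhs => rw [← hf0, hpe]
    rw [norm_smul, b.norm_eq_one, mul_one]
  · rw [nsq_eq_norm]
    rw [← hf1]
    have := b.sum_sq_norm_inner_right (f 1)
    rw [← this, ← Finset.sum_subset (Finset.subset_univ {0, 1})]
    · rw [Finset.sum_pair (by
        intro h
        have := congrArg Fin.val h
        simp at this)]
    · intro j _ hj
      simp only [Finset.mem_insert, Finset.mem_singleton, not_or] at hj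
      rw [hq0 j hj.1 hj.2]
      simp
  · rw [hfherm, ← hf0, ← hf1]
    conv_lhs => rw [hpe]
    rw [inner_smul_left, norm_mul, RCLike.norm_conj, mul_pow]

end G2

end MPf1e3
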