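import Pool.Agent.Lib.MP_f1e3b4_an.Spec

/-!
Problem MP_f1e3b4_an, module PROB: basic measures.
-/

set_option autoImplicit false

open MeasureTheory ProbabilityTheory Filter Topology Set
open scoped ENNReal ComplexConjugate

namespace MPf1e3

namespace ProbM

lemma meas_emb : Measurable (fun p : ℝ × ℝ => (p.1 : ℂ) + (p.2 : ℂ) * Complex.I) := by
  fun_prop

lemma emb_eq : (fun p : ℝ × ℝ => (p.1 : ℂ) + (p.2 : ℂ) * Complex.I) =
    Complex.measurableEquivRealProd.symm := by
  funext p
  apply Complex.ext <;> simp [Complex.measurableEquivRealProd]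

lemma prob_cg : IsProbabilityMeasure cg := by
  unfold cg
  exact Measure.isProbabilityMeasure_map meas_emb.aemeasurable

instance : IsProbabilityMeasure cg := prob_cg

instance (n : ℕ) : IsProbabilityMeasure (G n) := by
  unfold G; infer_instance

instance (N n : ℕ) : IsProbabilityMeasure (GM N n) := by
  unfold GM; infer_instance

lemma prob_cav : IsProbabilityMeasure cav := by
  constructor
  unfold cav
  have h2 : (0 : ℝ) < 2 * Real.pi := by positivity
  simp only [Measure.smul_apply, Measure.restrict_apply_univ, Real.volume_Ioc, sub_zero,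
    smul_eq_mul]
  exact ENNReal.inv_mul_cancel (by simpa using h2) ENNReal.ofReal_ne_top

instance : IsProbabilityMeasure cav := prob_cav

/-- density of the complex Gaussian -/
noncomputable def rho (z : ℂ) : ℝ≥0∞ :=
  ENNReal.ofReal ((2 * Real.pi)⁻¹ * Real.exp (-(‖z‖ ^ 2 / 2)))

lemma meas_rho : Measurable rho := by
  unfold rho
  fun_prop

lemma map_withDensity {α β : Type*} [MeasurableSpace α] [MeasurableSpace β] {μ : Measure α}
    {ν : Measure β} {f : α → β} (hf : MeasurePreserving f μ ν) {g : β → ℝ≥0∞}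
    (hg : Measurable g) : (μ.withDensity (g ∘ f)).map f = ν.withDensity g := by
  ext s hs
  rw [Measure.map_apply hf.measurable hs, withDensity_apply _ (hf.measurable hs),
    withDensity_apply _ hs, ← hf.setLIntegral_comp_preimage hs hg]
  rfl

lemma rho_emb : (fun z : ℝ × ℝ => gaussianPDF 0 1 z.1 * gaussianPDF 0 1 z.2) =
    rho ∘ Complex.measurableEquivRealProd.symm := by
  rw [← emb_eq]
  funext z
  simp only [gaussianPDF, gaussianPDFReal, Function.comp, rho]
  rw [← ENNReal.ofReal_mul (by positivity)]
  congr 1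
  have hn : ‖(z.1 : ℂ) + (z.2 : ℂ) * Complex.I‖ ^ 2 = z.1 ^ 2 + z.2 ^ 2 := by
    rw [Complex.sq_norm, Complex.normSq_apply]
    simp
    ring
  rw [hn]
  have h1 : (√(2 * Real.pi * ((1 : NNReal) : ℝ)))⁻¹ * (√(2 * Real.pi * ((1 : NNReal) : ℝ)))⁻¹
      = (2 * Real.pi)⁻¹ := by
    rw [← mul_inv, Real.mul_self_sqrt (by positivity)]
    simp
  calc _ = ((√(2 * Real.pi * ((1 : NNReal) : ℝ)))⁻¹ * (√(2 * Real.pi * ((1 : NNReal) : ℝ)))⁻¹) *
        (Real.exp (-(z.1 - 0) ^ 2 / (2 * ((1 : NNReal) : ℝ))) *
          Real.exp (-(z.2 - 0) ^ 2 / (2 * ((1 : NNReal) : ℝ)))) := by ring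
    _ = _ := by
        rw [h1, ← Real.exp_add]
        congr 2
        simp
        ring

lemma cg_eq : MPf1e3.cg = (volume : Measure ℂ).withDensity rho := by
  have hg : gaussianReal 0 1 = (volume : Measure ℝ).withDensity (gaussianPDF 0 1) :=
    gaussianReal_of_var_ne_zero 0 one_ne_zero
  have hprod : (gaussianReal 0 1).prod (gaussianReal 0 1) =
      (volume : Measure (ℝ × ℝ)).withDensity
        fun z => gaussianPDF 0 1 z.1 * gaussianPDF 0 1 z.2 := by
    rw [hg, prod_withDensity (measurable_gaussianPDF 0 1) (measurable_gaussianPDF 0 1)]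
    rfl
  unfold cg
  rw [emb_eq, hprod, rho_emb]
  exact map_withDensity (Complex.volume_preserving_equiv_real_prod.symm) meas_rho

/-- product of integrals -/
lemma lintegral_pi_prod {α : Type*} [MeasurableSpace α] : ∀ (n : ℕ) (μ : Fin n → Measure α)
    [∀ i, SigmaFinite (μ i)] (f : Fin n → α → ℝ≥0∞), (∀ i, Measurable (f i)) →
    ∫⁻ x, ∏ i, f i (x i) ∂(Measure.pi μ) = ∏ i, ∫⁻ y, f i y ∂(μ i)
  | 0, μ, _, f, _ => by
      rw [Measure.pi_of_empty]
      simp
  | n + 1, μ, _, f, hf => by
      have h := (measurePreserving_piFinSuccAbove μ 0).symm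
      rw [← h.map_eq, lintegral_map_equiv]
      have h2 : ∀ a : α × (Fin n → α), ∏ i, f i
          ((MeasurableEquiv.piFinSuccAbove (fun i => α) 0).symm a i) =
          f 0 a.1 * ∏ j, f (Fin.succ j) (a.2 j) := by
        intro a
        rw [Fin.prod_univ_succ]
        simp [MeasurableEquiv.piFinSuccAbove]
      simp only [h2]
      have hm : Measurable fun x : Fin n → α => ∏ j, f (Fin.succ j) (x j) :=
        Finset.measurable_fun_prod _ fun j _ => (hf j.succ).comp (measurable_pi_apply j)
      rw [lintegral_prod_mul (hf 0).aemeasurable hm.aemeasurable]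
      rw [Fin.prod_univ_succ]
      congr 1
      exact lintegral_pi_prod n (fun j => μ j.succ) (fun j => f j.succ) fun j => hf _

/-- densities of product measures -/
lemma pi_withDensity {α : Type*} [MeasurableSpace α] (n : ℕ) (μ : Fin n → Measure α)
    [∀ i, SigmaFinite (μ i)] (f : Fin n → α → ℝ≥0∞) (hf : ∀ i, Measurable (f i))
    [∀ i, SigmaFinite ((μ i).withDensity (f i))] :
    Measure.pi (fun i => (μ i).withDensity (f i)) =
      (Measure.pi μ).withDensity fun x => ∏ i, f i (x i) := by
  apply Measure.pi_eq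
  intro s hs
  rw [withDensity_apply _ (MeasurableSet.univ_pi hs), ← lintegral_indicator (MeasurableSet.univ_pi hs)]
  have h : (fun x : Fin n → α => (univ.pi s).indicator (fun x => ∏ i, f i (x i)) x) =
      fun x => ∏ i, (s i).indicator (f i) (x i) := by
    funext x
    by_cases hx : x ∈ univ.pi s
    · rw [indicator_of_mem hx]
      exact Finset.prod_congr rfl fun i _ => (indicator_of_mem (hx i (mem_univ i)) _).symm
    · rw [indicator_of_notMem hx]
      simp only [mem_univ_pi, not_forall] at hx
      obtain ⟨i, hi⟩ := hx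
      exact (Finset.prod_eq_zero (Finset.mem_univ i) (indicator_of_notMem hi _)).symm
  rw [h, lintegral_pi_prod n μ _ fun i => (hf i).indicator (hs i)]
  refine Finset.prod_congr rfl fun i _ => ?_
  rw [lintegral_indicator (hs i), withDensity_apply _ (hs i)]

instance : SigmaFinite ((volume : Measure ℂ).withDensity rho) := by
  rw [← cg_eq]; infer_instance

lemma G_dens (n : ℕ) : G n = (volume : Measure (Fin n → ℂ)).withDensity
    fun a => ∏ i, rho (a i) := by
  unfold G
  rw [cg_eq]
  exact pi_withDensity n (fun _ => volume) (fun _ => rho) fun _ => meas_rho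

end ProbM

theorem specProb : SpecProb where
  cg := ProbM.prob_cg
  G := fun _ => inferInstance
  GM := fun _ _ => inferInstance
  cav := ProbM.prob_cav
  dens := ProbM.cg_eq

end MPf1e3
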