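import Pool.Agent.Lib.MP_f1e3b4_an.Spec

/-! Problem MP_f1e3b4_an: auxiliary facts (Tonelli for products, measurability of the kernel). -/

set_option autoImplicit false

open MeasureTheory ProbabilityTheory Filter Topology Set
open scoped ENNReal ComplexConjugate

namespace MPf1e3

namespace MA

set_option backward.isDefEq.respectTransparency false in
/-- Tonelli for a product of functions of one coordinate each -/
theorem lintegral_pi_prod {n : ℕ} {E : Fin n → Type} [mE : ∀ i, MeasurableSpace (E i)]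
    (μ : ∀ i, Measure (E i)) [∀ i, SigmaFinite (μ i)] (f : ∀ i, E i → ℝ≥0∞)
    (hf : ∀ i, Measurable (f i)) :
    ∫⁻ x, ∏ i, f i (x i) ∂(Measure.pi μ) = ∏ i, ∫⁻ x, f i x ∂(μ i) := by
  induction n with
  | zero => simp
  | succ n ih =>
    calc ∫⁻ x, ∏ i, f i (x i) ∂(Measure.pi μ)
        = ∫⁻ x : E 0 × ((i : Fin n) → E (Fin.succ i)),
            f 0 x.1 * ∏ i : Fin n, f (Fin.succ i) (x.2 i)
            ∂((μ 0).prod (Measure.pi (fun i ↦ μ i.succ))) := by
          have h := (measurePreserving_piFinSuccAbove μ 0)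
          rw [← h.symm.lintegral_comp_emb (MeasurableEquiv.measurableEmbedding _)]
          simp_rw [MeasurableEquiv.piFinSuccAbove_symm_apply, Fin.insertNthEquiv,
            Fin.prod_univ_succ, Fin.insertNth_zero, Equiv.coe_fn_mk, Fin.cons_succ,
            Fin.zero_succAbove, cast_eq, Fin.cons_zero]
      _ = (∫⁻ x, f 0 x ∂μ 0)
            * ∏ i : Fin n, ∫⁻ (x : E (Fin.succ i)), f (Fin.succ i) x ∂(μ i.succ) := by
          rw [← ih (fun i => μ i.succ) (fun i => f i.succ) (fun i => hf i.succ),
            ← lintegral_prod_mul (hf 0).aemeasurable]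
          exact (Finset.measurable_prod _ fun i _ =>
            (hf i.succ).comp (measurable_pi_apply i)).aemeasurable
      _ = ∏ i, ∫⁻ x, f i x ∂(μ i) := by rw [Fin.prod_univ_succ]

/-- products of densities -/
theorem pi_withDensity {N : ℕ} {X : Type} [MeasurableSpace X] (μ : Measure X) [SigmaFinite μ]
    (f : X → ℝ≥0∞) (hf : Measurable f) [SigmaFinite (μ.withDensity f)] :
    (Measure.pi fun _ : Fin N => μ.withDensity f) =
      (Measure.pi fun _ : Fin N => μ).withDensity fun A => ∏ i, f (A i) := by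
  apply Measure.pi_eq
  intro s hs
  rw [withDensity_apply _ (MeasurableSet.univ_pi hs), ← lintegral_indicator
    (MeasurableSet.univ_pi hs)]
  have e : (Set.pi univ s).indicator (fun A : Fin N → X => ∏ i, f (A i)) =
      fun A => ∏ i, (s i).indicator f (A i) := by
    funext A
    by_cases h : A ∈ Set.pi univ s
    · rw [indicator_of_mem h]
      exact Finset.prod_congr rfl fun i _ => (indicator_of_mem (h i (mem_univ i)) f).symm
    · rw [indicator_of_notMem h]
      have : ∃ i, A i ∉ s i := by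
        by_contra h'
        push Not at h'
        exact h fun i _ => h' i
      obtain ⟨i, hi⟩ := this
      exact (Finset.prod_eq_zero (Finset.mem_univ i) (indicator_of_notMem hi f)).symm
  rw [e, lintegral_pi_prod _ _ fun i => hf.indicator (hs i)]
  exact Finset.prod_congr rfl fun i _ => by
    rw [lintegral_indicator (hs i), withDensity_apply _ (hs i)]

theorem meas01 {m : ℕ} {X : Type} [MeasurableSpace X] :
    Measurable fun a : Fin (m + 2) → X => (a 0, a 1) :=
  (measurable_pi_apply (0 : Fin (m + 2))).prodMk (measurable_pi_apply (1 : Fin (m + 2)))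

theorem meas_kern01 (hK : ∀ τ : ℝ, Measurable fun p : ℂ × ℂ => kern τ p.1 p.2) (τ : ℝ) (m : ℕ) :
    Measurable fun a : Fin (m + 2) → ℂ => kern τ (a 0) (a 1) := by
  have := Measurable.comp (g := fun p : ℂ × ℂ => kern τ p.1 p.2)
    (f := fun a : Fin (m + 2) → ℂ => (a 0, a 1)) (hK τ) meas01
  simpa [Function.comp_def] using this

theorem meas_kern (hK : ∀ τ : ℝ, Measurable fun p : ℂ × ℂ => kern τ p.1 p.2) (τ : ℝ)
    {X : Type} [MeasurableSpace X] {f g : X → ℂ} (hf : Measurable f) (hg : Measurable g) :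
    Measurable fun x => kern τ (f x) (g x) := by
  have := Measurable.comp (g := fun p : ℂ × ℂ => kern τ p.1 p.2)
    (f := fun x => (f x, g x)) (hK τ) (hf.prodMk hg)
  simpa [Function.comp_def] using this

theorem meas_dot {n : ℕ} {X : Type} [MeasurableSpace X] {f g : X → Fin n → ℂ}
    (hf : Measurable f) (hg : Measurable g) : Measurable fun x => dot (f x) (g x) := by
  unfold dot
  exact Finset.measurable_sum _ fun j _ =>
    ((measurable_pi_apply j).comp hf).mul ((measurable_pi_apply j).comp hg)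

theorem continuous_ee : Continuous ee := by
  unfold ee
  fun_prop

theorem meas_kphi (τ : ℝ) : Measurable fun p : (ℂ × ℂ) × ℝ => kphi τ p.2 p.1.1 p.1.2 := by
  apply Continuous.measurable
  unfold kphi
  have := continuous_ee
  fun_prop

theorem sigmaFinite_cav : SFinite cav := by
  unfold cav
  infer_instance

theorem meas_kern_pair (τ : ℝ) : Measurable fun p : ℂ × ℂ => kern τ p.1 p.2 := by
  have := sigmaFinite_cav
  unfold kern
  have h : Measurable fun p : (ℂ × ℂ) × ℝ => ENNReal.ofReal (kphi τ p.2 p.1.1 p.1.2) :=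
    ENNReal.measurable_ofReal.comp (meas_kphi τ)
  exact Measurable.lintegral_prod_right' h

/-- the integrand of `LL` -/
noncomputable def intg (τ : ℝ) {N n : ℕ} (A : Fin N → Fin n → ℂ)
    (ω : (Fin n → ℂ) × (Fin n → ℂ)) : ℝ≥0∞ :=
  ∏ i, kern τ (dot (A i) (fu ω.1)) (dot (A i) (fv ω.1 ω.2))

theorem LL_eq (τ : ℝ) {N n : ℕ} (A : Fin N → Fin n → ℂ) :
    LL τ A = ∫⁻ ω, intg τ A ω ∂((G n).prod (G n)) := rfl

theorem meas_intg (hGS : SpecGS) (τ : ℝ) (N n : ℕ) :
    Measurable fun p : (Fin N → Fin n → ℂ) × ((Fin n → ℂ) × (Fin n → ℂ)) => intg τ p.1 p.2 := by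
  unfold intg
  refine Finset.measurable_prod _ fun i _ => ?_
  have h1 : Measurable fun p : (Fin N → Fin n → ℂ) × ((Fin n → ℂ) × (Fin n → ℂ)) => p.1 i :=
    (measurable_pi_apply i).comp measurable_fst
  have h2 : Measurable fun p : (Fin N → Fin n → ℂ) × ((Fin n → ℂ) × (Fin n → ℂ)) => fu p.2.1 :=
    (hGS.meas_u n).comp measurable_snd
  have h3 : Measurable fun p : (Fin N → Fin n → ℂ) × ((Fin n → ℂ) × (Fin n → ℂ)) =>
      fv p.2.1 p.2.2 := (hGS.meas_v n).comp measurable_snd
  exact meas_kern meas_kern_pair τ (meas_dot h1 h2) (meas_dot h1 h3)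

theorem sfinite_prod {n : ℕ} (μ : Measure (Fin n → ℂ)) [IsProbabilityMeasure μ] :
    SFinite (μ.prod μ) :=
  have : SFinite μ := inferInstance
  @Measure.prod.instSFinite _ _ _ μ _ _ μ _

theorem sfinite_pi {N n : ℕ} (μ : Measure (Fin n → ℂ)) [IsProbabilityMeasure μ] :
    SFinite (Measure.pi fun _ : Fin N => μ) := by
  have : SigmaFinite (Measure.pi fun _ : Fin N => μ) := Measure.pi.sigmaFinite _
  exact instSFiniteOfSigmaFinite

theorem meas_LL (hP : SpecProb) (hGS : SpecGS) (τ : ℝ) (N n : ℕ) :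
    Measurable fun A : Fin N → Fin n → ℂ => LL τ A := by
  have := hP.G n
  have := sfinite_prod (G n)
  exact Measurable.lintegral_prod_right' (meas_intg hGS τ N n)

end MA

end MPf1e3
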