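import Pool.Agent.Lib.MP_f1e3b4_an.Spec

/-!
Modules CONS, CONS1: splitting off coordinates of a complex Gaussian vector.
-/

set_option autoImplicit false

open MeasureTheory ProbabilityTheory Filter Topology Set
open scoped ENNReal ComplexConjugate

namespace MPf1e3
namespace ConsM

theorem meas_cmap : Measurable (fun p : ℝ × ℝ => (p.1 : ℂ) + (p.2 : ℂ) * Complex.I) := by
  fun_prop

instance prob_cg : IsProbabilityMeasure cg := by
  unfold cg
  exact Measure.isProbabilityMeasure_map meas_cmap.aemeasurable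

instance prob_G (n : ℕ) : IsProbabilityMeasure (G n) := by
  unfold G
  infer_instance

theorem meas_cons {m : ℕ} (α : ℂ) :
    Measurable fun r : Fin m → ℂ => (Fin.cons α r : Fin (m + 1) → ℂ) := by
  refine measurable_pi_lambda _ fun i => ?_
  refine Fin.cases ?_ (fun j => ?_) i
  · simp
  · simpa using measurable_pi_apply j

theorem meas_cons2 {m : ℕ} :
    Measurable fun p : ℂ × (Fin m → ℂ) => (Fin.cons p.1 p.2 : Fin (m + 1) → ℂ) := by
  refine measurable_pi_lambda _ fun i => ?_
  refine Fin.cases ?_ (fun j => ?_) i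
  · simpa using measurable_fst
  · have h : Measurable fun c : ℂ × (Fin m → ℂ) => c.2 j :=
      (measurable_pi_apply j).comp measurable_snd
    simpa using h

end ConsM

open ConsM in
theorem specCons1 : SpecCons1 := by
  intro m F hF
  have h1 := measurePreserving_piFinSuccAbove (fun _ : Fin (m + 1) => cg) 0
  have h2 : ∫⁻ a, F a ∂(G (m + 1)) =
      ∫⁻ p : ℂ × (Fin m → ℂ), F (Fin.cons p.1 p.2 : Fin (m + 1) → ℂ) ∂(cg.prod (G m)) := by
    have h3 := h1.symm
    have h4 := h3.lintegral_comp hF
    rw [show G (m + 1) = Measure.pi fun _ : Fin (m + 1) => cg from rfl, ← h4]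
    refine lintegral_congr fun p => ?_
    congr 1
    show (Fin.insertNth (α := fun _ => ℂ) 0 p.1 p.2) = (Fin.cons p.1 p.2 : Fin (m + 1) → ℂ)
    exact Fin.insertNth_zero (α := fun _ => ℂ) p.1 p.2
  have h5 : Measurable fun p : ℂ × (Fin m → ℂ) => F (Fin.cons p.1 p.2 : Fin (m + 1) → ℂ) :=
    hF.comp meas_cons2
  rw [h2, lintegral_prod _ h5.aemeasurable]

open ConsM in
theorem specCons : SpecCons := by
  intro m F hF
  rw [specCons1 (m + 1) F hF]
  refine lintegral_congr fun α => ?_
  exact specCons1 m _ (hF.comp (meas_cons α))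

end MPf1e3
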