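import Pool.Agent.Lib.MP_f1e3b4_an.Cons

/-!
Module GAM: the law of the squared norm of a complex Gaussian vector.
-/

set_option autoImplicit false

open MeasureTheory ProbabilityTheory Filter Topology Set
open scoped ENNReal ComplexConjugate

namespace MPf1e3
namespace GamM

/-- The density of the squared norm. -/
noncomputable def dens (n : ℕ) (y : ℝ) : ℝ≥0∞ :=
  ENNReal.ofReal (y ^ n * Real.exp (-(y / 2)) / (2 ^ (n + 1) * n.factorial))

theorem meas_dens (n : ℕ) : Measurable (dens n) := by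
  unfold dens
  fun_prop

theorem nsq_cons {n : ℕ} (α : ℂ) (r : Fin n → ℂ) :
    nsq (Fin.cons α r : Fin (n + 1) → ℂ) = ‖α‖ ^ 2 + nsq r := by
  unfold nsq
  rw [Fin.sum_univ_succ]
  simp

theorem meas_nsq {n : ℕ} : Measurable (nsq : (Fin n → ℂ) → ℝ) := by
  unfold nsq
  fun_prop

theorem radial (g : ℝ → ℝ≥0∞) (hg : Measurable g) :
    ∫⁻ z : ℂ, g (‖z‖ ^ 2) = ENNReal.ofReal Real.pi * ∫⁻ y in Ioi (0 : ℝ), g y := by
  rw [← Complex.lintegral_comp_polarCoord_symm]
  have h1 : ∀ p : ℝ × ℝ, ENNReal.ofReal p.1 • g (‖Complex.polarCoord.symm p‖ ^ 2)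
      = ENNReal.ofReal p.1 * g (p.1 ^ 2) := by
    intro p
    rw [Complex.norm_polarCoord_symm, sq_abs, smul_eq_mul]
  simp_rw [h1]
  have ht : polarCoord.target = Ioi (0 : ℝ) ×ˢ Ioo (-Real.pi) Real.pi := rfl
  rw [ht, Measure.volume_eq_prod, ← Measure.prod_restrict]
  have hm : Measurable fun p : ℝ × ℝ => ENNReal.ofReal p.1 * g (p.1 ^ 2) := by fun_prop
  rw [lintegral_prod _ hm.aemeasurable]
  have h2 : ∀ x : ℝ, ∫⁻ _ : ℝ in Ioo (-Real.pi) Real.pi, ENNReal.ofReal x * g (x ^ 2)
      = ENNReal.ofReal x * g (x ^ 2) * ENNReal.ofReal (2 * Real.pi) := by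
    intro x
    rw [setLIntegral_const, Real.volume_Ioo]
    congr 2
    ring
  simp_rw [h2]
  have himg : (fun r : ℝ => r ^ 2) '' Ioi (0 : ℝ) = Ioi 0 := by
    ext y
    simp only [mem_image, mem_Ioi]
    constructor
    · rintro ⟨r, hr, rfl⟩
      positivity
    · intro hy
      exact ⟨Real.sqrt y, Real.sqrt_pos.2 hy, Real.sq_sqrt hy.le⟩
  have h3 := lintegral_image_eq_lintegral_abs_deriv_mul (s := Ioi (0 : ℝ)) (f := fun r : ℝ => r ^ 2)
    (f' := fun r => 2 * r) measurableSet_Ioi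
    (fun x _ => by simpa using (hasDerivAt_pow 2 x).hasDerivWithinAt)
    (by
      intro a ha b hb hab
      simp only [mem_Ioi] at ha hb
      simp only at hab
      nlinarith [mul_pos ha hb, sq_nonneg (a - b)]) g
  rw [himg] at h3
  rw [h3, ← lintegral_const_mul _ (by fun_prop)]
  refine setLIntegral_congr_fun measurableSet_Ioi fun r hr => ?_
  simp only [mem_Ioi] at hr
  have e1 : |2 * r| = 2 * r := abs_of_pos (by linarith)
  simp only [e1]
  rw [mul_right_comm, ← ENNReal.ofReal_mul hr.le, ← mul_assoc (ENNReal.ofReal Real.pi),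
    ← ENNReal.ofReal_mul Real.pi_pos.le]
  congr 2
  ring

theorem base (hP : SpecProb) (F : ℝ → ℝ≥0∞) (hF : Measurable F) :
    ∫⁻ z, F (‖z‖ ^ 2) ∂cg = ∫⁻ y in Ioi (0 : ℝ), F y * dens 0 y := by
  rw [hP.dens, lintegral_withDensity_eq_lintegral_mul _ (by fun_prop) (by fun_prop)]
  have h1 : ∀ z : ℂ, ((fun z : ℂ => ENNReal.ofReal ((2 * Real.pi)⁻¹ * Real.exp (-(‖z‖ ^ 2 / 2))))
      * fun z : ℂ => F (‖z‖ ^ 2)) z
      = (fun y : ℝ => ENNReal.ofReal ((2 * Real.pi)⁻¹ * Real.exp (-(y / 2))) * F y) (‖z‖ ^ 2) := by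
    intro z; rfl
  simp_rw [h1]
  rw [radial (fun y : ℝ => ENNReal.ofReal ((2 * Real.pi)⁻¹ * Real.exp (-(y / 2))) * F y)
    (by fun_prop), ← lintegral_const_mul _ (by fun_prop)]
  refine lintegral_congr fun y => ?_
  rw [← mul_assoc, ← ENNReal.ofReal_mul Real.pi_pos.le, mul_comm (F y)]
  unfold dens
  congr 2
  have := Real.pi_pos
  field_simp
  simp

theorem inner_int (n : ℕ) (y c : ℝ) (hy : 0 < y) (hc : 0 ≤ c) :
    ∫⁻ t in Ioo 0 y, ENNReal.ofReal (c * t ^ n) = ENNReal.ofReal (c * (y ^ (n + 1) / (n + 1))) := by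
  have hint : IntegrableOn (fun t : ℝ => c * t ^ n) (Ioo 0 y) := by
    have : IntegrableOn (fun t : ℝ => c * t ^ n) (Icc 0 y) :=
      (by fun_prop : Continuous fun t : ℝ => c * t ^ n).integrableOn_Icc
    exact this.mono_set Ioo_subset_Icc_self
  rw [← ofReal_integral_eq_lintegral_ofReal hint]
  · congr 1
    rw [← integral_Ioc_eq_integral_Ioo, ← intervalIntegral.integral_of_le hy.le,
      intervalIntegral.integral_const_mul, integral_pow]
    simp
  · refine (ae_restrict_iff' measurableSet_Ioo).2 (Eventually.of_forall fun t ht => ?_)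
    have := ht.1
    show 0 ≤ c * t ^ n
    positivity

theorem conv (n : ℕ) (F : ℝ → ℝ≥0∞) (hF : Measurable F) :
    ∫⁻ s in Ioi (0 : ℝ), (∫⁻ t in Ioi (0 : ℝ), F (s + t) * dens n t) * dens 0 s
      = ∫⁻ y in Ioi (0 : ℝ), F y * dens (n + 1) y := by
  have md := meas_dens n
  have md0 := meas_dens 0
  -- kernel
  let K : ℝ → ℝ → ℝ≥0∞ := fun t y =>
    {p : ℝ × ℝ | 0 < p.1 ∧ p.1 < p.2}.indicator
      (fun p => F p.2 * ENNReal.ofReal (Real.exp (-(p.2 / 2)) / (2 ^ (n + 2) * n.factorial) * p.1 ^ n))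
      (t, y)
  have hK : Measurable (Function.uncurry K) := by
    have hset : MeasurableSet {p : ℝ × ℝ | 0 < p.1 ∧ p.1 < p.2} :=
      (measurableSet_lt measurable_const measurable_fst).inter
        (measurableSet_lt measurable_fst measurable_snd)
    have : Function.uncurry K = {p : ℝ × ℝ | 0 < p.1 ∧ p.1 < p.2}.indicator
      (fun p => F p.2 * ENNReal.ofReal (Real.exp (-(p.2 / 2)) / (2 ^ (n + 2) * n.factorial) * p.1 ^ n)) := by
      funext p; rfl
    rw [this]
    exact Measurable.indicator (by fun_prop) hset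
  -- left side
  have hL : ∫⁻ s in Ioi (0 : ℝ), (∫⁻ t in Ioi (0 : ℝ), F (s + t) * dens n t) * dens 0 s
      = ∫⁻ t, ∫⁻ y, K t y := by
    have e1 : ∀ s : ℝ, (∫⁻ t in Ioi (0 : ℝ), F (s + t) * dens n t) * dens 0 s
        = ∫⁻ t in Ioi (0 : ℝ), F (s + t) * dens n t * dens 0 s := by
      intro s
      rw [lintegral_mul_const _ (by fun_prop)]
    simp_rw [e1]
    rw [lintegral_lintegral_swap (by
      refine Measurable.aemeasurable ?_
      show Measurable fun p : ℝ × ℝ => F (p.1 + p.2) * dens n p.2 * dens 0 p.1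
      fun_prop)]
    rw [← lintegral_indicator measurableSet_Ioi]
    refine lintegral_congr fun t => ?_
    by_cases ht : 0 < t
    · rw [indicator_of_mem (show t ∈ Ioi (0 : ℝ) from ht)]
      rw [← lintegral_indicator measurableSet_Ioi]
      rw [← lintegral_sub_right_eq_self _ t]
      refine lintegral_congr fun y => ?_
      by_cases hy : t < y
      · rw [indicator_of_mem (show y - t ∈ Ioi (0 : ℝ) by simpa using hy)]
        have hKy : K t y = F y * ENNReal.ofReal
            (Real.exp (-(y / 2)) / (2 ^ (n + 2) * n.factorial) * t ^ n) :=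
          indicator_of_mem (show (t, y) ∈ {p : ℝ × ℝ | 0 < p.1 ∧ p.1 < p.2} from ⟨ht, hy⟩) _
        rw [hKy, sub_add_cancel, mul_assoc]
        congr 1
        unfold dens
        rw [← ENNReal.ofReal_mul (by positivity)]
        congr 1
        have e2 : Real.exp (-(y / 2)) = Real.exp (-(t / 2)) * Real.exp (-((y - t) / 2)) := by
          rw [← Real.exp_add]; congr 1; ring
        rw [e2]
        simp only [pow_zero, Nat.factorial_zero, Nat.cast_one]
        field_simp
        ring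
      · rw [indicator_of_notMem (show y - t ∉ Ioi (0 : ℝ) by simpa using hy)]
        have hKy : K t y = 0 :=
          indicator_of_notMem (show (t, y) ∉ {p : ℝ × ℝ | 0 < p.1 ∧ p.1 < p.2} from
            fun hh => hy hh.2) _
        rw [hKy]
    · rw [indicator_of_notMem (show t ∉ Ioi (0 : ℝ) from ht)]
      have hKy : ∀ y, K t y = 0 := fun y =>
        indicator_of_notMem (show (t, y) ∉ {p : ℝ × ℝ | 0 < p.1 ∧ p.1 < p.2} from
          fun hh => ht hh.1) _
      simp [hKy]
  rw [hL, lintegral_lintegral_swap hK.aemeasurable, ← lintegral_indicator measurableSet_Ioi]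
  refine lintegral_congr fun y => ?_
  by_cases hy : 0 < y
  · rw [indicator_of_mem (show y ∈ Ioi (0 : ℝ) from hy)]
    have e1 : ∀ t, K t y = (Ioo 0 y).indicator (fun t => F y * ENNReal.ofReal
            (Real.exp (-(y / 2)) / (2 ^ (n + 2) * n.factorial) * t ^ n)) t := by
      intro t
      by_cases ht : t ∈ Ioo 0 y
      · rw [indicator_of_mem ht]
        exact indicator_of_mem (show (t, y) ∈ {p : ℝ × ℝ | 0 < p.1 ∧ p.1 < p.2} from ht) _
      · rw [indicator_of_notMem ht]
        exact indicator_of_notMem (show (t, y) ∉ {p : ℝ × ℝ | 0 < p.1 ∧ p.1 < p.2} from ht) _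
    simp_rw [e1]
    rw [lintegral_indicator measurableSet_Ioo, lintegral_const_mul _ (by fun_prop),
      inner_int n y _ hy (by positivity)]
    congr 1
    unfold dens
    congr 1
    rw [Nat.factorial_succ]
    push_cast
    field_simp
  · rw [indicator_of_notMem (show y ∉ Ioi (0 : ℝ) from hy)]
    have e1 : ∀ t, K t y = 0 := fun t =>
      indicator_of_notMem (show (t, y) ∉ {p : ℝ × ℝ | 0 < p.1 ∧ p.1 < p.2} from
        fun hh => hy (hh.1.trans hh.2)) _
    simp [e1]

end GamM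

open GamM in
theorem specGam (hP : SpecProb) : SpecGam := by
  intro n
  induction n with
  | zero =>
    intro F hF
    rw [specCons1 0 (fun a => F (nsq a)) (hF.comp meas_nsq)]
    simp_rw [nsq_cons]
    have h0 : ∀ r : Fin 0 → ℂ, nsq r = 0 := fun r => by simp [nsq]
    simp_rw [h0, add_zero, lintegral_const, measure_univ, mul_one]
    exact base hP F hF
  | succ n ih =>
    intro F hF
    rw [specCons1 (n + 1) (fun a => F (nsq a)) (hF.comp meas_nsq)]
    simp_rw [nsq_cons]
    have h1 : ∀ α : ℂ, ∫⁻ r : Fin (n + 1) → ℂ, F (‖α‖ ^ 2 + nsq r) ∂(G (n + 1))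
        = ∫⁻ t in Ioi (0 : ℝ), F (‖α‖ ^ 2 + t) * dens n t := by
      intro α
      exact ih (fun t => F (‖α‖ ^ 2 + t)) (by fun_prop)
    simp_rw [h1]
    have md := meas_dens n
    have hm : Measurable fun s : ℝ => ∫⁻ t in Ioi (0 : ℝ), F (s + t) * dens n t := by
      refine Measurable.lintegral_prod_right' (f := fun p : ℝ × ℝ => F (p.1 + p.2) * dens n p.2) ?_
      fun_prop
    rw [base hP (fun s => ∫⁻ t in Ioi (0 : ℝ), F (s + t) * dens n t) hm]
    exact conv n F hF

end MPf1e3
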