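import Pool.Agent.Lib.MP_f1e3b4_an.Spec

section
/-!
Problem MP_f1e3b4_an, module AVG: averages over the circle.
-/
set_option autoImplicit false

open MeasureTheory ProbabilityTheory Filter Topology Set
open scoped ENNReal ComplexConjugate

namespace MPf1e3

namespace Avg

set_option linter.unusedSectionVars false

variable {E : Type*} [NormedAddCommGroup E] [NormedSpace ℝ E]

/-- the average as an interval integral -/
theorem cav_integral (f : ℝ → E) :
    ∫ φ, f φ ∂cav = (2 * Real.pi)⁻¹ • ∫ φ in (0 : ℝ)..2 * Real.pi, f φ := by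
  have h : (0 : ℝ) ≤ 2 * Real.pi := by positivity
  rw [cav, integral_smul_measure, intervalIntegral.integral_of_le h, ENNReal.toReal_inv,
    ENNReal.toReal_ofReal h]

theorem cav_prob : IsProbabilityMeasure cav := by
  constructor
  have h : (0 : ℝ) < 2 * Real.pi := by positivity
  simp only [cav, Measure.smul_apply, Measure.restrict_apply MeasurableSet.univ, univ_inter,
    Real.volume_Ioc, sub_zero, smul_eq_mul]
  exact ENNReal.inv_mul_cancel (by simpa using h) ENNReal.ofReal_ne_top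

/-- continuous functions are integrable -/
theorem cav_integrable {f : ℝ → E} (hf : Continuous f) : Integrable f cav := by
  refine Integrable.smul_measure ?_ ?_
  · exact (hf.integrableOn_Icc (a := 0) (b := 2 * Real.pi)).mono_set Ioc_subset_Icc_self
  · have h : (0 : ℝ) < 2 * Real.pi := by positivity
    simpa using h

/-- the average of the derivative of a periodic function vanishes -/
theorem cav_deriv [CompleteSpace E] {F F' : ℝ → E} (hF : ∀ φ, HasDerivAt F (F' φ) φ)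
    (hc : Continuous F') (hp : F (2 * Real.pi) = F 0) : ∫ φ, F' φ ∂cav = 0 := by
  rw [cav_integral, intervalIntegral.integral_eq_sub_of_hasDerivAt (fun x _ => hF x)
    (hc.intervalIntegrable _ _), hp, sub_self, smul_zero]

theorem ee_zero : ee 0 = 1 := by simp [ee]

theorem ee_two_pi : ee (2 * Real.pi) = 1 := by
  rw [ee]
  push_cast
  exact Complex.exp_two_pi_mul_I

theorem continuous_ee : Continuous ee := by
  unfold ee
  fun_prop

theorem norm_ee (φ : ℝ) : ‖ee φ‖ = 1 := by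
  rw [ee, Complex.norm_exp_ofReal_mul_I]

theorem hasDerivAt_ee (φ : ℝ) : HasDerivAt ee (ee φ * Complex.I) φ := by
  have h1 : HasDerivAt (fun x : ℝ => (x : ℂ) * Complex.I) (1 * Complex.I) φ :=
    (Complex.ofRealCLM.hasDerivAt (x := φ)).mul_const Complex.I
  have h2 := h1.cexp
  rw [one_mul] at h2
  exact h2

variable (A B : ℝ) (ζ : ℂ)

/-- the basic trigonometric expression -/
noncomputable def zz (φ : ℝ) : ℝ := A + B * (ζ * ee φ).re
/-- its conjugate -/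
noncomputable def yv (φ : ℝ) : ℝ := B * (ζ * ee φ).im

theorem hasDerivAt_re (φ : ℝ) : HasDerivAt (fun φ => (ζ * ee φ).re) (-(ζ * ee φ).im) φ := by
  have h := ((hasDerivAt_ee φ).const_mul ζ)
  have h2 := (Complex.reCLM.hasFDerivAt.comp_hasDerivAt φ h)
  refine h2.congr_deriv ?_
  simp [Complex.mul_re, Complex.mul_im]
  ring

theorem hasDerivAt_im (φ : ℝ) : HasDerivAt (fun φ => (ζ * ee φ).im) (ζ * ee φ).re φ := by
  have h := ((hasDerivAt_ee φ).const_mul ζ)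
  have h2 := (Complex.imCLM.hasFDerivAt.comp_hasDerivAt φ h)
  refine h2.congr_deriv ?_
  simp [Complex.mul_re, Complex.mul_im]
  ring

theorem hasDerivAt_zz (φ : ℝ) : HasDerivAt (zz A B ζ) (-yv B ζ φ) φ := by
  have h := ((hasDerivAt_re ζ φ).const_mul B).const_add A
  refine h.congr_deriv ?_
  simp only [yv]
  ring

theorem hasDerivAt_yv (φ : ℝ) : HasDerivAt (yv B ζ) (zz A B ζ φ - A) φ := by
  have h := ((hasDerivAt_im ζ φ).const_mul B)
  refine h.congr_deriv ?_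
  simp only [zz]
  ring

theorem continuous_zz : Continuous (zz A B ζ) := by
  have := continuous_ee
  unfold zz
  fun_prop

theorem continuous_yv : Continuous (yv B ζ) := by
  have := continuous_ee
  unfold yv
  fun_prop

theorem zz_per : zz A B ζ (2 * Real.pi) = zz A B ζ 0 := by
  simp [zz, ee_zero, ee_two_pi]

theorem yv_per : yv B ζ (2 * Real.pi) = yv B ζ 0 := by
  simp [yv, ee_zero, ee_two_pi]

theorem yv_sq (h : ‖ζ‖ = 1) (φ : ℝ) : yv B ζ φ ^ 2 = B ^ 2 - (zz A B ζ φ - A) ^ 2 := by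
  have h1 : (ζ * ee φ).re ^ 2 + (ζ * ee φ).im ^ 2 = 1 := by
    have := Complex.sq_norm (ζ * ee φ)
    rw [norm_mul, h, norm_ee, Complex.normSq_apply] at this
    nlinarith [this]
  simp only [yv, zz]
  have : (ζ * ee φ).im ^ 2 = 1 - (ζ * ee φ).re ^ 2 := by linarith
  calc (B * (ζ * ee φ).im) ^ 2 = B ^ 2 * (ζ * ee φ).im ^ 2 := by ring
    _ = _ := by rw [this]; ring

theorem zz_pos (hB : 0 ≤ B) (hAB : B < A) (h : ‖ζ‖ = 1) (φ : ℝ) : 0 < zz A B ζ φ := by
  have h1 : |(ζ * ee φ).re| ≤ 1 := by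
    have := Complex.abs_re_le_norm (ζ * ee φ)
    rwa [norm_mul, h, norm_ee, mul_one] at this
  have h2 := (abs_le.1 h1).1
  simp only [zz]
  nlinarith

/-- the Poisson integral -/
theorem one (hB : 0 ≤ B) (hAB : B < A) (h : ‖ζ‖ = 1) :
    ∫ φ, (zz A B ζ φ)⁻¹ ∂cav = (Real.sqrt (A ^ 2 - B ^ 2))⁻¹ := by
  set S := Real.sqrt (A ^ 2 - B ^ 2) with hS
  have hAp : 0 < A := lt_of_le_of_lt hB hAB
  have hE : 0 < A ^ 2 - B ^ 2 := by nlinarith
  have hSp : 0 < S := Real.sqrt_pos.2 hE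
  have hS2 : S ^ 2 = A ^ 2 - B ^ 2 := Real.sq_sqrt hE.le
  set ρ := B / (A + S) with hρ
  have hAS : 0 < A + S := by positivity
  have hρ0 : 0 ≤ ρ := by positivity
  have hρ1 : ρ < 1 := by rw [hρ, div_lt_one hAS]; linarith
  have hBρ : B = ρ * (A + S) := by rw [hρ]; field_simp
  -- relations
  have hA : A = (A + S) / 2 * (1 + ρ ^ 2) := by
    have : (A + S) * ρ ^ 2 = A - S := by
      have h1 : ρ ^ 2 * (A + S) ^ 2 = A ^ 2 - S ^ 2 := by
        have : B ^ 2 = A ^ 2 - S ^ 2 := by linarith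
        rw [← this, hBρ]; ring
      have h2 : (A + S) * ((A + S) * ρ ^ 2 - (A - S)) = 0 := by nlinarith
      rcases mul_eq_zero.1 h2 with h3 | h3
      · exact absurd h3 hAS.ne'
      · linarith
    nlinarith
  have hSρ : S = (A + S) / 2 * (1 - ρ ^ 2) := by nlinarith
  set w : ℂ := -(ρ : ℂ) * ζ with hw
  have hwn : ‖w‖ = ρ := by
    rw [hw, norm_mul, h, mul_one, norm_neg, Complex.norm_real, Real.norm_of_nonneg hρ0]
  have hden : ∀ z ∈ Metric.closedBall (0 : ℂ) 1, 1 - w * z ≠ 0 := by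
    intro z hz h0
    have h1 : w * z = 1 := by linear_combination -h0
    have h2 : ‖w * z‖ = 1 := by rw [h1, norm_one]
    rw [norm_mul, hwn] at h2
    have h3 : ‖z‖ ≤ 1 := by simpa using hz
    nlinarith [norm_nonneg z]
  have hF : DiffContOnCl ℂ (fun z : ℂ => (1 + w * z) / (1 - w * z)) (Metric.ball 0 |1|) := by
    rw [abs_one]
    apply DifferentiableOn.diffContOnCl
    rw [closure_ball _ one_ne_zero]
    intro z hz
    apply DifferentiableAt.differentiableWithinAt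
    refine DifferentiableAt.div (by fun_prop) (by fun_prop) (hden z hz)
  have hmv := hF.circleAverage
  simp only [mul_zero, add_zero, sub_zero, div_one] at hmv
  rw [Real.circleAverage_def] at hmv
  -- the pointwise formula
  have hpt : ∀ φ : ℝ, (zz A B ζ φ)⁻¹ = S⁻¹ * ((1 + w * ee φ) / (1 - w * ee φ)).re := by
    intro φ
    have hd : 1 - w * ee φ ≠ 0 := hden _ (by simp [norm_ee])
    have hn : Complex.normSq (1 - w * ee φ) = 1 + ρ ^ 2 + 2 * ρ * (ζ * ee φ).re := by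
      have e1 : Complex.normSq (ζ * ee φ) = 1 := by
        rw [← Complex.sq_norm, norm_mul, h, norm_ee]; norm_num
      rw [Complex.normSq_apply] at e1 ⊢
      have e2 : w * ee φ = -(ρ : ℂ) * (ζ * ee φ) := by rw [hw]; ring
      rw [e2]
      set t := ζ * ee φ
      simp [Complex.mul_re, Complex.mul_im]
      nlinarith
    have hzz : zz A B ζ φ = (A + S) / 2 * Complex.normSq (1 - w * ee φ) := by
      rw [hn, zz]
      have : B = (A + S) / 2 * (2 * ρ) := by linarith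
      calc A + B * (ζ * ee φ).re
          = (A + S) / 2 * (1 + ρ ^ 2) + (A + S) / 2 * (2 * ρ) * (ζ * ee φ).re := by
            rw [← hA, ← this]
        _ = _ := by ring
    have hre : ((1 + w * ee φ) / (1 - w * ee φ)).re =
        (1 - ρ ^ 2) / Complex.normSq (1 - w * ee φ) := by
      have e1 : Complex.normSq (w * ee φ) = ρ ^ 2 := by
        rw [← Complex.sq_norm, norm_mul, hwn, norm_ee, mul_one]
      rw [Complex.div_re, ← add_div]
      congr 1
      rw [Complex.normSq_apply] at e1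
      set t := w * ee φ
      simp
      nlinarith
    have hnp : 0 < Complex.normSq (1 - w * ee φ) := Complex.normSq_pos.2 hd
    rw [hzz, hre]
    have h1ρ : 0 < 1 - ρ ^ 2 := by nlinarith
    nth_rewrite 2 [hSρ]
    field_simp
  have hcont : Continuous fun φ : ℝ => (1 + w * ee φ) / (1 - w * ee φ) := by
    have := continuous_ee
    refine Continuous.div (by fun_prop) (by fun_prop) ?_
    intro φ
    exact hden _ (by simp [norm_ee])
  simp_rw [hpt]
  rw [integral_const_mul]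
  have h4 : ∫ φ, ((1 + w * ee φ) / (1 - w * ee φ)).re ∂cav =
      (∫ φ, (1 + w * ee φ) / (1 - w * ee φ) ∂cav).re := by
    have := integral_re (cav_integrable hcont)
    simpa using this
  rw [h4]
  have h5 : ∫ φ, (1 + w * ee φ) / (1 - w * ee φ) ∂cav = 1 := by
    rw [cav_integral]
    refine Eq.trans ?_ hmv
    congr 1
    apply intervalIntegral.integral_congr
    intro φ _
    simp [circleMap, ee]
  rw [h5]
  simp

theorem two (hB : 0 ≤ B) (hAB : B < A) (h : ‖ζ‖ = 1) :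
    ∫ φ, (zz A B ζ φ ^ 2)⁻¹ ∂cav = A / Real.sqrt (A ^ 2 - B ^ 2) ^ 3 := by
  have hz := zz_pos A B ζ hB hAB h
  have hAp : 0 < A := lt_of_le_of_lt hB hAB
  have hE : 0 < A ^ 2 - B ^ 2 := by nlinarith
  have hc1 := continuous_zz A B ζ
  have hi1 : Integrable (fun φ => (zz A B ζ φ)⁻¹) cav :=
    cav_integrable (hc1.inv₀ fun φ => (hz φ).ne')
  have hi2 : Integrable (fun φ => (zz A B ζ φ ^ 2)⁻¹) cav :=
    cav_integrable ((hc1.pow 2).inv₀ fun φ => (pow_pos (hz φ) 2).ne')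
  have hd : ∀ φ, HasDerivAt (fun φ => yv B ζ φ / zz A B ζ φ)
      (A * (zz A B ζ φ)⁻¹ - (A ^ 2 - B ^ 2) * (zz A B ζ φ ^ 2)⁻¹) φ := by
    intro φ
    have h1 := (hasDerivAt_yv A B ζ φ).fun_div (hasDerivAt_zz A B ζ φ) (hz φ).ne'
    refine h1.congr_deriv ?_
    have h2 := yv_sq A B ζ h φ
    have h3 := hz φ
    field_simp
    linear_combination h2
  have h0 := cav_deriv hd ((continuous_const.mul (hc1.inv₀ fun φ => (hz φ).ne')).sub
    (continuous_const.mul ((hc1.pow 2).inv₀ fun φ => (pow_pos (hz φ) 2).ne')))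
    (by simp only [zz_per, yv_per])
  rw [integral_sub (hi1.const_mul _) (hi2.const_mul _), integral_const_mul, integral_const_mul,
    one A B ζ hB hAB h] at h0
  set S := Real.sqrt (A ^ 2 - B ^ 2) with hS
  have hSp : 0 < S := Real.sqrt_pos.2 hE
  have hS2 : A ^ 2 - B ^ 2 = S ^ 2 := (Real.sq_sqrt hE.le).symm
  rw [hS2] at h0
  have : S ^ 2 * ∫ φ, (zz A B ζ φ ^ 2)⁻¹ ∂cav = A * S⁻¹ := by linarith
  field_simp
  field_simp at this
  linarith

theorem three (hB : 0 ≤ B) (hAB : B < A) (h : ‖ζ‖ = 1) :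
    ∫ φ, (zz A B ζ φ ^ 3)⁻¹ ∂cav = (A ^ 2 + B ^ 2 / 2) / Real.sqrt (A ^ 2 - B ^ 2) ^ 5 := by
  have hz := zz_pos A B ζ hB hAB h
  have hAp : 0 < A := lt_of_le_of_lt hB hAB
  have hE : 0 < A ^ 2 - B ^ 2 := by nlinarith
  have hc1 := continuous_zz A B ζ
  have hci1 := (hc1.inv₀ fun φ => (hz φ).ne')
  have hci2 := ((hc1.pow 2).inv₀ fun φ => (pow_pos (hz φ) 2).ne')
  have hci3 := ((hc1.pow 3).inv₀ fun φ => (pow_pos (hz φ) 3).ne')
  have hi1 : Integrable (fun φ => (zz A B ζ φ)⁻¹) cav := cav_integrable hci1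
  have hi2 : Integrable (fun φ => (zz A B ζ φ ^ 2)⁻¹) cav := cav_integrable hci2
  have hi3 : Integrable (fun φ => (zz A B ζ φ ^ 3)⁻¹) cav := cav_integrable hci3
  have hd : ∀ φ, HasDerivAt (fun φ => yv B ζ φ / zz A B ζ φ ^ 2)
      (3 * A * (zz A B ζ φ ^ 2)⁻¹ - (zz A B ζ φ)⁻¹
        - 2 * (A ^ 2 - B ^ 2) * (zz A B ζ φ ^ 3)⁻¹) φ := by
    intro φ
    have h1 := (hasDerivAt_yv A B ζ φ).fun_div ((hasDerivAt_zz A B ζ φ).fun_pow 2)
      (pow_pos (hz φ) 2).ne'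
    refine h1.congr_deriv ?_
    have h2 := yv_sq A B ζ h φ
    have h3 := hz φ
    field_simp
    push_cast
    linear_combination 2 * zz A B ζ φ * h2
  have h0 := cav_deriv hd (((continuous_const.mul hci2).sub hci1).sub (continuous_const.mul hci3))
    (by simp only [zz_per, yv_per])
  rw [integral_sub (f := fun φ => 3 * A * (zz A B ζ φ ^ 2)⁻¹ - (zz A B ζ φ)⁻¹)
    ((hi2.const_mul _).sub hi1) (hi3.const_mul _),
    integral_sub (hi2.const_mul _) hi1, integral_const_mul, integral_const_mul,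
    one A B ζ hB hAB h, two A B ζ hB hAB h] at h0
  set S := Real.sqrt (A ^ 2 - B ^ 2) with hS
  have hSp : 0 < S := Real.sqrt_pos.2 hE
  have hS2 : A ^ 2 - B ^ 2 = S ^ 2 := (Real.sq_sqrt hE.le).symm
  rw [hS2] at h0
  have hB2 : B ^ 2 = A ^ 2 - S ^ 2 := by linarith
  rw [hB2]
  have : 2 * S ^ 2 * ∫ φ, (zz A B ζ φ ^ 3)⁻¹ ∂cav = 3 * A * (A / S ^ 3) - S⁻¹ := by linarith
  field_simp
  field_simp at this
  linarith

theorem lin (A B : ℝ) (ζ : ℂ) : ∫ φ, zz A B ζ φ ∂cav = A := by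
  have := cav_prob
  have hd : ∀ φ, HasDerivAt (yv B ζ) (zz A B ζ φ - A) φ := hasDerivAt_yv A B ζ
  have h0 := cav_deriv hd ((continuous_zz A B ζ).sub continuous_const) (yv_per B ζ)
  rw [integral_sub (cav_integrable (continuous_zz A B ζ)) (integrable_const _)] at h0
  simp at h0
  linarith

theorem quad (h : ‖ζ‖ = 1) : ∫ φ, zz A B ζ φ ^ 2 ∂cav = A ^ 2 + B ^ 2 / 2 := by
  have := cav_prob
  have hc1 := continuous_zz A B ζ
  have hd : ∀ φ, HasDerivAt (fun φ => yv B ζ φ * (zz A B ζ φ - A))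
      (2 * zz A B ζ φ ^ 2 - 4 * A * zz A B ζ φ + (2 * A ^ 2 - B ^ 2)) φ := by
    intro φ
    have h1 := (hasDerivAt_yv A B ζ φ).fun_mul ((hasDerivAt_zz A B ζ φ).sub_const A)
    refine h1.congr_deriv ?_
    have h2 := yv_sq A B ζ h φ
    linear_combination (-1) * h2
  have h0 := cav_deriv hd (by fun_prop) (by simp only [zz_per, yv_per])
  rw [integral_add (f := fun φ => 2 * zz A B ζ φ ^ 2 - 4 * A * zz A B ζ φ)
    (cav_integrable (by fun_prop)) (integrable_const _),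
    integral_sub (cav_integrable (by fun_prop)) (cav_integrable (by fun_prop)),
    integral_const_mul, integral_const_mul, lin A B ζ] at h0
  simp at h0
  linarith

end Avg

theorem specAvg : SpecAvg where
  one A B ζ hB hAB h := Avg.one A B ζ hB hAB h
  two A B ζ hB hAB h := Avg.two A B ζ hB hAB h
  three A B ζ hB hAB h := Avg.three A B ζ hB hAB h
  lin A B ζ _ := Avg.lin A B ζ
  quad A B ζ h := Avg.quad A B ζ h

end MPf1e3
end

section
/-! Problem MP_f1e3b4_an, module CS: change of measure. -/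
set_option autoImplicit false

open MeasureTheory ProbabilityTheory Filter Topology Set
open scoped ENNReal

namespace MPf1e3

namespace CSM

variable {Ω : Type} [MeasurableSpace Ω] {P : Measure Ω} [IsProbabilityMeasure P]

/-- `(∫ g)² ≤ ∫ g²` -/
theorem sq_integral_le {g : Ω → ℝ} (hg : Integrable g P) (hg2 : Integrable (fun x => g x ^ 2) P) :
    (∫ x, g x ∂P) ^ 2 ≤ ∫ x, g x ^ 2 ∂P := by
  set r := ∫ x, g x ∂P with hr
  have h0 : 0 ≤ ∫ x, (g x - r) ^ 2 ∂P := integral_nonneg fun x => sq_nonneg _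
  have h1 : ∫ x, (g x - r) ^ 2 ∂P = ∫ x, g x ^ 2 ∂P - 2 * r * ∫ x, g x ∂P + r ^ 2 := by
    have e : (fun x => (g x - r) ^ 2) = fun x => g x ^ 2 - 2 * r * g x + r ^ 2 := by
      funext x; ring
    have i0 : Integrable (fun x => 2 * r * g x) P := hg.const_mul _
    have i1 : Integrable (fun x => g x ^ 2 - 2 * r * g x) P := hg2.sub i0
    rw [e, integral_add i1 (integrable_const _), integral_sub hg2 i0, integral_const_mul]
    simp
  rw [h1, ← hr] at h0
  nlinarith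

end CSM

theorem specCS : SpecCS := by
  intro Ω _ P _ L δ hL hδ h1 h2 E hE
  -- the real function
  set f : Ω → ℝ := fun x => (L x).toReal with hf
  have hfm : Measurable f := hL.ennreal_toReal
  have hfin : ∀ᵐ x ∂P, L x < ∞ := ae_lt_top hL (by rw [h1]; exact ENNReal.one_ne_top)
  have hfin2 : ∀ᵐ x ∂P, ENNReal.ofReal (f x) = L x := by
    filter_upwards [hfin] with x hx
    exact ENNReal.ofReal_toReal hx.ne
  have hf0 : ∀ x, 0 ≤ f x := fun x => ENNReal.toReal_nonneg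
  have hfi : Integrable f P := by
    refine integrable_toReal_of_lintegral_ne_top hL.aemeasurable ?_
    rw [h1]
    exact ENNReal.one_ne_top
  have hint : ∫ x, f x ∂P = 1 := by
    rw [integral_toReal hL.aemeasurable hfin, h1]
    simp
  have hsq : ∀ᵐ x ∂P, L x ^ 2 < ∞ := by
    filter_upwards [hfin] with x hx
    exact ENNReal.pow_lt_top hx
  have hf2i : Integrable (fun x => f x ^ 2) P := by
    have : Integrable (fun x => (L x ^ 2).toReal) P := by
      refine integrable_toReal_of_lintegral_ne_top (hL.pow_const 2).aemeasurable ?_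
      exact ne_top_of_le_ne_top ENNReal.ofReal_ne_top h2
    simpa [ENNReal.toReal_pow] using this
  have hf2 : ∫ x, f x ^ 2 ∂P ≤ 1 + δ ^ 2 := by
    have e : ∫ x, f x ^ 2 ∂P = (∫⁻ x, L x ^ 2 ∂P).toReal := by
      rw [← integral_toReal (hL.pow_const 2).aemeasurable hsq]
      simp [ENNReal.toReal_pow, hf]
    rw [e]
    refine ENNReal.toReal_le_of_le_ofReal (by positivity) h2
  -- the function g
  set g : Ω → ℝ := E.indicator fun x => 1 - f x with hg
  have h1f : Integrable (fun x => 1 - f x) P := (integrable_const _).sub hfi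
  have hgi : Integrable g P := h1f.indicator hE
  have h1f2 : Integrable (fun x => (1 - f x) ^ 2) P := by
    have e : (fun x => (1 - f x) ^ 2) = fun x => 1 - 2 * f x + f x ^ 2 := by funext x; ring
    rw [e]
    exact ((integrable_const _).sub (hfi.const_mul _)).add hf2i
  have eg2 : (fun x => g x ^ 2) = E.indicator fun x => (1 - f x) ^ 2 := by
    funext x
    by_cases hx : x ∈ E
    · simp [hg, hx]
    · simp [hg, hx]
  have hg2i : Integrable (fun x => g x ^ 2) P := by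
    rw [eg2]
    exact h1f2.indicator hE
  have hg2 : ∫ x, g x ^ 2 ∂P ≤ δ ^ 2 := by
    have l1 : ∫ x, g x ^ 2 ∂P ≤ ∫ x, (1 - f x) ^ 2 ∂P := by
      refine integral_mono hg2i h1f2 fun x => ?_
      by_cases hx : x ∈ E
      · simp [hg, hx]
      · simp [hg, hx, sq_nonneg]
    have l2 : ∫ x, (1 - f x) ^ 2 ∂P = 1 - 2 * 1 + ∫ x, f x ^ 2 ∂P := by
      have e : (fun x => (1 - f x) ^ 2) = fun x => 1 - 2 * f x + f x ^ 2 := by funext x; ring
      have i0 : Integrable (fun x => 2 * f x) P := hfi.const_mul _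
      have i1 : Integrable (fun x => 1 - 2 * f x) P := (integrable_const _).sub i0
      rw [e, integral_add i1 hf2i, integral_sub (integrable_const _) i0, integral_const_mul, hint]
      simp
    linarith
  have hle : ∫ x, g x ∂P ≤ δ := by
    have := CSM.sq_integral_le hgi hg2i
    exact (abs_le_of_sq_le_sq' (this.trans hg2) hδ).2
  have hgE : ∫ x, g x ∂P = (P E).toReal - ∫ x in E, f x ∂P := by
    rw [hg, integral_indicator hE, integral_sub (integrable_const _).integrableOn hfi.integrableOn]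
    simp [Measure.real]
  have hfE : (∫⁻ x in E, L x ∂P) = ENNReal.ofReal (∫ x in E, f x ∂P) := by
    rw [ofReal_integral_eq_lintegral_ofReal hfi.integrableOn (ae_of_all _ hf0)]
    exact lintegral_congr_ae ((ae_restrict_of_ae hfin2).mono fun x hx => hx.symm)
  rw [hfE, ← ENNReal.ofReal_add (setIntegral_nonneg hE fun x _ => hf0 x) hδ,
    ← ENNReal.ofReal_toReal (measure_ne_top P E)]
  apply ENNReal.ofReal_le_ofReal
  linarith

end MPf1e3
end

section
/-! MP_f1e3b4_an, module COLL (helper10). -/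
set_option autoImplicit false

open MeasureTheory Set
open scoped ComplexConjugate

namespace MPf1e3.Collis

variable {n : ℕ}

theorem continuous_nsq : Continuous (nsq : (Fin n → ℂ) → ℝ) := by
  unfold nsq
  fun_prop

theorem continuous_herm : Continuous fun p : (Fin n → ℂ) × (Fin n → ℂ) => herm p.1 p.2 := by
  unfold herm
  refine continuous_finsetSum _ fun j _ => ?_
  exact (Complex.continuous_conj.comp ((continuous_apply j).comp continuous_fst)).mul
    ((continuous_apply j).comp continuous_snd)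

theorem norm_le_two {x : Fin n → ℂ} (hx : nsq x ≤ 4) : ‖x‖ ≤ 2 := by
  rw [pi_norm_le_iff_of_nonneg (by norm_num)]
  intro j
  have h1 : ‖x j‖ ^ 2 ≤ nsq x :=
    Finset.single_le_sum (f := fun j => ‖x j‖ ^ 2) (fun _ _ => by positivity) (Finset.mem_univ j)
  have h2 : ‖x j‖ ^ 2 ≤ 2 ^ 2 := by linarith
  exact (sq_le_sq₀ (norm_nonneg _) (by norm_num)).1 h2

theorem isCompact_Kset (n : ℕ) : IsCompact (Kset n) := by
  apply Metric.isCompact_of_isClosed_isBounded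
  · have h1 : IsClosed {p : (Fin n → ℂ) × (Fin n → ℂ) | nsq p.1 ≤ 4} :=
      isClosed_le (continuous_nsq.comp continuous_fst) continuous_const
    have h2 : IsClosed {p : (Fin n → ℂ) × (Fin n → ℂ) | nsq p.2 ≤ 4} :=
      isClosed_le (continuous_nsq.comp continuous_snd) continuous_const
    have h3 : IsClosed {p : (Fin n → ℂ) × (Fin n → ℂ) |
        1 / 2 ≤ nsq p.1 * nsq p.2 - ‖herm p.1 p.2‖ ^ 2} :=
      isClosed_le continuous_const
        (((continuous_nsq.comp continuous_fst).mul (continuous_nsq.comp continuous_snd)).sub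
          (continuous_herm.norm.pow 2))
    exact h1.inter (h2.inter h3)
  · refine (Metric.isBounded_iff_subset_closedBall 0).2 ⟨2, ?_⟩
    rintro p ⟨h1, h2, -⟩
    rw [mem_closedBall_zero_iff, Prod.norm_def]
    exact max_le (norm_le_two h1) (norm_le_two h2)

theorem isClosed_Coll (N n : ℕ) : IsClosed (Coll N n) := by
  have : CompactSpace (Kset n) := isCompact_iff_compactSpace.1 (isCompact_Kset n)
  have h1 : IsClosed {q : (Fin N → Fin n → ℂ) × Kset n |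
      ∀ i, ‖dot (q.1 i) q.2.1.1‖ = ‖dot (q.1 i) q.2.1.2‖} := by
    simp only [ofPred_forall]
    refine isClosed_iInter fun i => ?_
    refine isClosed_eq ?_ ?_
    · refine Continuous.norm ?_
      unfold dot
      refine continuous_finsetSum _ fun j _ => ?_
      exact ((continuous_apply j).comp ((continuous_apply i).comp continuous_fst)).mul
        ((continuous_apply j).comp (continuous_fst.comp (continuous_subtype_val.comp continuous_snd)))
    · refine Continuous.norm ?_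
      unfold dot
      refine continuous_finsetSum _ fun j _ => ?_
      exact ((continuous_apply j).comp ((continuous_apply i).comp continuous_fst)).mul
        ((continuous_apply j).comp (continuous_snd.comp (continuous_subtype_val.comp continuous_snd)))
  have h2 : Coll N n = Prod.fst '' {q : (Fin N → Fin n → ℂ) × Kset n |
      ∀ i, ‖dot (q.1 i) q.2.1.1‖ = ‖dot (q.1 i) q.2.1.2‖} := by
    ext A
    constructor
    · rintro ⟨p, hp, h⟩
      exact ⟨(A, ⟨p, hp⟩), h, rfl⟩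
    · rintro ⟨⟨A', p⟩, h, rfl⟩
      exact ⟨p.1, p.2, h⟩
  rw [h2]
  exact isClosedMap_fst_of_compactSpace _ h1

theorem dot_vecMul (a x : Fin n → ℂ) (V : Matrix (Fin n) (Fin n) ℂ) :
    dot (Matrix.vecMul a V) x = dot a (Matrix.mulVec V x) := by
  have := Matrix.dotProduct_mulVec a V x
  exact this.symm

theorem herm_eq (x y : Fin n → ℂ) : herm x y = star x ⬝ᵥ y := rfl

theorem herm_mulVec {V : Matrix (Fin n) (Fin n) ℂ} (hV : V ∈ Matrix.unitaryGroup (Fin n) ℂ)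
    (x y : Fin n → ℂ) : herm (Matrix.mulVec V x) (Matrix.mulVec V y) = herm x y := by
  rw [herm_eq, herm_eq, Matrix.star_mulVec, ← Matrix.dotProduct_mulVec, Matrix.mulVec_mulVec]
  have : V.conjTranspose * V = 1 := Matrix.mem_unitaryGroup_iff'.1 hV
  rw [this, Matrix.one_mulVec]

theorem nsq_eq (x : Fin n → ℂ) : (nsq x : ℂ) = herm x x := by
  simp only [nsq, herm]
  push_cast
  refine Finset.sum_congr rfl fun j _ => ?_
  rw [mul_comm, Complex.mul_conj, Complex.normSq_eq_norm_sq]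
  push_cast
  rfl

theorem nsq_mulVec {V : Matrix (Fin n) (Fin n) ℂ} (hV : V ∈ Matrix.unitaryGroup (Fin n) ℂ)
    (x : Fin n → ℂ) : nsq (Matrix.mulVec V x) = nsq x := by
  have h : ((nsq (Matrix.mulVec V x) : ℝ) : ℂ) = ((nsq x : ℝ) : ℂ) := by
    rw [nsq_eq, nsq_eq, herm_mulVec hV]
  exact_mod_cast h

theorem coll_of {N : ℕ} {V : Matrix (Fin n) (Fin n) ℂ} (hV : V ∈ Matrix.unitaryGroup (Fin n) ℂ)
    {A : Fin N → Fin n → ℂ} (h : (fun i => Matrix.vecMul (A i) V) ∈ Coll N n) : A ∈ Coll N n := by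
  obtain ⟨p, ⟨h1, h2, h3⟩, hp⟩ := h
  refine ⟨(Matrix.mulVec V p.1, Matrix.mulVec V p.2), ⟨?_, ?_, ?_⟩, fun i => ?_⟩
  · change nsq _ ≤ 4
    rw [nsq_mulVec hV]; exact h1
  · change nsq _ ≤ 4
    rw [nsq_mulVec hV]; exact h2
  · change 1 / 2 ≤ nsq _ * nsq _ - ‖herm _ _‖ ^ 2
    rw [nsq_mulVec hV, nsq_mulVec hV, herm_mulVec hV]; exact h3
  · have := hp i
    simpa only [dot_vecMul] using this

/-- **COLL** -/
theorem specColl : SpecColl where
  meas N n := (isClosed_Coll N n).measurableSet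
  inv N n V hV A := by
    refine ⟨coll_of hV, fun h => ?_⟩
    have hV' : star V ∈ Matrix.unitaryGroup (Fin n) ℂ := by
      rw [Matrix.mem_unitaryGroup_iff, star_star]
      exact Matrix.mem_unitaryGroup_iff'.1 hV
    apply coll_of hV'
    have e : (fun i => Matrix.vecMul (Matrix.vecMul (A i) V) (star V)) = A := by
      ext1 i
      rw [Matrix.vecMul_vecMul, Matrix.mem_unitaryGroup_iff.1 hV, Matrix.vecMul_one]
    rw [e]
    exact h
  not_inj N n A hA hinj := by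
    obtain ⟨p, ⟨h1, h2, h3⟩, hp⟩ := hA
    obtain ⟨c, hc, hy⟩ := hinj p.1 p.2 hp
    have e1 : nsq p.2 = nsq p.1 := by
      rw [hy]
      simp [nsq, hc]
    have e2 : herm p.1 p.2 = c * (nsq p.1 : ℂ) := by
      rw [nsq_eq, hy]
      simp only [herm, Pi.smul_apply, smul_eq_mul, Finset.mul_sum]
      exact Finset.sum_congr rfl fun j _ => by ring
    have h3' : 1 / 2 ≤ nsq p.1 * nsq p.2 - ‖herm p.1 p.2‖ ^ 2 := h3
    rw [e1, e2, norm_mul, hc, one_mul, Complex.norm_real, Real.norm_eq_abs, sq_abs] at h3'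
    nlinarith

end MPf1e3.Collis
end

section
/-! MP_f1e3b4_an, module CTR (helper90): overlaps are contractions. -/
set_option autoImplicit false

open MeasureTheory ProbabilityTheory Filter Topology Set
open scoped ENNReal ComplexConjugate

namespace MPf1e3
namespace CtrM

lemma nsq_tail {m : ℕ} (u : Fin (m + 2) → ℂ) :
    nsq u = ‖u 0‖ ^ 2 + ‖u 1‖ ^ 2 + nsq (tl u) := by
  unfold nsq tl
  rw [Fin.sum_univ_succ, Fin.sum_univ_succ]
  simp only [Fin.succ_zero_eq_one]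
  ring

lemma herm_tail {m : ℕ} (u v : Fin (m + 2) → ℂ) :
    herm u v = conj (u 0) * v 0 + conj (u 1) * v 1 + herm (tl u) (tl v) := by
  unfold herm tl
  rw [Fin.sum_univ_succ, Fin.sum_univ_succ]
  simp only [Fin.succ_zero_eq_one]
  ring

lemma lag (a b c d : ℂ) : ‖conj a * b + conj c * d‖ ^ 2 + ‖a * d - b * c‖ ^ 2 =
    (‖a‖ ^ 2 + ‖c‖ ^ 2) * (‖b‖ ^ 2 + ‖d‖ ^ 2) := by
  simp only [← Complex.normSq_eq_norm_sq, Complex.normSq_apply, Complex.add_re, Complex.add_im,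
    Complex.sub_re, Complex.sub_im, Complex.mul_re, Complex.mul_im, Complex.conj_re,
    Complex.conj_im]
  ring

lemma nsq_nonneg {n : ℕ} (u : Fin n → ℂ) : 0 ≤ nsq u :=
  Finset.sum_nonneg fun _ _ => by positivity

/-- Cauchy-Schwarz -/
lemma herm_sq_le {n : ℕ} (u v : Fin n → ℂ) : ‖herm u v‖ ^ 2 ≤ nsq u * nsq v := by
  have h1 : ‖herm u v‖ ≤ ∑ j, ‖u j‖ * ‖v j‖ := by
    unfold herm
    refine (norm_sum_le _ _).trans (Finset.sum_le_sum fun j _ => ?_)
    rw [norm_mul, RCLike.norm_conj]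
  have h2 : (∑ j, ‖u j‖ * ‖v j‖) ^ 2 ≤ nsq u * nsq v := by
    unfold nsq
    exact Finset.sum_mul_sq_le_sq_mul_sq _ _ _
  exact (pow_le_pow_left₀ (norm_nonneg _) h1 2).trans h2

lemma gram {m : ℕ} {u v : Fin (m + 2) → ℂ} (h : ON u v) :
    (ov u v).dl = nsq (tl u) * nsq (tl v) - ‖herm (tl u) (tl v)‖ ^ 2 := by
  have h1 : nsq (tl u) = 1 - (‖u 0‖ ^ 2 + ‖u 1‖ ^ 2) := by
    have := nsq_tail u; rw [h.uu] at this; linarith
  have h2 : nsq (tl v) = 1 - (‖v 0‖ ^ 2 + ‖v 1‖ ^ 2) := by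
    have := nsq_tail v; rw [h.vv] at this; linarith
  have h3 : herm (tl u) (tl v) = -(conj (u 0) * v 0 + conj (u 1) * v 1) := by
    have := herm_tail u v; rw [h.uv] at this
    linear_combination -this
  rw [h1, h2, h3, norm_neg]
  have h4 := lag (u 0) (v 0) (u 1) (v 1)
  unfold OM.dl OM.fr ov
  simp only
  linarith

lemma fr_le {m : ℕ} {u v : Fin (m + 2) → ℂ} (h : ON u v) : (ov u v).fr ≤ 2 := by
  have h1 := nsq_tail u
  have h2 := nsq_tail v
  rw [h.uu] at h1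
  rw [h.vv] at h2
  have h3 := nsq_nonneg (tl u)
  have h4 := nsq_nonneg (tl v)
  unfold OM.fr ov
  simp only
  linarith

lemma det_le (C : OM) : ‖C.a * C.d - C.b * C.c‖ ≤ C.fr / 2 := by
  have h1 : ‖C.a * C.d - C.b * C.c‖ ≤ ‖C.a‖ * ‖C.d‖ + ‖C.b‖ * ‖C.c‖ := by
    refine (norm_sub_le _ _).trans ?_
    rw [norm_mul, norm_mul]
  have h2 : ‖C.a‖ * ‖C.d‖ ≤ (‖C.a‖ ^ 2 + ‖C.d‖ ^ 2) / 2 := by nlinarith [sq_nonneg (‖C.a‖ - ‖C.d‖)]
  have h3 : ‖C.b‖ * ‖C.c‖ ≤ (‖C.b‖ ^ 2 + ‖C.c‖ ^ 2) / 2 := by nlinarith [sq_nonneg (‖C.b‖ - ‖C.c‖)]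
  unfold OM.fr
  linarith

lemma fr_nonneg (C : OM) : 0 ≤ C.fr := by unfold OM.fr; positivity

lemma smul_fr (C : OM) (τ : ℝ) : (C.smul τ).fr = τ ^ 2 * C.fr := by
  unfold OM.fr OM.smul
  simp only [norm_mul, Complex.norm_real, mul_pow, Real.norm_eq_abs, sq_abs]
  ring

lemma smul_dl (C : OM) (τ : ℝ) : (C.smul τ).dl =
    1 - τ ^ 2 * C.fr + τ ^ 4 * ‖C.a * C.d - C.b * C.c‖ ^ 2 := by
  have h : (C.smul τ).a * (C.smul τ).d - (C.smul τ).b * (C.smul τ).c =
      ((τ ^ 2 : ℝ) : ℂ) * (C.a * C.d - C.b * C.c) := by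
    unfold OM.smul
    push_cast
    ring
  unfold OM.dl
  rw [smul_fr, h, norm_mul, Complex.norm_real, Real.norm_eq_abs, abs_of_nonneg (by positivity)]
  ring

lemma dl_nonneg {m : ℕ} {u v : Fin (m + 2) → ℂ} (h : ON u v) : 0 ≤ (ov u v).dl := by
  rw [gram h]
  linarith [herm_sq_le (tl u) (tl v)]

lemma dl_mono (C : OM) (hf : C.fr ≤ 2) {τ : ℝ} (h0 : 0 < τ) (h1 : τ < 1) :
    C.dl ≤ (C.smul τ).dl := by
  have hP := det_le C
  have hf0 := fr_nonneg C
  have hn := norm_nonneg (C.a * C.d - C.b * C.c)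
  set P := ‖C.a * C.d - C.b * C.c‖ with hPdef
  have h2 : P ^ 2 ≤ C.fr / 2 := by nlinarith
  rw [smul_dl]
  unfold OM.dl
  rw [← hPdef]
  have h3 : 0 ≤ 1 - τ ^ 2 := by nlinarith
  have h4 : 0 ≤ C.fr - (1 + τ ^ 2) * P ^ 2 := by nlinarith [sq_nonneg P]
  nlinarith [mul_nonneg h3 h4]

lemma dl_lower (C : OM) (hf : C.fr ≤ 2) (hd : 0 ≤ C.dl) {τ : ℝ} (h0 : 0 < τ) (h1 : τ < 1) :
    (1 - τ) ^ 2 ≤ (C.smul τ).dl ∧ (C.smul τ).Ctr := by
  have hf0 := fr_nonneg C
  have hP0 : 0 ≤ ‖C.a * C.d - C.b * C.c‖ ^ 2 := by positivity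
  have hP1 : C.fr - 1 ≤ ‖C.a * C.d - C.b * C.c‖ ^ 2 := by
    unfold OM.dl at hd
    linarith
  have key : (1 - τ) ^ 2 ≤ (C.smul τ).dl := by
    rw [smul_dl]
    set P := ‖C.a * C.d - C.b * C.c‖ ^ 2
    set F := C.fr
    have ht2 : 0 ≤ 1 - τ ^ 2 := by nlinarith
    have ht : (1 - τ) ≤ 1 - τ ^ 2 := by nlinarith
    have ht3 : (1 - τ) ^ 2 ≤ (1 - τ ^ 2) ^ 2 := pow_le_pow_left₀ (by linarith) ht 2
    by_cases hF : 1 ≤ F
    · have h5 : τ ^ 4 * (F - 1) ≤ τ ^ 4 * P := mul_le_mul_of_nonneg_left hP1 (by positivity)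
      have h6 : (1 - τ ^ 2) ^ 2 ≤ (1 - τ ^ 2) * (1 - τ ^ 2 * (F - 1)) := by
        rw [sq]
        refine mul_le_mul_of_nonneg_left ?_ ht2
        nlinarith [sq_nonneg τ]
      nlinarith
    · have h5 : 0 ≤ τ ^ 4 * P := by positivity
      have h6 : τ ^ 2 * F ≤ τ ^ 2 := by nlinarith [sq_nonneg τ]
      nlinarith
  refine ⟨key, ?_, ?_⟩
  · exact lt_of_lt_of_le (by have : 0 < 1 - τ := by linarith
                             positivity) key
  · rw [smul_fr]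
    nlinarith

end CtrM

theorem specCtr : SpecCtr where
  fr := fun _ _ _ h => CtrM.fr_le h
  dl := fun _ _ _ h => CtrM.dl_nonneg h
  gram := fun _ _ _ h => CtrM.gram h
  mono := fun _ _ _ h _ h0 h1 => CtrM.dl_mono _ (CtrM.fr_le h) h0 h1
  lower := fun _ _ _ h _ h0 h1 => CtrM.dl_lower _ (CtrM.fr_le h) (CtrM.dl_nonneg h) h0 h1

end MPf1e3
end

section
/-!
Problem MP_f1e3b4_an, module LA (helper42): linear algebra
-/
set_option autoImplicit false

open MeasureTheory ProbabilityTheory Filter Topology Set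
open scoped ENNReal ComplexConjugate

namespace MPf1e3.LAM

lemma finrank_dir (m : ℕ) : Module.finrank ℝ (Dir m) = 4 * m + 3 := by
  unfold Dir
  rw [Module.finrank_prod, Module.finrank_prod, Module.finrank_prod, Module.finrank_self,
    Complex.finrank_real_complex, Module.finrank_pi_fintype]
  simp
  ring

lemma main {E : Type} [NormedAddCommGroup E] [NormedSpace ℝ E] [FiniteDimensional ℝ E] {N : ℕ}
    (hN : Module.finrank ℝ E = N) (J : Fin N → (E →ₗ[ℝ] ℝ)) (σ : ℝ) (hσ : 0 ≤ σ)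
    (h : ∃ w, w ≠ 0 ∧ ∀ i, |J i w| ≤ σ * ‖w‖) :
    ∃ j, ∀ v, (∀ i, i ≠ j → J i v = 0) → |J j v| ≤ N * σ * ‖v‖ := by
  obtain ⟨w, hw0, hw⟩ := h
  have hfr : Module.finrank ℝ E = Module.finrank ℝ (Fin N → ℝ) := by
    rw [hN, Module.finrank_fin_fun]
  by_cases hinj : Function.Injective (LinearMap.pi J)
  · have hsurj : Function.Surjective (LinearMap.pi J) :=
      (LinearMap.injective_iff_surjective_of_finrank_eq_finrank hfr).mp hinj
    choose c hc using fun j : Fin N => hsurj (Pi.single j 1)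
    have hexp : ∀ v, v = ∑ j, J j v • c j := by
      intro v
      apply hinj
      rw [map_sum]
      ext i
      simp only [LinearMap.pi_apply, Finset.sum_apply, map_smul, Pi.smul_apply, hc,
        smul_eq_mul]
      simp [Pi.single_apply]
    have h1 : ‖w‖ ≤ ∑ j, σ * ‖w‖ * ‖c j‖ := by
      calc ‖w‖ = ‖∑ j, J j w • c j‖ := by rw [← hexp w]
        _ ≤ ∑ j, ‖J j w • c j‖ := norm_sum_le _ _
        _ ≤ ∑ j, σ * ‖w‖ * ‖c j‖ := by
          refine Finset.sum_le_sum fun j _ => ?_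
          rw [norm_smul, Real.norm_eq_abs]
          exact mul_le_mul_of_nonneg_right (hw j) (norm_nonneg _)
    have hwpos : 0 < ‖w‖ := norm_pos_iff.mpr hw0
    have h2 : ∃ j, 1 ≤ N * σ * ‖c j‖ := by
      by_contra hcon
      push Not at hcon
      have hNpos : 0 < N := by
        rcases Nat.eq_zero_or_pos N with h0 | h0
        · exfalso
          subst h0
          simp at h1
          exact hw0 h1
        · exact h0
      have : Nonempty (Fin N) := ⟨⟨0, hNpos⟩⟩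
      have h3 : ∑ j : Fin N, σ * ‖w‖ * ‖c j‖ < ∑ _j : Fin N, ‖w‖ / N := by
        refine Finset.sum_lt_sum_of_nonempty Finset.univ_nonempty fun j _ => ?_
        rw [lt_div_iff₀ (by exact_mod_cast hNpos)]
        have := hcon j
        nlinarith
      have h4 : ∑ _j : Fin N, ‖w‖ / (N : ℝ) = ‖w‖ := by
        rw [Finset.sum_const, Finset.card_univ, Fintype.card_fin, nsmul_eq_mul]
        have : (N : ℝ) ≠ 0 := by exact_mod_cast hNpos.ne'
        field_simp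
      linarith
    obtain ⟨j, hj⟩ := h2
    refine ⟨j, fun v hv => ?_⟩
    have h5 : v = J j v • c j := by
      conv_lhs => rw [hexp v]
      refine Finset.sum_eq_single j (fun i _ hi => by rw [hv i hi, zero_smul]) ?_
      intro h
      exact absurd (Finset.mem_univ j) h
    have h6 : ‖v‖ = |J j v| * ‖c j‖ := by
      conv_lhs => rw [h5, norm_smul, Real.norm_eq_abs]
    rw [h6]
    have := abs_nonneg (J j v)
    nlinarith
  · have hns : ¬ Function.Surjective (LinearMap.pi J) := fun hs =>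
      hinj ((LinearMap.injective_iff_surjective_of_finrank_eq_finrank hfr).mpr hs)
    have hlt : LinearMap.range (LinearMap.pi J) < ⊤ := by
      rw [lt_top_iff_ne_top]
      intro h0
      exact hns (LinearMap.range_eq_top.mp h0)
    obtain ⟨f, hf0, hf⟩ := Submodule.exists_le_ker_of_lt_top _ hlt
    have hfe : ∀ x : Fin N → ℝ, f x = ∑ i, x i * f (Pi.single i 1) := by
      intro x
      conv_lhs => rw [← Finset.univ_sum_single x]
      rw [map_sum]
      refine Finset.sum_congr rfl fun i _ => ?_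
      have : (Pi.single i (x i) : Fin N → ℝ) = x i • (Pi.single i 1 : Fin N → ℝ) := by
        rw [← Pi.single_smul]
        simp
      rw [this, map_smul, smul_eq_mul]
    obtain ⟨j, hj⟩ : ∃ j, f (Pi.single j 1) ≠ 0 := by
      by_contra hcon
      push Not at hcon
      apply hf0
      refine LinearMap.ext fun x => ?_
      rw [hfe x]
      simp [hcon]
    refine ⟨j, fun v hv => ?_⟩
    have h1 : f (LinearMap.pi J v) = 0 := hf ⟨v, rfl⟩
    rw [hfe, Finset.sum_eq_single j] at h1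
    · have h2 : J j v = 0 := (mul_eq_zero.mp h1).resolve_right hj
      rw [h2, abs_zero]
      positivity
    · intro i _ hi
      rw [LinearMap.pi_apply, hv i hi, zero_mul]
    · intro h
      exact absurd (Finset.mem_univ j) h

end MPf1e3.LAM

theorem MPf1e3.specLA : MPf1e3.SpecLA := by
  intro m J σ hσ h
  have := MPf1e3.LAM.main (MPf1e3.LAM.finrank_dir m) J σ hσ h
  push_cast at this
  exact this
end

section
/-!
Problem MP_f1e3b4_an, module FUB (helper42): the smallest singular value of the Jacobian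
-/
set_option autoImplicit false

open MeasureTheory ProbabilityTheory Filter Topology Set
open scoped ENNReal ComplexConjugate

namespace MPf1e3.FubM

/-- `jrow a` as a linear map -/
noncomputable def jl {m : ℕ} (a : Fin (m + 2) → ℂ) : Dir m →ₗ[ℝ] ℝ where
  toFun := jrow a
  map_add' := by
    intro v w
    simp only [jrow, dot, Prod.fst_add, Prod.snd_add, Pi.add_apply, mul_add,
      Finset.sum_add_distrib, Complex.add_re]
    ring
  map_smul' := by
    intro c w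
    simp only [jrow, dot, Prod.smul_fst, Prod.smul_snd, Pi.smul_apply, RingHom.id_apply,
      smul_eq_mul, Complex.real_smul]
    have h1 : ∀ x : Fin m → ℂ, ∑ j, tl a j * ((c : ℂ) * x j) = (c : ℂ) * ∑ j, tl a j * x j := by
      intro x
      rw [Finset.mul_sum]
      exact Finset.sum_congr rfl fun _ _ => by ring
    rw [h1, h1]
    have h2 : ∀ y z : ℂ, (y * ((c : ℂ) * z)).re = c * (y * z).re := by
      intro y z
      rw [show y * ((c : ℂ) * z) = (c : ℂ) * (y * z) from by ring, Complex.re_ofReal_mul]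
    rw [h2, h2, h2]
    ring

lemma jl_apply {m : ℕ} (a : Fin (m + 2) → ℂ) (w : Dir m) : jl a w = jrow a w := rfl

lemma continuous_jrow {m : ℕ} : Continuous fun p : (Fin (m + 2) → ℂ) × Dir m => jrow p.1 p.2 := by
  unfold jrow dot tl
  fun_prop

lemma closed_proj {X K : Type} [TopologicalSpace X] [TopologicalSpace K] [CompactSpace K]
    {S : Set (X × K)} (hS : IsClosed S) : IsClosed {x : X | ∃ k, (x, k) ∈ S} := by
  have h := isClosedMap_fst_of_compactSpace (X := X) (Y := K) S hS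
  convert h using 1
  ext x
  simp

/-- Fubini in the coordinate `j` -/
lemma slice {α : Type} [MeasurableSpace α] (ν : Measure α) [IsProbabilityMeasure ν] (n : ℕ)
    (j : Fin (n + 1)) (B : Set (Fin (n + 1) → α)) (hB : MeasurableSet B) (b : ℝ≥0∞)
    (h : ∀ a' : Fin n → α, ν {a | (j.insertNth a a' : Fin (n + 1) → α) ∈ B} ≤ b) :
    (Measure.pi fun _ : Fin (n + 1) => ν) B ≤ b := by
  have hmp := measurePreserving_piFinSuccAbove (fun _ : Fin (n + 1) => ν) j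
  have h1 := (hmp.symm _).measure_preimage hB.nullMeasurableSet
  rw [← h1, Measure.prod_apply_symm ((MeasurableEquiv.measurable _) hB)]
  refine (lintegral_mono fun a' => h a').trans ?_
  simp

variable (m : ℕ) (σ : ℝ)

/-- the exceptional set of the row `j` -/
def Bset (j : Fin (4 * m + 3)) : Set (Fin (4 * m + 3) → Fin (m + 2) → ℂ) :=
  {A | ∀ v : Dir m, (∀ i, i ≠ j → jrow (A i) v = 0) → |jrow (A j) v| ≤ (4 * m + 3) * σ * ‖v‖}

lemma meas_B (j : Fin (4 * m + 3)) : MeasurableSet (Bset m σ j) := by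
  have hcl : ∀ n : ℕ, IsClosed {A : Fin (4 * m + 3) → Fin (m + 2) → ℂ |
      ∃ v : Metric.sphere (0 : Dir m) 1, (A, v) ∈
        {p : (Fin (4 * m + 3) → Fin (m + 2) → ℂ) × Metric.sphere (0 : Dir m) 1 |
          (∀ i, i ≠ j → jrow (p.1 i) p.2 = 0) ∧
            (4 * m + 3) * σ + 1 / ((n : ℝ) + 1) ≤ |jrow (p.1 j) p.2|}} := by
    intro n
    refine closed_proj ?_
    have hc : ∀ i, Continuous fun p : (Fin (4 * m + 3) → Fin (m + 2) → ℂ) ×
        Metric.sphere (0 : Dir m) 1 => jrow (p.1 i) (p.2 : Dir m) := by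
      intro i
      have h1 : Continuous fun p : (Fin (4 * m + 3) → Fin (m + 2) → ℂ) ×
        Metric.sphere (0 : Dir m) 1 => (p.1 i, (p.2 : Dir m)) :=
        ((continuous_apply i).comp continuous_fst).prodMk
          (continuous_subtype_val.comp continuous_snd)
      exact (continuous_jrow (m := m)).comp h1
    refine IsClosed.inter ?_ (isClosed_le continuous_const (hc j).abs)
    have : {p : (Fin (4 * m + 3) → Fin (m + 2) → ℂ) × Metric.sphere (0 : Dir m) 1 |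
          (∀ i, i ≠ j → jrow (p.1 i) p.2 = 0)} = ⋂ i, ⋂ (_ : i ≠ j), {p | jrow (p.1 i) p.2 = 0} := by
      ext p
      simp
    have h2 : IsClosed {p : (Fin (4 * m + 3) → Fin (m + 2) → ℂ) × Metric.sphere (0 : Dir m) 1 |
          (∀ i, i ≠ j → jrow (p.1 i) p.2 = 0)} := by
      rw [this]
      exact isClosed_iInter fun i => isClosed_iInter fun _ => isClosed_eq (hc i) continuous_const
    exact h2
  have heq : Bset m σ j = (⋃ n : ℕ, {A : Fin (4 * m + 3) → Fin (m + 2) → ℂ |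
      ∃ v : Metric.sphere (0 : Dir m) 1, (A, v) ∈
        {p : (Fin (4 * m + 3) → Fin (m + 2) → ℂ) × Metric.sphere (0 : Dir m) 1 |
          (∀ i, i ≠ j → jrow (p.1 i) p.2 = 0) ∧
            (4 * m + 3) * σ + 1 / ((n : ℝ) + 1) ≤ |jrow (p.1 j) p.2|}})ᶜ := by
    ext A
    rw [mem_compl_iff, mem_iUnion]
    constructor
    · rintro hA ⟨n, v, hv1, hv2⟩
      have h3 := hA v hv1
      have hv : ‖(v : Dir m)‖ = 1 := mem_sphere_zero_iff_norm.mp v.2
      rw [hv, mul_one] at h3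
      have h4 : (0 : ℝ) < 1 / ((n : ℝ) + 1) := by positivity
      have h5 := hv2.trans h3
      linarith
    · intro hA v hv
      by_contra hcon
      push Not at hcon
      apply hA
      have hv0 : v ≠ 0 := by
        intro h0
        rw [h0] at hcon
        have : jrow (A j) (0 : Dir m) = 0 := (jl (A j)).map_zero
        rw [this] at hcon
        simp at hcon
      have hvn : 0 < ‖v‖ := norm_pos_iff.mpr hv0
      have h6 : (4 * m + 3) * σ < |jrow (A j) v| / ‖v‖ := by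
        rw [lt_div_iff₀ hvn]
        exact hcon
      obtain ⟨n, hn⟩ := exists_nat_one_div_lt (sub_pos.mpr h6)
      have hscale : ∀ i, jrow (A i) (‖v‖⁻¹ • v) = ‖v‖⁻¹ * jrow (A i) v := fun i =>
        (jl (A i)).map_smul ‖v‖⁻¹ v
      refine ⟨n, ⟨‖v‖⁻¹ • v, ?_⟩, ?_, ?_⟩
      · rw [mem_sphere_zero_iff_norm, norm_smul, norm_inv, norm_norm, inv_mul_cancel₀ hvn.ne']
      · intro i hi
        show jrow (A i) (‖v‖⁻¹ • v) = 0
        rw [hscale, hv i hi, mul_zero]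
      · show _ ≤ |jrow (A j) (‖v‖⁻¹ • v)|
        rw [hscale, abs_mul, abs_of_pos (inv_pos.mpr hvn), inv_mul_eq_div]
        linarith
  rw [heq]
  exact (MeasurableSet.iUnion fun n => (hcl n).measurableSet).compl

/-- a nonzero vector in the kernel of `4m + 2` functionals -/
lemma exists_kernel (L : Fin (4 * m + 2) → (Dir m →ₗ[ℝ] ℝ)) :
    ∃ v : Dir m, ‖v‖ = 1 ∧ ∀ i, L i v = 0 := by
  have h1 : Module.finrank ℝ (Fin (4 * m + 2) → ℝ) < Module.finrank ℝ (Dir m) := by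
    rw [LAM.finrank_dir, Module.finrank_fin_fun]
    omega
  have h2 := LinearMap.ker_ne_bot_of_finrank_lt (f := LinearMap.pi L) h1
  obtain ⟨v, hv, hv0⟩ := Submodule.exists_mem_ne_zero_of_ne_bot h2
  have hvn : 0 < ‖v‖ := norm_pos_iff.mpr hv0
  refine ⟨‖v‖⁻¹ • v, ?_, fun i => ?_⟩
  · rw [norm_smul, norm_inv, norm_norm, inv_mul_cancel₀ hvn.ne']
  · have h3 : L i v = 0 := by
      have := congrFun (LinearMap.mem_ker.mp hv) i
      simpa using this
    rw [map_smul, h3, smul_zero]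

end MPf1e3.FubM

open MPf1e3 MPf1e3.FubM in
theorem MPf1e3.specFub (hLA : SpecLA) : SpecFub := by
  intro m ν _ σ b hσ hb h
  have hsub : {A : Fin (4 * m + 3) → Fin (m + 2) → ℂ | ∃ w : Dir m, w ≠ 0 ∧
      ∀ i, |jrow (A i) w| ≤ σ * ‖w‖} ⊆ ⋃ j, Bset m σ j := by
    rintro A ⟨w, hw0, hw⟩
    obtain ⟨j, hj⟩ := hLA m (fun i => jl (A i)) σ hσ ⟨w, hw0, hw⟩
    exact mem_iUnion.mpr ⟨j, hj⟩
  refine (measure_mono hsub).trans ((measure_iUnion_le _).trans ?_)
  have hB : ∀ j, (Measure.pi fun _ : Fin (4 * m + 3) => ν) (Bset m σ j) ≤ ENNReal.ofReal b := by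
    intro j
    refine slice ν (4 * m + 2) j (Bset m σ j) (meas_B m σ j) _ fun a' => ?_
    obtain ⟨v, hv1, hv⟩ := exists_kernel m (fun i => jl (a' i))
    refine le_trans (measure_mono ?_) (h v hv1)
    intro a ha
    have h1 := ha v (by
      intro i hi
      obtain ⟨i', rfl⟩ := Fin.exists_succAbove_eq hi
      simp only [Fin.insertNth_apply_succAbove]
      exact hv i')
    simp only [Fin.insertNth_apply_same] at h1
    rw [hv1, mul_one] at h1
    exact h1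
  calc ∑' j, (Measure.pi fun _ : Fin (4 * m + 3) => ν) (Bset m σ j)
      = ∑ j, (Measure.pi fun _ : Fin (4 * m + 3) => ν) (Bset m σ j) := tsum_fintype _
    _ ≤ ∑ _j : Fin (4 * m + 3), ENNReal.ofReal b := Finset.sum_le_sum fun j _ => hB j
    _ = ENNReal.ofReal ((4 * m + 3) * b) := by
        rw [Finset.sum_const, Finset.card_univ, Fintype.card_fin, nsmul_eq_mul,
          ENNReal.ofReal_mul (by positivity)]
        congr 1
        rw [show (4 * (m : ℝ) + 3) = ((4 * m + 3 : ℕ) : ℝ) by push_cast; ring,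
          ENNReal.ofReal_natCast]
end

section
/-! MP_f1e3b4_an, module GOOD (helper10). -/
set_option autoImplicit false

open MeasureTheory Set Filter Topology
open scoped ENNReal ComplexConjugate

namespace MPf1e3.Good

theorem norm_cases {m : ℕ} (w : Dir m) (hw : ‖w‖ = 1) :
    1 ≤ nsq w.2.2.1 + nsq w.2.2.2 ∨ 1 ≤ w.1 ^ 2 + ‖w.2.1‖ ^ 2 := by
  by_contra hcon
  push Not at hcon
  obtain ⟨h1, h2⟩ := hcon
  have p1 : 0 ≤ nsq w.2.2.1 := Finset.sum_nonneg fun _ _ => by positivity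
  have p2 : 0 ≤ nsq w.2.2.2 := Finset.sum_nonneg fun _ _ => by positivity
  have s1 : |w.1| < 1 := by
    rw [← sq_lt_one_iff_abs_lt_one]
    nlinarith [sq_nonneg ‖w.2.1‖]
  have s2 : ‖w.2.1‖ < 1 := by
    by_contra h
    push Not at h
    nlinarith [sq_nonneg w.1]
  have s3 : ∀ u : Fin m → ℂ, nsq u < 1 → ‖u‖ < 1 := by
    intro u hu
    rw [pi_norm_lt_iff (by norm_num)]
    intro j
    have : ‖u j‖ ^ 2 ≤ nsq u :=
      Finset.single_le_sum (f := fun j => ‖u j‖ ^ 2) (fun _ _ => by positivity) (Finset.mem_univ j)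
    by_contra h
    push Not at h
    nlinarith
  have s4 := s3 w.2.2.1 (by linarith)
  have s5 := s3 w.2.2.2 (by linarith)
  have : ‖w‖ < 1 := by
    rw [Prod.norm_def, Prod.norm_def, Prod.norm_def, Real.norm_eq_abs]
    exact max_lt s1 (max_lt s2 (max_lt s4 s5))
  linarith

/-- one row: large entries -/
theorem row_large {m : ℕ} {τ : ℝ} (hMom : SpecMom) (h0 : 0 < τ) (h1 : τ < 1) (j : Fin (m + 2))
    {H : ℝ} (hH : 0 < H) :
    nu τ m {a | H < ‖a j‖} ≤ ENNReal.ofReal (8 / H ^ 2) := by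
  have hmeas : Measurable fun a : Fin (m + 2) → ℂ => ENNReal.ofReal (‖a j‖ ^ 2) :=
    ((measurable_pi_apply j).norm.pow_const 2).ennreal_ofReal
  have hsub : {a : Fin (m + 2) → ℂ | H < ‖a j‖} ⊆
      {a | ENNReal.ofReal (H ^ 2) ≤ ENNReal.ofReal (‖a j‖ ^ 2)} := by
    intro a ha
    exact ENNReal.ofReal_le_ofReal (pow_le_pow_left₀ hH.le (le_of_lt ha) 2)
  refine (measure_mono hsub).trans ?_
  refine (meas_ge_le_lintegral_div hmeas.aemeasurable
    (by simpa using hH.ne') ENNReal.ofReal_ne_top).trans ?_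
  rw [ENNReal.ofReal_div_of_pos (by positivity)]
  gcongr
  refine (hMom.e m τ h0 h1 j).trans ?_
  norm_num

/-- one row: the first two coordinates -/
theorem row_diff {m : ℕ} {τ : ℝ} (hMom : SpecMom) (h0 : 0 < τ) (h1 : τ < 1)
    {δ : ℝ} (hδ : 0 < δ) :
    nu τ m {a | δ < |‖a 0‖ ^ 2 - ‖a 1‖ ^ 2|} ≤ ENNReal.ofReal (64 * (1 - τ) / δ ^ 2) := by
  have hmeas : Measurable fun a : Fin (m + 2) → ℂ =>
      ENNReal.ofReal ((‖a 0‖ ^ 2 - ‖a 1‖ ^ 2) ^ 2) :=
    ((((measurable_pi_apply 0).norm.pow_const 2).sub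
      ((measurable_pi_apply 1).norm.pow_const 2)).pow_const 2).ennreal_ofReal
  have hsub : {a : Fin (m + 2) → ℂ | δ < |‖a 0‖ ^ 2 - ‖a 1‖ ^ 2|} ⊆
      {a | ENNReal.ofReal (δ ^ 2) ≤ ENNReal.ofReal ((‖a 0‖ ^ 2 - ‖a 1‖ ^ 2) ^ 2)} := by
    intro a ha
    apply ENNReal.ofReal_le_ofReal
    rw [← sq_abs (‖a 0‖ ^ 2 - ‖a 1‖ ^ 2)]
    exact pow_le_pow_left₀ hδ.le (le_of_lt ha) 2
  refine (measure_mono hsub).trans ?_
  refine (meas_ge_le_lintegral_div hmeas.aemeasurable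
    (by simpa using hδ.ne') ENNReal.ofReal_ne_top).trans ?_
  rw [ENNReal.ofReal_div_of_pos (by positivity)]
  gcongr
  exact hMom.f m τ h0 h1

/-- the marginals of a product measure -/
theorem pi_marg {ι α : Type*} [Fintype ι] [MeasurableSpace α] (ν : Measure α)
    [IsProbabilityMeasure ν] (i : ι) (S : Set α) :
    (Measure.pi fun _ : ι => ν) {A | A i ∈ S} ≤ ν S := by
  have hT := measurableSet_toMeasurable ν S
  calc (Measure.pi fun _ : ι => ν) {A | A i ∈ S}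
      ≤ (Measure.pi fun _ : ι => ν) ((fun A : ι → α => A i) ⁻¹' toMeasurable ν S) :=
        measure_mono fun A hA => subset_toMeasurable ν S hA
    _ = ν (toMeasurable ν S) :=
        (measurePreserving_eval (fun _ : ι => ν) i).measure_preimage hT.nullMeasurableSet
    _ = ν S := measure_toMeasurable S

/-- numerical facts -/
theorem num1 {n : ℝ} (hn2 : 2 ≤ n) :
    8 * n ^ 2 * (n ^ 2) ^ 2 * (1 / n ^ 47) ≤ (1 / n ^ 19) ^ 2 := by
  have hn0 : 0 < n := by linarith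
  have e1 : n ^ 47 = n ^ 38 * n ^ 9 := by rw [← pow_add]
  have e2 : (1 / n ^ 19) ^ 2 = 1 / n ^ 38 := by rw [div_pow, one_pow, ← pow_mul]
  have e3 : (n ^ 2) ^ 2 = n ^ 4 := by rw [← pow_mul]
  have hX : 0 < n ^ 38 := by positivity
  rw [e1, e2, e3]
  generalize n ^ 38 = X at *
  have h8 : (8 : ℝ) ≤ n ^ 3 := by
    have := pow_le_pow_left₀ (by norm_num) hn2 3
    norm_num at this
    exact this
  have e4 : 8 * n ^ 2 * n ^ 4 * (1 / (X * n ^ 9)) = (8 / n ^ 3) * (1 / X) := by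
    field_simp
  rw [e4]
  have h1 : 8 / n ^ 3 ≤ 1 := div_le_one_of_le₀ h8 (by positivity)
  calc 8 / n ^ 3 * (1 / X) ≤ 1 * (1 / X) := by gcongr
    _ = 1 / X := one_mul _

theorem num2 {n : ℝ} (hn2 : 2 ≤ n) :
    4 * n * (64 * (1 / n ^ 96) / (1 / n ^ 47) ^ 2) = 256 / n := by
  have hn0 : 0 < n := by linarith
  have e1 : n ^ 96 = n ^ 94 * n ^ 2 := by rw [← pow_add]
  have e2 : (1 / n ^ 47) ^ 2 = 1 / n ^ 94 := by rw [div_pow, one_pow, ← pow_mul]
  have hX : 0 < n ^ 94 := by positivity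
  rw [e1, e2]
  generalize n ^ 94 = X at *
  field_simp
  norm_num

theorem num3 {n N : ℝ} (hn2 : 2 ≤ n) (hN0 : 0 ≤ N) (hNn : N ≤ 4 * n) :
    N * (1 / n ^ 19) ≤ 1 / n ^ 16 := by
  have hn0 : 0 < n := by linarith
  have e1 : n ^ 19 = n ^ 16 * n ^ 3 := by rw [← pow_add]
  have hX : 0 < n ^ 16 := by positivity
  rw [e1]
  generalize n ^ 16 = X at *
  have h4 : N ≤ n ^ 3 := by nlinarith [mul_pos hn0 hn0]
  have h1 : N / n ^ 3 ≤ 1 := div_le_one_of_le₀ h4 (by positivity)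
  calc N * (1 / (X * n ^ 3)) = N / n ^ 3 * (1 / X) := by field_simp
    _ ≤ 1 * (1 / X) := by gcongr
    _ = 1 / X := one_mul _

theorem num4 {n t : ℝ} (hn2 : 2 ≤ n) (ht0 : 0 ≤ t) (ht : t ≤ 1 / n ^ 16) :
    t ^ ((1 / 8) : ℝ) ≤ 1 / n ^ 2 := by
  have hn0 : 0 < n := by linarith
  calc t ^ ((1 / 8) : ℝ) ≤ (1 / n ^ 16) ^ ((1 / 8) : ℝ) := Real.rpow_le_rpow ht0 ht (by norm_num)
    _ = 1 / n ^ 2 := by
        rw [show (1 : ℝ) / n ^ 16 = (1 / n ^ 2) ^ (8 : ℕ) by rw [div_pow, one_pow, ← pow_mul],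
          ← Real.rpow_natCast, ← Real.rpow_mul (by positivity)]
        norm_num

theorem sum_const_ofReal (k : ℕ) {x r : ℝ} (hr : (k : ℝ) = r) :
    ∑ _i : Fin k, ENNReal.ofReal x = ENNReal.ofReal (r * x) := by
  rw [Finset.sum_const, Finset.card_univ, Fintype.card_fin, nsmul_eq_mul, ← hr,
    ENNReal.ofReal_mul (Nat.cast_nonneg k), ENNReal.ofReal_natCast]

/-- the first event -/
theorem b1 {m : ℕ} {τ n : ℝ} (hMom : SpecMom) (hτ0 : 0 < τ) (hτ1 : τ < 1)
    [IsProbabilityMeasure (nu τ m)] (hn : n = (m : ℝ) + 2) :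
    (Measure.pi fun _ : Fin (4 * m + 3) => nu τ m)
      (⋃ i : Fin (4 * m + 3), ⋃ j : Fin (m + 2), {A | A i ∈ {a | n ^ 2 < ‖a j‖}}) ≤
      ENNReal.ofReal (32 / n) := by
  have hm0 : (0 : ℝ) ≤ m := Nat.cast_nonneg m
  have hn2 : (2 : ℝ) ≤ n := by rw [hn]; linarith
  have hn0 : (0 : ℝ) < n := by linarith
  refine (measure_iUnion_fintype_le _ _).trans ?_
  have h1 : ∀ i : Fin (4 * m + 3), (Measure.pi fun _ : Fin (4 * m + 3) => nu τ m)
      (⋃ j : Fin (m + 2), {A | A i ∈ {a | n ^ 2 < ‖a j‖}}) ≤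
      ENNReal.ofReal (n * (8 / (n ^ 2) ^ 2)) := by
    intro i
    refine (measure_iUnion_fintype_le _ _).trans ?_
    rw [← sum_const_ofReal (m + 2) (r := n) (by rw [hn]; push_cast; ring)]
    exact Finset.sum_le_sum fun j _ => (pi_marg (nu τ m) i _).trans
      (row_large hMom hτ0 hτ1 j (by positivity))
  refine (Finset.sum_le_sum fun i _ => h1 i).trans ?_
  rw [sum_const_ofReal (4 * m + 3) (r := 4 * (m : ℝ) + 3) (by push_cast; ring)]
  apply ENNReal.ofReal_le_ofReal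
  calc (4 * (m : ℝ) + 3) * (n * (8 / (n ^ 2) ^ 2)) ≤ 4 * n * (n * (8 / (n ^ 2) ^ 2)) := by
        gcongr; rw [hn]; linarith
    _ = 32 / n ^ 2 := by field_simp; norm_num
    _ ≤ 32 / n := by
      gcongr
      nlinarith

/-- the second event -/
theorem b2 {m : ℕ} {τ n : ℝ} (hMom : SpecMom) (hτ0 : 0 < τ) (hτ1 : τ < 1)
    [IsProbabilityMeasure (nu τ m)] (hn : n = (m : ℝ) + 2) (hτe : 1 - τ = 1 / n ^ 96) :
    (Measure.pi fun _ : Fin (4 * m + 3) => nu τ m)
      (⋃ i : Fin (4 * m + 3), {A | A i ∈ {a : Fin (m + 2) → ℂ |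
        1 / n ^ 47 < |‖a 0‖ ^ 2 - ‖a 1‖ ^ 2|}}) ≤ ENNReal.ofReal (256 / n) := by
  have hm0 : (0 : ℝ) ≤ m := Nat.cast_nonneg m
  have hn2 : (2 : ℝ) ≤ n := by rw [hn]; linarith
  have hn0 : (0 : ℝ) < n := by linarith
  refine (measure_iUnion_fintype_le _ _).trans ?_
  refine (Finset.sum_le_sum fun i _ => (pi_marg (nu τ m) i _).trans
    (row_diff hMom hτ0 hτ1 (by positivity))).trans ?_
  rw [sum_const_ofReal (4 * m + 3) (r := 4 * (m : ℝ) + 3) (by push_cast; ring)]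
  apply ENNReal.ofReal_le_ofReal
  rw [hτe, ← num2 hn2]
  gcongr
  rw [hn]; linarith

/-- the third event -/
theorem b3 (hFub : SpecFub) {K : ℝ} (hK : 0 ≤ K) {m : ℕ} {τ n : ℝ} (hn : n = (m : ℝ) + 2)
    [IsProbabilityMeasure (nu τ m)]
    (hX : ∀ w : Dir m, 1 ≤ nsq w.2.2.1 + nsq w.2.2.2 → ∀ t : ℝ, 0 < t → t ≤ 1 →
        nu τ m {a | |jrow a w| ≤ t} ≤ ENNReal.ofReal (K * t ^ ((1 / 4) : ℝ)))
    (hS : ∀ w : Dir m, 1 ≤ w.1 ^ 2 + ‖w.2.1‖ ^ 2 → ∀ t : ℝ, 0 < t → t ≤ 1 →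
        nu τ m {a | |jrow a w| ≤ t} ≤ ENNReal.ofReal (K * t ^ ((1 / 8) : ℝ))) :
    (Measure.pi fun _ : Fin (4 * m + 3) => nu τ m)
      {A | ∃ w : Dir m, w ≠ 0 ∧ ∀ i, |jrow (A i) w| ≤ 1 / n ^ 19 * ‖w‖} ≤
      ENNReal.ofReal (4 * K / n) := by
  have hm0 : (0 : ℝ) ≤ m := Nat.cast_nonneg m
  have hn2 : (2 : ℝ) ≤ n := by rw [hn]; linarith
  have hn0 : (0 : ℝ) < n := by linarith
  have hn1 : (1 : ℝ) ≤ n := by linarith
  have hσ0 : 0 < 1 / n ^ 19 := by positivity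
  generalize hσ : 1 / n ^ 19 = σ at hσ0
  have hN0 : (0 : ℝ) < 4 * m + 3 := by positivity
  have ht0 : 0 < (4 * (m : ℝ) + 3) * σ := by positivity
  have ht16 : (4 * (m : ℝ) + 3) * σ ≤ 1 / n ^ 16 := by
    rw [← hσ]
    exact num3 hn2 hN0.le (by rw [hn]; linarith)
  have ht1 : (4 * (m : ℝ) + 3) * σ ≤ 1 :=
    ht16.trans (div_le_one_of_le₀ (one_le_pow₀ hn1) (by positivity))
  have ht8 := num4 hn2 ht0.le ht16
  have key : ∀ w : Dir m, ‖w‖ = 1 → nu τ m {a | |jrow a w| ≤ (4 * m + 3) * σ} ≤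
      ENNReal.ofReal (K * ((4 * (m : ℝ) + 3) * σ) ^ ((1 / 8) : ℝ)) := by
    intro w hw
    rcases norm_cases w hw with h | h
    · refine (hX w h _ ht0 ht1).trans ?_
      apply ENNReal.ofReal_le_ofReal
      apply mul_le_mul_of_nonneg_left _ hK
      exact Real.rpow_le_rpow_of_exponent_ge ht0 ht1 (by norm_num)
    · exact hS w h _ ht0 ht1
  refine (hFub m (nu τ m) σ (K * ((4 * (m : ℝ) + 3) * σ) ^ ((1 / 8) : ℝ)) hσ0.le
    (by positivity) key).trans ?_
  apply ENNReal.ofReal_le_ofReal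
  calc (4 * (m : ℝ) + 3) * (K * ((4 * (m : ℝ) + 3) * σ) ^ ((1 / 8) : ℝ))
      ≤ 4 * n * (K * (1 / n ^ 2)) := by
        gcongr
        rw [hn]; linarith
    _ = 4 * K / n := by field_simp

/-- bound of the probability for one `m` -/
theorem bound (hFub : SpecFub) (hNewt : SpecNewt) (hInK : SpecInK) (hMom : SpecMom)
    (hMu : SpecMu) {K : ℝ} (hK : 0 ≤ K)
    (hX : ∀ (m : ℕ) (τ : ℝ), 1 / 2 ≤ τ → τ < 1 → ∀ w : Dir m,
      1 ≤ nsq w.2.2.1 + nsq w.2.2.2 → ∀ t : ℝ, 0 < t → t ≤ 1 →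
        nu τ m {a | |jrow a w| ≤ t} ≤ ENNReal.ofReal (K * t ^ ((1 / 4) : ℝ)))
    (hS : ∀ (m : ℕ) (τ : ℝ), 1 / 2 ≤ τ → τ < 1 → ∀ w : Dir m,
      1 ≤ w.1 ^ 2 + ‖w.2.1‖ ^ 2 → ∀ t : ℝ, 0 < t → t ≤ 1 →
        nu τ m {a | |jrow a w| ≤ t} ≤ ENNReal.ofReal (K * t ^ ((1 / 8) : ℝ))) (m : ℕ) :
    (Measure.pi fun _ : Fin (4 * m + 3) => nu (tau 96 m) m) (Coll (4 * m + 3) (m + 2))ᶜ ≤
      ENNReal.ofReal ((32 + 256 + 4 * K) / ((m : ℝ) + 2)) := by
  generalize hn : (m : ℝ) + 2 = n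
  have hm0 : (0 : ℝ) ≤ m := Nat.cast_nonneg m
  have hn2 : (2 : ℝ) ≤ n := by rw [← hn]; linarith
  have hn0 : (0 : ℝ) < n := by linarith
  have hn1 : (1 : ℝ) ≤ n := by linarith
  have hτe : 1 - tau 96 m = 1 / n ^ 96 := by rw [tau, ← hn]; ring
  generalize tau 96 m = τ at hτe
  have hpow : (2 : ℝ) ≤ n ^ 96 := by
    calc (2 : ℝ) ≤ n ^ 1 := by simpa using hn2
      _ ≤ n ^ 96 := pow_le_pow_right₀ hn1 (by norm_num)
  have hτ1 : τ < 1 := by
    have : 0 < 1 / n ^ 96 := by positivity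
    linarith
  have hτ2 : 1 / 2 ≤ τ := by
    have : 1 / n ^ 96 ≤ 1 / 2 := one_div_le_one_div_of_le (by norm_num) hpow
    linarith
  have hτ0 : 0 < τ := by linarith
  have hprob : IsProbabilityMeasure (nu τ m) := hMu.p3 τ m hτ0 hτ1
  -- the bad events
  have hsub : (Coll (4 * m + 3) (m + 2))ᶜ ⊆
      ((⋃ i : Fin (4 * m + 3), ⋃ j : Fin (m + 2), {A | A i ∈ {a | n ^ 2 < ‖a j‖}}) ∪
      (⋃ i : Fin (4 * m + 3), {A | A i ∈ {a : Fin (m + 2) → ℂ |
        1 / n ^ 47 < |‖a 0‖ ^ 2 - ‖a 1‖ ^ 2|}})) ∪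
      {A | ∃ w : Dir m, w ≠ 0 ∧ ∀ i, |jrow (A i) w| ≤ 1 / n ^ 19 * ‖w‖} := by
    intro A hA
    by_contra hcon
    simp only [mem_union, not_or, mem_iUnion, not_exists, mem_ofPred_eq, not_lt, not_and,
      not_forall, not_le] at hcon
    obtain ⟨⟨c1, c2⟩, c3⟩ := hcon
    apply hA
    obtain ⟨w, hw, hw'⟩ := hNewt m A (n ^ 2) (1 / n ^ 19) (1 / n ^ 47) (one_le_pow₀ hn1)
      (by positivity) (div_le_one_of_le₀ (one_le_pow₀ hn1) (by positivity)) (by positivity)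
      c1 c2 c3 (by rw [hn]; exact num1 hn2)
    exact ⟨(Xw w, Yw w), hInK m w hw, hw'⟩
  refine (measure_mono hsub).trans ?_
  refine (measure_union_le _ _).trans ?_
  refine (add_le_add ((measure_union_le _ _).trans (add_le_add (b1 hMom hτ0 hτ1 hn.symm)
    (b2 hMom hτ0 hτ1 hn.symm hτe))) (b3 hFub hK hn.symm (hX m τ hτ2 hτ1) (hS m τ hτ2 hτ1))).trans ?_
  apply le_of_eq
  rw [← ENNReal.ofReal_add (by positivity) (by positivity),
    ← ENNReal.ofReal_add (by positivity) (by positivity)]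
  congr 1
  ring

/-- **GOOD** -/
theorem specGood (hFub : SpecFub) (hX : SpecSBX) (hS : SpecSBS) (hNewt : SpecNewt)
    (hInK : SpecInK) (hMom : SpecMom) (hMu : SpecMu) : SpecGood := by
  obtain ⟨K1, h1⟩ := hX
  obtain ⟨K2, h2⟩ := hS
  refine ⟨96, by norm_num, ?_⟩
  set K : ℝ := max (max K1 K2) 0 with hK
  have hK0 : 0 ≤ K := le_max_right _ _
  have hK1 : K1 ≤ K := (le_max_left _ _).trans (le_max_left _ _)
  have hK2 : K2 ≤ K := (le_max_right _ _).trans (le_max_left _ _)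
  have hb := bound hFub hNewt hInK hMom hMu hK0
    (fun m τ a b w h t c d => (h1 m τ a b w h t c d).trans
      (ENNReal.ofReal_le_ofReal (mul_le_mul_of_nonneg_right hK1 (by positivity))))
    (fun m τ a b w h t c d => (h2 m τ a b w h t c d).trans
      (ENNReal.ofReal_le_ofReal (mul_le_mul_of_nonneg_right hK2 (by positivity))))
  have hlim : Tendsto (fun m : ℕ => ENNReal.ofReal ((32 + 256 + 4 * K) / ((m : ℝ) + 2))) atTop
      (𝓝 0) := by
    rw [← ENNReal.ofReal_zero]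
    apply ENNReal.tendsto_ofReal
    apply Tendsto.div_atTop tendsto_const_nhds
    exact tendsto_atTop_add_const_right _ _ tendsto_natCast_atTop_atTop
  exact tendsto_of_tendsto_of_tendsto_of_le_of_le tendsto_const_nhds hlim (fun _ => bot_le) hb

end MPf1e3.Good
end

section
/-! MP_f1e3b4_an, module INK (helper10). -/
set_option autoImplicit false

open scoped ComplexConjugate

namespace MPf1e3.InK

variable {m : ℕ}

theorem nsq_Xw (w : Dir m) :
    nsq (Xw w) = ‖1 + (w.1 : ℂ)‖ ^ 2 + (‖w.2.1‖ ^ 2 + ∑ j, ‖w.2.2.1 j‖ ^ 2) := by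
  simp only [nsq, Xw, Fin.sum_univ_succ, Fin.cons_zero, Fin.cons_succ]

theorem nsq_Yw (w : Dir m) : nsq (Yw w) = 1 + ∑ j, ‖w.2.2.2 j‖ ^ 2 := by
  simp only [nsq, Yw, Fin.sum_univ_succ, Fin.cons_zero, Fin.cons_succ]
  simp

theorem herm_XY (w : Dir m) :
    herm (Xw w) (Yw w) = conj w.2.1 + ∑ j, conj (w.2.2.1 j) * w.2.2.2 j := by
  simp only [herm, Xw, Yw, Fin.sum_univ_succ, Fin.cons_zero, Fin.cons_succ]
  simp

theorem norm_parts (w : Dir m) : |w.1| ≤ ‖w‖ ∧ ‖w.2.1‖ ≤ ‖w‖ ∧ (∀ j, ‖w.2.2.1 j‖ ≤ ‖w‖) ∧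
    ∀ j, ‖w.2.2.2 j‖ ≤ ‖w‖ := by
  have h1 : ‖w.2‖ ≤ ‖w‖ := norm_snd_le w
  have h2 : ‖w.2.2‖ ≤ ‖w.2‖ := norm_snd_le w.2
  refine ⟨?_, (norm_fst_le w.2).trans h1, fun j => ?_, fun j => ?_⟩
  · have := norm_fst_le w
    rwa [Real.norm_eq_abs] at this
  · exact (norm_le_pi_norm w.2.2.1 j).trans ((norm_fst_le w.2.2).trans (h2.trans h1))
  · exact (norm_le_pi_norm w.2.2.2 j).trans ((norm_snd_le w.2.2).trans (h2.trans h1))

theorem sum_sq_le (u : Fin m → ℂ) {r : ℝ} (hu : ∀ j, ‖u j‖ ≤ r) :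
    ∑ j, ‖u j‖ ^ 2 ≤ m * r ^ 2 := by
  calc ∑ j, ‖u j‖ ^ 2 ≤ ∑ _j : Fin m, r ^ 2 :=
        Finset.sum_le_sum fun j _ => pow_le_pow_left₀ (norm_nonneg _) (hu j) 2
    _ = m * r ^ 2 := by simp

/-- **INK** -/
theorem specInK : SpecInK := by
  intro m w hw
  set r : ℝ := 1 / (4 * ((m : ℝ) + 2) ^ 2) with hr
  have hr0 : 0 < r := by positivity
  have hm : (0 : ℝ) ≤ m := Nat.cast_nonneg m
  have hr1 : r ≤ 1 / 16 := by
    rw [hr]
    apply one_div_le_one_div_of_le (by norm_num)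
    nlinarith
  have hmr : (m : ℝ) * r ≤ 1 / 8 := by
    have h1 : ((m : ℝ) + 2) * r = 1 / (4 * ((m : ℝ) + 2)) := by
      rw [hr]; field_simp
    have h2 : 1 / (4 * ((m : ℝ) + 2)) ≤ 1 / 8 := by
      apply one_div_le_one_div_of_le (by norm_num)
      linarith
    nlinarith
  have hmr2 : (m : ℝ) * r ^ 2 ≤ 1 / 128 := by nlinarith
  obtain ⟨h1, h2, h3, h4⟩ := norm_parts w
  have h1' := h1.trans hw
  have h2' := h2.trans hw
  have sX := sum_sq_le w.2.2.1 (fun j => (h3 j).trans hw)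
  have sY := sum_sq_le w.2.2.2 (fun j => (h4 j).trans hw)
  have pX : 0 ≤ ∑ j, ‖w.2.2.1 j‖ ^ 2 := by positivity
  have pY : 0 ≤ ∑ j, ‖w.2.2.2 j‖ ^ 2 := by positivity
  have e1 : ‖1 + (w.1 : ℂ)‖ ^ 2 = (1 + w.1) ^ 2 := by
    rw [show (1 : ℂ) + (w.1 : ℂ) = ((1 + w.1 : ℝ) : ℂ) by push_cast; ring, Complex.norm_real,
      Real.norm_eq_abs, sq_abs]
  obtain ⟨a1, a2⟩ := abs_le.1 h1'
  have z2 : ‖w.2.1‖ ^ 2 ≤ r ^ 2 := pow_le_pow_left₀ (norm_nonneg _) h2' 2
  have hherm : ‖herm (Xw w) (Yw w)‖ ≤ 1 / 8 := by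
    rw [herm_XY]
    have b : ‖∑ j, conj (w.2.2.1 j) * w.2.2.2 j‖ ≤ m * r ^ 2 := by
      refine (norm_sum_le _ _).trans ?_
      calc ∑ j, ‖conj (w.2.2.1 j) * w.2.2.2 j‖ ≤ ∑ _j : Fin m, r ^ 2 := by
            refine Finset.sum_le_sum fun j _ => ?_
            rw [norm_mul, RCLike.norm_conj, sq]
            exact mul_le_mul ((h3 j).trans hw) ((h4 j).trans hw) (norm_nonneg _) hr0.le
        _ = m * r ^ 2 := by simp
    calc ‖conj w.2.1 + ∑ j, conj (w.2.2.1 j) * w.2.2.2 j‖ ≤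
          ‖conj w.2.1‖ + ‖∑ j, conj (w.2.2.1 j) * w.2.2.2 j‖ := norm_add_le _ _
      _ ≤ r + 1 / 128 := by rw [RCLike.norm_conj]; linarith
      _ ≤ 1 / 8 := by linarith
  have hherm2 : ‖herm (Xw w) (Yw w)‖ ^ 2 ≤ 1 / 64 := by
    have := pow_le_pow_left₀ (norm_nonneg _) hherm 2
    norm_num at this
    linarith
  refine ⟨?_, ?_, ?_⟩
  · change nsq (Xw w) ≤ 4
    rw [nsq_Xw, e1]
    nlinarith
  · change nsq (Yw w) ≤ 4
    rw [nsq_Yw]
    linarith
  · change 1 / 2 ≤ nsq (Xw w) * nsq (Yw w) - ‖herm (Xw w) (Yw w)‖ ^ 2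
    have l1 : (15 / 16 : ℝ) ^ 2 ≤ nsq (Xw w) := by
      rw [nsq_Xw, e1]
      nlinarith [sq_nonneg ‖w.2.1‖]
    have l2 : (1 : ℝ) ≤ nsq (Yw w) := by rw [nsq_Yw]; linarith
    nlinarith

end MPf1e3.InK
end

section
/-! MP_f1e3b4_an, module KI (helper90): the key inequality from KI1, KI2, KI3, KI4, POS. -/
set_option autoImplicit false

open MeasureTheory ProbabilityTheory Filter Topology Set
open scoped ENNReal ComplexConjugate

namespace MPf1e3

theorem specKI (h1 : SpecKI1) (h2 : SpecKI2) (h3 : SpecKI3) (h4 : SpecKI4) (hP : SpecPos) :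
    SpecKI := by
  obtain ⟨c, hc, h3⟩ := h3
  obtain ⟨K, hK, h4⟩ := h4
  refine ⟨2 * c, K, by positivity, hK, fun C hC => ?_⟩
  have hd0 : 0 < C.dl := hC.1
  have hf0 : 0 ≤ C.fr := by unfold OM.fr; positivity
  set D := Real.sqrt C.dl with hDdef
  have hD0 : 0 < D := Real.sqrt_pos.2 hd0
  have hD2 : D ^ 2 = C.dl := Real.sq_sqrt hd0.le
  have hk0 := hP.kap C hC
  obtain ⟨hadl, hafr, hactr, hay⟩ := hP.adj C
  have hC' := hactr hC
  obtain ⟨y, s, hDy, hys, hs, hsD, hb⟩ := h2 C hC D hD0 hD2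
  obtain ⟨y', s', hDy', hys', hs', hsD', hb'⟩ := h2 C.adj hC' D hD0 (by rw [hadl]; exact hD2)
  have e1 : ∫ φ, G0 C.adj.dl (1 - C.adj.yy φ) ∂cav = ∫ φ, G0 C.dl (1 - C.xx φ) ∂cav := by
    simp only [hadl, fun φ => (hay φ).1]
  rw [e1] at hb'
  have hs1 : s ≤ 1 := by rw [hs]; linarith
  have hs1' : s' ≤ 1 := by rw [hs', hafr]; linarith
  have hk1 := h1 C hC
  have hsD0 : 0 < Real.sqrt D := Real.sqrt_pos.2 hD0
  have hDf : C.fr / 2 ≤ 1 - D := by
    have : D ≤ 1 - C.fr / 2 := by rw [← hs]; exact hDy.trans hys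
    linarith
  refine ⟨hk0, ?_, fun hfr => ?_⟩
  · obtain ⟨l, hl, hll⟩ := h3 D y s hD0 hDy hys hs1 hsD
    obtain ⟨l', hl', hll'⟩ := h3 D y' s' hD0 hDy' hys' hs1' hsD'
    have hA := (hb l hl).trans hll
    have hB := (hb' l' hl').trans hll'
    have hk2 : Real.sqrt D * C.kap ≤ 1 - c * (1 - D) := by
      have := mul_le_mul_of_nonneg_left hk1 hsD0.le
      linarith
    have hk3 : 0 ≤ Real.sqrt D * C.kap := by positivity
    have e2 : C.kap ^ 4 * C.dl = (Real.sqrt D * C.kap) ^ 4 := by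
      rw [← hD2, mul_pow]
      have : Real.sqrt D ^ 4 = D ^ 2 := by
        calc Real.sqrt D ^ 4 = (Real.sqrt D ^ 2) ^ 2 := by ring
          _ = D ^ 2 := by rw [Real.sq_sqrt hD0.le]
      rw [this]
      ring
    rw [e2]
    calc (Real.sqrt D * C.kap) ^ 4 ≤ (Real.exp (-(c * (1 - D)))) ^ 4 := by
          refine pow_le_pow_left₀ hk3 (hk2.trans ?_) 4
          have := Real.add_one_le_exp (-(c * (1 - D)))
          linarith
      _ = Real.exp (4 * (-(c * (1 - D)))) := by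
          rw [← Real.exp_nat_mul]
          norm_num
      _ ≤ Real.exp (-(2 * c * C.fr)) := by
          refine Real.exp_le_exp.2 ?_
          nlinarith
  · have hD1 : D ≤ 1 := by linarith
    have hq : 1 - C.fr ≤ D ^ 2 := by rw [hs] at hsD; linarith
    have hD4 : 1 / 4 ≤ D := by nlinarith
    have hA := h4 D y s hD4 hDy hys hs1 hsD
    have hB := h4 D y' s' hD4 hDy' hys' hs1' hsD'
    have hA1 := hb 1 one_pos
    have hB1 := hb' 1 one_pos
    simp only [one_mul, div_one, mul_one] at hA1 hB1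
    have hk2 : Real.sqrt D * C.kap ≤ Real.sqrt D * (1 + K * (1 - D) ^ 2) := by
      have := mul_le_mul_of_nonneg_left hk1 hsD0.le
      linarith
    have hk3 := le_of_mul_le_mul_left hk2 hsD0
    have hDf2 : 1 - D ≤ C.fr := by nlinarith
    have hDf3 : (1 - D) ^ 2 ≤ C.fr ^ 2 := pow_le_pow_left₀ (by linarith) hDf2 2
    have := mul_le_mul_of_nonneg_left hDf3 hK.le
    linarith

end MPf1e3
end

section
/-!
Problem MP_f1e3b4_an, module KI2: the average of the majorant is bounded by elementary functions.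
-/
set_option autoImplicit false

open MeasureTheory ProbabilityTheory Filter Topology Set
open scoped ENNReal ComplexConjugate

namespace MPf1e3

namespace KI2

/-- the off-diagonal entry of `C* C` -/
def qq (C : OM) : ℂ := conj C.a * C.b + conj C.c * C.d

theorem norm_ee (φ : ℝ) : ‖ee φ‖ = 1 := by
  rw [ee]
  exact Complex.norm_exp_ofReal_mul_I φ

theorem yy_eq (C : OM) (φ : ℝ) : 1 - C.yy φ = (1 - C.fr / 2) + (qq C * ee φ).re := by
  have h1 : ∀ x y : ℂ, ‖x - ee φ * y‖ ^ 2 = ‖x‖ ^ 2 + ‖y‖ ^ 2 - 2 * (conj x * y * ee φ).re := by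
    intro x y
    rw [← Complex.normSq_eq_norm_sq, Complex.normSq_sub, Complex.normSq_eq_norm_sq,
      Complex.normSq_eq_norm_sq, norm_mul, norm_ee, one_mul]
    have : (x * conj (ee φ * y)).re = (conj x * y * ee φ).re := by
      rw [← Complex.conj_re (x * conj (ee φ * y))]
      congr 1
      simp only [map_mul, Complex.conj_conj]
      ring
    rw [this]
  rw [OM.yy, h1, h1, OM.fr, qq, add_mul, Complex.add_re]
  ring

theorem pointwise (D x l : ℝ) (hD : 0 < D) (hD1 : D ≤ 1) (hx : 0 < x) (hl : 0 < l) :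
    Real.sqrt D * G0 (D ^ 2) x ≤
      (3 / 8 - D ^ 2 / 4 + D / 4) + D * (3 / 8 - D ^ 2 / 4 - 3 / 4 * D) * x⁻¹
        + (l * D + x / l) / 4 + 3 / 8 * (l * D * x + x ^ 2 / l) := by
  set r : ℝ := Real.sqrt D with hr
  set t : ℝ := Real.sqrt x with ht
  have hr0 : 0 < r := Real.sqrt_pos.2 hD
  have ht0 : 0 < t := Real.sqrt_pos.2 hx
  have hrD : D = r ^ 2 := (Real.sq_sqrt hD.le).symm
  have htx : x = t ^ 2 := (Real.sq_sqrt hx.le).symm
  have e1 : x ^ (-(1 / 2) : ℝ) = t⁻¹ := by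
    rw [Real.rpow_neg hx.le, ht, Real.sqrt_eq_rpow]
  have e2 : x ^ ((1 / 2) : ℝ) = t := by rw [ht, Real.sqrt_eq_rpow]
  have e3 : x ^ ((3 / 2) : ℝ) = t ^ 3 := by
    rw [show ((3 / 2) : ℝ) = 1 + 1 / 2 by norm_num, Real.rpow_add hx, Real.rpow_one, e2, htx]
    ring
  have e4 : x ^ (-(3 / 2) : ℝ) = (t ^ 3)⁻¹ := by
    rw [Real.rpow_neg hx.le, e3]
  rw [G0, e1, e2, e3, e4, hrD, htx]
  have hr1 : r ≤ 1 := by
    rw [hr]
    exact Real.sqrt_le_one.2 hD1
  -- `v = r / t`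
  have hv : 0 < r / t := by positivity
  have b1 : r / t ≤ (1 + r ^ 2 * (t ^ 2)⁻¹) / 2 := by
    have : r ^ 2 * (t ^ 2)⁻¹ = (r / t) ^ 2 := by
      field_simp
    rw [this]
    nlinarith [sq_nonneg (r / t - 1)]
  have b2 : (3 * (r ^ 2 * (t ^ 2)⁻¹) - 1) / 2 ≤ (r / t) ^ 3 := by
    have : r ^ 2 * (t ^ 2)⁻¹ = (r / t) ^ 2 := by
      field_simp
    rw [this]
    have : (r / t) ^ 3 - (3 * (r / t) ^ 2 - 1) / 2 = (r / t - 1) ^ 2 * (r / t + 1 / 2) := by ring
    have h2 : 0 ≤ (r / t - 1) ^ 2 * (r / t + 1 / 2) := by positivity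
    linarith
  have b3 : r * t ≤ (l * r ^ 2 + t ^ 2 / l) / 2 := by
    have hs : (l * r ^ 2 + t ^ 2 / l) / 2 - r * t = (l * r - t) ^ 2 / (2 * l) := by
      field_simp
      ring
    have : 0 ≤ (l * r - t) ^ 2 / (2 * l) := by positivity
    linarith
  have hc : 0 ≤ 3 / 4 - (r ^ 2) ^ 2 / 2 := by
    have : r ^ 2 ≤ 1 := by nlinarith
    nlinarith [sq_nonneg r]
  have main : r * (3 / 4 * t⁻¹ + 1 / 2 * t + 3 / 4 * t ^ 3
      - (r ^ 2) ^ 2 / 2 * (t⁻¹ + (t ^ 3)⁻¹)) =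
      (3 / 4 - (r ^ 2) ^ 2 / 2) * (r / t) + 1 / 2 * (r * t) + 3 / 4 * t ^ 2 * (r * t)
        - r ^ 2 / 2 * (r / t) ^ 3 := by
    field_simp
    ring
  rw [main]
  have c1 := mul_le_mul_of_nonneg_left b1 hc
  have c2 := mul_le_mul_of_nonneg_left b2 (show 0 ≤ r ^ 2 / 2 by positivity)
  have c3 := mul_le_mul_of_nonneg_left b3 (show 0 ≤ 3 / 4 * t ^ 2 by positivity)
  have fin : (3 / 4 - (r ^ 2) ^ 2 / 2) * ((1 + r ^ 2 * (t ^ 2)⁻¹) / 2)
      + 1 / 2 * ((l * r ^ 2 + t ^ 2 / l) / 2) + 3 / 4 * t ^ 2 * ((l * r ^ 2 + t ^ 2 / l) / 2)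
      - r ^ 2 / 2 * ((3 * (r ^ 2 * (t ^ 2)⁻¹) - 1) / 2) =
      (3 / 8 - (r ^ 2) ^ 2 / 4 + r ^ 2 / 4)
        + r ^ 2 * (3 / 8 - (r ^ 2) ^ 2 / 4 - 3 / 4 * r ^ 2) * (t ^ 2)⁻¹
        + (l * r ^ 2 + t ^ 2 / l) / 4 + 3 / 8 * (l * r ^ 2 * t ^ 2 + (t ^ 2) ^ 2 / l) := by
    field_simp
    ring
  rw [← fin]
  linarith

theorem continuous_ee : Continuous ee := by
  unfold ee
  fun_prop

theorem integrable_cav (f : ℝ → ℝ) (hf : Continuous f) : Integrable f cav := by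
  rw [cav]
  refine Integrable.smul_measure ?_ ?_
  · exact hf.integrableOn_Ioc
  · simp [Real.pi_pos]

end KI2

/-- B5. KI2 -/
theorem specKI2 (hP : SpecProb) (hA : SpecAvg) : SpecKI2 := by
  intro C hC D hD hDl
  obtain ⟨hdl, hfr⟩ := hC
  set q : ℂ := KI2.qq C with hq
  set η : ℝ := ‖q‖ with hη
  have hη0 : 0 ≤ η := norm_nonneg _
  -- phase of `q`
  obtain ⟨ζ, hζ, hqζ⟩ : ∃ ζ : ℂ, ‖ζ‖ = 1 ∧ q = η * ζ := by
    rcases eq_or_ne q 0 with h0 | h0
    · exact ⟨1, by simp, by simp [hη, h0]⟩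
    · refine ⟨q / η, ?_, ?_⟩
      · rw [norm_div, hη]
        simp [h0]
      · have : (η : ℂ) ≠ 0 := by
          rw [hη]
          exact_mod_cast norm_ne_zero_iff.2 h0
        field_simp
  set s : ℝ := 1 - C.fr / 2 with hs
  have hs0 : 0 < s := by rw [hs]; linarith
  have hyy : ∀ φ, 1 - C.yy φ = s + η * (ζ * ee φ).re := by
    intro φ
    rw [KI2.yy_eq, ← hq, hqζ, mul_assoc, Complex.re_ofReal_mul]
  -- the determinant
  have hdet : C.dl = (1 - ‖C.a‖ ^ 2 - ‖C.c‖ ^ 2) * (1 - ‖C.b‖ ^ 2 - ‖C.d‖ ^ 2) - η ^ 2 := by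
    have h1 : ‖C.a * C.d - C.b * C.c‖ ^ 2 + η ^ 2 =
        (‖C.a‖ ^ 2 + ‖C.c‖ ^ 2) * (‖C.b‖ ^ 2 + ‖C.d‖ ^ 2) := by
      rw [hη, hq, KI2.qq]
      simp only [← Complex.normSq_eq_norm_sq, Complex.normSq_apply]
      simp only [Complex.add_re, Complex.add_im, Complex.sub_re, Complex.sub_im, Complex.mul_re,
        Complex.mul_im, Complex.conj_re, Complex.conj_im]
      ring
    rw [OM.dl, OM.fr]
    linarith
  have hsq : D ^ 2 + η ^ 2 ≤ s ^ 2 := by
    have h2 : 4 * (D ^ 2 + η ^ 2) ≤ (2 * s) ^ 2 := by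
      rw [hDl, hdet, hs, OM.fr]
      nlinarith [sq_nonneg ((1 - ‖C.a‖ ^ 2 - ‖C.c‖ ^ 2) - (1 - ‖C.b‖ ^ 2 - ‖C.d‖ ^ 2))]
    nlinarith
  have hηs : η < s := by
    have : η ^ 2 < s ^ 2 := by nlinarith [pow_pos hD 2]
    exact lt_of_pow_lt_pow_left₀ 2 hs0.le this
  have hys : 0 ≤ s ^ 2 - η ^ 2 := by nlinarith [pow_pos hD 2]
  set y : ℝ := Real.sqrt (s ^ 2 - η ^ 2) with hy
  have hy2 : y ^ 2 = s ^ 2 - η ^ 2 := Real.sq_sqrt hys
  have hy0 : 0 < y := Real.sqrt_pos.2 (by nlinarith [pow_pos hD 2])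
  have hDy : D ≤ y := by
    rw [hy]
    apply Real.le_sqrt_of_sq_le
    linarith
  have hyS : y ≤ s := by
    rw [hy]
    apply Real.sqrt_le_iff.2 ⟨hs0.le, ?_⟩
    nlinarith [sq_nonneg η]
  have hfr0 : 0 ≤ C.fr := by
    rw [OM.fr]
    positivity
  have hs1 : s ≤ 1 := by rw [hs]; linarith
  have hD1 : D ≤ 1 := le_trans hDy (le_trans hyS hs1)
  refine ⟨y, s, hDy, hyS, rfl, ?_, ?_⟩
  · rw [hDl, hs, OM.dl]
    have : 0 ≤ ‖C.a * C.d - C.b * C.c‖ ^ 2 := by positivity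
    linarith
  intro l hl
  -- positivity of the argument
  have hre : ∀ φ, -1 ≤ (ζ * ee φ).re := by
    intro φ
    have h1 := Complex.abs_re_le_norm (ζ * ee φ)
    rw [norm_mul, hζ, KI2.norm_ee, mul_one] at h1
    exact (abs_le.1 h1).1
  have hpos : ∀ φ, 0 < s + η * (ζ * ee φ).re := by
    intro φ
    nlinarith [hre φ, mul_le_mul_of_nonneg_left (hre φ) hη0]
  have hcont : Continuous fun φ : ℝ => s + η * (ζ * ee φ).re := by
    have := KI2.continuous_ee
    fun_prop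
  have hprob : IsProbabilityMeasure cav := hP.cav
  -- integrate the pointwise inequality
  have hint : Integrable (fun φ => Real.sqrt D * G0 C.dl (1 - C.yy φ)) cav := by
    apply KI2.integrable_cav
    simp only [hyy, G0]
    have hc : ∀ p : ℝ, Continuous fun φ : ℝ => (s + η * (ζ * ee φ).re) ^ p := fun p =>
      hcont.rpow_const fun φ => Or.inl (hpos φ).ne'
    have h1 := hc (-(1 / 2))
    have h2 := hc (1 / 2)
    have h3 := hc (3 / 2)
    have h4 := hc (-(3 / 2))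
    fun_prop
  have ci : Continuous fun φ : ℝ => (s + η * (ζ * ee φ).re)⁻¹ :=
    hcont.inv₀ fun φ => (hpos φ).ne'
  have i1 : Integrable (fun φ : ℝ => (s + η * (ζ * ee φ).re)⁻¹) cav := KI2.integrable_cav _ ci
  have i2 : Integrable (fun φ : ℝ => (s + η * (ζ * ee φ).re)) cav := KI2.integrable_cav _ hcont
  have i3 : Integrable (fun φ : ℝ => (s + η * (ζ * ee φ).re) ^ 2) cav :=
    KI2.integrable_cav _ (hcont.pow 2)
  have a1 := hA.one s η ζ hη0 hηs hζ
  have a2 := hA.lin s η ζ hζ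
  have a3 := hA.quad s η ζ hζ
  rw [← hy] at a1
  set c0 : ℝ := 3 / 8 - D ^ 2 / 4 + D / 4 + l * D / 4 with hc0
  set c1 : ℝ := D * (3 / 8 - D ^ 2 / 4 - 3 / 4 * D) with hc1
  set c2 : ℝ := 1 / (4 * l) + 3 / 8 * (l * D) with hc2
  set c3 : ℝ := 3 / 8 / l with hc3
  have j1 : Integrable (fun φ : ℝ => c0 + c1 * (s + η * (ζ * ee φ).re)⁻¹) cav :=
    (integrable_const c0).add (i1.const_mul c1)
  have j2 : Integrable (fun φ : ℝ => c0 + c1 * (s + η * (ζ * ee φ).re)⁻¹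
      + c2 * (s + η * (ζ * ee φ).re)) cav := j1.add (i2.const_mul c2)
  have j3 : Integrable (fun φ : ℝ => c0 + c1 * (s + η * (ζ * ee φ).re)⁻¹
      + c2 * (s + η * (ζ * ee φ).re) + c3 * (s + η * (ζ * ee φ).re) ^ 2) cav :=
    j2.add (i3.const_mul c3)
  have hle : (∫ φ, Real.sqrt D * G0 C.dl (1 - C.yy φ) ∂cav) ≤
      ∫ φ, (c0 + c1 * (s + η * (ζ * ee φ).re)⁻¹ + c2 * (s + η * (ζ * ee φ).re)
        + c3 * (s + η * (ζ * ee φ).re) ^ 2) ∂cav := by
    apply integral_mono hint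
    · exact j3
    · intro φ
      simp only
      rw [hyy, ← hDl]
      refine le_trans (KI2.pointwise D _ l hD hD1 (hpos φ) hl) (le_of_eq ?_)
      rw [hc0, hc1, hc2, hc3]
      field_simp
      ring
  rw [integral_const_mul] at hle
  refine le_trans hle (le_of_eq ?_)
  rw [integral_add j2 (i3.const_mul c3), integral_add j1 (i2.const_mul c2),
    integral_add (integrable_const c0) (i1.const_mul c1), integral_const_mul, integral_const_mul,
    integral_const_mul, a1, a2, a3]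
  simp only [integral_const, probReal_univ, smul_eq_mul, one_mul]
  rw [hc0, hc1, hc2, hc3]
  have hη2 : η ^ 2 = s ^ 2 - y ^ 2 := by linarith
  rw [hη2]
  field_simp
  ring

end MPf1e3
end

section
/-!
Problem MP_f1e3b4_an, modules KI3 and KI4: the elementary inequalities behind the key inequality.
-/
set_option autoImplicit false

namespace MPf1e3

namespace KI3

/-- the left side for `l = 1`, after maximising over `s` and `y` -/
theorem bound_one (D y s : ℝ) (hD : 1 / 4 ≤ D) (hDy : D ≤ y) (hys : y ≤ s) (hs1 : s ≤ 1)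
    (h2s : 2 * s - 1 ≤ D ^ 2) :
    3 / 8 - D ^ 2 / 4 + D / 4 + D / y * (3 / 8 - D ^ 2 / 4 - 3 / 4 * D)
        + (D + s) / 4 + 3 / 8 * (D * s + (3 * s ^ 2 - y ^ 2) / 2) ≤
      1 - (1 - D) * (-1 + 3 * D + 21 * D ^ 2 + 9 * D ^ 3) / 64
        + max 0 (1 / 4 - (1 - D) / 4 - 3 / 8 * (1 - D) ^ 2 - 3 / 8 * (1 - D) ^ 3) *
          (1 - D) ^ 2 / 2 := by
  have hD0 : 0 < D := by linarith
  have hy : 0 < y := lt_of_lt_of_le hD0 hDy
  have hS : s ≤ (1 + D ^ 2) / 2 := by linarith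
  have hD1 : D ≤ 1 := le_trans hDy (le_trans hys hs1)
  -- the term with `y`
  have key : D / y * (3 / 8 - D ^ 2 / 4 - 3 / 4 * D) - 3 / 16 * y ^ 2 ≤
      (3 / 8 - D ^ 2 / 4 - 3 / 4 * D) - 3 / 16 * D ^ 2
        + max 0 (1 / 4 - (1 - D) / 4 - 3 / 8 * (1 - D) ^ 2 - 3 / 8 * (1 - D) ^ 3) *
          (1 - D) ^ 2 / 2 := by
    set m : ℝ := max 0 (1 / 4 - (1 - D) / 4 - 3 / 8 * (1 - D) ^ 2 - 3 / 8 * (1 - D) ^ 3) with hm
    have hm0 : (0 : ℝ) ≤ m := le_max_left _ _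
    have hm1 : 1 / 4 - (1 - D) / 4 - 3 / 8 * (1 - D) ^ 2 - 3 / 8 * (1 - D) ^ 3 ≤ m :=
      le_max_right _ _
    have hy2 : D ^ 2 ≤ y ^ 2 := by nlinarith
    rcases le_or_gt 0 (3 / 8 - D ^ 2 / 4 - 3 / 4 * D) with hk | hk
    · have h1 : D / y ≤ 1 := (div_le_one hy).2 hDy
      have h2 : 0 ≤ max 0 (1 / 4 - (1 - D) / 4 - 3 / 8 * (1 - D) ^ 2 - 3 / 8 * (1 - D) ^ 3) *
          (1 - D) ^ 2 / 2 := by positivity
      nlinarith
    · have h1 : 1 - (y - D) / D ≤ D / y := by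
        rw [le_div_iff₀ hy]
        have : (1 - (y - D) / D) * y = D - (y - D) ^ 2 / D := by
          field_simp
          ring
        rw [this]
        have : 0 ≤ (y - D) ^ 2 / D := by positivity
        linarith
      have h2 : D / y * (3 / 8 - D ^ 2 / 4 - 3 / 4 * D) ≤
          (1 - (y - D) / D) * (3 / 8 - D ^ 2 / 4 - 3 / 4 * D) :=
        mul_le_mul_of_nonpos_right h1 hk.le
      have h3 : (1 - (y - D) / D) * (3 / 8 - D ^ 2 / 4 - 3 / 4 * D) =
          (3 / 8 - D ^ 2 / 4 - 3 / 4 * D) + (y - D) * (3 / 4 + D / 4 - 3 / (8 * D)) := by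
        field_simp
        ring
      have h4 : y ^ 2 ≥ D ^ 2 + 2 * D * (y - D) := by nlinarith [sq_nonneg (y - D)]
      -- coefficient of `y - D`
      have h5 : (3 / 4 + D / 4 - 3 / (8 * D)) - 3 / 8 * D ≤ m := by
        have : 3 / (8 * D) ≥ 3 / 8 + 3 / 8 * (1 - D) + 3 / 8 * (1 - D) ^ 2
            + 3 / 8 * (1 - D) ^ 3 := by
          rw [ge_iff_le, le_div_iff₀ (by positivity)]
          nlinarith [pow_nonneg (sub_nonneg.2 hD1) 4]
        linarith
      have h6 : y - D ≤ (1 - D) ^ 2 / 2 := by nlinarith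
      have h7 : 0 ≤ y - D := by linarith
      have h8 : (y - D) * ((3 / 4 + D / 4 - 3 / (8 * D)) - 3 / 8 * D) ≤
          (y - D) * m := by
        exact mul_le_mul_of_nonneg_left h5 h7
      have h9 : (y - D) * m ≤
          (1 - D) ^ 2 / 2 * m :=
        mul_le_mul_of_nonneg_right h6 hm0
      nlinarith
  have hs0 : 0 < s := lt_of_lt_of_le hy hys
  have hs2 : s ^ 2 ≤ ((1 + D ^ 2) / 2) ^ 2 := by
    apply pow_le_pow_left₀ hs0.le hS
  have hDs : D * s ≤ D * ((1 + D ^ 2) / 2) := mul_le_mul_of_nonneg_left hS hD0.le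
  nlinarith

end KI3

/-- B6. KI3 -/
theorem specKI3 : SpecKI3 := by
  refine ⟨1 / 100, by norm_num, ?_⟩
  intro D y s hD hDy hys hs1 h2s
  have hy : 0 < y := lt_of_lt_of_le hD hDy
  have hS : s ≤ (1 + D ^ 2) / 2 := by linarith
  have hD1 : D ≤ 1 := le_trans hDy (le_trans hys hs1)
  have hs0 : 0 < s := lt_of_lt_of_le hy hys
  have hs2 : s ^ 2 ≤ ((1 + D ^ 2) / 2) ^ 2 := by
    apply pow_le_pow_left₀ hs0.le hS
  have hDs : D * s ≤ D * ((1 + D ^ 2) / 2) := mul_le_mul_of_nonneg_left hS hD.le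
  rcases lt_or_ge D (1 / 4) with h | h
  · refine ⟨2, by norm_num, ?_⟩
    have hk : 0 ≤ 3 / 8 - D ^ 2 / 4 - 3 / 4 * D := by nlinarith
    have h1 : D / y ≤ 1 := (div_le_one hy).2 hDy
    have h1' : D / y * (3 / 8 - D ^ 2 / 4 - 3 / 4 * D) ≤ (3 / 8 - D ^ 2 / 4 - 3 / 4 * D) := by
      nlinarith
    have hy2 : D ^ 2 ≤ y ^ 2 := by nlinarith
    have hq : D ^ 2 ≤ 1 / 16 := by nlinarith
    have hq3 : D * D ^ 2 ≤ 1 / 64 := by nlinarith
    have hq4 : (D ^ 2) ^ 2 ≤ 1 / 256 := by nlinarith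
    nlinarith
  · refine ⟨1, by norm_num, ?_⟩
    have hb := KI3.bound_one D y s h hDy hys hs1 h2s
    have h2 : 3 / 8 - D ^ 2 / 4 + D / 4 + D / y * (3 / 8 - D ^ 2 / 4 - 3 / 4 * D)
        + (1 * D + s / 1) / 4 + 3 / 8 * (1 * D * s + (3 * s ^ 2 - y ^ 2) / (2 * 1)) =
        3 / 8 - D ^ 2 / 4 + D / 4 + D / y * (3 / 8 - D ^ 2 / 4 - 3 / 4 * D)
        + (D + s) / 4 + 3 / 8 * (D * s + (3 * s ^ 2 - y ^ 2) / 2) := by
      norm_num
    rw [h2]
    refine le_trans hb ?_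
    have h1D : 0 ≤ 1 - D := by linarith
    set u : ℝ := 1 - D with hu
    have hDu : D = 1 - u := by rw [hu]; ring
    have h3 : 1 / 100 + max 0 (1 / 4 - u / 4 - 3 / 8 * u ^ 2 - 3 / 8 * u ^ 3) * u / 2 ≤
        (-1 + 3 * D + 21 * D ^ 2 + 9 * D ^ 3) / 64 := by
      rcases le_total (1 / 4 - u / 4 - 3 / 8 * u ^ 2 - 3 / 8 * u ^ 3) 0 with h0 | h0
      · rw [max_eq_left h0]
        have : 0 ≤ D - 1 / 4 := by linarith
        nlinarith [pow_nonneg hD.le 3, mul_nonneg this hD.le]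
      · rw [max_eq_right h0]
        have hu2 : u ≤ 1 / 2 := by
          by_contra hcon
          push Not at hcon
          nlinarith [pow_nonneg h1D 2, mul_nonneg h1D (sub_nonneg.2 hcon.le),
            mul_nonneg (mul_nonneg h1D h1D) (sub_nonneg.2 hcon.le)]
        rw [hDu]
        nlinarith [pow_nonneg h1D 2, pow_nonneg h1D 3, pow_nonneg h1D 4,
          mul_nonneg h1D (sub_nonneg.2 hu2), mul_nonneg (pow_nonneg h1D 2) (sub_nonneg.2 hu2)]
    nlinarith [mul_le_mul_of_nonneg_right h3 h1D]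

/-- B7. KI4 -/
theorem specKI4 : SpecKI4 := by
  refine ⟨16, by norm_num, ?_⟩
  intro D y s hD hDy hys hs1 h2s
  refine le_trans (KI3.bound_one D y s hD hDy hys hs1 h2s) ?_
  have hD1 : D ≤ 1 := le_trans hDy (le_trans hys hs1)
  have h1D : 0 ≤ 1 - D := by linarith
  have hD0 : 0 < D := by linarith
  have hr0 : 0 ≤ Real.sqrt D := Real.sqrt_nonneg D
  have hr2 : Real.sqrt D ^ 2 = D := Real.sq_sqrt hD0.le
  -- `√D ≥ D (1 + (1 - D) / 2)`
  have h1 : D * (1 + (1 - D) / 2) ≤ Real.sqrt D := by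
    apply Real.le_sqrt_of_sq_le
    have : D * (1 + (1 - D) / 2) ^ 2 ≤ 1 := by
      nlinarith [mul_nonneg h1D h1D, mul_nonneg (mul_nonneg h1D h1D) h1D]
    nlinarith
  have h2 : D ≤ Real.sqrt D := by nlinarith
  have hm : max 0 (1 / 4 - (1 - D) / 4 - 3 / 8 * (1 - D) ^ 2 - 3 / 8 * (1 - D) ^ 3) ≤
      1 / 4 :=
    max_le (by norm_num) (by nlinarith [pow_nonneg h1D 2, pow_nonneg h1D 3])
  have h3 : max 0 (1 / 4 - (1 - D) / 4 - 3 / 8 * (1 - D) ^ 2 - 3 / 8 * (1 - D) ^ 3) *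
      (1 - D) ^ 2 / 2 ≤ (1 - D) ^ 2 / 8 := by
    have := mul_le_mul_of_nonneg_right hm (sq_nonneg (1 - D))
    linarith
  have h4 : D * (16 * (1 - D) ^ 2) ≤ Real.sqrt D * (16 * (1 - D) ^ 2) :=
    mul_le_mul_of_nonneg_right h2 (by positivity)
  have h5 : 1 - (1 - D) * (-1 + 3 * D + 21 * D ^ 2 + 9 * D ^ 3) / 64 + (1 - D) ^ 2 / 8 ≤
      D * (1 + (1 - D) / 2) + D * (16 * (1 - D) ^ 2) := by
    have e : D * (1 + (1 - D) / 2) + D * (16 * (1 - D) ^ 2) -
        (1 - (1 - D) * (-1 + 3 * D + 21 * D ^ 2 + 9 * D ^ 3) / 64 + (1 - D) ^ 2 / 8) =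
        (1 - D) ^ 2 * (16 * D - (7 / 4 - 3 / 4 * (1 - D) + 9 / 64 * (1 - D) ^ 2)) := by
      ring
    have : 0 ≤ (1 - D) ^ 2 * (16 * D - (7 / 4 - 3 / 4 * (1 - D) + 9 / 64 * (1 - D) ^ 2)) := by
      apply mul_nonneg (sq_nonneg _)
      nlinarith
    linarith
  calc _ ≤ 1 - (1 - D) * (-1 + 3 * D + 21 * D ^ 2 + 9 * D ^ 3) / 64 + (1 - D) ^ 2 / 8 := by
        linarith
    _ ≤ D * (1 + (1 - D) / 2) + D * (16 * (1 - D) ^ 2) := h5
    _ ≤ Real.sqrt D + Real.sqrt D * (16 * (1 - D) ^ 2) := by linarith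
    _ = Real.sqrt D * (1 + 16 * (1 - D) ^ 2) := by ring

end MPf1e3
end

section
/-! MP_f1e3b4_an, module MAIN (helper10). -/
set_option autoImplicit false

open MeasureTheory Set Filter Topology
open scoped ENNReal ComplexConjugate

namespace MPf1e3.Main

theorem tau_pos {k : ℕ} (hk : 1 ≤ k) (m : ℕ) : 0 < tau k m ∧ tau k m < 1 := by
  have hn : (1 : ℝ) < (m : ℝ) + 2 := by
    have : (0 : ℝ) ≤ m := Nat.cast_nonneg m
    linarith
  have h1 : (1 : ℝ) < ((m : ℝ) + 2) ^ k := one_lt_pow₀ hn (by omega)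
  have h2 : 1 / ((m : ℝ) + 2) ^ k < 1 := (div_lt_one (by positivity)).2 h1
  have h3 : 0 < 1 / ((m : ℝ) + 2) ^ k := by positivity
  unfold tau
  exact ⟨by linarith, by linarith⟩

/-- **MAIN** -/
theorem specMain (hProb : SpecProb) (hKm : SpecKmeas) (hLim : SpecSecLim) (hSec : SpecSec)
    (hCS : SpecCS) (hMix : SpecMix) (hColl : SpecColl) (hPid : SpecPid) (hGood : SpecGood) :
    SpecMain := by
  obtain ⟨k, hk, hG⟩ := hGood
  unfold SpecMain
  rw [ENNReal.tendsto_nhds_zero]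
  intro ε hε
  -- a real number below ε
  obtain ⟨δ, hδ0, hδ⟩ : ∃ δ : ℝ, 0 < δ ∧ ENNReal.ofReal (2 * δ) ≤ ε := by
    by_cases h : ε = ⊤
    · exact ⟨1, one_pos, by rw [h]; exact le_top⟩
    · refine ⟨ε.toReal / 2, half_pos (ENNReal.toReal_pos hε.ne' h), ?_⟩
      rw [mul_div_cancel₀ _ (two_ne_zero), ENNReal.ofReal_toReal h]
  have hG' : ∀ᶠ m : ℕ in atTop, (Measure.pi fun _ : Fin (4 * m + 3) => nu (tau k m) m)
      (Coll (4 * m + 3) (m + 2))ᶜ ≤ ENNReal.ofReal δ :=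
    (ENNReal.tendsto_nhds_zero.1 hG) _ (by simpa using hδ0)
  filter_upwards [hG', hLim k hk (δ ^ 2) (by positivity)] with m h1 h2
  obtain ⟨ht0, ht1⟩ := tau_pos hk m
  have : IsProbabilityMeasure (GM (4 * m + 3) (m + 2)) := hProb.GM _ _
  have hE : MeasurableSet (Coll (4 * m + 3) (m + 2))ᶜ := (hColl.meas _ _).compl
  have h3 := hCS _ (GM (4 * m + 3) (m + 2)) (LL (tau k m)) δ (hKm.LL _ _ _) hδ0.le
    (hSec (tau k m) (4 * m + 3) m ht0 ht1).1 h2 _ hE
  refine h3.trans ?_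
  have h4 : ∫⁻ A in (Coll (4 * m + 3) (m + 2))ᶜ, LL (tau k m) A ∂(GM (4 * m + 3) (m + 2)) =
      (Measure.pi fun _ : Fin (4 * m + 3) => nu (tau k m) m) (Coll (4 * m + 3) (m + 2))ᶜ := by
    rw [← hPid (4 * m + 3) m (tau k m) ht0 ht1 _ hE]
    have hinv : ∀ V ∈ Matrix.unitaryGroup (Fin (m + 2)) ℂ, ∀ A : Fin (4 * m + 3) → Fin (m + 2) → ℂ,
        (Coll (4 * m + 3) (m + 2))ᶜ.indicator (fun _ => (1 : ℝ≥0∞))
          (fun i => Matrix.vecMul (A i) V) =
        (Coll (4 * m + 3) (m + 2))ᶜ.indicator (fun _ => (1 : ℝ≥0∞)) A := by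
      intro V hV A
      have h := hColl.inv (4 * m + 3) (m + 2) V hV A
      have h' : (fun i => Matrix.vecMul (A i) V) ∈ (Coll (4 * m + 3) (m + 2))ᶜ ↔
          A ∈ (Coll (4 * m + 3) (m + 2))ᶜ := not_congr h
      by_cases hA : A ∈ (Coll (4 * m + 3) (m + 2))ᶜ
      · rw [indicator_of_mem (h'.2 hA), indicator_of_mem hA]
      · rw [indicator_of_notMem (mt h'.1 hA), indicator_of_notMem hA]
    have h5 := hMix.mix (tau k m) (4 * m + 3) m ht0 ht1
      ((Coll (4 * m + 3) (m + 2))ᶜ.indicator fun _ => (1 : ℝ≥0∞))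
      (measurable_const.indicator hE) hinv
    have e : ∀ g : (Fin (4 * m + 3) → Fin (m + 2) → ℂ) → ℝ≥0∞,
        ∫⁻ A in (Coll (4 * m + 3) (m + 2))ᶜ, g A ∂(GM (4 * m + 3) (m + 2)) =
        ∫⁻ A, (Coll (4 * m + 3) (m + 2))ᶜ.indicator (fun _ => (1 : ℝ≥0∞)) A * g A
          ∂(GM (4 * m + 3) (m + 2)) := by
      intro g
      rw [← lintegral_indicator hE]
      refine lintegral_congr fun A => ?_
      by_cases hA : A ∈ (Coll (4 * m + 3) (m + 2))ᶜ
      · rw [indicator_of_mem hA, indicator_of_mem hA, one_mul]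
      · rw [indicator_of_notMem hA, indicator_of_notMem hA, zero_mul]
    rw [e, e, h5]
  rw [h4]
  calc _ ≤ ENNReal.ofReal δ + ENNReal.ofReal δ := add_le_add h1 le_rfl
    _ = ENNReal.ofReal (2 * δ) := by
        rw [← ENNReal.ofReal_add hδ0.le hδ0.le]
        congr 1
        ring
    _ ≤ ε := hδ

end MPf1e3.Main
end

section
/-! MP_f1e3b4_an, module NEWT (helper10): a near solution with a well conditioned derivative gives
an exact solution. -/
set_option autoImplicit false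

open scoped ComplexConjugate

namespace MPf1e3.Newt

variable {m : ℕ}

/-- the linear part of `x`: `a·x = a 0 + linX a w` -/
noncomputable def linX (a : Fin (m + 2) → ℂ) (w : Dir m) : ℂ :=
  a 0 * (w.1 : ℂ) + a 1 * w.2.1 + dot (tl a) w.2.2.1

/-- the linear part of `y`: `a·y = a 1 + linY a w` -/
noncomputable def linY (a : Fin (m + 2) → ℂ) (w : Dir m) : ℂ := dot (tl a) w.2.2.2

theorem dot_Xw (a : Fin (m + 2) → ℂ) (w : Dir m) : dot a (Xw w) = a 0 + linX a w := by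
  simp only [dot, Xw, linX, Fin.sum_univ_succ, Fin.cons_zero, Fin.cons_succ, tl]
  have : (Fin.succ 0 : Fin (m + 2)) = 1 := rfl
  rw [this]
  ring

theorem dot_Yw (a : Fin (m + 2) → ℂ) (w : Dir m) : dot a (Yw w) = a 1 + linY a w := by
  simp only [dot, Yw, linY, Fin.sum_univ_succ, Fin.cons_zero, Fin.cons_succ, tl]
  have : (Fin.succ 0 : Fin (m + 2)) = 1 := rfl
  rw [this]
  ring

theorem dot_sub (a u v : Fin m → ℂ) : dot a (u - v) = dot a u - dot a v := by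
  simp [dot, mul_sub, Finset.sum_sub_distrib]

theorem linX_sub (a : Fin (m + 2) → ℂ) (w w' : Dir m) :
    linX a (w - w') = linX a w - linX a w' := by
  simp only [linX, Prod.fst_sub, Prod.snd_sub, dot_sub]
  push_cast
  ring

theorem linY_sub (a : Fin (m + 2) → ℂ) (w w' : Dir m) :
    linY a (w - w') = linY a w - linY a w' := by
  simp only [linY, Prod.snd_sub, dot_sub]

theorem norm_dot_le {n : ℕ} (a u : Fin n → ℂ) {H X : ℝ} (hH : 0 ≤ H) (ha : ∀ j, ‖a j‖ ≤ H)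
    (hu : ∀ j, ‖u j‖ ≤ X) : ‖dot a u‖ ≤ n * (H * X) := by
  have h1 : ‖dot a u‖ ≤ ∑ j, ‖a j * u j‖ := norm_sum_le _ _
  refine h1.trans ?_
  calc ∑ j, ‖a j * u j‖ ≤ ∑ _j : Fin n, H * X := by
        refine Finset.sum_le_sum fun j _ => ?_
        rw [norm_mul]
        exact mul_le_mul (ha j) (hu j) (norm_nonneg _) hH
    _ = n * (H * X) := by simp

theorem norm_parts (w : Dir m) : |w.1| ≤ ‖w‖ ∧ ‖w.2.1‖ ≤ ‖w‖ ∧ (∀ j, ‖w.2.2.1 j‖ ≤ ‖w‖) ∧
    ∀ j, ‖w.2.2.2 j‖ ≤ ‖w‖ := by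
  have h1 : ‖w.2‖ ≤ ‖w‖ := norm_snd_le w
  have h2 : ‖w.2.2‖ ≤ ‖w.2‖ := norm_snd_le w.2
  refine ⟨?_, (norm_fst_le w.2).trans h1, fun j => ?_, fun j => ?_⟩
  · have := norm_fst_le w
    rwa [Real.norm_eq_abs] at this
  · exact (norm_le_pi_norm w.2.2.1 j).trans ((norm_fst_le w.2.2).trans (h2.trans h1))
  · exact (norm_le_pi_norm w.2.2.2 j).trans ((norm_snd_le w.2.2).trans (h2.trans h1))

theorem norm_linX (a : Fin (m + 2) → ℂ) (w : Dir m) {H : ℝ} (hH : 0 ≤ H) (ha : ∀ j, ‖a j‖ ≤ H) :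
    ‖linX a w‖ ≤ ((m + 2) * H) * ‖w‖ := by
  obtain ⟨h1, h2, h3, -⟩ := norm_parts w
  have e0 : ‖a 0 * (w.1 : ℂ)‖ ≤ H * ‖w‖ := by
    rw [norm_mul, Complex.norm_real, Real.norm_eq_abs]
    exact mul_le_mul (ha 0) h1 (abs_nonneg _) hH
  have e1 : ‖a 1 * w.2.1‖ ≤ H * ‖w‖ := by
    rw [norm_mul]
    exact mul_le_mul (ha 1) h2 (norm_nonneg _) hH
  have e2 : ‖dot (tl a) w.2.2.1‖ ≤ m * (H * ‖w‖) :=
    norm_dot_le _ _ hH (fun j => ha _) h3
  calc ‖linX a w‖ ≤ ‖a 0 * (w.1 : ℂ)‖ + ‖a 1 * w.2.1‖ + ‖dot (tl a) w.2.2.1‖ :=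
        norm_add₃_le
    _ ≤ H * ‖w‖ + H * ‖w‖ + m * (H * ‖w‖) := add_le_add_three e0 e1 e2
    _ = _ := by ring

theorem norm_linY (a : Fin (m + 2) → ℂ) (w : Dir m) {H : ℝ} (hH : 0 ≤ H) (ha : ∀ j, ‖a j‖ ≤ H) :
    ‖linY a w‖ ≤ ((m + 2) * H) * ‖w‖ := by
  obtain ⟨-, -, -, h4⟩ := norm_parts w
  have e2 : ‖dot (tl a) w.2.2.2‖ ≤ m * (H * ‖w‖) := norm_dot_le _ _ hH (fun j => ha _) h4
  refine e2.trans ?_
  have : 0 ≤ H * ‖w‖ := by positivity
  nlinarith

theorem normSq_add' (a b : ℂ) : ‖a + b‖ ^ 2 = ‖a‖ ^ 2 + 2 * (conj a * b).re + ‖b‖ ^ 2 := by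
  rw [← Complex.normSq_eq_norm_sq, ← Complex.normSq_eq_norm_sq, ← Complex.normSq_eq_norm_sq,
    Complex.normSq_apply, Complex.normSq_apply, Complex.normSq_apply]
  simp [Complex.mul_re]
  ring

theorem jrow_eq (a : Fin (m + 2) → ℂ) (w : Dir m) :
    jrow a w = (conj (a 0) * linX a w).re - (conj (a 1) * linY a w).re := by
  have h : ‖a 0‖ ^ 2 * w.1 = (conj (a 0) * (a 0 * (w.1 : ℂ))).re := by
    rw [← mul_assoc, mul_comm (conj (a 0)) (a 0), Complex.mul_conj, ← Complex.ofReal_mul,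
      Complex.ofReal_re, Complex.normSq_eq_norm_sq]
  rw [jrow, h, linX, linY, mul_add, mul_add, Complex.add_re, Complex.add_re, ← mul_assoc (conj (a 0)) (a 1)]

/-- the rows as linear maps -/
noncomputable def jlin (A : Fin (4 * m + 3) → Fin (m + 2) → ℂ) :
    Dir m →ₗ[ℝ] (Fin (4 * m + 3) → ℝ) where
  toFun w i := jrow (A i) w
  map_add' w w' := by
    ext i
    simp only [jrow, Prod.fst_add, Prod.snd_add, dot, Pi.add_apply, mul_add, Finset.sum_add_distrib,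
      Complex.add_re]
    ring
  map_smul' c w := by
    ext i
    simp only [jrow, Prod.smul_fst, Prod.smul_snd, dot, Pi.smul_apply, RingHom.id_apply,
      smul_eq_mul, Complex.real_smul]
    have e1 : (conj (A i 0) * A i 1 * ((c : ℂ) * w.2.1)).re =
        c * (conj (A i 0) * A i 1 * w.2.1).re := by
      rw [show conj (A i 0) * A i 1 * ((c : ℂ) * w.2.1) = (c : ℂ) * (conj (A i 0) * A i 1 * w.2.1) by
        ring, Complex.re_ofReal_mul]
    have e2 : ∀ (z : ℂ) (u : Fin m → ℂ), (conj z * ∑ j, tl (A i) j * ((c : ℂ) * u j)).re =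
        c * (conj z * ∑ j, tl (A i) j * u j).re := by
      intro z u
      rw [← Complex.re_ofReal_mul]
      congr 1
      rw [Finset.mul_sum, Finset.mul_sum, Finset.mul_sum]
      exact Finset.sum_congr rfl fun j _ => by ring
    rw [e1, e2, e2]
    ring

/-- the map whose zero is wanted -/
noncomputable def fmap (A : Fin (4 * m + 3) → Fin (m + 2) → ℂ) (w : Dir m) :
    Fin (4 * m + 3) → ℝ :=
  fun i => (‖dot (A i) (Xw w)‖ ^ 2 - ‖dot (A i) (Yw w)‖ ^ 2) / 2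

theorem diff_bound (a b : ℂ) {α X Y D : ℝ} (ha : ‖a‖ ≤ α * X) (hb : ‖b‖ ≤ α * Y)
    (hd : ‖a - b‖ ≤ α * D) : |‖a‖ ^ 2 - ‖b‖ ^ 2| ≤ α ^ 2 * (X + Y) * D := by
  have h1 : |‖a‖ - ‖b‖| ≤ ‖a - b‖ := abs_norm_sub_norm_le a b
  have h2 : ‖a‖ ^ 2 - ‖b‖ ^ 2 = (‖a‖ + ‖b‖) * (‖a‖ - ‖b‖) := by ring
  rw [h2, abs_mul, abs_of_nonneg (add_nonneg (norm_nonneg a) (norm_nonneg b))]
  calc (‖a‖ + ‖b‖) * |‖a‖ - ‖b‖| ≤ (α * X + α * Y) * (α * D) := by
        apply mul_le_mul (add_le_add ha hb) (h1.trans hd) (abs_nonneg _)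
        exact add_nonneg ((norm_nonneg a).trans ha) ((norm_nonneg b).trans hb)
    _ = _ := by ring

theorem fmap_sub (A : Fin (4 * m + 3) → Fin (m + 2) → ℂ) (x y : Dir m) (i : Fin (4 * m + 3)) :
    (fmap A x - fmap A y - jlin A (x - y)) i =
      ((‖linX (A i) x‖ ^ 2 - ‖linX (A i) y‖ ^ 2) - (‖linY (A i) x‖ ^ 2 - ‖linY (A i) y‖ ^ 2)) / 2 := by
  simp only [Pi.sub_apply, fmap, jlin, LinearMap.coe_mk, AddHom.coe_mk, dot_Xw, dot_Yw, jrow_eq]
  rw [normSq_add', normSq_add', normSq_add', normSq_add', linX_sub, linY_sub, mul_sub, mul_sub,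
    Complex.sub_re, Complex.sub_re]
  ring

/-- **NEWT** -/
theorem specNewt : SpecNewt := by
  intro m A H σ δ hH hσ hσ1 hδ hA h0 hJ hsm
  have hH0 : 0 ≤ H := by linarith
  set L : ℝ := ((m : ℝ) + 2) ^ 2 * H ^ 2 with hL
  have hLpos : 0 < L := by positivity
  have hL1 : ((m : ℝ) + 2) ^ 2 ≤ L := by
    have : (1 : ℝ) ≤ H ^ 2 := by nlinarith
    have h2 : (0 : ℝ) ≤ ((m : ℝ) + 2) ^ 2 := by positivity
    nlinarith
  -- the derivative
  have hJ' : ∀ w, σ * ‖w‖ ≤ ‖jlin A w‖ := by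
    intro w
    by_cases hw : w = 0
    · subst hw; simp
    · obtain ⟨i, hi⟩ := hJ w hw
      have : ‖jlin A w i‖ ≤ ‖jlin A w‖ := norm_le_pi_norm _ i
      rw [Real.norm_eq_abs] at this
      exact hi.le.trans this
  have hinj : Function.Injective (jlin A) := by
    rw [← LinearMap.ker_eq_bot, LinearMap.ker_eq_bot']
    intro w hw
    have h1 := hJ' w
    rw [hw, norm_zero] at h1
    have h2 : ‖w‖ ≤ 0 := by
      by_contra h
      push Not at h
      nlinarith [mul_pos hσ h]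
    exact norm_le_zero_iff.1 h2
  have hfin : Module.finrank ℝ (Dir m) = Module.finrank ℝ (Fin (4 * m + 3) → ℝ) := by
    rw [Module.finrank_fin_fun, Module.finrank_prod, Module.finrank_prod, Module.finrank_prod,
      Module.finrank_pi_fintype, Complex.finrank_real_complex, Module.finrank_self]
    simp
    ring
  have hsur : Function.Surjective (jlin A) :=
    (LinearMap.injective_iff_surjective_of_finrank_eq_finrank hfin).1 hinj
  choose g hg using hsur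
  set f' : Dir m →L[ℝ] (Fin (4 * m + 3) → ℝ) := LinearMap.toContinuousLinearMap (jlin A) with hf'
  have hbound : ∀ y, ‖g y‖ ≤ σ⁻¹ * ‖y‖ := by
    intro y
    have h1 := hJ' (g y)
    rw [hg] at h1
    rw [inv_mul_eq_div, le_div_iff₀ hσ]
    linarith
  have happ : ApproximatesLinearOn (fmap A) f' (Metric.closedBall (0 : Dir m) (σ / (4 * L)))
      ⟨σ / 2, by positivity⟩ := by
    intro x hx y hy
    have hx' : ‖x‖ ≤ σ / (4 * L) := by simpa using hx
    have hy' : ‖y‖ ≤ σ / (4 * L) := by simpa using hy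
    change ‖fmap A x - fmap A y - jlin A (x - y)‖ ≤ σ / 2 * ‖x - y‖
    rw [pi_norm_le_iff_of_nonneg (by positivity)]
    intro i
    rw [fmap_sub, Real.norm_eq_abs]
    have b1 := diff_bound (linX (A i) x) (linX (A i) y) (norm_linX (A i) x hH0 (hA i))
      (norm_linX (A i) y hH0 (hA i)) (by rw [← linX_sub]; exact norm_linX (A i) _ hH0 (hA i))
    have b2 := diff_bound (linY (A i) x) (linY (A i) y) (norm_linY (A i) x hH0 (hA i))
      (norm_linY (A i) y hH0 (hA i)) (by rw [← linY_sub]; exact norm_linY (A i) _ hH0 (hA i))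
    have e : (((m : ℝ) + 2) * H) ^ 2 = L := by rw [hL]; ring
    rw [e] at b1 b2
    have h3 : L * (‖x‖ + ‖y‖) ≤ σ / 2 := by
      calc L * (‖x‖ + ‖y‖) ≤ L * (σ / (4 * L) + σ / (4 * L)) := by gcongr
        _ = σ / 2 := by field_simp; norm_num
    calc |((‖linX (A i) x‖ ^ 2 - ‖linX (A i) y‖ ^ 2) -
          (‖linY (A i) x‖ ^ 2 - ‖linY (A i) y‖ ^ 2)) / 2|
        = |(‖linX (A i) x‖ ^ 2 - ‖linX (A i) y‖ ^ 2) -
          (‖linY (A i) x‖ ^ 2 - ‖linY (A i) y‖ ^ 2)| / 2 := by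
          rw [abs_div, abs_of_pos (by norm_num : (0 : ℝ) < 2)]
      _ ≤ (L * (‖x‖ + ‖y‖) * ‖x - y‖ + L * (‖x‖ + ‖y‖) * ‖x - y‖) / 2 := by
          gcongr
          exact (abs_sub _ _).trans (add_le_add b1 b2)
      _ = L * (‖x‖ + ‖y‖) * ‖x - y‖ := by ring
      _ ≤ σ / 2 * ‖x - y‖ := by gcongr
  have key := happ.surjOn_closedBall_of_nonlinearRightInverse
    (f'symm := ⟨g, ⟨σ⁻¹, by positivity⟩, hbound, hg⟩)
    (ε := σ / (4 * L)) (b := 0) (by positivity) subset_rfl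
  have h0' : (0 : Fin (4 * m + 3) → ℝ) ∈ Metric.closedBall (fmap A 0)
      ((((⟨σ⁻¹, by positivity⟩ : NNReal) : ℝ)⁻¹ - ((⟨σ / 2, by positivity⟩ : NNReal) : ℝ)) *
        (σ / (4 * L))) := by
    rw [Metric.mem_closedBall, dist_comm, dist_zero_right]
    change _ ≤ ((σ⁻¹)⁻¹ - σ / 2) * (σ / (4 * L))
    rw [inv_inv]
    have e : (σ - σ / 2) * (σ / (4 * L)) = σ ^ 2 / (8 * L) := by field_simp; ring
    rw [e]
    have h1 : δ ≤ σ ^ 2 / (8 * L) := by
      rw [le_div_iff₀ (by positivity)]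
      calc δ * (8 * L) = 8 * ((m : ℝ) + 2) ^ 2 * H ^ 2 * δ := by rw [hL]; ring
        _ ≤ σ ^ 2 := hsm
    refine le_trans ?_ h1
    rw [pi_norm_le_iff_of_nonneg hδ]
    intro i
    have e1 : fmap A 0 i = (‖A i 0‖ ^ 2 - ‖A i 1‖ ^ 2) / 2 := by
      simp only [fmap, dot_Xw, dot_Yw]
      simp [linX, linY, dot]
    rw [e1, Real.norm_eq_abs, abs_div, abs_of_pos (by norm_num : (0 : ℝ) < 2)]
    have := h0 i
    have h2 : 0 ≤ |‖A i 0‖ ^ 2 - ‖A i 1‖ ^ 2| := abs_nonneg _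
    linarith
  obtain ⟨w, hw, hw'⟩ := key h0'
  refine ⟨w, ?_, fun i => ?_⟩
  · have h1 : ‖w‖ ≤ σ / (4 * L) := by simpa using hw
    refine h1.trans ?_
    rw [div_le_div_iff₀ (by positivity) (by positivity)]
    nlinarith
  · have h1 : fmap A w i = 0 := congrFun hw' i
    have h2 : ‖dot (A i) (Xw w)‖ ^ 2 = ‖dot (A i) (Yw w)‖ ^ 2 := by
      have : (‖dot (A i) (Xw w)‖ ^ 2 - ‖dot (A i) (Yw w)‖ ^ 2) / 2 = 0 := h1
      linarith
    exact (sq_eq_sq₀ (norm_nonneg _) (norm_nonneg _)).1 h2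

end MPf1e3.Newt
end

section
/-! MP_f1e3b4_an, module POS (helper90): positivity of the integrand of `kap`. -/
set_option autoImplicit false

open MeasureTheory ProbabilityTheory Filter Topology Set
open scoped ENNReal ComplexConjugate

namespace MPf1e3
namespace PosM

lemma norm_ee (φ : ℝ) : ‖ee φ‖ = 1 := Complex.norm_exp_ofReal_mul_I φ

lemma sq_ee (φ : ℝ) : (ee φ).re ^ 2 + (ee φ).im ^ 2 = 1 := by
  have h := norm_ee φ
  have h2 : ‖ee φ‖ ^ 2 = 1 := by rw [h]; norm_num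
  rw [← Complex.normSq_eq_norm_sq, Complex.normSq_apply] at h2
  nlinarith

/-- parallelogram law with a phase -/
lemma par (e p q : ℂ) (he : ‖e‖ = 1) :
    ‖p - e * q‖ ^ 2 + ‖p + e * q‖ ^ 2 = 2 * (‖p‖ ^ 2 + ‖q‖ ^ 2) := by
  have h1 : ‖p - e * q‖ ^ 2 + ‖p + e * q‖ ^ 2 = 2 * (‖p‖ ^ 2 + ‖e * q‖ ^ 2) := by
    simp only [← Complex.normSq_eq_norm_sq, Complex.normSq_apply, Complex.add_re, Complex.add_im,
      Complex.sub_re, Complex.sub_im]
    ring
  rw [h1, norm_mul, he, one_mul]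

/-- the algebraic identity behind everything -/
lemma alg (g b c d : ℂ) :
    (1 - (‖g‖ ^ 2 + ‖b‖ ^ 2)) * (1 - (‖g‖ ^ 2 + ‖c‖ ^ 2)) -
      (1 - (‖g‖ ^ 2 + ‖b‖ ^ 2 + ‖c‖ ^ 2 + ‖d‖ ^ 2) + ‖g * d - b * c‖ ^ 2) * (1 - ‖g‖ ^ 2) =
    ‖d - conj g * (g * d - b * c)‖ ^ 2 := by
  simp only [← Complex.normSq_eq_norm_sq, Complex.normSq_apply, Complex.add_re, Complex.add_im,
    Complex.sub_re, Complex.sub_im, Complex.mul_re, Complex.mul_im, Complex.conj_re,
    Complex.conj_im]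
  ring

/-- Gram identity for columns -/
lemma alg2 (g b c d : ℂ) :
    1 - (‖g‖ ^ 2 + ‖b‖ ^ 2 + ‖c‖ ^ 2 + ‖d‖ ^ 2) + ‖g * d - b * c‖ ^ 2 =
    (1 - (‖g‖ ^ 2 + ‖c‖ ^ 2)) * (1 - (‖b‖ ^ 2 + ‖d‖ ^ 2)) - ‖conj g * b + conj c * d‖ ^ 2 := by
  simp only [← Complex.normSq_eq_norm_sq, Complex.normSq_apply, Complex.add_re, Complex.add_im,
    Complex.sub_re, Complex.sub_im, Complex.mul_re, Complex.mul_im, Complex.conj_re,
    Complex.conj_im]
  ring

/-- the matrix in the rotated bases -/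
noncomputable def gr (C : OM) (φ ψ : ℝ) : ℂ :=
  ((C.a - ee ψ * C.b) - conj (ee φ) * (C.c - ee ψ * C.d)) / 2
/-- see `gr` -/
noncomputable def br (C : OM) (φ ψ : ℝ) : ℂ :=
  ((C.a + ee ψ * C.b) - conj (ee φ) * (C.c + ee ψ * C.d)) / 2
/-- see `gr` -/
noncomputable def cr (C : OM) (φ ψ : ℝ) : ℂ :=
  ((C.a - ee ψ * C.b) + conj (ee φ) * (C.c - ee ψ * C.d)) / 2
/-- see `gr` -/
noncomputable def dr (C : OM) (φ ψ : ℝ) : ℂ :=
  ((C.a + ee ψ * C.b) + conj (ee φ) * (C.c + ee ψ * C.d)) / 2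

lemma norm_half_sq (z : ℂ) : ‖z / 2‖ ^ 2 = ‖z‖ ^ 2 / 4 := by
  rw [norm_div]
  norm_num
  ring

lemma gg_eq (C : OM) (φ ψ : ℝ) : C.gg φ ψ = ‖gr C φ ψ‖ ^ 2 := by
  unfold gr OM.gg
  rw [norm_half_sq]

lemma norm_cee (φ : ℝ) : ‖conj (ee φ)‖ = 1 := by rw [RCLike.norm_conj, norm_ee]

lemma yy_eq (C : OM) (φ ψ : ℝ) : C.yy ψ = ‖gr C φ ψ‖ ^ 2 + ‖cr C φ ψ‖ ^ 2 := by
  unfold gr cr OM.yy
  rw [norm_half_sq, norm_half_sq]
  have := par (conj (ee φ)) (C.a - ee ψ * C.b) (C.c - ee ψ * C.d) (norm_cee φ)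
  linarith

lemma xx_eq (C : OM) (φ ψ : ℝ) : C.xx φ = ‖gr C φ ψ‖ ^ 2 + ‖br C φ ψ‖ ^ 2 := by
  have h1 : ∀ p q : ℂ, ‖conj p - ee φ * conj q‖ = ‖p - conj (ee φ) * q‖ := by
    intro p q
    rw [← RCLike.norm_conj (p - conj (ee φ) * q), map_sub, map_mul, Complex.conj_conj]
  unfold gr br OM.xx OM.yy OM.adj
  simp only
  rw [norm_half_sq, norm_half_sq, h1, h1]
  have := par (ee ψ) (C.a - conj (ee φ) * C.c) (C.b - conj (ee φ) * C.d) (norm_ee ψ)
  have e1 : (C.a - conj (ee φ) * C.c) - ee ψ * (C.b - conj (ee φ) * C.d) =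
      (C.a - ee ψ * C.b) - conj (ee φ) * (C.c - ee ψ * C.d) := by ring
  have e2 : (C.a - conj (ee φ) * C.c) + ee ψ * (C.b - conj (ee φ) * C.d) =
      (C.a + ee ψ * C.b) - conj (ee φ) * (C.c + ee ψ * C.d) := by ring
  rw [e1, e2] at this
  linarith

lemma fr_eq (C : OM) (φ ψ : ℝ) : C.fr =
    ‖gr C φ ψ‖ ^ 2 + ‖br C φ ψ‖ ^ 2 + ‖cr C φ ψ‖ ^ 2 + ‖dr C φ ψ‖ ^ 2 := by
  unfold gr br cr dr OM.fr
  simp only [norm_half_sq]
  have h1 := par (conj (ee φ)) (C.a - ee ψ * C.b) (C.c - ee ψ * C.d) (norm_cee φ)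
  have h2 := par (conj (ee φ)) (C.a + ee ψ * C.b) (C.c + ee ψ * C.d) (norm_cee φ)
  have h3 := par (ee ψ) C.a C.b (norm_ee ψ)
  have h4 := par (ee ψ) C.c C.d (norm_ee ψ)
  linarith

lemma det_eq (C : OM) (φ ψ : ℝ) : ‖gr C φ ψ * dr C φ ψ - br C φ ψ * cr C φ ψ‖ =
    ‖C.a * C.d - C.b * C.c‖ := by
  have h : gr C φ ψ * dr C φ ψ - br C φ ψ * cr C φ ψ =
      conj (ee φ) * ee ψ * (C.a * C.d - C.b * C.c) := by
    unfold gr br cr dr
    ring
  rw [h, norm_mul, norm_mul, norm_cee, norm_ee, one_mul, one_mul]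

lemma dl_eq (C : OM) (φ ψ : ℝ) : C.dl =
    1 - (‖gr C φ ψ‖ ^ 2 + ‖br C φ ψ‖ ^ 2 + ‖cr C φ ψ‖ ^ 2 + ‖dr C φ ψ‖ ^ 2) +
      ‖gr C φ ψ * dr C φ ψ - br C φ ψ * cr C φ ψ‖ ^ 2 := by
  unfold OM.dl
  rw [det_eq, fr_eq C φ ψ]

/-- `(1 - x)(1 - y) - Δ (1 - g)` is a square -/
lemma sq_eq (C : OM) (φ ψ : ℝ) : (1 - C.xx φ) * (1 - C.yy ψ) - C.dl * (1 - C.gg φ ψ) =
    ‖dr C φ ψ - conj (gr C φ ψ) * (gr C φ ψ * dr C φ ψ - br C φ ψ * cr C φ ψ)‖ ^ 2 := by
  rw [dl_eq C φ ψ, gg_eq, xx_eq C φ ψ, yy_eq C φ ψ, ← alg]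

lemma sq (C : OM) (φ ψ : ℝ) : C.dl * (1 - C.gg φ ψ) ≤ (1 - C.xx φ) * (1 - C.yy ψ) := by
  have h := sq_eq C φ ψ
  have h2 : 0 ≤ ‖dr C φ ψ - conj (gr C φ ψ) *
    (gr C φ ψ * dr C φ ψ - br C φ ψ * cr C φ ψ)‖ ^ 2 := by positivity
  linarith

lemma gy (C : OM) (φ ψ : ℝ) : C.gg φ ψ ≤ C.yy ψ ∧ C.gg φ ψ ≤ C.xx φ := by
  rw [gg_eq, xx_eq C φ ψ, yy_eq C φ ψ]
  constructor
  · have : 0 ≤ ‖cr C φ ψ‖ ^ 2 := by positivity
    linarith
  · have : 0 ≤ ‖br C φ ψ‖ ^ 2 := by positivity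
    linarith

lemma dy (C : OM) (hC : C.Ctr) (ψ : ℝ) : C.dl ≤ 1 - C.yy ψ := by
  obtain ⟨h0, h2⟩ := hC
  have e1 := dl_eq C 0 ψ
  rw [alg2] at e1
  have e2 := yy_eq C 0 ψ
  have e3 := fr_eq C 0 ψ
  set nf := 1 - (‖gr C 0 ψ‖ ^ 2 + ‖cr C 0 ψ‖ ^ 2) with hnf
  set ne := 1 - (‖br C 0 ψ‖ ^ 2 + ‖dr C 0 ψ‖ ^ 2) with hne
  have h3 : 0 ≤ ‖conj (gr C 0 ψ) * br C 0 ψ + conj (cr C 0 ψ) * dr C 0 ψ‖ ^ 2 := by positivity
  have h4 : 0 < nf + ne := by rw [hnf, hne]; linarith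
  have h5 : C.dl ≤ nf * ne := by linarith
  have h6 : 0 < nf * ne := by linarith
  have h7 : ne ≤ 1 := by
    rw [hne]
    have : 0 ≤ ‖br C 0 ψ‖ ^ 2 + ‖dr C 0 ψ‖ ^ 2 := by positivity
    linarith
  have h8 : 0 < nf := by
    by_contra hcon
    push Not at hcon
    have : ne < 0 := by
      by_contra hne'
      push Not at hne'
      nlinarith
    nlinarith
  have h9 : 1 - C.yy ψ = nf := by rw [e2, hnf]
  rw [h9]
  nlinarith

lemma adj_dl (C : OM) : C.adj.dl = C.dl := by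
  have h : ‖C.adj.a * C.adj.d - C.adj.b * C.adj.c‖ = ‖C.a * C.d - C.b * C.c‖ := by
    unfold OM.adj
    simp only
    rw [← map_mul, ← map_mul, ← map_sub, RCLike.norm_conj, mul_comm C.c C.b]
  unfold OM.dl
  rw [h]
  unfold OM.adj OM.fr
  simp only [RCLike.norm_conj]
  ring

lemma adj_fr (C : OM) : C.adj.fr = C.fr := by
  unfold OM.adj OM.fr
  simp only [RCLike.norm_conj]
  ring

lemma adj_ctr (C : OM) (h : C.Ctr) : C.adj.Ctr := by
  unfold OM.Ctr at h ⊢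
  rwa [adj_dl, adj_fr]

lemma adj_adj (C : OM) : C.adj.adj = C := by
  unfold OM.adj
  simp

lemma dx (C : OM) (hC : C.Ctr) (φ : ℝ) : C.dl ≤ 1 - C.xx φ ∧ C.dl ≤ 1 - C.yy φ := by
  refine ⟨?_, dy C hC φ⟩
  have := dy C.adj (adj_ctr C hC) φ
  rwa [adj_dl] at this

lemma Ph_nonneg (C : OM) (hC : C.Ctr) (φ ψ : ℝ) : 0 ≤ C.Ph φ ψ := by
  have h0 : 0 < C.dl := hC.1
  have h1 : C.dl ≤ 1 - C.gg φ ψ := by
    have := (gy C φ ψ).1
    have := (dx C hC ψ).2
    linarith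
  have h2 : 0 < 1 - C.gg φ ψ := by linarith
  have h3 := sq C φ ψ
  unfold OM.Ph
  have h4 : C.dl / (1 - C.gg φ ψ) ^ 2 ≤
      2 * (1 - C.xx φ) * (1 - C.yy ψ) / (1 - C.gg φ ψ) ^ 3 := by
    rw [div_le_div_iff₀ (by positivity) (by positivity)]
    have h5 : 0 ≤ C.dl * (1 - C.gg φ ψ) := by positivity
    have h6 : C.dl * (1 - C.gg φ ψ) ≤ 2 * (1 - C.xx φ) * (1 - C.yy ψ) := by linarith
    calc C.dl * (1 - C.gg φ ψ) ^ 3 = C.dl * (1 - C.gg φ ψ) * (1 - C.gg φ ψ) ^ 2 := by ring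
      _ ≤ 2 * (1 - C.xx φ) * (1 - C.yy ψ) * (1 - C.gg φ ψ) ^ 2 :=
        mul_le_mul_of_nonneg_right h6 (by positivity)
  linarith

end PosM

theorem specPos : SpecPos where
  sq := PosM.sq
  gy := PosM.gy
  dx := fun C hC φ => PosM.dx C hC φ
  Ph := fun C hC φ ψ => PosM.Ph_nonneg C hC φ ψ
  kap := fun C hC => integral_nonneg fun ψ => integral_nonneg fun φ => PosM.Ph_nonneg C hC φ ψ
  adj := fun C => ⟨PosM.adj_dl C, PosM.adj_fr C, PosM.adj_ctr C, fun φ => ⟨rfl, by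
    show C.adj.adj.yy φ = C.yy φ
    rw [PosM.adj_adj]⟩⟩

end MPf1e3
end

section
/-! Problem MP_f1e3b4_an, module D5 QUAD (and small ball for the cosine). -/
set_option autoImplicit false

open MeasureTheory ProbabilityTheory Filter Topology Set
open scoped ENNReal ComplexConjugate

namespace MPf1e3

theorem specQuad : SpecQuad := by
  intro A b d t hA ht
  set h := t / |A| with hh
  have hApos : 0 < |A| := abs_pos.2 hA
  have hhpos : 0 < h := div_pos ht hApos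
  set c := -b / (2 * A) with hc
  set κ := -(d - b ^ 2 / (4 * A)) / A with hκ
  have key : ∀ r : ℝ, A * r ^ 2 + b * r + d = A * ((r - c) ^ 2 - κ) := by
    intro r
    rw [hc, hκ]
    field_simp
    ring
  set l := Real.sqrt (κ - h) with hl
  set u := Real.sqrt (κ + h) with hu
  have hsub : {r : ℝ | |A * r ^ 2 + b * r + d| ≤ t} ⊆ Icc (c + l) (c + u) ∪ Icc (c - u) (c - l) := by
    intro r hr
    simp only [Set.mem_ofPred_eq] at hr
    rw [key, abs_mul] at hr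
    have h1 : |(r - c) ^ 2 - κ| ≤ h := by
      rw [hh, le_div_iff₀ hApos]; linarith
    have h2 := abs_le.1 h1
    have hle : l ≤ |r - c| := by
      rw [hl, ← Real.sqrt_sq_eq_abs]
      exact Real.sqrt_le_sqrt (by linarith [h2.1])
    have hge : |r - c| ≤ u := by
      rw [hu, ← Real.sqrt_sq_eq_abs]
      exact Real.sqrt_le_sqrt (by linarith [h2.2])
    rcases le_total 0 (r - c) with h3 | h3
    · rw [abs_of_nonneg h3] at hle hge
      left
      constructor <;> linarith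
    · rw [abs_of_nonpos h3] at hle hge
      right
      constructor <;> linarith
  have hlu : u - l ≤ 2 * Real.sqrt h := by
    rw [hu, hl]
    have h4 : Real.sqrt (κ + h) ≤ Real.sqrt (κ - h) + 2 * Real.sqrt h := by
      apply Real.sqrt_le_iff.2
      constructor
      · positivity
      · have h5 : κ - h ≤ Real.sqrt (κ - h) ^ 2 := by
          rcases le_total 0 (κ - h) with h6 | h6
          · rw [Real.sq_sqrt h6]
          · exact h6.trans (sq_nonneg _)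
        have h7 : Real.sqrt h ^ 2 = h := Real.sq_sqrt hhpos.le
        nlinarith [Real.sqrt_nonneg (κ - h), Real.sqrt_nonneg h, mul_nonneg (Real.sqrt_nonneg (κ - h)) (Real.sqrt_nonneg h)]
    linarith
  calc volume {r : ℝ | |A * r ^ 2 + b * r + d| ≤ t}
      ≤ volume (Icc (c + l) (c + u) ∪ Icc (c - u) (c - l)) := measure_mono hsub
    _ ≤ volume (Icc (c + l) (c + u)) + volume (Icc (c - u) (c - l)) := measure_union_le _ _
    _ = ENNReal.ofReal (u - l) + ENNReal.ofReal (u - l) := by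
        rw [Real.volume_Icc, Real.volume_Icc]; congr 2 <;> ring
    _ ≤ ENNReal.ofReal (2 * Real.sqrt h) + ENNReal.ofReal (2 * Real.sqrt h) := by gcongr
    _ = ENNReal.ofReal (4 * Real.sqrt h) := by
        rw [← ENNReal.ofReal_add (by positivity) (by positivity)]; congr 1; ring

namespace PH

/-- two points of the same half period -/
theorem cos_sep (k : ℤ) (α β : ℝ) (hα : α ∈ Icc (k * Real.pi) ((k + 1) * Real.pi))
    (hβ : β ∈ Icc (k * Real.pi) ((k + 1) * Real.pi)) :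
    2 * (|α - β| / Real.pi) ^ 2 ≤ |Real.cos α - Real.cos β| := by
  wlog hab : β ≤ α with H
  · have := H k β α hβ hα (le_of_not_ge hab)
    rw [abs_sub_comm α β, abs_sub_comm (Real.cos α)]; exact this
  have hpi := Real.pi_pos
  rw [Real.cos_sub_cos, abs_mul, abs_mul, abs_neg, abs_two, abs_of_nonneg (sub_nonneg.2 hab)]
  set d := α - β with hd
  have hd0 : 0 ≤ d := sub_nonneg.2 hab
  have hdpi : d ≤ Real.pi := by
    have := hα.2; have := hβ.1; rw [hd]; nlinarith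
  have h1 : d / Real.pi ≤ Real.sin (d / 2) := by
    have := Real.mul_le_sin (x := d / 2) (by linarith) (by linarith)
    calc d / Real.pi = 2 / Real.pi * (d / 2) := by ring
      _ ≤ _ := this
  have h2 : Real.sin (d / 2) ≤ |Real.sin ((α + β) / 2)| := by
    -- reduce to k = 0
    have h3 : |Real.sin ((α + β) / 2)| = |Real.sin ((α + β) / 2 - k * Real.pi)| := by
      rw [Real.sin_sub_int_mul_pi]
      rw [abs_mul]
      simp [abs_zpow]
    rw [h3]
    set γ := (α + β) / 2 - k * Real.pi with hγ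
    have hγ1 : d / 2 ≤ γ := by
      have := hβ.1; rw [hγ, hd]; linarith
    have hγ2 : γ ≤ Real.pi - d / 2 := by
      have := hα.2; rw [hγ, hd]; linarith
    refine le_trans ?_ (le_abs_self _)
    rcases le_total γ (Real.pi / 2) with h4 | h4
    · exact Real.sin_le_sin_of_le_of_le_pi_div_two (by linarith) h4 hγ1
    · rw [← Real.sin_pi_sub γ]
      exact Real.sin_le_sin_of_le_of_le_pi_div_two (by linarith) (by linarith) (by linarith)
  have h5 : 0 ≤ d / Real.pi := by positivity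
  have h6 : |Real.sin (d / 2)| = Real.sin (d / 2) := abs_of_nonneg (h5.trans h1)
  rw [h6]
  nlinarith [mul_le_mul h1 (h1.trans h2) h5 (h5.trans h1)]

theorem piece (k : ℤ) (c h : ℝ) (hh : 0 ≤ h) :
    volume ({θ : ℝ | |Real.cos θ - c| ≤ h} ∩ Icc (k * Real.pi) ((k + 1) * Real.pi)) ≤
      ENNReal.ofReal (Real.pi * Real.sqrt h) := by
  refine (Real.volume_le_diam _).trans ?_
  refine Metric.ediam_le ?_
  intro α hα β hβ
  rw [edist_dist, Real.dist_eq]
  apply ENNReal.ofReal_le_ofReal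
  have h1 := cos_sep k α β hα.2 hβ.2
  have h2 : |Real.cos α - Real.cos β| ≤ 2 * h := by
    have e1 := abs_le.1 (show |Real.cos α - c| ≤ h from hα.1)
    have e2 := abs_le.1 (show |Real.cos β - c| ≤ h from hβ.1)
    rw [abs_le]; constructor <;> linarith
  have h3 : (|α - β| / Real.pi) ^ 2 ≤ h := by linarith
  have h4 : |α - β| / Real.pi ≤ Real.sqrt h := by
    apply Real.le_sqrt_of_sq_le h3
  rw [div_le_iff₀ Real.pi_pos] at h4
  linarith

/-- small ball for the cosine of a uniform phase -/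
theorem cos_small (χ c h : ℝ) (hh : 0 ≤ h) :
    cav {φ | |Real.cos (φ + χ) - c| ≤ h} ≤ ENNReal.ofReal (3 / 2 * Real.sqrt h) := by
  have hpi := Real.pi_pos
  set k : ℤ := ⌊χ / Real.pi⌋ with hk
  have hk1 : k * Real.pi ≤ χ := by
    have := Int.floor_le (χ / Real.pi)
    rwa [← hk, le_div_iff₀ hpi] at this
  have hk2 : χ < (k + 1) * Real.pi := by
    have := Int.lt_floor_add_one (χ / Real.pi)
    rwa [← hk, div_lt_iff₀ hpi] at this
  set E : Set ℝ := {θ : ℝ | |Real.cos θ - c| ≤ h} with hE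
  have hsub : {φ | |Real.cos (φ + χ) - c| ≤ h} ∩ Ioc 0 (2 * Real.pi) ⊆
      (fun φ => φ + χ) ⁻¹' (E ∩ Icc (k * Real.pi) ((k + 1) * Real.pi)) ∪
      ((fun φ => φ + χ) ⁻¹' (E ∩ Icc (((k + 1 : ℤ) : ℝ) * Real.pi) (((k + 1 : ℤ) + 1) * Real.pi)) ∪
      (fun φ => φ + χ) ⁻¹' (E ∩ Icc (((k + 2 : ℤ) : ℝ) * Real.pi) (((k + 2 : ℤ) + 1) * Real.pi))) := by
    intro φ hφ
    obtain ⟨h1, h2, h3⟩ := hφ
    simp only [mem_union, mem_preimage, mem_inter_iff, mem_Icc]
    push_cast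
    rcases le_total (φ + χ) ((k + 1) * Real.pi) with h4 | h4
    · left; exact ⟨h1, by linarith, h4⟩
    · right
      rcases le_total (φ + χ) ((k + 1 + 1) * Real.pi) with h5 | h5
      · left; exact ⟨h1, h4, h5⟩
      · right; exact ⟨h1, by linarith, by linarith⟩
  have hvol : volume ({φ | |Real.cos (φ + χ) - c| ≤ h} ∩ Ioc 0 (2 * Real.pi)) ≤
      ENNReal.ofReal (3 * (Real.pi * Real.sqrt h)) := by
    refine (measure_mono hsub).trans ?_
    refine (measure_union_le _ _).trans ?_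
    have hp : ∀ j : ℤ, volume ((fun φ => φ + χ) ⁻¹' (E ∩ Icc ((j : ℝ) * Real.pi) ((j + 1) * Real.pi))) ≤
        ENNReal.ofReal (Real.pi * Real.sqrt h) := by
      intro j
      rw [measure_preimage_add_right]
      exact piece j c h hh
    calc _ ≤ ENNReal.ofReal (Real.pi * Real.sqrt h) + (ENNReal.ofReal (Real.pi * Real.sqrt h)
          + ENNReal.ofReal (Real.pi * Real.sqrt h)) := by
            refine add_le_add (hp k) ((measure_union_le _ _).trans (add_le_add (hp (k + 1)) (hp (k + 2))))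
      _ = ENNReal.ofReal (3 * (Real.pi * Real.sqrt h)) := by
            rw [← ENNReal.ofReal_add (by positivity) (by positivity),
              ← ENNReal.ofReal_add (by positivity) (by positivity)]
            congr 1; ring
  have hm : MeasurableSet {φ : ℝ | |Real.cos (φ + χ) - c| ≤ h} := by
    apply measurableSet_le <;> fun_prop
  unfold cav
  rw [Measure.smul_apply, Measure.restrict_apply hm, smul_eq_mul]
  calc (ENNReal.ofReal (2 * Real.pi))⁻¹ * volume ({φ | |Real.cos (φ + χ) - c| ≤ h} ∩ Ioc 0 (2 * Real.pi))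
      ≤ (ENNReal.ofReal (2 * Real.pi))⁻¹ * ENNReal.ofReal (3 * (Real.pi * Real.sqrt h)) := by gcongr
    _ = ENNReal.ofReal (3 / 2 * Real.sqrt h) := by
        rw [← ENNReal.ofReal_inv_of_pos (by positivity), ← ENNReal.ofReal_mul (by positivity)]
        congr 1
        field_simp

end PH

end MPf1e3
end

section
/-! MP_f1e3b4_an, module ROW (helper90): the planted law of a row. -/
set_option autoImplicit false

open MeasureTheory ProbabilityTheory Filter Topology Set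
open scoped ENNReal ComplexConjugate

namespace MPf1e3
namespace RowM

lemma norm_ee (φ : ℝ) : ‖ee φ‖ = 1 := Complex.norm_exp_ofReal_mul_I φ

lemma ee_mul (φ : ℝ) : ee φ * conj (ee φ) = 1 := by
  rw [Complex.mul_conj, Complex.normSq_eq_norm_sq, norm_ee]
  norm_num

lemma ee_mul' (φ : ℝ) : conj (ee φ) * ee φ = 1 := by rw [mul_comm, ee_mul]

/-- the `2 × 2` unitary matrix of the coordinates `z₁, z₂` -/
noncomputable def V (φ : ℝ) : Matrix (Fin 2) (Fin 2) ℂ :=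
  !![(1 : ℂ) / (Real.sqrt 2 : ℂ), -(conj (ee φ)) / (Real.sqrt 2 : ℂ);
     (1 : ℂ) / (Real.sqrt 2 : ℂ), conj (ee φ) / (Real.sqrt 2 : ℂ)]

lemma sqrt2_sq : ((Real.sqrt 2 : ℝ) : ℂ) * ((Real.sqrt 2 : ℝ) : ℂ) = 2 := by
  rw [← Complex.ofReal_mul, Real.mul_self_sqrt (by norm_num)]
  norm_num

lemma sqrt2_ne : ((Real.sqrt 2 : ℝ) : ℂ) ≠ 0 := by
  rw [Ne, Complex.ofReal_eq_zero]
  positivity

lemma V_mem (φ : ℝ) : V φ ∈ Matrix.unitaryGroup (Fin 2) ℂ := by
  rw [Matrix.mem_unitaryGroup_iff]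
  have h2 := sqrt2_sq
  have hne := sqrt2_ne
  have he := ee_mul' φ
  ext i j
  fin_cases i <;> fin_cases j <;>
    simp [V, Matrix.mul_apply, Fin.sum_univ_two, Matrix.star_apply] <;>
    field_simp <;> first | linear_combination he - h2 | linear_combination -he

lemma vec0 (φ : ℝ) (a : Fin 2 → ℂ) :
    Matrix.vecMul a (V φ) 0 = (a 0 + a 1) / (Real.sqrt 2 : ℂ) := by
  simp [V, Matrix.vecMul, dotProduct, Fin.sum_univ_two]
  ring

lemma vec1 (φ : ℝ) (a : Fin 2 → ℂ) :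
    Matrix.vecMul a (V φ) 1 = conj (ee φ) * (a 1 - a 0) / (Real.sqrt 2 : ℂ) := by
  simp [V, Matrix.vecMul, dotProduct, Fin.sum_univ_two]
  ring

/-- change of variables in the plane -/
lemma cov (hP : SpecProb) (hI : SpecInv) (hC : SpecCons) (φ : ℝ) (H : ℂ → ℂ → ℝ≥0∞)
    (hH : Measurable fun p : ℂ × ℂ => H p.1 p.2) :
    ∫⁻ α, ∫⁻ β, H α β ∂cg ∂cg = ∫⁻ z₁, ∫⁻ z₂, H ((z₁ + z₂) / (Real.sqrt 2 : ℂ))
      (conj (ee φ) * (z₂ - z₁) / (Real.sqrt 2 : ℂ)) ∂cg ∂cg := by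
  have := hP.G 0
  have key : ∀ H : ℂ → ℂ → ℝ≥0∞, (Measurable fun p : ℂ × ℂ => H p.1 p.2) →
      ∫⁻ a, H (a 0) (a 1) ∂(G 2) = ∫⁻ α, ∫⁻ β, H α β ∂cg ∂cg := by
    intro H hH
    have hm : Measurable fun a : Fin 2 → ℂ => H (a 0) (a 1) := by
      have h : Measurable fun a : Fin 2 → ℂ => ((a 0, a 1) : ℂ × ℂ) := by fun_prop
      exact hH.comp h
    have := hC 0 (fun a => H (a 0) (a 1)) hm
    rw [this]
    refine lintegral_congr fun α => lintegral_congr fun β => ?_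
    have e : ∀ r : Fin 0 → ℂ, H ((Fin.cons α (Fin.cons β r) : Fin 2 → ℂ) 0)
        ((Fin.cons α (Fin.cons β r) : Fin 2 → ℂ) 1) = H α β := fun r => rfl
    simp only [e, lintegral_const, measure_univ, mul_one]
  have hm : Measurable fun a : Fin 2 → ℂ => H (a 0) (a 1) := by
    have h : Measurable fun a : Fin 2 → ℂ => ((a 0, a 1) : ℂ × ℂ) := by fun_prop
    exact hH.comp h
  rw [← key H hH, ← (hI.row 2 (V φ) (V_mem φ)).lintegral_comp hm]
  simp only [vec0, vec1]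
  refine key (fun z₁ z₂ => H ((z₁ + z₂) / (Real.sqrt 2 : ℂ))
      (conj (ee φ) * (z₂ - z₁) / (Real.sqrt 2 : ℂ))) ?_
  have h2 : Measurable fun p : ℂ × ℂ => (((p.1 + p.2) / (Real.sqrt 2 : ℂ),
      conj (ee φ) * (p.2 - p.1) / (Real.sqrt 2 : ℂ)) : ℂ × ℂ) := by fun_prop
  exact hH.comp h2

lemma meas_cons {m : ℕ} : Measurable fun q : (ℂ × ℂ) × (Fin m → ℂ) =>
    (Fin.cons q.1.1 (Fin.cons q.1.2 q.2) : Fin (m + 2) → ℂ) := by
  refine measurable_pi_iff.2 fun i => ?_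
  refine Fin.cases ?_ (fun j => Fin.cases ?_ (fun k => ?_) j) i
  · simp only [Fin.cons_zero]
    fun_prop
  · simp only [Fin.cons_succ, Fin.cons_zero]
    fun_prop
  · simp only [Fin.cons_succ]
    fun_prop

lemma cont_kphi (τ : ℝ) : Continuous fun q : (ℂ × ℂ) × ℝ => kphi τ q.2 q.1.1 q.1.2 := by
  unfold kphi ee
  fun_prop

lemma kphi_eq (τ φ : ℝ) (z₁ z₂ : ℂ) :
    kphi τ φ ((z₁ + z₂) / (Real.sqrt 2 : ℂ)) (conj (ee φ) * (z₂ - z₁) / (Real.sqrt 2 : ℂ)) =
      ((1 - τ)⁻¹ * Real.exp (-(τ / (1 - τ)) * (‖z₁‖ ^ 2 / 2))) *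
        ((1 - τ) + τ * (‖z₂‖ ^ 2 / 2)) := by
  have hne := sqrt2_ne
  have h2 := sqrt2_sq
  have he := ee_mul φ
  have e1 : (z₁ + z₂) / (Real.sqrt 2 : ℂ) - ee φ * (conj (ee φ) * (z₂ - z₁) / (Real.sqrt 2 : ℂ)) =
      (Real.sqrt 2 : ℂ) * z₁ := by
    field_simp
    linear_combination (-(z₂ - z₁)) * he - z₁ * h2
  have e2 : (z₁ + z₂) / (Real.sqrt 2 : ℂ) + ee φ * (conj (ee φ) * (z₂ - z₁) / (Real.sqrt 2 : ℂ)) =
      (Real.sqrt 2 : ℂ) * z₂ := by
    field_simp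
    linear_combination (z₂ - z₁) * he - z₂ * h2
  have e3 : ∀ z : ℂ, ‖(Real.sqrt 2 : ℂ) * z‖ ^ 2 / 4 = ‖z‖ ^ 2 / 2 := by
    intro z
    rw [norm_mul, mul_pow, Complex.norm_real, Real.norm_eq_abs, sq_abs, Real.sq_sqrt (by norm_num)]
    ring
  unfold kphi
  rw [e1, e2, e3, e3]

/-- Tonelli for a mixture of densities -/
lemma mix_gen {A : Type*} [MeasurableSpace A] (μ : Measure A) [SFinite μ] (c : Measure ℝ)
    [SFinite c] (k : A → ℝ → ℝ≥0∞) (hk : Measurable (Function.uncurry k)) (F : A → ℝ≥0∞)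
    (hF : Measurable F) :
    ∫⁻ a, F a ∂(μ.withDensity fun a => ∫⁻ φ, k a φ ∂c) =
      ∫⁻ φ, ∫⁻ a, k a φ * F a ∂μ ∂c := by
  have h1 : Measurable fun a => ∫⁻ φ, k a φ ∂c := hk.lintegral_prod_right'
  rw [lintegral_withDensity_eq_lintegral_mul _ h1 hF]
  have h2 : ∀ a, ((fun a => ∫⁻ φ, k a φ ∂c) * F) a = ∫⁻ φ, k a φ * F a ∂c := by
    intro a
    have hka : Measurable (k a) := hk.comp (measurable_prodMk_left (x := a))
    rw [Pi.mul_apply, lintegral_mul_const _ hka]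
  simp only [h2]
  exact lintegral_lintegral_swap (hk.mul (hF.comp measurable_fst)).aemeasurable

/-- a density that is a product, in the last step -/
lemma dens_gen (μ : Measure ℂ) [SFinite μ] (d₁ d₂ : ℂ → ℝ≥0∞) (h₁ : Measurable d₁)
    (h₂ : Measurable d₂) (R : ℂ → ℂ → ℝ≥0∞) (hR : Measurable (Function.uncurry R)) :
    ∫⁻ z₁, ∫⁻ z₂, R z₁ z₂ ∂(μ.withDensity d₂) ∂(μ.withDensity d₁) =
      ∫⁻ z₁, ∫⁻ z₂, d₁ z₁ * d₂ z₂ * R z₁ z₂ ∂μ ∂μ := by
  have hRz : ∀ z₁, Measurable (R z₁) := fun z₁ => hR.comp (measurable_prodMk_left (x := z₁))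
  have e : ∀ z₁ : ℂ, ∫⁻ z₂, R z₁ z₂ ∂(μ.withDensity d₂) = ∫⁻ z₂, d₂ z₂ * R z₁ z₂ ∂μ := by
    intro z₁
    rw [lintegral_withDensity_eq_lintegral_mul _ h₂ (hRz z₁)]
    rfl
  simp only [e]
  have hm : Measurable fun z₁ : ℂ => ∫⁻ z₂, d₂ z₂ * R z₁ z₂ ∂μ :=
    ((h₂.comp measurable_snd).mul hR).lintegral_prod_right'
  rw [lintegral_withDensity_eq_lintegral_mul _ h₁ hm]
  refine lintegral_congr fun z₁ => ?_
  have hm2 : Measurable fun z₂ => d₂ z₂ * R z₁ z₂ := h₂.mul (hRz z₁)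
  rw [Pi.mul_apply, ← lintegral_const_mul _ hm2]
  refine lintegral_congr fun z₂ => ?_
  rw [mul_assoc]

/-- first part: the planar integral -/
lemma part (hP : SpecProb) (hI : SpecInv) (hC : SpecCons) (m : ℕ) (τ : ℝ) (h1 : τ < 1)
    (F : (Fin (m + 2) → ℂ) → ℝ≥0∞) (hF : Measurable F) (φ : ℝ) :
    ∫⁻ a, ENNReal.ofReal (kphi τ φ (a 0) (a 1)) * F a ∂(G (m + 2)) =
      ∫⁻ z₁, ∫⁻ z₂, ∫⁻ r, F (mkrow φ z₁ z₂ r) ∂(G m) ∂(mu2 τ) ∂(mu1 τ) := by
  have := hP.cg
  have := hP.G m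
  have h1' : 0 < 1 - τ := by linarith
  have hk3 : Measurable fun p : ℂ × ℂ => ENNReal.ofReal (kphi τ φ p.1 p.2) :=
    ((cont_kphi τ).measurable.comp (measurable_prodMk_right (y := φ))).ennreal_ofReal
  have hk2 : Measurable fun a : Fin (m + 2) → ℂ => ENNReal.ofReal (kphi τ φ (a 0) (a 1)) := by
    have h : Measurable fun a : Fin (m + 2) → ℂ => (((a 0, a 1), φ) : (ℂ × ℂ) × ℝ) := by fun_prop
    exact ((cont_kphi τ).measurable.comp h).ennreal_ofReal
  have hFc : Measurable fun q : (ℂ × ℂ) × (Fin m → ℂ) =>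
      F (Fin.cons q.1.1 (Fin.cons q.1.2 q.2) : Fin (m + 2) → ℂ) := hF.comp meas_cons
  have hG : Measurable fun p : ℂ × ℂ =>
      ∫⁻ r, F (Fin.cons p.1 (Fin.cons p.2 r) : Fin (m + 2) → ℂ) ∂(G m) :=
    hFc.lintegral_prod_right'
  rw [hC m (fun a => ENNReal.ofReal (kphi τ φ (a 0) (a 1)) * F a) (hk2.mul hF)]
  have step3 : ∀ α β : ℂ, ∫⁻ r, ENNReal.ofReal (kphi τ φ
        ((Fin.cons α (Fin.cons β r) : Fin (m + 2) → ℂ) 0)
        ((Fin.cons α (Fin.cons β r) : Fin (m + 2) → ℂ) 1)) *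
        F (Fin.cons α (Fin.cons β r)) ∂(G m) = ENNReal.ofReal (kphi τ φ α β) *
        ∫⁻ r, F (Fin.cons α (Fin.cons β r)) ∂(G m) := by
    intro α β
    have hm : Measurable fun r : Fin m → ℂ =>
        F (Fin.cons α (Fin.cons β r) : Fin (m + 2) → ℂ) :=
      hFc.comp (measurable_prodMk_left (x := (α, β)))
    rw [← lintegral_const_mul _ hm]
    rfl
  simp only [step3]
  rw [cov hP hI hC φ (fun α β => ENNReal.ofReal (kphi τ φ α β) *
        ∫⁻ r, F (Fin.cons α (Fin.cons β r)) ∂(G m)) (hk3.mul hG)]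
  have hd1 : Measurable fun z : ℂ =>
      ENNReal.ofReal ((1 - τ)⁻¹ * Real.exp (-(τ / (1 - τ)) * (‖z‖ ^ 2 / 2))) := by
    refine Measurable.ennreal_ofReal ?_
    fun_prop
  have hd2 : Measurable fun z : ℂ => ENNReal.ofReal ((1 - τ) + τ * (‖z‖ ^ 2 / 2)) := by
    refine Measurable.ennreal_ofReal ?_
    fun_prop
  have hR : Measurable fun p : ℂ × ℂ => ∫⁻ r, F (mkrow φ p.1 p.2 r) ∂(G m) := by
    have h2 : Measurable fun p : ℂ × ℂ => (((p.1 + p.2) / (Real.sqrt 2 : ℂ),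
        conj (ee φ) * (p.2 - p.1) / (Real.sqrt 2 : ℂ)) : ℂ × ℂ) := by fun_prop
    exact hG.comp h2
  unfold mu1 mu2
  rw [dens_gen cg _ _ hd1 hd2 (fun z₁ z₂ => ∫⁻ r, F (mkrow φ z₁ z₂ r) ∂(G m)) hR]
  refine lintegral_congr fun z₁ => lintegral_congr fun z₂ => ?_
  rw [kphi_eq, ENNReal.ofReal_mul (by positivity)]
  rfl

end RowM

open RowM in
theorem specRow (hP : SpecProb) (hI : SpecInv) (hC : SpecCons) : SpecRow := by
  intro m τ h0 h1 F hF
  have := hP.cav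
  have := hP.G (m + 2)
  have hk : Measurable (Function.uncurry fun (a : Fin (m + 2) → ℂ) (φ : ℝ) =>
      ENNReal.ofReal (kphi τ φ (a 0) (a 1))) := by
    have h : Measurable fun q : (Fin (m + 2) → ℂ) × ℝ => (((q.1 0, q.1 1), q.2) : (ℂ × ℂ) × ℝ) := by
      fun_prop
    exact ((cont_kphi τ).measurable.comp h).ennreal_ofReal
  have step1 := mix_gen (G (m + 2)) cav
    (fun (a : Fin (m + 2) → ℂ) (φ : ℝ) => ENNReal.ofReal (kphi τ φ (a 0) (a 1))) hk F hF
  unfold nu kern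
  rw [step1]
  exact lintegral_congr fun φ => part hP hI hC m τ h1 F hF φ

end MPf1e3
end

section
/-! Problem MP_f1e3b4_an, module D7 SBS: small ball estimate for the directions `(s, z)`. -/
set_option autoImplicit false

open MeasureTheory ProbabilityTheory Filter Topology Set
open scoped ENNReal ComplexConjugate

namespace MPf1e3

namespace SB

theorem nrm (z : ℂ) : ‖z‖ ^ 2 = z.re ^ 2 + z.im ^ 2 := by
  rw [Complex.sq_norm, Complex.normSq_apply]; ring

theorem ee_re (φ : ℝ) : (ee φ).re = Real.cos φ := by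
  unfold ee; rw [Complex.exp_ofReal_mul_I_re]

theorem ee_im (φ : ℝ) : (ee φ).im = Real.sin φ := by
  unfold ee; rw [Complex.exp_ofReal_mul_I_im]

theorem ee_nrm (φ : ℝ) : (ee φ).re ^ 2 + (ee φ).im ^ 2 = 1 := by
  rw [ee_re, ee_im]; exact Real.cos_sq_add_sin_sq φ

theorem measurable_ee : Measurable ee := by unfold ee; fun_prop

theorem mkrow_zero {m : ℕ} (φ : ℝ) (z₁ z₂ : ℂ) (r : Fin m → ℂ) :
    mkrow φ z₁ z₂ r 0 = (z₁ + z₂) / (Real.sqrt 2 : ℂ) := rfl

theorem mkrow_one {m : ℕ} (φ : ℝ) (z₁ z₂ : ℂ) (r : Fin m → ℂ) :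
    mkrow φ z₁ z₂ r 1 = conj (ee φ) * (z₂ - z₁) / (Real.sqrt 2 : ℂ) := rfl

theorem tl_mkrow {m : ℕ} (φ : ℝ) (z₁ z₂ : ℂ) (r : Fin m → ℂ) :
    tl (mkrow φ z₁ z₂ r) = r := rfl

theorem measurable_mkrow {m : ℕ} :
    Measurable fun p : ℝ × ℂ × ℂ × (Fin m → ℂ) => mkrow p.1 p.2.1 p.2.2.1 p.2.2.2 := by
  rw [measurable_pi_iff]
  intro j
  refine Fin.cases ?_ (fun j => ?_) j
  · simp only [mkrow_zero]; fun_prop
  · refine Fin.cases ?_ (fun j => ?_) j
    · show Measurable fun p : ℝ × ℂ × ℂ × (Fin m → ℂ) => conj (ee p.1) * (p.2.2.1 - p.2.1) / (Real.sqrt 2 : ℂ)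
      have := measurable_ee
      have h2 : Measurable fun z : ℂ => conj z := Complex.continuous_conj.measurable
      fun_prop
    · show Measurable fun p : ℝ × ℂ × ℂ × (Fin m → ℂ) => p.2.2.2 j
      fun_prop

theorem measurable_jrow {m : ℕ} (w : Dir m) : Measurable fun a : Fin (m + 2) → ℂ => jrow a w := by
  unfold jrow dot tl
  have h2 : Measurable fun z : ℂ => conj z := Complex.continuous_conj.measurable
  fun_prop

theorem measSet {m : ℕ} (w : Dir m) (t : ℝ) : MeasurableSet {a : Fin (m + 2) → ℂ | |jrow a w| ≤ t} :=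
  measurableSet_le (by have := measurable_jrow w; fun_prop) measurable_const

/-- the leading coefficient -/
noncomputable def AA (s : ℝ) (z : ℂ) (φ : ℝ) : ℝ := s + (conj (ee φ) * z).re

theorem jrow_quad {m : ℕ} (w : Dir m) (φ ψ : ℝ) (z₁ : ℂ) (r : Fin m → ℂ) :
    ∃ b d : ℝ, ∀ ρ : ℝ, jrow (mkrow φ z₁ (ρ * ee ψ) r) w = AA w.1 w.2.1 φ / 2 * ρ ^ 2 + b * ρ + d := by
  obtain ⟨s, z, x, y⟩ := w
  set X := dot r x
  set Y := dot r y
  set q : ℝ := (Real.sqrt 2)⁻¹ with hq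
  have hq2 : q ^ 2 = 1 / 2 := by rw [hq, inv_pow, Real.sq_sqrt (by norm_num)]; norm_num
  set E := ee ψ
  set F := conj (ee φ)
  have hE : E.re ^ 2 + E.im ^ 2 = 1 := ee_nrm ψ
  have hF : F.re ^ 2 + F.im ^ 2 = 1 := by
    have := ee_nrm φ
    simp only [F, Complex.conj_re, Complex.conj_im]; linarith [this]
  refine ⟨s * (conj z₁ * E).re + (F * z * (conj z₁ * E - conj E * z₁)).re / 2
      + q * (conj E * X).re - q * (conj (F * E) * Y).re,
    s * (z₁.re ^ 2 + z₁.im ^ 2) / 2 - (z₁.re ^ 2 + z₁.im ^ 2) * (F * z).re / 2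
      + q * (conj z₁ * X).re + q * (conj (F * z₁) * Y).re, ?_⟩
  intro ρ
  have e0 : mkrow φ z₁ (ρ * E) r 0 = (q : ℂ) * (z₁ + ρ * E) := by
    rw [mkrow_zero, hq]; push_cast; rw [div_eq_inv_mul]
  have e1 : mkrow φ z₁ (ρ * E) r 1 = (q : ℂ) * (F * (ρ * E - z₁)) := by
    rw [mkrow_one, hq]; push_cast; rw [div_eq_inv_mul]
  unfold jrow AA
  rw [tl_mkrow, e0, e1]
  simp only
  show ‖(q : ℂ) * (z₁ + ρ * E)‖ ^ 2 * s + (conj ((q : ℂ) * (z₁ + ρ * E)) * ((q : ℂ) * (F * (ρ * E - z₁))) * z).re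
    + (conj ((q : ℂ) * (z₁ + ρ * E)) * X).re - (conj ((q : ℂ) * (F * (ρ * E - z₁))) * Y).re = _
  rw [nrm]
  simp only [map_mul, map_add, map_sub, Complex.conj_ofReal, Complex.add_re, Complex.add_im,
    Complex.sub_re, Complex.sub_im, Complex.mul_re, Complex.mul_im, Complex.ofReal_re,
    Complex.ofReal_im, Complex.conj_re, Complex.conj_im]
  have hfr : (ee φ).re = F.re := by simp [F]
  have hfi : (ee φ).im = -F.im := by simp [F]
  rw [hfr, hfi]
  generalize X.re = Xr, X.im = Xi, Y.re = Yr, Y.im = Yi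
  generalize E.re = Er at *
  generalize E.im = Ei at *
  generalize F.re = Fr at *
  generalize F.im = Fi at *
  generalize z₁.re = a, z₁.im = b, z.re = c, z.im = d
  linear_combination (s * ((a + ρ * Er) ^ 2 + (b + ρ * Ei) ^ 2) +
    (((a + ρ * Er) * (Fr * (ρ * Er - a) - Fi * (ρ * Ei - b)) + (b + ρ * Ei) * (Fr * (ρ * Ei - b) + Fi * (ρ * Er - a))) * c
      - ((a + ρ * Er) * (Fr * (ρ * Ei - b) + Fi * (ρ * Er - a)) - (b + ρ * Ei) * (Fr * (ρ * Er - a) - Fi * (ρ * Ei - b))) * d)) * hq2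
    + (1 / 2 * ρ ^ 2 * (s + (Fr * c - Fi * d))) * hE

theorem AA_eq (s : ℝ) (z : ℂ) (φ : ℝ) :
    AA s z φ = s + ‖z‖ * Real.cos (φ + (-z.arg)) := by
  unfold AA
  rw [Complex.mul_re, Complex.conj_re, Complex.conj_im, ee_re, ee_im, Real.cos_add, Real.cos_neg,
    Real.sin_neg]
  have h1 : z.re = ‖z‖ * Real.cos z.arg := (Complex.norm_mul_cos_arg z).symm
  have h2 : z.im = ‖z‖ * Real.sin z.arg := (Complex.norm_mul_sin_arg z).symm
  linear_combination (Real.cos φ) * h1 + (Real.sin φ) * h2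

theorem AA_small (hP : SpecProb) (s : ℝ) (z : ℂ) (hsz : 1 ≤ s ^ 2 + ‖z‖ ^ 2) (h : ℝ) (hh : 0 < h) :
    cav {φ | |AA s z φ| ≤ h} ≤ ENNReal.ofReal (3 * Real.sqrt h) := by
  have := hP.cav
  rcases le_total (1 / 2) ‖z‖ with hz | hz
  · have hz0 : 0 < ‖z‖ := by linarith
    have hsub : {φ | |AA s z φ| ≤ h} ⊆ {φ | |Real.cos (φ + (-z.arg)) - (-s / ‖z‖)| ≤ h / ‖z‖} := by
      intro φ hφ
      have h1 : |AA s z φ| ≤ h := hφ
      show |Real.cos (φ + (-z.arg)) - (-s / ‖z‖)| ≤ h / ‖z‖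
      rw [AA_eq] at h1
      rw [le_div_iff₀ hz0]
      have h2 : |Real.cos (φ + (-z.arg)) - (-s / ‖z‖)| * ‖z‖ =
          |(Real.cos (φ + (-z.arg)) - (-s / ‖z‖)) * ‖z‖| := by
        rw [abs_mul, abs_of_pos hz0]
      rw [h2]
      have h3 : (Real.cos (φ + (-z.arg)) - (-s / ‖z‖)) * ‖z‖ = s + ‖z‖ * Real.cos (φ + (-z.arg)) := by
        field_simp; ring
      rw [h3]; exact h1
    refine (measure_mono hsub).trans ((PH.cos_small _ _ _ (by positivity)).trans ?_)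
    apply ENNReal.ofReal_le_ofReal
    have h4 : h / ‖z‖ ≤ 2 * h := by rw [div_le_iff₀ hz0]; nlinarith
    have h5 : Real.sqrt (h / ‖z‖) ≤ 2 * Real.sqrt h := by
      rw [show (2 : ℝ) * Real.sqrt h = Real.sqrt (4 * h) by
        rw [Real.sqrt_mul (by norm_num)]; congr 1
        rw [show (4 : ℝ) = 2 ^ 2 by norm_num, Real.sqrt_sq (by norm_num)]]
      exact Real.sqrt_le_sqrt (by linarith)
    linarith
  · rcases le_total h (1 / 3) with h3 | h3
    · have hemp : {φ | |AA s z φ| ≤ h} = ∅ := by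
        rw [Set.eq_empty_iff_forall_notMem]
        intro φ hφ
        have h1 : |AA s z φ| ≤ h := hφ
        rw [AA_eq] at h1
        have h2 : |‖z‖ * Real.cos (φ + (-z.arg))| ≤ 1 / 2 := by
          rw [abs_mul, abs_of_nonneg (norm_nonneg z)]
          have := Real.abs_cos_le_one (φ + (-z.arg))
          nlinarith [norm_nonneg z, abs_nonneg (Real.cos (φ + (-z.arg)))]
        have h4 : (17 / 20 : ℝ) < |s| := by
          by_contra hc
          push Not at hc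
          have : s ^ 2 ≤ (17 / 20) ^ 2 := by
            rw [← sq_abs]; gcongr
          have h6 : ‖z‖ ^ 2 ≤ (1 / 2) ^ 2 := by gcongr
          nlinarith
        have h7 := abs_le.1 h1
        have h8 := abs_le.1 h2
        rcases abs_cases s with ⟨h9, _⟩ | ⟨h9, _⟩ <;> linarith
      rw [hemp, measure_empty]; exact zero_le
    · refine (prob_le_one).trans ?_
      rw [← ENNReal.ofReal_one]
      apply ENNReal.ofReal_le_ofReal
      have : (1 / 3 : ℝ) ≤ Real.sqrt h := by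
        apply Real.le_sqrt_of_sq_le; nlinarith
      linarith

end SB

open SB in
theorem specSBS (hP : SpecProb) (hRow : SpecRow) (hMu : SpecMu) : SpecSBS := by
  refine ⟨60, fun m τ hτ1 hτ2 w hw t ht0 ht1 => ?_⟩
  have hτ0 : 0 < τ := by linarith
  have i1 := hMu.p1 τ hτ0 hτ2
  have i2 := hMu.p2 τ hτ0 hτ2
  have i3 := hP.G m
  have i4 := hP.cav
  set E : Set (Fin (m + 2) → ℂ) := {a | |jrow a w| ≤ t} with hEdef
  have hE : MeasurableSet E := measSet w t
  set u := Real.sqrt (Real.sqrt t) with hu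
  have hst : 0 < Real.sqrt t := Real.sqrt_pos.2 ht0
  have hu0 : 0 < u := Real.sqrt_pos.2 hst
  have hu2 : u ^ 2 = Real.sqrt t := Real.sq_sqrt hst.le
  have hu4 : u ^ 4 = t := by
    have : u ^ 4 = (u ^ 2) ^ 2 := by ring
    rw [this, hu2, Real.sq_sqrt ht0.le]
  have key : ∀ φ : ℝ, ∫⁻ z₁, ∫⁻ z₂, ∫⁻ r, E.indicator 1 (mkrow φ z₁ z₂ r) ∂(G m) ∂(mu2 τ) ∂(mu1 τ)
      ≤ ({φ | |AA w.1 w.2.1 φ| ≤ u ^ 2} : Set ℝ).indicator 1 φ + ENNReal.ofReal (57 * u) := by
    intro φ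
    by_cases hφ : |AA w.1 w.2.1 φ| ≤ u ^ 2
    · have h1 : ∫⁻ z₁, ∫⁻ z₂, ∫⁻ r, E.indicator 1 (mkrow φ z₁ z₂ r) ∂(G m) ∂(mu2 τ) ∂(mu1 τ) ≤
          ∫⁻ z₁, ∫⁻ z₂, ∫⁻ r, 1 ∂(G m) ∂(mu2 τ) ∂(mu1 τ) := by
        gcongr with z₁ z₂ r
        exact Set.indicator_le_self' (fun _ _ => zero_le) _
      simp only [lintegral_const, measure_univ, mul_one] at h1
      rw [Set.indicator_of_mem (show φ ∈ {φ | |AA w.1 w.2.1 φ| ≤ u ^ 2} from hφ)]
      exact h1.trans (le_add_of_nonneg_right (zero_le))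
    · push Not at hφ
      refine le_trans ?_ (le_add_of_nonneg_left (zero_le))
      have h1 : ∀ z₁ : ℂ, ∫⁻ z₂, ∫⁻ r, E.indicator 1 (mkrow φ z₁ z₂ r) ∂(G m) ∂(mu2 τ) ≤
          ENNReal.ofReal (57 * u) := by
        intro z₁
        rw [lintegral_lintegral_swap]
        swap
        · have : Measurable fun p : ℂ × (Fin m → ℂ) => E.indicator (1 : (Fin (m + 2) → ℂ) → ℝ≥0∞) (mkrow φ z₁ p.1 p.2) := by
            have e1 := (measurable_one.indicator hE : Measurable (E.indicator (1 : (Fin (m + 2) → ℂ) → ℝ≥0∞)))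
            exact e1.comp (measurable_mkrow.comp
              (show Measurable fun p : ℂ × (Fin m → ℂ) => ((φ, z₁, p.1, p.2) : ℝ × ℂ × ℂ × (Fin m → ℂ)) by fun_prop))
          exact this.aemeasurable
        have h2 : ∀ r : Fin m → ℂ, ∫⁻ z₂, E.indicator 1 (mkrow φ z₁ z₂ r) ∂(mu2 τ) ≤ ENNReal.ofReal (57 * u) := by
          intro r
          have e1 := (measurable_one.indicator hE : Measurable (E.indicator (1 : (Fin (m + 2) → ℂ) → ℝ≥0∞)))
          have e2 : Measurable fun z₂ : ℂ => E.indicator (1 : (Fin (m + 2) → ℂ) → ℝ≥0∞) (mkrow φ z₁ z₂ r) :=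
            e1.comp (measurable_mkrow.comp
              (show Measurable fun z₂ : ℂ => ((φ, z₁, z₂, r) : ℝ × ℂ × ℂ × (Fin m → ℂ)) by fun_prop))
          refine (hMu.pol τ hτ0 hτ2 _ e2).trans ?_
          have h3 : ∀ ψ : ℝ, ∫⁻ ρ in Ioi (0 : ℝ), E.indicator 1 (mkrow φ z₁ (ρ * ee ψ) r) *
              ENNReal.ofReal (10 * Real.exp (-(ρ / 2))) ≤ ENNReal.ofReal (57 * u) := by
            intro ψ
            obtain ⟨b, d, hbd⟩ := jrow_quad w φ ψ z₁ r
            set S : Set ℝ := {ρ : ℝ | |AA w.1 w.2.1 φ / 2 * ρ ^ 2 + b * ρ + d| ≤ t} with hS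
            have hSm : MeasurableSet S := measurableSet_le (by fun_prop) measurable_const
            calc ∫⁻ ρ in Ioi (0 : ℝ), E.indicator 1 (mkrow φ z₁ (ρ * ee ψ) r) *
                  ENNReal.ofReal (10 * Real.exp (-(ρ / 2)))
                ≤ ∫⁻ ρ in Ioi (0 : ℝ), ENNReal.ofReal 10 * S.indicator 1 ρ := by
                  apply setLIntegral_mono' measurableSet_Ioi
                  intro ρ hρ
                  by_cases hm : ρ ∈ S
                  · rw [Set.indicator_of_mem hm]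
                    have : E.indicator (1 : (Fin (m + 2) → ℂ) → ℝ≥0∞) (mkrow φ z₁ (ρ * ee ψ) r) ≤ 1 :=
                      Set.indicator_le_self' (fun _ _ => zero_le) _
                    rw [mul_comm]
                    simp only [Pi.one_apply]
                    refine mul_le_mul' (ENNReal.ofReal_le_ofReal ?_) this
                    have : Real.exp (-(ρ / 2)) ≤ 1 := Real.exp_le_one_iff.2 (by linarith [show (0:ℝ) < ρ from hρ])
                    linarith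
                  · have : mkrow φ z₁ (ρ * ee ψ) r ∉ E := by
                      intro hmem
                      apply hm
                      have : |jrow (mkrow φ z₁ (ρ * ee ψ) r) w| ≤ t := hmem
                      rw [hbd] at this
                      exact this
                    rw [Set.indicator_of_notMem this, zero_mul]; exact zero_le
              _ ≤ ∫⁻ ρ, ENNReal.ofReal 10 * S.indicator 1 ρ := setLIntegral_le_lintegral _ _
              _ = ENNReal.ofReal 10 * volume S := by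
                  rw [lintegral_const_mul _ (measurable_one.indicator hSm), lintegral_indicator_one hSm]
              _ ≤ ENNReal.ofReal 10 * ENNReal.ofReal (4 * Real.sqrt (t / |AA w.1 w.2.1 φ / 2|)) := by
                  gcongr
                  apply specQuad _ _ _ _ _ ht0
                  have : 0 < |AA w.1 w.2.1 φ| := lt_of_le_of_lt (by positivity) hφ
                  have := abs_pos.1 this
                  simpa using this
              _ ≤ ENNReal.ofReal (57 * u) := by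
                  rw [← ENNReal.ofReal_mul (by norm_num)]
                  apply ENNReal.ofReal_le_ofReal
                  have h5 : Real.sqrt (t / |AA w.1 w.2.1 φ / 2|) ≤ (57 / 40) * u := by
                    apply Real.sqrt_le_iff.2
                    refine ⟨by positivity, ?_⟩
                    rw [abs_div, abs_two, div_le_iff₀ (by
                      have : 0 < |AA w.1 w.2.1 φ| := lt_of_le_of_lt (by positivity) hφ
                      positivity)]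
                    rw [← hu4]
                    nlinarith [sq_nonneg u, mul_pos hu0 hu0, mul_le_mul_of_nonneg_left hφ.le (sq_nonneg u)]
                  linarith
          calc _ ≤ ∫⁻ ψ, ENNReal.ofReal (57 * u) ∂cav := lintegral_mono h3
            _ = ENNReal.ofReal (57 * u) := by rw [lintegral_const, measure_univ, mul_one]
        calc _ ≤ ∫⁻ r, ENNReal.ofReal (57 * u) ∂(G m) := lintegral_mono h2
          _ = ENNReal.ofReal (57 * u) := by rw [lintegral_const, measure_univ, mul_one]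
      calc _ ≤ ∫⁻ z₁, ENNReal.ofReal (57 * u) ∂(mu1 τ) := lintegral_mono h1
        _ = ENNReal.ofReal (57 * u) := by rw [lintegral_const, measure_univ, mul_one]
  have hSφ : MeasurableSet {φ | |AA w.1 w.2.1 φ| ≤ u ^ 2} := by
    apply measurableSet_le _ measurable_const
    simp only [AA_eq]
    fun_prop
  calc nu τ m E = ∫⁻ a, E.indicator 1 a ∂(nu τ m) := (lintegral_indicator_one hE).symm
    _ = ∫⁻ φ, ∫⁻ z₁, ∫⁻ z₂, ∫⁻ r, E.indicator 1 (mkrow φ z₁ z₂ r) ∂(G m) ∂(mu2 τ) ∂(mu1 τ) ∂cav :=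
        hRow m τ hτ0 hτ2 _ (measurable_one.indicator hE)
    _ ≤ ∫⁻ φ, (({φ | |AA w.1 w.2.1 φ| ≤ u ^ 2} : Set ℝ).indicator 1 φ + ENNReal.ofReal (57 * u)) ∂cav :=
        lintegral_mono key
    _ = cav {φ | |AA w.1 w.2.1 φ| ≤ u ^ 2} + ENNReal.ofReal (57 * u) := by
        rw [lintegral_add_right _ measurable_const, lintegral_indicator_one hSφ, lintegral_const,
          measure_univ, mul_one]
    _ ≤ ENNReal.ofReal (3 * Real.sqrt (u ^ 2)) + ENNReal.ofReal (57 * u) := by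
        gcongr
        exact AA_small hP _ _ hw _ (by positivity)
    _ = ENNReal.ofReal (60 * u) := by
        rw [Real.sqrt_sq hu0.le, ← ENNReal.ofReal_add (by positivity) (by positivity)]
        congr 1; ring
    _ ≤ ENNReal.ofReal (60 * t ^ ((1 / 8) : ℝ)) := by
        apply ENNReal.ofReal_le_ofReal
        have h1 : u = t ^ ((1 / 4) : ℝ) := by
          rw [hu, Real.sqrt_eq_rpow, Real.sqrt_eq_rpow, ← Real.rpow_mul ht0.le]; norm_num
        have h2 : t ^ ((1 / 4) : ℝ) ≤ t ^ ((1 / 8) : ℝ) :=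
          Real.rpow_le_rpow_of_exponent_ge ht0 ht1 (by norm_num)
        rw [h1]; linarith

end MPf1e3
end
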