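import Pool.Agent.Lib.MP_f1e3b4_an.Inv
import Pool.Agent.Lib.MP_f1e3b4_an.Cons
import Pool.Agent.Lib.MP_f1e3b4_an.Gam
import Pool.Agent.Lib.MP_f1e3b4_an.SBS

section
/-!
Problem MP_f1e3b4_an, modules EXT, EXT1: orthonormal families extend to unitary matrices.
-/
set_option autoImplicit false

open MeasureTheory ProbabilityTheory Filter Topology Set
open scoped ENNReal ComplexConjugate

namespace MPf1e3

namespace ExtM

open InvM

/-- an orthonormal family indexed by a set of indices is a family of columns of a unitary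
matrix -/
lemma exists_ext {n : ℕ} (s : Set (Fin n)) (w : Fin n → Fin n → ℂ)
    (h : ∀ i ∈ s, ∀ j ∈ s, herm (w i) (w j) = if i = j then 1 else 0) :
    ∃ V ∈ Matrix.unitaryGroup (Fin n) ℂ, ∀ i ∈ s, ∀ j, V j i = w i j := by
  have ho : Orthonormal ℂ (s.domRestrict fun i => (WithLp.toLp 2 (w i) :
      EuclideanSpace ℂ (Fin n))) := by
    classical
    rw [orthonormal_iff_ite]
    intro i j
    have h1 := h i i.2 j j.2
    have h2 : inner ℂ (WithLp.toLp 2 (w i) : EuclideanSpace ℂ (Fin n))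
        (WithLp.toLp 2 (w j)) = herm (w i) (w j) := by
      rw [EuclideanSpace.inner_toLp_toLp, herm_eq, dotProduct_comm]
    simp only [Set.domRestrict_apply]
    rw [h2, h1]
    simp [Subtype.ext_iff]
  obtain ⟨b, hb⟩ := Orthonormal.exists_orthonormalBasis_extension_of_card_eq
    (by simp) ho
  refine ⟨Matrix.of fun j i => b i j, ?_, ?_⟩
  · rw [Matrix.mem_unitaryGroup_iff']
    ext i j
    rw [Matrix.mul_apply, Matrix.one_apply, ← orthonormal_iff_ite.mp b.orthonormal i j]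
    rw [EuclideanSpace.inner_eq_star_dotProduct, dotProduct_comm]
    rfl
  · intro i hi j
    have := hb i hi
    rw [Matrix.of_apply, this]

end ExtM

theorem specExt : SpecExt := by
  intro m u v h
  obtain ⟨V, hV, hc⟩ := ExtM.exists_ext ({0, 1} : Set (Fin (m + 2)))
    (fun i => if i = 0 then u else v) (by
      have h01 : (1 : Fin (m + 2)) ≠ 0 := by simp [Fin.ext_iff]
      have huu : herm u u = 1 := by rw [InvM.herm_self, h.uu]; simp
      have hvv : herm v v = 1 := by rw [InvM.herm_self, h.vv]; simp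
      have hvu : herm v u = 0 := by
        have : herm v u = conj (herm u v) := by
          unfold herm
          rw [map_sum]
          refine Finset.sum_congr rfl fun j _ => ?_
          simp [mul_comm]
        rw [this, h.uv, map_zero]
      intro i hi j hj
      simp only [mem_insert_iff, mem_singleton_iff] at hi hj
      rcases hi with rfl | rfl <;> rcases hj with rfl | rfl
      · simp [huu]
      · simp [h.uv]
      · simp [hvu]
      · simp [hvv])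
  refine ⟨V, hV, fun j => ?_, fun j => ?_⟩
  · rw [hc 0 (by simp) j]; simp
  · rw [hc 1 (by simp) j]; simp

theorem specExt1 : SpecExt1 := by
  intro m u h
  obtain ⟨V, hV, hc⟩ := ExtM.exists_ext ({0} : Set (Fin (m + 1))) (fun _ => u) (by
      intro i hi j hj
      simp only [mem_singleton_iff] at hi hj
      subst hi; subst hj
      rw [InvM.herm_self, h]; simp)
  exact ⟨V, hV, fun j => hc 0 (by simp) j⟩

end MPf1e3
end

section
/-!
Problem MP_f1e3b4_an, module GS: Gram-Schmidt frames.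
-/
set_option autoImplicit false

open MeasureTheory ProbabilityTheory Filter Topology Set
open scoped ENNReal ComplexConjugate

namespace MPf1e3

namespace GSM

open ProbM InvM

lemma nsq_nonneg {n : ℕ} (u : Fin n → ℂ) : 0 ≤ nsq u := by
  unfold nsq; positivity

lemma nsq_eq_zero {n : ℕ} {u : Fin n → ℂ} : nsq u = 0 ↔ u = 0 := by
  unfold nsq
  rw [Finset.sum_eq_zero_iff_of_nonneg fun j _ => by positivity]
  constructor
  · intro h
    funext j
    simpa using h j (Finset.mem_univ j)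
  · rintro rfl
    simp

lemma nz_eq {n : ℕ} (u : Fin n → ℂ) : nz u = ((Real.sqrt (nsq u) : ℂ))⁻¹ • u := by
  funext j
  simp [nz, div_eq_inv_mul]

lemma nsq_smul {n : ℕ} (c : ℂ) (u : Fin n → ℂ) : nsq (c • u) = ‖c‖ ^ 2 * nsq u := by
  unfold nsq
  rw [Finset.mul_sum]
  refine Finset.sum_congr rfl fun j _ => ?_
  simp [mul_pow]

lemma herm_smul_right {n : ℕ} (c : ℂ) (u v : Fin n → ℂ) : herm u (c • v) = c * herm u v := by
  unfold herm
  rw [Finset.mul_sum]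
  refine Finset.sum_congr rfl fun j _ => ?_
  simp only [Pi.smul_apply, smul_eq_mul]
  ring

lemma herm_sub_right {n : ℕ} (u v w : Fin n → ℂ) : herm u (v - w) = herm u v - herm u w := by
  unfold herm
  rw [← Finset.sum_sub_distrib]
  refine Finset.sum_congr rfl fun j _ => ?_
  simp only [Pi.sub_apply]
  ring

lemma nsq_nz {n : ℕ} {u : Fin n → ℂ} (hu : u ≠ 0) : nsq (nz u) = 1 := by
  have h0 : nsq u ≠ 0 := fun h => hu (nsq_eq_zero.1 h)
  have hp : 0 < nsq u := lt_of_le_of_ne (nsq_nonneg u) (Ne.symm h0)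
  rw [nz_eq, nsq_smul]
  rw [norm_inv, Complex.norm_real, Real.norm_eq_abs, abs_of_nonneg (Real.sqrt_nonneg _), inv_pow,
    Real.sq_sqrt hp.le]
  exact inv_mul_cancel₀ h0

lemma fv_eq {n : ℕ} (g h : Fin n → ℂ) : fv g h = nz (h - herm (fu g) h • fu g) := rfl

lemma on_of {n : ℕ} {g h : Fin n → ℂ} (hg : g ≠ 0) (hh : ∀ c : ℂ, h ≠ c • g) :
    ON (fu g) (fv g h) := by
  have h1 : nsq (fu g) = 1 := nsq_nz hg
  have hw : h - herm (fu g) h • fu g ≠ 0 := by
    intro h0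
    rw [sub_eq_zero] at h0
    refine hh (herm (fu g) h * ((Real.sqrt (nsq g) : ℂ))⁻¹) ?_
    rw [mul_smul, ← nz_eq]
    exact h0
  refine ⟨h1, ?_, ?_⟩
  · rw [fv_eq]
    exact nsq_nz hw
  · rw [fv_eq, nz_eq, herm_smul_right, herm_sub_right, herm_smul_right, herm_self (fu g), h1]
    simp

lemma ac (n : ℕ) : G n ≪ (volume : Measure (Fin n → ℂ)) := by
  rw [G_dens]
  exact withDensity_absolutelyContinuous _ _

lemma null_of {n : ℕ} (S : Submodule ℝ (Fin n → ℂ)) (hS : S ≠ ⊤) : G n (S : Set (Fin n → ℂ)) = 0 :=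
  ac n (Measure.addHaar_submodule volume S hS)

lemma null_lin {n : ℕ} (f : (Fin n → ℂ) →ₗ[ℝ] ℂ) (a : Fin n → ℂ) (ha : f a ≠ 0) :
    G n {h | f h = 0} = 0 := by
  have h1 : LinearMap.ker f ≠ ⊤ := by
    intro h
    apply ha
    have : a ∈ LinearMap.ker f := by rw [h]; trivial
    exact this
  exact null_of _ h1

lemma on_ae (m : ℕ) : ∀ᵐ ω ∂((G (m + 2)).prod (G (m + 2))), ON (fu ω.1) (fv ω.1 ω.2) := by
  have h01 : (1 : Fin (m + 2)) ≠ 0 := by simp
  have hm : MeasurableSet {ω : (Fin (m + 2) → ℂ) × (Fin (m + 2) → ℂ) |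
      ω.1 0 * ω.2 1 - ω.1 1 * ω.2 0 = 0} := by
    apply measurableSet_eq_fun _ measurable_const
    fun_prop
  have hn : (G (m + 2)).prod (G (m + 2)) {ω : (Fin (m + 2) → ℂ) × (Fin (m + 2) → ℂ) |
      ω.1 0 * ω.2 1 - ω.1 1 * ω.2 0 = 0} = 0 := by
    rw [Measure.measure_prod_null hm]
    have h0 : ∀ᵐ g ∂(G (m + 2)), g 0 ≠ 0 := by
      let f : (Fin (m + 2) → ℂ) →ₗ[ℝ] ℂ :=
        { toFun := fun g => g 0
          map_add' := fun _ _ => rfl
          map_smul' := fun _ _ => rfl }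
      have := null_lin f (fun _ => 1) one_ne_zero
      rw [ae_iff]
      simp only [ne_eq, not_not]
      exact this
    filter_upwards [h0] with g hg
    let f : (Fin (m + 2) → ℂ) →ₗ[ℝ] ℂ :=
      { toFun := fun h => g 0 * h 1 - g 1 * h 0
        map_add' := fun x y => by simp only [Pi.add_apply]; ring
        map_smul' := fun c x => by
          simp only [Pi.smul_apply, Complex.real_smul, RingHom.id_apply]; ring }
    exact null_lin f (fun j => if j = 1 then 1 else 0) (by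
      simp [f, Ne.symm h01, hg])
  have hae : ∀ᵐ ω ∂((G (m + 2)).prod (G (m + 2))), ω.1 0 * ω.2 1 - ω.1 1 * ω.2 0 ≠ 0 := by
    rw [ae_iff]
    simpa using hn
  filter_upwards [hae] with ω hω
  apply on_of
  · intro h
    apply hω
    rw [h]; simp
  · intro c h
    apply hω
    rw [h]
    simp only [Pi.smul_apply, smul_eq_mul]
    ring

lemma nz_mulVec {n : ℕ} {V : Matrix (Fin n) (Fin n) ℂ}
    (hV : V ∈ Matrix.unitaryGroup (Fin n) ℂ) (u : Fin n → ℂ) :
    nz (Matrix.mulVec V u) = Matrix.mulVec V (nz u) := by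
  rw [nz_eq, nz_eq, nsq_mulVec hV, Matrix.mulVec_smul]

lemma equ {n : ℕ} {V : Matrix (Fin n) (Fin n) ℂ}
    (hV : V ∈ Matrix.unitaryGroup (Fin n) ℂ) (g h : Fin n → ℂ) :
    fu (Matrix.mulVec V g) = Matrix.mulVec V (fu g) ∧
      fv (Matrix.mulVec V g) (Matrix.mulVec V h) = Matrix.mulVec V (fv g h) := by
  have h1 : fu (Matrix.mulVec V g) = Matrix.mulVec V (fu g) := nz_mulVec hV g
  refine ⟨h1, ?_⟩
  rw [fv_eq, fv_eq, h1, herm_mulVec hV, ← Matrix.mulVec_smul, ← Matrix.mulVec_sub, nz_mulVec hV]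

lemma meas_nz (n : ℕ) : Measurable (nz (n := n)) := by
  rw [measurable_pi_iff]
  intro j
  unfold nz nsq
  fun_prop

lemma meas_herm {α : Type*} [MeasurableSpace α] {n : ℕ} {u v : α → Fin n → ℂ}
    (hu : Measurable u) (hv : Measurable v) : Measurable fun x => herm (u x) (v x) := by
  unfold herm
  apply Finset.measurable_fun_sum
  intro j _
  exact (Complex.continuous_conj.measurable.comp ((measurable_pi_apply j).comp hu)).mul
    ((measurable_pi_apply j).comp hv)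

lemma meas_fu (n : ℕ) : Measurable fun ω : (Fin n → ℂ) × (Fin n → ℂ) => fu ω.1 :=
  (meas_nz n).comp measurable_fst

lemma meas_fv (n : ℕ) : Measurable fun ω : (Fin n → ℂ) × (Fin n → ℂ) => fv ω.1 ω.2 := by
  refine (meas_nz n).comp ?_
  rw [measurable_pi_iff]
  intro j
  exact ((measurable_pi_apply j).comp measurable_snd).sub
    ((meas_herm (meas_fu n) measurable_snd).mul ((measurable_pi_apply j).comp (meas_fu n)))

end GSM

theorem specGS : SpecGS where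
  on := GSM.on_ae
  equ := fun _ _ hV g h => GSM.equ hV g h
  meas_u := GSM.meas_fu
  meas_v := GSM.meas_fv

end MPf1e3
end

section
/-!
Module DET: negative moments of `det (1 - C* C)`, and its almost sure positivity.
-/
set_option autoImplicit false

open MeasureTheory ProbabilityTheory Filter Topology Set
open scoped ENNReal ComplexConjugate

namespace MPf1e3
namespace DetM

open ConsM GamM

/-! ### Gram determinants -/

/-- Gram determinant of two vectors. -/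
noncomputable def gd {n : ℕ} (x y : Fin n → ℂ) : ℝ := nsq x * nsq y - ‖herm x y‖ ^ 2

theorem nsq_sub_smul {n : ℕ} (x y : Fin n → ℂ) (c : ℂ) :
    nsq (y - c • x) = nsq y + ‖c‖ ^ 2 * nsq x - 2 * (conj c * herm x y).re := by
  unfold nsq herm
  rw [Finset.mul_sum, Finset.mul_sum, Complex.re_sum, Finset.mul_sum, ← Finset.sum_add_distrib,
    ← Finset.sum_sub_distrib]
  refine Finset.sum_congr rfl fun j _ => ?_
  simp only [Pi.sub_apply, Pi.smul_apply, smul_eq_mul, Complex.sq_norm, Complex.normSq_apply,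
    Complex.sub_re, Complex.sub_im, Complex.mul_re, Complex.mul_im, Complex.conj_re,
    Complex.conj_im]
  ring

theorem herm_smul_left {n : ℕ} (c : ℂ) (x y : Fin n → ℂ) :
    herm (c • x) y = conj c * herm x y := by
  unfold herm
  rw [Finset.mul_sum]
  refine Finset.sum_congr rfl fun j _ => ?_
  simp only [Pi.smul_apply, smul_eq_mul, map_mul]
  ring

theorem gd_smul_left {n : ℕ} (c : ℂ) (x y : Fin n → ℂ) : gd (c • x) y = ‖c‖ ^ 2 * gd x y := by
  unfold gd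
  rw [GSM.nsq_smul, herm_smul_left, norm_mul, Complex.norm_conj]
  ring

theorem gd_smul_right {n : ℕ} (c : ℂ) (x y : Fin n → ℂ) : gd x (c • y) = ‖c‖ ^ 2 * gd x y := by
  unfold gd
  rw [GSM.nsq_smul, GSM.herm_smul_right, norm_mul]
  ring

theorem gd_sub {n : ℕ} (c : ℂ) (x y : Fin n → ℂ) : gd x (y - c • x) = gd x y := by
  unfold gd
  rw [nsq_sub_smul, GSM.herm_sub_right, GSM.herm_smul_right, InvM.herm_self]
  have h : ‖herm x y - c * (nsq x : ℂ)‖ ^ 2
      = ‖herm x y‖ ^ 2 + ‖c‖ ^ 2 * nsq x ^ 2 - 2 * nsq x * (conj c * herm x y).re := by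
    simp only [Complex.sq_norm, Complex.normSq_apply, Complex.sub_re, Complex.sub_im,
      Complex.mul_re, Complex.mul_im, Complex.conj_re, Complex.conj_im, Complex.ofReal_re,
      Complex.ofReal_im]
    ring
  rw [h]
  ring

theorem gd_nonneg {n : ℕ} (x y : Fin n → ℂ) : 0 ≤ gd x y :=
  sub_nonneg.2 (CtrM.herm_sq_le x y)

theorem gd_le {n : ℕ} (x y : Fin n → ℂ) : gd x y ≤ nsq x * nsq y := by
  unfold gd
  nlinarith [sq_nonneg ‖herm x y‖]

/-- The Gram determinant through the normalised first vector. -/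
theorem gd_nz {n : ℕ} (x y : Fin n → ℂ) : gd x y = nsq x * (nsq y - ‖herm (nz x) y‖ ^ 2) := by
  by_cases hx : x = 0
  · subst hx
    have h0 : nsq (0 : Fin n → ℂ) = 0 := GSM.nsq_eq_zero.2 rfl
    have h1 : herm (0 : Fin n → ℂ) y = 0 := by simp [herm]
    simp [gd, h0, h1]
  · have h0 : nsq x ≠ 0 := fun h => hx (GSM.nsq_eq_zero.1 h)
    have hp : 0 < nsq x := lt_of_le_of_ne (GSM.nsq_nonneg x) (Ne.symm h0)
    unfold gd
    rw [GSM.nz_eq, herm_smul_left, norm_mul, Complex.norm_conj, norm_inv, Complex.norm_real,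
      Real.norm_eq_abs, abs_of_nonneg (Real.sqrt_nonneg _), mul_pow, inv_pow, Real.sq_sqrt hp.le]
    field_simp

theorem E_nonneg {n : ℕ} (x y : Fin n → ℂ) (hx : x ≠ 0) : 0 ≤ nsq y - ‖herm (nz x) y‖ ^ 2 := by
  have h0 : nsq x ≠ 0 := fun h => hx (GSM.nsq_eq_zero.1 h)
  have hp : 0 < nsq x := lt_of_le_of_ne (GSM.nsq_nonneg x) (Ne.symm h0)
  have h := gd_nonneg x y
  rw [gd_nz] at h
  exact nonneg_of_mul_nonneg_right h hp

theorem tl_smul {m : ℕ} (c : ℂ) (a : Fin (m + 2) → ℂ) : tl (c • a) = c • tl a := rfl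

theorem tl_sub {m : ℕ} (a b : Fin (m + 2) → ℂ) : tl (a - b) = tl a - tl b := rfl

/-- The Gram determinant of the tails of the Gram-Schmidt frame. -/
theorem gd_frame {m : ℕ} (g h : Fin (m + 2) → ℂ) :
    gd (tl (fu g)) (tl (fv g h)) = gd (tl g) (tl h) / gd g h := by
  have hsq : ∀ x : Fin (m + 2) → ℂ, ‖((Real.sqrt (nsq x) : ℂ))⁻¹‖ ^ 2 = (nsq x)⁻¹ := by
    intro x
    rw [norm_inv, Complex.norm_real, Real.norm_eq_abs, abs_of_nonneg (Real.sqrt_nonneg _), inv_pow,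
      Real.sq_sqrt (GSM.nsq_nonneg x)]
  by_cases hg : g = 0
  · subst hg
    have h0 : nsq (0 : Fin (m + 2) → ℂ) = 0 := GSM.nsq_eq_zero.2 rfl
    have h1 : herm (0 : Fin (m + 2) → ℂ) h = 0 := by simp [herm]
    have h2 : gd (0 : Fin (m + 2) → ℂ) h = 0 := by simp [gd, h0, h1]
    have h3 : fu (0 : Fin (m + 2) → ℂ) = 0 := by
      unfold fu; rw [GSM.nz_eq]; simp
    rw [h2, div_zero, h3]
    have h4 : tl (0 : Fin (m + 2) → ℂ) = 0 := rfl
    rw [h4]
    have h5 : nsq (0 : Fin m → ℂ) = 0 := GSM.nsq_eq_zero.2 rfl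
    have h6 : ∀ y : Fin m → ℂ, herm (0 : Fin m → ℂ) y = 0 := fun y => by simp [herm]
    simp [gd, h5, h6]
  · have h0 : nsq g ≠ 0 := fun h => hg (GSM.nsq_eq_zero.1 h)
    have h1 : nsq (fu g) = 1 := GSM.nsq_nz hg
    set w : Fin (m + 2) → ℂ := h - herm (fu g) h • fu g with hw
    have e1 : gd g h = nsq g * nsq w := by
      have e2 : gd (fu g) h = nsq w := by
        rw [← gd_sub (herm (fu g) h), ← hw]
        unfold gd
        rw [h1, one_mul, hw, GSM.herm_sub_right, GSM.herm_smul_right, InvM.herm_self, h1]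
        simp
      have e3 : gd (fu g) h = (nsq g)⁻¹ * gd g h := by
        unfold fu
        rw [GSM.nz_eq, gd_smul_left, hsq]
      rw [← e2, e3]
      field_simp
    have e4 : fv g h = ((Real.sqrt (nsq w) : ℂ))⁻¹ • w := by
      rw [GSM.fv_eq, GSM.nz_eq]
    rw [e4, tl_smul, gd_smul_right, hsq, hw, tl_sub, tl_smul, gd_sub, ← hw]
    have e5 : gd (tl (fu g)) (tl h) = (nsq g)⁻¹ * gd (tl g) (tl h) := by
      unfold fu
      rw [GSM.nz_eq, tl_smul, gd_smul_left, hsq]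
    rw [e5, e1, div_eq_mul_inv, mul_inv]
    ring

/-- The pointwise bound. -/
theorem dl_inv_le (hCtr : SpecCtr) {m : ℕ} (g h : Fin (m + 2) → ℂ)
    (hon : ON (fu g) (fv g h)) :
    ((ov (fu g) (fv g h)).dl)⁻¹ ≤ (nsq g / nsq (tl g)) *
      (nsq h / (nsq (tl h) - ‖herm (nz (tl g)) (tl h)‖ ^ 2)) := by
  have e1 : (ov (fu g) (fv g h)).dl = gd (tl g) (tl h) / gd g h := by
    rw [hCtr.gram m _ _ hon]
    exact gd_frame g h
  rw [e1, inv_div, div_mul_div_comm, ← gd_nz]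
  exact div_le_div_of_nonneg_right (gd_le g h) (gd_nonneg _ _)

theorem dl_inv_nonneg (hCtr : SpecCtr) {m : ℕ} (g h : Fin (m + 2) → ℂ)
    (hon : ON (fu g) (fv g h)) : 0 ≤ ((ov (fu g) (fv g h)).dl)⁻¹ :=
  inv_nonneg.2 (hCtr.dl m _ _ hon)

/-! ### one dimensional integrals -/

theorem red (hGam : SpecGam) (p k : ℕ) (A : ℝ) (hA : 0 ≤ A) :
    ∫⁻ r, ENNReal.ofReal (((A + nsq r) / nsq r) ^ p) ∂(G (p + k + 1)) =
      ENNReal.ofReal ((k.factorial : ℝ) / (2 ^ p * (p + k).factorial)) *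
        ∫⁻ a, ENNReal.ofReal ((A + nsq a) ^ p) ∂(G (k + 1)) := by
  have m1 : Measurable fun y : ℝ => ENNReal.ofReal (((A + y) / y) ^ p) := by fun_prop
  have m2 : Measurable fun y : ℝ => ENNReal.ofReal ((A + y) ^ p) := by fun_prop
  rw [hGam (p + k) (fun y => ENNReal.ofReal (((A + y) / y) ^ p)) m1,
    hGam k (fun y => ENNReal.ofReal ((A + y) ^ p)) m2,
    ← lintegral_const_mul' _ _ ENNReal.ofReal_ne_top]
  refine setLIntegral_congr_fun measurableSet_Ioi fun y hy => ?_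
  have hy : 0 < y := hy
  have hAy : 0 ≤ A + y := by linarith
  rw [← ENNReal.ofReal_mul (by positivity), ← ENNReal.ofReal_mul (by positivity),
    ← ENNReal.ofReal_mul (by positivity)]
  congr 1
  rw [div_pow, pow_add y p k, pow_add 2 (p + k) 1, pow_add 2 p k]
  field_simp
  ring

/-- The moments of the norm of a Gaussian vector in `ℂ^4`. -/
theorem mom4 (hP : SpecProb) (hGam : SpecGam) (p : ℕ) :
    ∫⁻ a, ENNReal.ofReal ((nsq a) ^ p) ∂(G 4) =
      ENNReal.ofReal (2 ^ p * (p + 3).factorial / 6) := by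
  have m1 : Measurable fun y : ℝ => ENNReal.ofReal (y ^ p) := by fun_prop
  have h1 := hGam 3 (fun y => ENNReal.ofReal (y ^ p)) m1
  have h2 := hGam (p + 3) (fun _ => 1) measurable_const
  have h3 : ∫⁻ _ : Fin (p + 3 + 1) → ℂ, (1 : ℝ≥0∞) ∂(G (p + 3 + 1)) = 1 := by
    have := hP.G (p + 3 + 1)
    simp
  rw [h3] at h2
  refine h1.trans ?_
  have h4 : ∫⁻ y in Ioi (0 : ℝ), ENNReal.ofReal (y ^ p) *
      ENNReal.ofReal (y ^ 3 * Real.exp (-(y / 2)) / (2 ^ (3 + 1) * (Nat.factorial 3 : ℕ))) =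
      ENNReal.ofReal (2 ^ p * (p + 3).factorial / 6) * ∫⁻ y in Ioi (0 : ℝ),
        1 * ENNReal.ofReal (y ^ (p + 3) * Real.exp (-(y / 2)) /
          (2 ^ (p + 3 + 1) * (p + 3).factorial)) := by
    rw [← lintegral_const_mul' _ _ ENNReal.ofReal_ne_top]
    refine setLIntegral_congr_fun measurableSet_Ioi fun y hy => ?_
    have hy : 0 < y := hy
    simp only [one_mul]
    rw [← ENNReal.ofReal_mul (by positivity), ← ENNReal.ofReal_mul (by positivity)]
    congr 1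
    have e6 : ((Nat.factorial 3 : ℕ) : ℝ) = 6 := by norm_num [Nat.factorial]
    rw [e6, pow_add y p 3, pow_add 2 (p + 3) 1, pow_add 2 p 3]
    field_simp
  rw [h4, ← h2, mul_one]

/-! ### the second vector -/

theorem meas_tl {m : ℕ} : Measurable (tl : (Fin (m + 2) → ℂ) → Fin m → ℂ) :=
  measurable_pi_lambda _ fun _ => measurable_pi_apply _

theorem meas_hr {n : ℕ} (e : Fin n → ℂ) : Measurable fun r : Fin n → ℂ => herm e r :=
  GSM.meas_herm measurable_const measurable_id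

theorem hrot (hGam : SpecGam) (hExt1 : SpecExt1) (hInv : SpecInv) (p : ℕ) (A : ℝ) (hA : 0 ≤ A)
    (e : Fin (p + 2) → ℂ) (he : nsq e = 1) :
    ∫⁻ r, ENNReal.ofReal (((A + nsq r) / (nsq r - ‖herm e r‖ ^ 2)) ^ p) ∂(G (p + 2)) =
      ENNReal.ofReal (((2 : ℝ) ^ p * p.factorial)⁻¹) *
        ∫⁻ a, ENNReal.ofReal ((A + nsq a) ^ p) ∂(G 2) := by
  obtain ⟨V, hV, hVe⟩ := hExt1 (p + 1) e he
  have he' : Matrix.mulVec V (Pi.single 0 1) = e := by
    funext j
    rw [Matrix.mulVec_single_one]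
    exact hVe j
  have mn : Measurable (nsq : (Fin (p + 2) → ℂ) → ℝ) := meas_nsq
  have mh := meas_hr e
  have mF : Measurable fun r : Fin (p + 2) → ℂ =>
      ENNReal.ofReal (((A + nsq r) / (nsq r - ‖herm e r‖ ^ 2)) ^ p) := by fun_prop
  rw [← (hInv.col (p + 2) V hV).lintegral_comp mF]
  have h1 : ∀ r : Fin (p + 2) → ℂ, ENNReal.ofReal (((A + nsq (Matrix.mulVec V r)) /
      (nsq (Matrix.mulVec V r) - ‖herm e (Matrix.mulVec V r)‖ ^ 2)) ^ p) =
      ENNReal.ofReal (((A + nsq r) / (nsq r - ‖r 0‖ ^ 2)) ^ p) := by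
    intro r
    have e1 : herm e (Matrix.mulVec V r) = r 0 := by
      rw [← he', InvM.herm_mulVec hV]
      unfold herm
      simp [Pi.single_apply]
    rw [InvM.nsq_mulVec hV, e1]
  simp_rw [h1]
  have mF2 : Measurable fun r : Fin (p + 1 + 1) → ℂ =>
      ENNReal.ofReal (((A + nsq r) / (nsq r - ‖r 0‖ ^ 2)) ^ p) := by
    have mn : Measurable (nsq : (Fin (p + 1 + 1) → ℂ) → ℝ) := meas_nsq
    fun_prop
  rw [specCons1 (p + 1) _ mF2]
  have mF3 : Measurable fun r : Fin (1 + 1) → ℂ => ENNReal.ofReal ((A + nsq r) ^ p) := by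
    have mn : Measurable (nsq : (Fin (1 + 1) → ℂ) → ℝ) := meas_nsq
    fun_prop
  have h2 := specCons1 1 _ mF3
  rw [show ∫⁻ a, ENNReal.ofReal ((A + nsq a) ^ p) ∂(G 2) = _ from h2,
    ← lintegral_const_mul' _ _ ENNReal.ofReal_ne_top]
  refine lintegral_congr fun γ => ?_
  simp_rw [nsq_cons, Fin.cons_zero]
  have h3 := red hGam p 0 (A + ‖γ‖ ^ 2) (by positivity)
  have h4 : ∀ r : Fin (p + 1) → ℂ, (A + (‖γ‖ ^ 2 + nsq r)) / (‖γ‖ ^ 2 + nsq r - ‖γ‖ ^ 2) =
      (A + ‖γ‖ ^ 2 + nsq r) / nsq r := by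
    intro r
    rw [add_sub_cancel_left, add_assoc]
  simp_rw [h4]
  have h5 : ∀ r : Fin 1 → ℂ, A + (‖γ‖ ^ 2 + nsq r) = A + ‖γ‖ ^ 2 + nsq r := fun r => by ring
  simp_rw [h5]
  refine h3.trans ?_
  congr 2
  simp

theorem Hint (hP : SpecProb) (hGam : SpecGam) (hExt1 : SpecExt1) (hInv : SpecInv) (p : ℕ)
    (e : Fin (p + 2) → ℂ) (he : nsq e = 1) :
    ∫⁻ h : Fin (p + 2 + 2) → ℂ, ENNReal.ofReal ((nsq h /
      (nsq (tl h) - ‖herm e (tl h)‖ ^ 2)) ^ p) ∂(G (p + 2 + 2)) =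
      ENNReal.ofReal (((p : ℝ) + 3) * (p + 2) * (p + 1) / 6) := by
  have mn : Measurable (nsq : (Fin (p + 2 + 2) → ℂ) → ℝ) := meas_nsq
  have mt : Measurable fun h : Fin (p + 2 + 2) → ℂ => nsq (tl h) := meas_nsq.comp meas_tl
  have mh : Measurable fun h : Fin (p + 2 + 2) → ℂ => herm e (tl h) := (meas_hr e).comp meas_tl
  have mF : Measurable fun h : Fin (p + 2 + 2) → ℂ => ENNReal.ofReal ((nsq h /
      (nsq (tl h) - ‖herm e (tl h)‖ ^ 2)) ^ p) := by fun_prop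
  rw [specCons (p + 2) _ mF]
  have h1 : ∀ (α β : ℂ), ∫⁻ r : Fin (p + 2) → ℂ, ENNReal.ofReal
      ((nsq (Fin.cons α (Fin.cons β r : Fin (p + 2 + 1) → ℂ) : Fin (p + 2 + 2) → ℂ) /
      (nsq (tl (Fin.cons α (Fin.cons β r : Fin (p + 2 + 1) → ℂ) : Fin (p + 2 + 2) → ℂ)) -
        ‖herm e (tl (Fin.cons α (Fin.cons β r : Fin (p + 2 + 1) → ℂ) : Fin (p + 2 + 2) → ℂ))‖ ^ 2))
          ^ p) ∂(G (p + 2)) =
      ENNReal.ofReal (((2 : ℝ) ^ p * p.factorial)⁻¹) *
        ∫⁻ a, ENNReal.ofReal ((‖α‖ ^ 2 + ‖β‖ ^ 2 + nsq a) ^ p) ∂(G 2) := by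
    intro α β
    have ht : ∀ r : Fin (p + 2) → ℂ, tl (Fin.cons α (Fin.cons β r : Fin (p + 2 + 1) → ℂ) :
        Fin (p + 2 + 2) → ℂ) = r := fun r => by
      funext j; simp [tl]
    simp_rw [ht, nsq_cons]
    have h5 : ∀ r : Fin (p + 2) → ℂ, ‖α‖ ^ 2 + (‖β‖ ^ 2 + nsq r) = ‖α‖ ^ 2 + ‖β‖ ^ 2 + nsq r :=
      fun r => by ring
    simp_rw [h5]
    exact hrot hGam hExt1 hInv p (‖α‖ ^ 2 + ‖β‖ ^ 2) (by positivity) e he
  simp_rw [h1]
  have h6 : ∫⁻ α, ∫⁻ β, ∫⁻ a : Fin 2 → ℂ, ENNReal.ofReal ((‖α‖ ^ 2 + ‖β‖ ^ 2 + nsq a) ^ p)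
      ∂(G 2) ∂cg ∂cg = ENNReal.ofReal (2 ^ p * (p + 3).factorial / 6) := by
    rw [← mom4 hP hGam p]
    have mn : Measurable (nsq : (Fin (2 + 2) → ℂ) → ℝ) := meas_nsq
    have h7 := specCons 2 (fun a => ENNReal.ofReal ((nsq a) ^ p)) (by fun_prop)
    refine Eq.trans ?_ h7.symm
    refine lintegral_congr fun α => lintegral_congr fun β => lintegral_congr fun a => ?_
    rw [nsq_cons, nsq_cons, add_assoc]
  simp_rw [lintegral_const_mul' _ _ ENNReal.ofReal_ne_top]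
  rw [h6, ← ENNReal.ofReal_mul (by positivity)]
  congr 1
  rw [Nat.factorial_succ, Nat.factorial_succ, Nat.factorial_succ]
  push_cast
  field_simp
  ring

theorem Gint (hP : SpecProb) (hGam : SpecGam) (p : ℕ) :
    ∫⁻ g : Fin (p + 2 + 2) → ℂ, ENNReal.ofReal ((nsq g / nsq (tl g)) ^ p) ∂(G (p + 2 + 2)) =
      ENNReal.ofReal (((p : ℝ) + 3) * (p + 2) / 6) := by
  have mn : Measurable (nsq : (Fin (p + 2 + 2) → ℂ) → ℝ) := meas_nsq
  have mt : Measurable fun h : Fin (p + 2 + 2) → ℂ => nsq (tl h) := meas_nsq.comp meas_tl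
  have mF : Measurable fun h : Fin (p + 2 + 2) → ℂ => ENNReal.ofReal ((nsq h /
      nsq (tl h)) ^ p) := by fun_prop
  rw [specCons (p + 2) _ mF]
  have h1 : ∀ (α β : ℂ), ∫⁻ r : Fin (p + 2) → ℂ, ENNReal.ofReal
      ((nsq (Fin.cons α (Fin.cons β r : Fin (p + 2 + 1) → ℂ) : Fin (p + 2 + 2) → ℂ) /
      nsq (tl (Fin.cons α (Fin.cons β r : Fin (p + 2 + 1) → ℂ) : Fin (p + 2 + 2) → ℂ)))
          ^ p) ∂(G (p + 2)) =
      ENNReal.ofReal (((2 : ℝ) ^ p * (p + 1).factorial)⁻¹) *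
        ∫⁻ a, ENNReal.ofReal ((‖α‖ ^ 2 + ‖β‖ ^ 2 + nsq a) ^ p) ∂(G 2) := by
    intro α β
    have ht : ∀ r : Fin (p + 2) → ℂ, tl (Fin.cons α (Fin.cons β r : Fin (p + 2 + 1) → ℂ) :
        Fin (p + 2 + 2) → ℂ) = r := fun r => by
      funext j; simp [tl]
    simp_rw [ht, nsq_cons]
    have h5 : ∀ r : Fin (p + 2) → ℂ, ‖α‖ ^ 2 + (‖β‖ ^ 2 + nsq r) = ‖α‖ ^ 2 + ‖β‖ ^ 2 + nsq r :=
      fun r => by ring
    simp_rw [h5]
    have h8 := red hGam p 1 (‖α‖ ^ 2 + ‖β‖ ^ 2) (by positivity)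
    refine h8.trans ?_
    congr 2
    simp
  simp_rw [h1]
  have h6 : ∫⁻ α, ∫⁻ β, ∫⁻ a : Fin 2 → ℂ, ENNReal.ofReal ((‖α‖ ^ 2 + ‖β‖ ^ 2 + nsq a) ^ p)
      ∂(G 2) ∂cg ∂cg = ENNReal.ofReal (2 ^ p * (p + 3).factorial / 6) := by
    rw [← mom4 hP hGam p]
    have mn : Measurable (nsq : (Fin (2 + 2) → ℂ) → ℝ) := meas_nsq
    have h7 := specCons 2 (fun a => ENNReal.ofReal ((nsq a) ^ p)) (by fun_prop)
    refine Eq.trans ?_ h7.symm
    refine lintegral_congr fun α => lintegral_congr fun β => lintegral_congr fun a => ?_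
    rw [nsq_cons, nsq_cons, add_assoc]
  simp_rw [lintegral_const_mul' _ _ ENNReal.ofReal_ne_top]
  rw [h6, ← ENNReal.ofReal_mul (by positivity)]
  congr 1
  rw [Nat.factorial_succ (p + 2), Nat.factorial_succ (p + 1)]
  push_cast
  field_simp
  ring

end DetM

open ConsM GamM DetM in
theorem specDet (hP : SpecProb) (hGS : SpecGS) (hCtr : SpecCtr) (hGam : SpecGam)
    (hExt1 : SpecExt1) (hInv : SpecInv) : SpecDet := by
  refine ⟨1, fun m hm => ?_⟩
  obtain ⟨p, rfl⟩ : ∃ p, m = p + 2 := ⟨m - 2, by omega⟩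
  have hp : 1 ≤ p := by omega
  rw [show p + 2 - 2 = p by omega]
  -- the integrand of the bound
  let F1 : (Fin (p + 2 + 2) → ℂ) → ℝ≥0∞ := fun g => ENNReal.ofReal ((nsq g / nsq (tl g)) ^ p)
  let F2 : (Fin (p + 2 + 2) → ℂ) → (Fin (p + 2 + 2) → ℂ) → ℝ≥0∞ := fun g h =>
    ENNReal.ofReal ((nsq h / (nsq (tl h) - ‖herm (nz (tl g)) (tl h)‖ ^ 2)) ^ p)
  have mn : Measurable (nsq : (Fin (p + 2 + 2) → ℂ) → ℝ) := meas_nsq
  have mt : Measurable fun h : Fin (p + 2 + 2) → ℂ => nsq (tl h) := meas_nsq.comp meas_tl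
  have mh : Measurable fun ω : (Fin (p + 2 + 2) → ℂ) × (Fin (p + 2 + 2) → ℂ) =>
      herm (nz (tl ω.1)) (tl ω.2) :=
    GSM.meas_herm ((GSM.meas_nz (p + 2)).comp (meas_tl.comp measurable_fst))
      (meas_tl.comp measurable_snd)
  have mt2 : Measurable fun ω : (Fin (p + 2 + 2) → ℂ) × (Fin (p + 2 + 2) → ℂ) => nsq (tl ω.2) :=
    mt.comp measurable_snd
  have mn2 : Measurable fun ω : (Fin (p + 2 + 2) → ℂ) × (Fin (p + 2 + 2) → ℂ) => nsq ω.2 :=
    mn.comp measurable_snd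
  have mF1 : Measurable F1 := by
    show Measurable fun g : Fin (p + 2 + 2) → ℂ => ENNReal.ofReal ((nsq g / nsq (tl g)) ^ p)
    fun_prop
  have mF2 : Measurable fun ω : (Fin (p + 2 + 2) → ℂ) × (Fin (p + 2 + 2) → ℂ) => F2 ω.1 ω.2 := by
    show Measurable fun ω : (Fin (p + 2 + 2) → ℂ) × (Fin (p + 2 + 2) → ℂ) =>
      ENNReal.ofReal ((nsq ω.2 / (nsq (tl ω.2) - ‖herm (nz (tl ω.1)) (tl ω.2)‖ ^ 2)) ^ p)
    fun_prop
  have step1 : ∫⁻ ω, ENNReal.ofReal ((((ov (fu ω.1) (fv ω.1 ω.2)).dl)⁻¹) ^ p)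
      ∂((G (p + 2 + 2)).prod (G (p + 2 + 2))) ≤
      ∫⁻ ω, F1 ω.1 * F2 ω.1 ω.2 ∂((G (p + 2 + 2)).prod (G (p + 2 + 2))) := by
    refine lintegral_mono_ae ?_
    filter_upwards [hGS.on (p + 2)] with ω hω
    have hle := dl_inv_le hCtr ω.1 ω.2 hω
    have h0 := dl_inv_nonneg hCtr ω.1 ω.2 hω
    have h1 := pow_le_pow_left₀ h0 hle p
    rw [mul_pow] at h1
    refine (ENNReal.ofReal_le_ofReal h1).trans ?_
    rw [ENNReal.ofReal_mul (pow_nonneg (div_nonneg (GSM.nsq_nonneg _) (GSM.nsq_nonneg _)) p)]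
  refine step1.trans ?_
  have step2 : ∫⁻ ω, F1 ω.1 * F2 ω.1 ω.2 ∂((G (p + 2 + 2)).prod (G (p + 2 + 2))) =
      ∫⁻ g, ∫⁻ h, F1 g * F2 g h ∂(G (p + 2 + 2)) ∂(G (p + 2 + 2)) :=
    lintegral_prod _ ((mF1.comp measurable_fst).mul mF2).aemeasurable
  rw [step2]
  have step3 : ∀ g : Fin (p + 2 + 2) → ℂ, ∫⁻ h, F1 g * F2 g h ∂(G (p + 2 + 2)) ≤
      F1 g * ENNReal.ofReal (((p : ℝ) + 3) * (p + 2) * (p + 1) / 6) := by
    intro g
    rw [lintegral_const_mul' _ _ ENNReal.ofReal_ne_top]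
    by_cases hg : tl g = 0
    · have : ENNReal.ofReal ((nsq g / nsq (tl g)) ^ p) = 0 := by
        rw [hg, GSM.nsq_eq_zero.2 rfl, div_zero, zero_pow (by omega), ENNReal.ofReal_zero]
      show ENNReal.ofReal ((nsq g / nsq (tl g)) ^ p) * _ ≤ ENNReal.ofReal ((nsq g / nsq (tl g)) ^ p) * _
      rw [this, zero_mul, zero_mul]
    · have := Hint hP hGam hExt1 hInv p (nz (tl g)) (GSM.nsq_nz hg)
      rw [← this]
  refine (lintegral_mono step3).trans ?_
  rw [lintegral_mul_const' _ _ ENNReal.ofReal_ne_top]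
  have step4 : ∫⁻ g, F1 g ∂(G (p + 2 + 2)) = ENNReal.ofReal (((p : ℝ) + 3) * (p + 2) / 6) :=
    Gint hP hGam p
  rw [step4, ← ENNReal.ofReal_mul (by positivity)]
  apply ENNReal.ofReal_le_ofReal
  push_cast
  have hp' : (1 : ℝ) ≤ p := by exact_mod_cast hp
  have hp0 : (0 : ℝ) ≤ p := by linarith
  have e : 1 * ((p : ℝ) + 2) ^ 5 - ((p : ℝ) + 3) * (p + 2) / 6 * (((p : ℝ) + 3) * (p + 2) * (p + 1) / 6)
      = ((p : ℝ) + 2) ^ 2 * (((p : ℝ) + 2) ^ 3 - (p + 3) ^ 2 * (p + 1) / 36) := by ring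
  have e2 : 0 ≤ ((p : ℝ) + 2) ^ 3 - (p + 3) ^ 2 * (p + 1) / 36 := by
    have : ((p : ℝ) + 2) ^ 3 - (p + 3) ^ 2 * (p + 1) / 36 =
      (36 * ((p : ℝ) + 2) ^ 3 - (p + 3) ^ 2 * (p + 1)) / 36 := by ring
    rw [this]
    apply div_nonneg _ (by norm_num)
    nlinarith [mul_nonneg hp0 hp0, mul_nonneg (mul_nonneg hp0 hp0) hp0]
  have e3 : 0 ≤ ((p : ℝ) + 2) ^ 2 * (((p : ℝ) + 2) ^ 3 - (p + 3) ^ 2 * (p + 1) / 36) :=
    mul_nonneg (by positivity) e2
  linarith


namespace DetM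

/-- two coordinates of two independent Gaussian vectors are independent almost surely -/
theorem minor_ae {n : ℕ} (i j : Fin n) (hij : i ≠ j) :
    ∀ᵐ ω ∂((G n).prod (G n)), ω.1 i * ω.2 j - ω.1 j * ω.2 i ≠ 0 := by
  have hm : MeasurableSet {ω : (Fin n → ℂ) × (Fin n → ℂ) |
      ω.1 i * ω.2 j - ω.1 j * ω.2 i = 0} := by
    apply measurableSet_eq_fun _ measurable_const
    fun_prop
  have hn : (G n).prod (G n) {ω : (Fin n → ℂ) × (Fin n → ℂ) |
      ω.1 i * ω.2 j - ω.1 j * ω.2 i = 0} = 0 := by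
    rw [Measure.measure_prod_null hm]
    have h0 : ∀ᵐ g ∂(G n), g i ≠ 0 := by
      let f : (Fin n → ℂ) →ₗ[ℝ] ℂ :=
        { toFun := fun g => g i
          map_add' := fun _ _ => rfl
          map_smul' := fun _ _ => rfl }
      have := GSM.null_lin f (fun _ => 1) one_ne_zero
      rw [ae_iff]
      simp only [ne_eq, not_not]
      exact this
    filter_upwards [h0] with g hg
    let f : (Fin n → ℂ) →ₗ[ℝ] ℂ :=
      { toFun := fun h => g i * h j - g j * h i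
        map_add' := fun x y => by simp only [Pi.add_apply]; ring
        map_smul' := fun c x => by
          simp only [Pi.smul_apply, Complex.real_smul, RingHom.id_apply]; ring }
    exact GSM.null_lin f (fun k => if k = j then 1 else 0) (by
      simp [f, hij, hg])
  rw [ae_iff]
  simpa using hn

/-- linearly independent vectors have positive Gram determinant -/
theorem gd_pos {n : ℕ} (x y : Fin n → ℂ) (i j : Fin n) (h : x i * y j - x j * y i ≠ 0) :
    0 < gd x y := by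
  have hx : x ≠ 0 := by
    rintro rfl
    apply h
    simp
  have h0 : nsq x ≠ 0 := fun h => hx (GSM.nsq_eq_zero.1 h)
  have hp : 0 < nsq x := lt_of_le_of_ne (GSM.nsq_nonneg x) (Ne.symm h0)
  set c : ℂ := herm x y / (nsq x : ℂ) with hc
  have h1 : gd x y = nsq x * nsq (y - c • x) := by
    rw [← gd_sub c x y]
    unfold gd
    rw [GSM.herm_sub_right, GSM.herm_smul_right, InvM.herm_self, hc,
      div_mul_cancel₀ _ (by exact_mod_cast h0)]
    simp
  rw [h1]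
  refine mul_pos hp (lt_of_le_of_ne (GSM.nsq_nonneg _) (Ne.symm fun h2 => h ?_))
  have h3 : y - c • x = 0 := GSM.nsq_eq_zero.1 h2
  have h4 : y = c • x := sub_eq_zero.1 h3
  rw [h4]
  simp only [Pi.smul_apply, smul_eq_mul]
  ring

end DetM

open DetM in
/-- almost surely the overlap matrix is a strict contraction -/
theorem dl_pos_ae (hGS : SpecGS) (hCtr : SpecCtr) : ∀ m : ℕ, 3 ≤ m →
    ∀ᵐ ω ∂((G (m + 2)).prod (G (m + 2))), 0 < (ov (fu ω.1) (fv ω.1 ω.2)).dl := by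
  intro m hm
  obtain ⟨p, rfl⟩ : ∃ p, m = p + 2 := ⟨m - 2, by omega⟩
  have h01 : (0 : Fin (p + 2 + 2)) ≠ 1 := by simp
  have h23 : (0 : Fin (p + 2)).succ.succ ≠ (1 : Fin (p + 2)).succ.succ := by
    intro h
    have := Fin.succ_injective _ (Fin.succ_injective _ h)
    simp at this
  filter_upwards [hGS.on (p + 2), minor_ae (0 : Fin (p + 2 + 2)) 1 h01,
    minor_ae (0 : Fin (p + 2)).succ.succ (1 : Fin (p + 2)).succ.succ h23] with ω h1 h2 h3
  have e1 : (ov (fu ω.1) (fv ω.1 ω.2)).dl = gd (tl ω.1) (tl ω.2) / gd ω.1 ω.2 := by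
    rw [hCtr.gram _ _ _ h1]
    exact gd_frame ω.1 ω.2
  rw [e1]
  exact div_pos (gd_pos (tl ω.1) (tl ω.2) 0 1 h3) (gd_pos ω.1 ω.2 0 1 h2)

end MPf1e3
end
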