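import Pool.Agent.Lib.MP_f1e3b4_an.Spec
import Mathlib

section
/-!
MP_f1e3b4_an: base lemmas for the small ball estimates SBX and SBS.
-/
set_option autoImplicit false

open MeasureTheory ProbabilityTheory Filter Topology Set
open scoped ENNReal ComplexConjugate

namespace MPf1e3
namespace SBM

/-! ### level sets of the cosine -/

lemma cos_sep0 {x y : ℝ} (hx : 0 ≤ x) (hxy : x ≤ y) (hy : y ≤ Real.pi) :
    2 * (y - x) ^ 2 / Real.pi ^ 2 ≤ Real.cos x - Real.cos y := by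
  have hpi := Real.pi_pos
  have e : Real.cos x - Real.cos y = 2 * Real.sin ((x + y) / 2) * Real.sin ((y - x) / 2) := by
    rw [Real.cos_sub_cos]
    have : (x - y) / 2 = - ((y - x) / 2) := by ring
    rw [this, Real.sin_neg]; ring
  have h1 : (y - x) / Real.pi ≤ Real.sin ((y - x) / 2) := by
    have := Real.mul_le_sin (x := (y - x) / 2) (by linarith) (by linarith)
    calc (y - x) / Real.pi = 2 / Real.pi * ((y - x) / 2) := by field_simp
      _ ≤ _ := this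
  have h2 : (y - x) / Real.pi ≤ Real.sin ((x + y) / 2) := by
    rcases le_total ((x + y) / 2) (Real.pi / 2) with h | h
    · have := Real.mul_le_sin (x := (x + y) / 2) (by linarith) h
      refine le_trans ?_ this
      rw [div_mul_eq_mul_div, div_le_div_iff_of_pos_right hpi]
      linarith
    · have := Real.mul_le_sin (x := Real.pi - (x + y) / 2) (by linarith) (by linarith)
      rw [Real.sin_pi_sub] at this
      refine le_trans ?_ this
      rw [div_mul_eq_mul_div, div_le_div_iff_of_pos_right hpi]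
      linarith
  have h0 : 0 ≤ (y - x) / Real.pi := div_nonneg (by linarith) hpi.le
  rw [e]
  have := mul_le_mul h2 h1 h0 (h0.trans h2)
  calc 2 * (y - x) ^ 2 / Real.pi ^ 2 = 2 * ((y - x) / Real.pi * ((y - x) / Real.pi)) := by
        field_simp
    _ ≤ 2 * (Real.sin ((x + y) / 2) * Real.sin ((y - x) / 2)) := by linarith
    _ = _ := by ring

lemma cos_sep {x y : ℝ} (k : ℤ) (hx : k * Real.pi ≤ x) (hx' : x ≤ (k + 1) * Real.pi)
    (hy : k * Real.pi ≤ y) (hy' : y ≤ (k + 1) * Real.pi) :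
    2 * (y - x) ^ 2 / Real.pi ^ 2 ≤ |Real.cos x - Real.cos y| := by
  have key : ∀ a b : ℝ, k * Real.pi ≤ a → a ≤ b → b ≤ (k + 1) * Real.pi →
      2 * (b - a) ^ 2 / Real.pi ^ 2 ≤ |Real.cos a - Real.cos b| := by
    intro a b ha hab hb
    have h := cos_sep0 (x := a - k * Real.pi) (y := b - k * Real.pi) (by linarith) (by linarith)
      (by linarith)
    have e : b - k * Real.pi - (a - k * Real.pi) = b - a := by ring
    rw [e] at h
    refine h.trans ((le_abs_self _).trans ?_)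
    rw [Real.cos_sub_int_mul_pi, Real.cos_sub_int_mul_pi, ← mul_sub, abs_mul]
    have : |(-1 : ℝ) ^ k| = 1 := by
      rw [abs_zpow]; simp
    rw [this, one_mul]
  rcases le_total x y with h | h
  · exact key x y hx h hy'
  · have := key y x hy h hx'
    rw [abs_sub_comm]
    calc 2 * (y - x) ^ 2 / Real.pi ^ 2 = 2 * (x - y) ^ 2 / Real.pi ^ 2 := by ring
      _ ≤ _ := this

lemma cav_cos {θ q η : ℝ} (h1 : -Real.pi ≤ θ) (h2 : θ ≤ Real.pi) (hη : 0 ≤ η) :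
    cav {φ | |Real.cos (φ - θ) + q| ≤ η} ≤ ENNReal.ofReal (2 * Real.sqrt η) := by
  have hpi := Real.pi_pos
  set S : Set ℝ := {φ | |Real.cos (φ - θ) + q| ≤ η} with hS
  have piece : ∀ k : ℤ, volume (S ∩ {φ | k * Real.pi ≤ φ - θ ∧ φ - θ ≤ (k + 1) * Real.pi}) ≤
      ENNReal.ofReal (Real.pi * Real.sqrt η) := by
    intro k
    refine (Real.volume_le_diam _).trans (Metric.ediam_le ?_)
    rintro x ⟨hx, hx1, hx2⟩ y ⟨hy, hy1, hy2⟩
    rw [edist_dist]
    apply ENNReal.ofReal_le_ofReal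
    have h := cos_sep k hx1 hx2 hy1 hy2
    have e : y - θ - (x - θ) = y - x := by ring
    rw [e] at h
    simp only [hS, Set.mem_ofPred_eq] at hx hy
    have h3 : |Real.cos (x - θ) - Real.cos (y - θ)| ≤ 2 * η := by
      rw [abs_le] at hx hy ⊢
      constructor <;> linarith [hx.1, hx.2, hy.1, hy.2]
    have h4 : (y - x) ^ 2 ≤ (Real.pi * Real.sqrt η) ^ 2 := by
      rw [mul_pow, Real.sq_sqrt hη]
      have := h.trans h3
      rw [div_le_iff₀ (by positivity)] at this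
      linarith
    rw [Real.dist_eq, abs_sub_comm]
    exact abs_le_of_sq_le_sq h4 (by positivity)
  have cover : S ∩ Ioc 0 (2 * Real.pi) ⊆
      (S ∩ {φ | ((-1 : ℤ) : ℝ) * Real.pi ≤ φ - θ ∧ φ - θ ≤ (((-1 : ℤ) : ℝ) + 1) * Real.pi}) ∪
      (S ∩ {φ | ((0 : ℤ) : ℝ) * Real.pi ≤ φ - θ ∧ φ - θ ≤ (((0 : ℤ) : ℝ) + 1) * Real.pi}) ∪
      (S ∩ {φ | ((1 : ℤ) : ℝ) * Real.pi ≤ φ - θ ∧ φ - θ ≤ (((1 : ℤ) : ℝ) + 1) * Real.pi}) ∪
      (S ∩ {φ | ((2 : ℤ) : ℝ) * Real.pi ≤ φ - θ ∧ φ - θ ≤ (((2 : ℤ) : ℝ) + 1) * Real.pi}) := by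
    rintro φ ⟨hφ, h3, h4⟩
    simp only [Set.mem_union, Set.mem_inter_iff, hφ, true_and, Set.mem_ofPred_eq]
    push_cast
    rcases le_total (φ - θ) 0 with h | h
    · left; left; left; constructor <;> linarith
    · rcases le_total (φ - θ) Real.pi with h' | h'
      · left; left; right; constructor <;> linarith
      · rcases le_total (φ - θ) (2 * Real.pi) with h'' | h''
        · left; right; constructor <;> linarith
        · right; constructor <;> linarith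
  have hv : volume (S ∩ Ioc 0 (2 * Real.pi)) ≤ ENNReal.ofReal (4 * (Real.pi * Real.sqrt η)) := by
    refine (measure_mono cover).trans ?_
    refine (measure_union_le _ _).trans ?_
    have a := (measure_union_le (μ := (volume : Measure ℝ))
      ((S ∩ {φ | ((-1 : ℤ) : ℝ) * Real.pi ≤ φ - θ ∧ φ - θ ≤ (((-1 : ℤ) : ℝ) + 1) * Real.pi}) ∪
      (S ∩ {φ | ((0 : ℤ) : ℝ) * Real.pi ≤ φ - θ ∧ φ - θ ≤ (((0 : ℤ) : ℝ) + 1) * Real.pi}))
      (S ∩ {φ | ((1 : ℤ) : ℝ) * Real.pi ≤ φ - θ ∧ φ - θ ≤ (((1 : ℤ) : ℝ) + 1) * Real.pi}))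
    have b := (measure_union_le (μ := (volume : Measure ℝ))
      ((S ∩ {φ | ((-1 : ℤ) : ℝ) * Real.pi ≤ φ - θ ∧ φ - θ ≤ (((-1 : ℤ) : ℝ) + 1) * Real.pi}))
      (S ∩ {φ | ((0 : ℤ) : ℝ) * Real.pi ≤ φ - θ ∧ φ - θ ≤ (((0 : ℤ) : ℝ) + 1) * Real.pi}))
    have hp : 0 ≤ Real.pi * Real.sqrt η := by positivity
    calc _ ≤ ENNReal.ofReal (Real.pi * Real.sqrt η) + ENNReal.ofReal (Real.pi * Real.sqrt η) +
        ENNReal.ofReal (Real.pi * Real.sqrt η) + ENNReal.ofReal (Real.pi * Real.sqrt η) := by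
          refine add_le_add (a.trans (add_le_add (b.trans (add_le_add (piece (-1)) (piece 0)))
            (piece 1))) (piece 2)
      _ = ENNReal.ofReal (4 * (Real.pi * Real.sqrt η)) := by
          rw [← ENNReal.ofReal_add hp hp, ← ENNReal.ofReal_add (by positivity) hp,
            ← ENNReal.ofReal_add (by positivity) hp]
          congr 1; ring
  rw [cav, Measure.smul_apply, smul_eq_mul]
  have hSm : MeasurableSet S := by
    have : IsClosed S := isClosed_le (by fun_prop) continuous_const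
    exact this.measurableSet
  rw [Measure.restrict_apply hSm]
  calc (ENNReal.ofReal (2 * Real.pi))⁻¹ * volume (S ∩ Ioc 0 (2 * Real.pi)) ≤
      (ENNReal.ofReal (2 * Real.pi))⁻¹ * ENNReal.ofReal (4 * (Real.pi * Real.sqrt η)) := by gcongr
    _ = ENNReal.ofReal (2 * Real.sqrt η) := by
        rw [← ENNReal.ofReal_inv_of_pos (by positivity), ← ENNReal.ofReal_mul (by positivity)]
        congr 1
        field_simp
        ring

/-- level sets of `Re (e^{iφ} ω) / |ω|` -/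
lemma cav_re (ω : ℂ) (hω : ω ≠ 0) (q η : ℝ) (hη : 0 ≤ η) :
    cav {φ | |(ee φ * ω).re / ‖ω‖ + q| ≤ η} ≤ ENNReal.ofReal (2 * Real.sqrt η) := by
  have h := cav_cos (θ := - Complex.arg ω) (q := q) (η := η)
    (by linarith [Complex.arg_le_pi ω]) (by linarith [Complex.neg_pi_lt_arg ω]) hη
  have key : ∀ φ : ℝ, (ee φ * ω).re / ‖ω‖ = Real.cos (φ - -Complex.arg ω) := by
    intro φ
    have hn : ‖ω‖ ≠ 0 := by simpa using hω
    rw [div_eq_iff hn]
    have : ee φ * ω = (‖ω‖ : ℂ) * Complex.exp ((φ + Complex.arg ω : ℝ) * Complex.I) := by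
      rw [ee]
      conv_lhs => rw [← Complex.norm_mul_exp_arg_mul_I ω]
      push_cast
      rw [add_mul, Complex.exp_add]
      ring
    rw [this, Complex.re_ofReal_mul, Complex.exp_ofReal_mul_I_re, sub_neg_eq_add]
    ring
  simpa only [key] using h

/-! ### Gaussian directions -/

lemma gauss_le : gaussianReal 0 1 ≤ (2 : ℝ≥0∞)⁻¹ • (volume : Measure ℝ) := by
  rw [gaussianReal_of_var_ne_zero _ one_ne_zero]
  rw [Measure.le_iff]
  intro s hs
  rw [withDensity_apply _ hs, Measure.smul_apply, smul_eq_mul, ← setLIntegral_const]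
  apply lintegral_mono
  intro x
  show gaussianPDF 0 1 x ≤ _
  rw [gaussianPDF, gaussianPDFReal]
  have e2 : (2 : ℝ≥0∞)⁻¹ = ENNReal.ofReal (1 / 2) := by
    rw [one_div, ENNReal.ofReal_inv_of_pos (by norm_num)]; simp
  rw [e2]
  apply ENNReal.ofReal_le_ofReal
  have h1 : (2 : ℝ) ≤ Real.sqrt (2 * Real.pi * ((1 : NNReal) : ℝ)) := by
    apply Real.le_sqrt_of_sq_le
    have := Real.pi_gt_three
    push_cast; nlinarith
  have h2 : Real.exp (-(x - 0) ^ 2 / (2 * ((1 : NNReal) : ℝ))) ≤ 1 := by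
    apply Real.exp_le_one_iff.2
    have : 0 ≤ (x - 0) ^ 2 := sq_nonneg _
    apply div_nonpos_of_nonpos_of_nonneg
    · linarith
    · positivity
  calc (Real.sqrt (2 * Real.pi * ((1 : NNReal) : ℝ)))⁻¹ *
      Real.exp (-(x - 0) ^ 2 / (2 * ((1 : NNReal) : ℝ))) ≤ (2 : ℝ)⁻¹ * 1 := by
        apply mul_le_mul _ h2 (Real.exp_pos _).le (by norm_num)
        exact inv_anti₀ (by norm_num) h1
    _ = 1 / 2 := by norm_num

lemma cg_re_le (s : Set ℝ) (hs : MeasurableSet s) :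
    cg {z | z.re ∈ s} ≤ (2 : ℝ≥0∞)⁻¹ * volume s := by
  have hm : MeasurableSet {z : ℂ | z.re ∈ s} := Complex.measurable_re hs
  rw [cg, Measure.map_apply (by fun_prop) hm]
  have : (fun p : ℝ × ℝ => (p.1 : ℂ) + (p.2 : ℂ) * Complex.I) ⁻¹' {z | z.re ∈ s} =
      s ×ˢ (univ : Set ℝ) := by
    ext p; simp
  rw [this, Measure.prod_prod, measure_univ, mul_one]
  exact (gauss_le s).trans (by rw [Measure.smul_apply, smul_eq_mul])

/-- small ball for one Gaussian real part -/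
lemma cg_small (c R t : ℝ) (hR : 0 < R) :
    cg {z | |c + R * z.re| ≤ t} ≤ ENNReal.ofReal (t / R) := by
  have : {z : ℂ | |c + R * z.re| ≤ t} = {z | z.re ∈ Icc ((-t - c) / R) ((t - c) / R)} := by
    ext z
    simp only [Set.mem_ofPred_eq, abs_le, Set.mem_Icc, div_le_iff₀ hR, le_div_iff₀ hR]
    constructor <;> rintro ⟨h1, h2⟩ <;> constructor <;> linarith
  rw [this]
  refine (cg_re_le _ measurableSet_Icc).trans ?_
  rw [Real.volume_Icc]
  have e2 : (2 : ℝ≥0∞)⁻¹ = ENNReal.ofReal (1 / 2) := by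
    rw [one_div, ENNReal.ofReal_inv_of_pos (by norm_num)]; simp
  rw [e2, ← ENNReal.ofReal_mul (by norm_num)]
  apply ENNReal.ofReal_le_ofReal
  apply le_of_eq
  field_simp
  ring

lemma nsq_nonneg {n : ℕ} (u : Fin n → ℂ) : 0 ≤ nsq u :=
  Finset.sum_nonneg fun _ _ => sq_nonneg _

/-- small ball for a Gaussian row -/
lemma G_small (hP : SpecProb) (hI : SpecInv) (hE : SpecExt1) (m : ℕ) (v : Fin (m + 1) → ℂ)
    (hv : 0 < nsq v) (c t : ℝ) :
    G (m + 1) {r | |c + (dot r v).re| ≤ t} ≤ ENNReal.ofReal (t / Real.sqrt (nsq v)) := by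
  have hs : 0 < Real.sqrt (nsq v) := Real.sqrt_pos.2 hv
  set R := Real.sqrt (nsq v) with hR
  have hR2 : R ^ 2 = nsq v := Real.sq_sqrt hv.le
  obtain ⟨V, hV, hV0⟩ := hE m (fun j => v j / (R : ℂ)) (by
    simp only [nsq, norm_div, div_pow, Complex.norm_real, Real.norm_eq_abs, sq_abs]
    rw [← Finset.sum_div]
    change nsq v / R ^ 2 = 1
    rw [hR2, div_self hv.ne'])
  have hmp := hI.row (m + 1) V hV
  have hdot : ∀ r : Fin (m + 1) → ℂ, dot r v = (R : ℂ) * (Matrix.vecMul r V) 0 := by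
    intro r
    simp only [dot, Matrix.vecMul, dotProduct, hV0]
    rw [Finset.mul_sum]
    refine Finset.sum_congr rfl fun j _ => ?_
    have : (R : ℂ) ≠ 0 := by exact_mod_cast hs.ne'
    field_simp
  have hset : {r : Fin (m + 1) → ℂ | |c + (dot r v).re| ≤ t} =
      (fun a => Matrix.vecMul a V) ⁻¹' {a | |c + R * (a 0).re| ≤ t} := by
    ext r
    simp only [Set.mem_ofPred_eq, Set.mem_preimage, hdot, Complex.re_ofReal_mul]
  have hm : MeasurableSet {a : Fin (m + 1) → ℂ | |c + R * (a 0).re| ≤ t} := by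
    have : IsClosed {a : Fin (m + 1) → ℂ | |c + R * (a 0).re| ≤ t} := by
      apply isClosed_le _ continuous_const
      have : Continuous fun a : Fin (m + 1) → ℂ => (a 0).re :=
        Complex.continuous_re.comp (continuous_apply 0)
      fun_prop
    exact this.measurableSet
  rw [hset, hmp.measure_preimage hm.nullMeasurableSet]
  have : IsProbabilityMeasure cg := hP.cg
  have hev : MeasurePreserving (Function.eval (0 : Fin (m + 1))) (G (m + 1)) cg := by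
    unfold G
    exact measurePreserving_eval (fun _ : Fin (m + 1) => cg) 0
  have hset2 : {a : Fin (m + 1) → ℂ | |c + R * (a 0).re| ≤ t} =
      (Function.eval (0 : Fin (m + 1))) ⁻¹' {z : ℂ | |c + R * z.re| ≤ t} := rfl
  have hm2 : MeasurableSet {z : ℂ | |c + R * z.re| ≤ t} := by
    have : IsClosed {z : ℂ | |c + R * z.re| ≤ t} := by
      apply isClosed_le _ continuous_const
      fun_prop
    exact this.measurableSet
  rw [hset2, hev.measure_preimage hm2.nullMeasurableSet]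
  exact cg_small c R t hs

/-! ### the planted law as an iterated integral -/

lemma continuous_mkrow {m : ℕ} :
    Continuous fun p : ℝ × ℂ × ℂ × (Fin m → ℂ) => mkrow p.1 p.2.1 p.2.2.1 p.2.2.2 := by
  unfold mkrow ee
  refine continuous_pi fun i => ?_
  refine Fin.cases ?_ (fun j => ?_) i
  · simp only [Fin.cons_zero]
    fun_prop
  · simp only [Fin.cons_succ]
    refine Fin.cases ?_ (fun k => ?_) j
    · simp only [Fin.cons_zero]
      have : Continuous fun p : ℝ × ℂ × ℂ × (Fin m → ℂ) =>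
          (starRingEnd ℂ) (Complex.exp ((p.1 : ℂ) * Complex.I)) :=
        Complex.continuous_conj.comp (by fun_prop)
      fun_prop
    · simp only [Fin.cons_succ]
      fun_prop

lemma continuous_jrow {m : ℕ} (w : Dir m) : Continuous fun a : Fin (m + 2) → ℂ => jrow a w := by
  unfold jrow dot tl
  have h : ∀ j, Continuous fun a : Fin (m + 2) → ℂ => a j := fun j => continuous_apply j
  have hc : ∀ j, Continuous fun a : Fin (m + 2) → ℂ => conj (a j) :=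
    fun j => Complex.continuous_conj.comp (h j)
  fun_prop

lemma measurableSet_jrow {m : ℕ} (w : Dir m) (t : ℝ) :
    MeasurableSet {a : Fin (m + 2) → ℂ | |jrow a w| ≤ t} := by
  have : IsClosed {a : Fin (m + 2) → ℂ | |jrow a w| ≤ t} :=
    isClosed_le (continuous_jrow w).abs continuous_const
  exact this.measurableSet

lemma nu_eq (hR : SpecRow) {m : ℕ} {τ : ℝ} (h0 : 0 < τ) (h1 : τ < 1)
    (S : Set (Fin (m + 2) → ℂ)) (hS : MeasurableSet S) :
    nu τ m S = ∫⁻ φ, ∫⁻ z₁, ∫⁻ z₂, ∫⁻ r, S.indicator 1 (mkrow φ z₁ z₂ r)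
      ∂(G m) ∂(mu2 τ) ∂(mu1 τ) ∂cav := by
  rw [← lintegral_indicator_one hS, hR m τ h0 h1 _ (measurable_one.indicator hS)]

end SBM
end MPf1e3
end

section
/-!
MP_f1e3b4_an, module SBX: small ball estimate, Gaussian directions.
-/
set_option autoImplicit false

open MeasureTheory ProbabilityTheory Filter Topology Set
open scoped ENNReal ComplexConjugate

namespace MPf1e3
namespace SBM

lemma norm_herm_sq {n : ℕ} (x y : Fin n → ℂ) : ‖herm x y‖ ^ 2 ≤ nsq x * nsq y := by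
  have h1 : ‖herm x y‖ ≤ ∑ j, ‖x j‖ * ‖y j‖ := by
    refine (norm_sum_le _ _).trans (Finset.sum_le_sum fun j _ => ?_)
    rw [norm_mul, RCLike.norm_conj]
  have h2 := Finset.sum_mul_sq_le_sq_mul_sq Finset.univ (fun j => ‖x j‖) (fun j => ‖y j‖)
  exact (pow_le_pow_left₀ (norm_nonneg _) h1 2).trans h2

/-- the Gaussian direction -/
noncomputable def vdir {m : ℕ} (w : Dir m) (φ : ℝ) (z₁ z₂ : ℂ) : Fin m → ℂ := fun j =>
  conj ((z₁ + z₂) / (Real.sqrt 2 : ℂ)) * w.2.2.1 j -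
    ee φ * conj ((z₂ - z₁) / (Real.sqrt 2 : ℂ)) * w.2.2.2 j

lemma sqrt2_ne : (Real.sqrt 2 : ℂ) ≠ 0 := by
  have : Real.sqrt 2 ≠ 0 := by positivity
  exact_mod_cast this

lemma norm_sqrt2_sq : ‖(Real.sqrt 2 : ℂ)‖ ^ 2 = 2 := by
  rw [Complex.norm_real, Real.norm_eq_abs, sq_abs, Real.sq_sqrt (by norm_num)]

lemma jrow_mkrow {m : ℕ} (w : Dir m) (φ : ℝ) (z₁ z₂ : ℂ) (r : Fin m → ℂ) :
    jrow (mkrow φ z₁ z₂ r) w =
      (‖(z₁ + z₂) / (Real.sqrt 2 : ℂ)‖ ^ 2 * w.1 +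
        (conj ((z₁ + z₂) / (Real.sqrt 2 : ℂ)) *
          (conj (ee φ) * (z₂ - z₁) / (Real.sqrt 2 : ℂ)) * w.2.1).re) +
        (dot r (vdir w φ z₁ z₂)).re := by
  have h0 : mkrow φ z₁ z₂ r 0 = (z₁ + z₂) / (Real.sqrt 2 : ℂ) := rfl
  have h1 : mkrow φ z₁ z₂ r 1 = conj (ee φ) * (z₂ - z₁) / (Real.sqrt 2 : ℂ) := rfl
  have h2 : tl (mkrow φ z₁ z₂ r) = r := rfl
  unfold jrow
  rw [h0, h1, h2]
  have : dot r (vdir w φ z₁ z₂) = conj ((z₁ + z₂) / (Real.sqrt 2 : ℂ)) * dot r w.2.2.1 -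
      conj (conj (ee φ) * (z₂ - z₁) / (Real.sqrt 2 : ℂ)) * dot r w.2.2.2 := by
    have e : conj (conj (ee φ) * (z₂ - z₁) / (Real.sqrt 2 : ℂ)) =
        ee φ * conj ((z₂ - z₁) / (Real.sqrt 2 : ℂ)) := by
      rw [map_div₀, map_mul, Complex.conj_conj, map_div₀, mul_div_assoc]
    rw [e]
    unfold dot vdir
    rw [Finset.mul_sum, Finset.mul_sum, ← Finset.sum_sub_distrib]
    refine Finset.sum_congr rfl fun j _ => ?_
    ring
  rw [this, Complex.sub_re]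
  ring

lemma nsq_vdir {m : ℕ} (w : Dir m) (φ : ℝ) (z₁ z₂ : ℂ) :
    nsq (vdir w φ z₁ z₂) = ‖(z₁ + z₂) / (Real.sqrt 2 : ℂ)‖ ^ 2 * nsq w.2.2.1 +
      ‖(z₂ - z₁) / (Real.sqrt 2 : ℂ)‖ ^ 2 * nsq w.2.2.2 -
      2 * (ee φ * ((z₁ + z₂) / (Real.sqrt 2 : ℂ) * conj ((z₂ - z₁) / (Real.sqrt 2 : ℂ)) *
        herm w.2.2.1 w.2.2.2)).re := by
  set a := (z₁ + z₂) / (Real.sqrt 2 : ℂ)
  set b := (z₂ - z₁) / (Real.sqrt 2 : ℂ)
  have he : ‖ee φ‖ ^ 2 = 1 := by
    rw [ee, Complex.norm_exp_ofReal_mul_I]; norm_num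
  have hj : ∀ j, ‖vdir w φ z₁ z₂ j‖ ^ 2 = ‖a‖ ^ 2 * ‖w.2.2.1 j‖ ^ 2 + ‖b‖ ^ 2 * ‖w.2.2.2 j‖ ^ 2 -
      2 * (ee φ * (a * conj b * (conj (w.2.2.1 j) * w.2.2.2 j))).re := by
    intro j
    have hexp : ∀ p q : ℂ, ‖p - q‖ ^ 2 = ‖p‖ ^ 2 + ‖q‖ ^ 2 - 2 * (conj p * q).re := by
      intro p q
      rw [← Complex.normSq_eq_norm_sq, ← Complex.normSq_eq_norm_sq, ← Complex.normSq_eq_norm_sq,
        Complex.normSq_apply, Complex.normSq_apply, Complex.normSq_apply, Complex.mul_re,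
        Complex.conj_re, Complex.conj_im, Complex.sub_re, Complex.sub_im]
      ring
    change ‖conj a * w.2.2.1 j - ee φ * conj b * w.2.2.2 j‖ ^ 2 = _
    rw [hexp, norm_mul, norm_mul, norm_mul, RCLike.norm_conj, RCLike.norm_conj, mul_pow, mul_pow,
      mul_pow, he, one_mul, map_mul, Complex.conj_conj]
    congr 3
    ring
  unfold nsq
  rw [Finset.sum_congr rfl fun j _ => hj j, Finset.sum_sub_distrib, Finset.sum_add_distrib,
    ← Finset.mul_sum, ← Finset.mul_sum, ← Finset.mul_sum]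
  congr 2
  rw [← Complex.re_sum, herm, Finset.mul_sum, Finset.mul_sum]

/-- average over the phase -/
lemma cav_quad (hP : SpecProb) (P ε η : ℝ) (ω : ℂ) (hη : 0 < η) (hε : 0 < ε) (hPη : η ^ 2 ≤ P)
    (hω : 2 * ‖ω‖ ≤ P) :
    cav {φ | P - 2 * (ee φ * ω).re ≤ ε ^ 2} ≤ ENNReal.ofReal (2 * (ε / η)) := by
  have : IsProbabilityMeasure cav := hP.cav
  rcases le_total P (2 * ε ^ 2) with h | h
  · have h1 : 1 ≤ 2 * (ε / η) := by
      have : η ≤ 2 * ε := by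
        apply le_of_sq_le_sq _ (by positivity)
        nlinarith [sq_nonneg ε]
      rw [← mul_div_assoc, le_div_iff₀ hη]; linarith
    refine prob_le_one.trans ?_
    rw [← ENNReal.ofReal_one]
    exact ENNReal.ofReal_le_ofReal h1
  · have hP0 : 0 < P := lt_of_lt_of_le (by positivity) hPη
    rcases eq_or_ne ω 0 with h0 | h0
    · subst h0
      have : {φ : ℝ | P - 2 * (ee φ * 0).re ≤ ε ^ 2} = ∅ := by
        ext φ
        simp only [Set.mem_ofPred_eq, mul_zero, Complex.zero_re, Set.mem_empty_iff_false, iff_false,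
          not_le]
        nlinarith [sq_pos_of_pos hε]
      rw [this]; simp
    · have hn : 0 < ‖ω‖ := norm_pos_iff.2 h0
      refine (measure_mono ?_).trans ((cav_re ω h0 (-1) (ε ^ 2 / η ^ 2) (by positivity)).trans ?_)
      · intro φ hφ
        simp only [Set.mem_ofPred_eq] at hφ ⊢
        have hle : (ee φ * ω).re / ‖ω‖ ≤ 1 := by
          rw [div_le_one hn]
          refine (Complex.re_le_norm _).trans ?_
          rw [norm_mul, ee, Complex.norm_exp_ofReal_mul_I, one_mul]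
        have hge : 1 - ε ^ 2 / η ^ 2 ≤ (ee φ * ω).re / ‖ω‖ := by
          rw [le_div_iff₀ hn]
          have h3 : P - ε ^ 2 ≤ 2 * (ee φ * ω).re := by linarith
          have h4 : (1 - ε ^ 2 / η ^ 2) * (2 * ‖ω‖) ≤ P - ε ^ 2 := by
            rcases le_total (1 - ε ^ 2 / η ^ 2) 0 with h5 | h5
            · have : (1 - ε ^ 2 / η ^ 2) * (2 * ‖ω‖) ≤ 0 :=
                mul_nonpos_of_nonpos_of_nonneg h5 (by positivity)
              nlinarith [sq_pos_of_pos hε]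
            · have h6 : (1 - ε ^ 2 / η ^ 2) * (2 * ‖ω‖) ≤ (1 - ε ^ 2 / η ^ 2) * P :=
                mul_le_mul_of_nonneg_left hω h5
              have h7 : ε ^ 2 ≤ ε ^ 2 / η ^ 2 * P := by
                rw [div_mul_eq_mul_div, le_div_iff₀ (by positivity)]
                exact mul_le_mul_of_nonneg_left hPη (by positivity)
              linarith
          linarith
        rw [abs_le]
        constructor
        · linarith
        · have : 0 ≤ ε ^ 2 / η ^ 2 := by positivity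
          linarith
      · apply ENNReal.ofReal_le_ofReal
        rw [← div_pow, Real.sqrt_sq (by positivity)]

lemma cav_vdir (hP : SpecProb) {m : ℕ} (w : Dir m) (hw : 1 ≤ nsq w.2.2.1 + nsq w.2.2.2)
    (ε η : ℝ) (hη : 0 < η) (hε : 0 < ε) (z₁ z₂ : ℂ)
    (h1 : ¬ ‖z₂ + z₁‖ ^ 2 ≤ 2 * η ^ 2) (h2 : ¬ ‖z₂ - z₁‖ ^ 2 ≤ 2 * η ^ 2) :
    cav {φ | nsq (vdir w φ z₁ z₂) ≤ ε ^ 2} ≤ ENNReal.ofReal (2 * (ε / η)) := by
  simp only [nsq_vdir]
  have hx := nsq_nonneg w.2.2.1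
  have hy := nsq_nonneg w.2.2.2
  have n1 : η ^ 2 ≤ ‖(z₁ + z₂) / (Real.sqrt 2 : ℂ)‖ ^ 2 := by
    rw [norm_div, div_pow, norm_sqrt2_sq, add_comm z₁]; linarith
  have n2 : η ^ 2 ≤ ‖(z₂ - z₁) / (Real.sqrt 2 : ℂ)‖ ^ 2 := by
    rw [norm_div, div_pow, norm_sqrt2_sq]; linarith
  set a := (z₁ + z₂) / (Real.sqrt 2 : ℂ)
  set b := (z₂ - z₁) / (Real.sqrt 2 : ℂ)
  apply cav_quad hP _ ε η _ hη hε
  · nlinarith [mul_le_mul_of_nonneg_right n1 hx, mul_le_mul_of_nonneg_right n2 hy,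
      mul_le_mul_of_nonneg_left hw (sq_nonneg η)]
  · have hc := norm_herm_sq w.2.2.1 w.2.2.2
    rw [norm_mul, norm_mul, RCLike.norm_conj]
    apply le_of_sq_le_sq _ (by positivity)
    set X := nsq w.2.2.1
    set Y := nsq w.2.2.2
    set A := ‖a‖
    set B := ‖b‖
    have hA : 0 ≤ A := norm_nonneg _
    have hB : 0 ≤ B := norm_nonneg _
    have : (2 * (A * B * ‖herm w.2.2.1 w.2.2.2‖)) ^ 2 =
        4 * (A ^ 2 * B ^ 2) * ‖herm w.2.2.1 w.2.2.2‖ ^ 2 := by ring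
    rw [this]
    have h3 : 4 * (A ^ 2 * B ^ 2) * ‖herm w.2.2.1 w.2.2.2‖ ^ 2 ≤ 4 * (A ^ 2 * B ^ 2) * (X * Y) :=
      mul_le_mul_of_nonneg_left hc (by positivity)
    nlinarith [sq_nonneg (A ^ 2 * X - B ^ 2 * Y)]

lemma mu2_ball (hM : SpecMu) {τ : ℝ} (h0 : 0 < τ) (h1 : τ < 1) (c : ℂ) (η : ℝ) (hη : 0 < η) :
    mu2 τ {z | ‖z - c‖ ^ 2 ≤ 2 * η ^ 2} ≤ ENNReal.ofReal (2 * Real.pi * η ^ 2) := by
  refine (hM.d2 τ h0 h1 _).trans ?_
  have : {z : ℂ | ‖z - c‖ ^ 2 ≤ 2 * η ^ 2} ⊆ Metric.closedBall c (Real.sqrt 2 * η) := by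
    intro z hz
    simp only [Set.mem_ofPred_eq] at hz
    rw [Metric.mem_closedBall, dist_eq_norm]
    apply le_of_sq_le_sq _ (by positivity)
    rw [mul_pow, Real.sq_sqrt (by norm_num)]
    exact hz
  refine (measure_mono this).trans ?_
  rw [Complex.volume_closedBall, ← ENNReal.ofReal_pow (by positivity), mul_pow,
    Real.sq_sqrt (by norm_num)]
  apply le_of_eq
  rw [show ((NNReal.pi : NNReal) : ℝ≥0∞) = ENNReal.ofReal Real.pi by
    rw [ENNReal.ofReal, ← NNReal.coe_real_pi, Real.toNNReal_coe], ← ENNReal.ofReal_mul (by positivity)]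
  congr 1; ring

lemma continuous_vdir {m : ℕ} (w : Dir m) :
    Continuous fun p : ℝ × ℂ × ℂ => nsq (vdir w p.1 p.2.1 p.2.2) := by
  unfold nsq
  refine continuous_finsetSum _ fun j _ => ?_
  apply Continuous.pow
  apply Continuous.norm
  unfold vdir ee
  have h1 : Continuous fun p : ℝ × ℂ × ℂ => conj ((p.2.1 + p.2.2) / (Real.sqrt 2 : ℂ)) :=
    Complex.continuous_conj.comp (by fun_prop)
  have h2 : Continuous fun p : ℝ × ℂ × ℂ => conj ((p.2.2 - p.2.1) / (Real.sqrt 2 : ℂ)) :=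
    Complex.continuous_conj.comp (by fun_prop)
  fun_prop

/-- Tonelli -/
lemma swap3 (μ₀ : Measure ℝ) (μ₁ μ₂ : Measure ℂ) [SFinite μ₀] [SFinite μ₁] [SFinite μ₂]
    (f : ℝ × ℂ × ℂ → ℝ≥0∞) (hf : Measurable f) :
    ∫⁻ φ, ∫⁻ z₁, ∫⁻ z₂, f (φ, z₁, z₂) ∂μ₂ ∂μ₁ ∂μ₀ =
      ∫⁻ z₁, ∫⁻ z₂, ∫⁻ φ, f (φ, z₁, z₂) ∂μ₀ ∂μ₂ ∂μ₁ := by
  have h1 : Measurable (Function.uncurry fun (φ : ℝ) (z₁ : ℂ) => ∫⁻ z₂, f (φ, z₁, z₂) ∂μ₂) := by
    have : Measurable fun q : (ℝ × ℂ) × ℂ => f (q.1.1, q.1.2, q.2) := by fun_prop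
    exact this.lintegral_prod_right'
  rw [lintegral_lintegral_swap h1.aemeasurable]
  refine lintegral_congr fun z₁ => ?_
  rw [lintegral_lintegral_swap]
  apply Measurable.aemeasurable
  fun_prop

end SBM

open SBM in
/-- D6. SBX -/
theorem specSBX (hP : SpecProb) (hI : SpecInv) (hE : SpecExt1) (hR : SpecRow) (hM : SpecMu) :
    SpecSBX := by
  refine ⟨16, fun m τ hτ hτ1 w hw t ht ht1 => ?_⟩
  have hτ0 : 0 < τ := by linarith
  obtain _ | m := m
  · exfalso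
    simp [nsq] at hw
    linarith
  have : IsProbabilityMeasure cav := hP.cav
  have : IsProbabilityMeasure (mu1 τ) := hM.p1 τ hτ0 hτ1
  have : IsProbabilityMeasure (mu2 τ) := hM.p2 τ hτ0 hτ1
  have : IsProbabilityMeasure (G (m + 1)) := hP.G _
  set q : ℝ := t ^ ((1 / 4 : ℝ)) with hq
  have hq0 : 0 < q := Real.rpow_pos_of_pos ht _
  have hq1 : q ≤ 1 := Real.rpow_le_one ht.le ht1 (by norm_num)
  have hq4 : q ^ 4 = t := by
    rw [hq, ← Real.rpow_natCast, ← Real.rpow_mul ht.le]; norm_num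
  set B : Set (ℝ × ℂ × ℂ) := {p | nsq (vdir w p.1 p.2.1 p.2.2) ≤ (q ^ 2) ^ 2} with hB
  have hBm : MeasurableSet B := (isClosed_le (continuous_vdir w) continuous_const).measurableSet
  set S : Set (Fin (m + 1 + 2) → ℂ) := {a | |jrow a w| ≤ t} with hS
  have hSm : MeasurableSet S := measurableSet_jrow w t
  rw [nu_eq hR hτ0 hτ1 S hSm]
  have step1 : ∀ (φ : ℝ) (z₁ z₂ : ℂ), ∫⁻ r, S.indicator 1 (mkrow φ z₁ z₂ r) ∂(G (m + 1)) ≤
      ENNReal.ofReal (q ^ 2) + B.indicator 1 (φ, z₁, z₂) := by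
    intro φ z₁ z₂
    have hle : ∫⁻ r, S.indicator 1 (mkrow φ z₁ z₂ r) ∂(G (m + 1)) =
        G (m + 1) {r | |(‖(z₁ + z₂) / (Real.sqrt 2 : ℂ)‖ ^ 2 * w.1 +
        (conj ((z₁ + z₂) / (Real.sqrt 2 : ℂ)) *
          (conj (ee φ) * (z₂ - z₁) / (Real.sqrt 2 : ℂ)) * w.2.1).re) +
        (dot r (vdir w φ z₁ z₂)).re| ≤ t} := by
      have hcl : MeasurableSet {r : Fin (m + 1) → ℂ |
          |(‖(z₁ + z₂) / (Real.sqrt 2 : ℂ)‖ ^ 2 * w.1 +
          (conj ((z₁ + z₂) / (Real.sqrt 2 : ℂ)) *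
          (conj (ee φ) * (z₂ - z₁) / (Real.sqrt 2 : ℂ)) * w.2.1).re) +
          (dot r (vdir w φ z₁ z₂)).re| ≤ t} := by
        apply IsClosed.measurableSet
        apply isClosed_le _ continuous_const
        unfold dot
        fun_prop
      rw [← lintegral_indicator_one hcl]
      refine lintegral_congr fun r => ?_
      have : (mkrow φ z₁ z₂ r ∈ S) ↔ (r ∈ {r : Fin (m + 1) → ℂ |
          |(‖(z₁ + z₂) / (Real.sqrt 2 : ℂ)‖ ^ 2 * w.1 +
          (conj ((z₁ + z₂) / (Real.sqrt 2 : ℂ)) *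
          (conj (ee φ) * (z₂ - z₁) / (Real.sqrt 2 : ℂ)) * w.2.1).re) +
          (dot r (vdir w φ z₁ z₂)).re| ≤ t}) := by
        rw [hS, Set.mem_ofPred_eq, Set.mem_ofPred_eq, jrow_mkrow]
      by_cases h : mkrow φ z₁ z₂ r ∈ S
      · rw [Set.indicator_of_mem h, Set.indicator_of_mem (this.1 h)]; rfl
      · rw [Set.indicator_of_notMem h, Set.indicator_of_notMem (fun h' => h (this.2 h'))]
    rw [hle]
    by_cases hb : (φ, z₁, z₂) ∈ B
    · rw [Set.indicator_of_mem hb]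
      exact prob_le_one.trans (le_add_self)
    · rw [Set.indicator_of_notMem hb, add_zero]
      simp only [hB, Set.mem_ofPred_eq, not_le] at hb
      have hv : 0 < nsq (vdir w φ z₁ z₂) := lt_trans (by positivity) hb
      refine (G_small hP hI hE m _ hv _ t).trans ?_
      apply ENNReal.ofReal_le_ofReal
      have : q ^ 2 ≤ Real.sqrt (nsq (vdir w φ z₁ z₂)) := Real.le_sqrt_of_sq_le hb.le
      rw [div_le_iff₀ (lt_of_lt_of_le (by positivity) this), ← hq4]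
      calc q ^ 4 = q ^ 2 * q ^ 2 := by ring
        _ ≤ _ := by gcongr
  have hmeas : Measurable (B.indicator (1 : ℝ × ℂ × ℂ → ℝ≥0∞)) := measurable_one.indicator hBm
  calc ∫⁻ φ, ∫⁻ z₁, ∫⁻ z₂, ∫⁻ r, S.indicator 1 (mkrow φ z₁ z₂ r) ∂(G (m + 1)) ∂(mu2 τ) ∂(mu1 τ) ∂cav
      ≤ ∫⁻ φ, ∫⁻ z₁, ∫⁻ z₂, (ENNReal.ofReal (q ^ 2) + B.indicator 1 (φ, z₁, z₂))
        ∂(mu2 τ) ∂(mu1 τ) ∂cav := by
        refine lintegral_mono fun φ => lintegral_mono fun z₁ => lintegral_mono fun z₂ => ?_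
        exact step1 φ z₁ z₂
    _ = ∫⁻ z₁, ∫⁻ z₂, ∫⁻ φ, (ENNReal.ofReal (q ^ 2) + B.indicator 1 (φ, z₁, z₂))
        ∂cav ∂(mu2 τ) ∂(mu1 τ) :=
        swap3 cav (mu1 τ) (mu2 τ) (fun p => ENNReal.ofReal (q ^ 2) + B.indicator 1 p)
          (measurable_const.add hmeas)
    _ ≤ ∫⁻ z₁, ∫⁻ z₂, (ENNReal.ofReal (q ^ 2) + (({z | ‖z - (-z₁)‖ ^ 2 ≤ 2 * q ^ 2} : Set ℂ).indicator 1 z₂ +
        ({z | ‖z - z₁‖ ^ 2 ≤ 2 * q ^ 2} : Set ℂ).indicator 1 z₂ + ENNReal.ofReal (2 * (q ^ 2 / q))))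
        ∂(mu2 τ) ∂(mu1 τ) := by
        refine lintegral_mono fun z₁ => lintegral_mono fun z₂ => ?_
        show ∫⁻ φ, (ENNReal.ofReal (q ^ 2) + B.indicator 1 (φ, z₁, z₂)) ∂cav ≤ _
        rw [lintegral_add_left measurable_const, lintegral_const, measure_univ, mul_one]
        gcongr
        have hsec : ∫⁻ φ, B.indicator 1 (φ, z₁, z₂) ∂cav = cav {φ | nsq (vdir w φ z₁ z₂) ≤ (q ^ 2) ^ 2} := by
          have hm1 : MeasurableSet {φ : ℝ | nsq (vdir w φ z₁ z₂) ≤ (q ^ 2) ^ 2} := by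
            have hpre : {φ : ℝ | nsq (vdir w φ z₁ z₂) ≤ (q ^ 2) ^ 2} =
              (fun φ : ℝ => (φ, z₁, z₂)) ⁻¹' B := rfl
            rw [hpre]
            exact (by fun_prop : Measurable fun φ : ℝ => (φ, z₁, z₂)) hBm
          rw [← lintegral_indicator_one hm1]
          rfl
        rw [hsec]
        by_cases c1 : z₂ ∈ ({z | ‖z - (-z₁)‖ ^ 2 ≤ 2 * q ^ 2} : Set ℂ)
        · rw [Set.indicator_of_mem c1]
          refine prob_le_one.trans ?_
          rw [add_assoc]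
          exact le_self_add
        by_cases c2 : z₂ ∈ ({z | ‖z - z₁‖ ^ 2 ≤ 2 * q ^ 2} : Set ℂ)
        · rw [Set.indicator_of_mem c2, Set.indicator_of_notMem c1, zero_add]
          exact prob_le_one.trans le_self_add
        · rw [Set.indicator_of_notMem c2, Set.indicator_of_notMem c1, zero_add, zero_add]
          refine cav_vdir hP w hw (q ^ 2) q hq0 (by positivity) z₁ z₂ ?_ ?_
          · rw [Set.mem_ofPred_eq, sub_neg_eq_add] at c1
            exact c1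
          · exact c2
    _ ≤ ∫⁻ z₁, (ENNReal.ofReal (q ^ 2) + (ENNReal.ofReal (2 * Real.pi * q ^ 2) +
        ENNReal.ofReal (2 * Real.pi * q ^ 2) + ENNReal.ofReal (2 * (q ^ 2 / q)))) ∂(mu1 τ) := by
        refine lintegral_mono fun z₁ => ?_
        have hm : ∀ c : ℂ, MeasurableSet {z : ℂ | ‖z - c‖ ^ 2 ≤ 2 * q ^ 2} := by
          intro c
          exact (isClosed_le (by fun_prop) continuous_const).measurableSet
        have hmi : ∀ c : ℂ, Measurable (({z | ‖z - c‖ ^ 2 ≤ 2 * q ^ 2} : Set ℂ).indicator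
            (1 : ℂ → ℝ≥0∞)) := fun c => measurable_one.indicator (hm c)
        show ∫⁻ z₂, (ENNReal.ofReal (q ^ 2) +
          (({z | ‖z - (-z₁)‖ ^ 2 ≤ 2 * q ^ 2} : Set ℂ).indicator 1 z₂ +
        ({z | ‖z - z₁‖ ^ 2 ≤ 2 * q ^ 2} : Set ℂ).indicator 1 z₂ + ENNReal.ofReal (2 * (q ^ 2 / q))))
        ∂(mu2 τ) ≤ _
        rw [lintegral_add_left measurable_const, lintegral_add_right _ measurable_const,
          lintegral_add_left (hmi _), lintegral_const, lintegral_const, measure_univ, mul_one, mul_one,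
          lintegral_indicator_one (hm _), lintegral_indicator_one (hm _)]
        gcongr
        · exact mu2_ball hM hτ0 hτ1 _ q hq0
        · exact mu2_ball hM hτ0 hτ1 _ q hq0
    _ ≤ ENNReal.ofReal (16 * q) := by
        rw [lintegral_const, measure_univ, mul_one,
          ← ENNReal.ofReal_add (by positivity) (by positivity),
          ← ENNReal.ofReal_add (by positivity) (by positivity),
          ← ENNReal.ofReal_add (by positivity) (by positivity)]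
        apply ENNReal.ofReal_le_ofReal
        have h1 : q ^ 2 / q = q := by field_simp
        have h2 : q ^ 2 ≤ q := by nlinarith
        have h3 := Real.pi_lt_d2
        rw [h1]
        nlinarith [Real.pi_pos]

end MPf1e3
end

section
/-!
Problem MP_f1e3b4_an, module SECLIM (helper42): the second moment tends to one
-/
set_option autoImplicit false

open MeasureTheory ProbabilityTheory Filter Topology Set
open scoped ENNReal ComplexConjugate

namespace MPf1e3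

/-- almost surely the overlap with the standard frame is a strict contraction -/
def SpecDlPos : Prop := ∀ m : ℕ, 3 ≤ m →
  ∀ᵐ ω ∂((G (m + 2)).prod (G (m + 2))), 0 < (ov (fu ω.1) (fv ω.1 ω.2)).dl

namespace SecLimM

lemma fr_smul (τ : ℝ) (C : OM) : (C.smul τ).fr = τ ^ 2 * C.fr := by
  unfold OM.smul OM.fr
  simp only [norm_mul, Complex.norm_real, Real.norm_eq_abs, mul_pow, sq_abs]
  ring

lemma fr_nonneg (C : OM) : 0 ≤ C.fr := by
  unfold OM.fr
  positivity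

/-- the pointwise bound -/
lemma pointwise {κ dl dl' fr' c K t B τ' : ℝ} {m : ℕ} (hm : 3 ≤ m)
    (hκ : 0 ≤ κ) (hc : 0 < c) (hK : 0 < K) (hdl : 0 < dl) (hdl' : dl ≤ dl')
    (hlow : τ' ^ 2 ≤ dl') (hτ' : 0 < τ') (hB : B = (τ' ^ 2)⁻¹) (hB1 : 1 ≤ B)
    (h4 : κ ^ 4 * dl' ≤ Real.exp (-(c * fr'))) (h2 : fr' ≤ 1 / 2 → κ ≤ 1 + K * fr' ^ 2)
    (hfr' : 0 ≤ fr') (ht : t ≤ 1 / 2) (hcase : fr' ≤ t ∨ t / 4 ≤ fr') :
    κ ^ (4 * m + 3) ≤ Real.exp ((4 * m + 3) * (K * t ^ 2)) +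
      B ^ 3 * Real.exp (-(c * t / 4 * (m - 2))) * (dl⁻¹) ^ (m - 2) := by
  rcases hcase with h | h
  · have h5 : κ ≤ Real.exp (K * t ^ 2) := by
      refine (h2 (h.trans ht)).trans ?_
      have h6 : fr' ^ 2 ≤ t ^ 2 := pow_le_pow_left₀ hfr' h 2
      have h7 := Real.add_one_le_exp (K * t ^ 2)
      have h8 : K * fr' ^ 2 ≤ K * t ^ 2 := mul_le_mul_of_nonneg_left h6 hK.le
      linarith
    have h9 : κ ^ (4 * m + 3) ≤ Real.exp ((4 * m + 3) * (K * t ^ 2)) := by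
      refine (pow_le_pow_left₀ hκ h5 _).trans (le_of_eq ?_)
      rw [← Real.exp_nat_mul]
      push_cast
      rfl
    have h10 : 0 ≤ B ^ 3 * Real.exp (-(c * t / 4 * (m - 2))) * (dl⁻¹) ^ (m - 2) := by positivity
    linarith
  · have hdl'0 : 0 < dl' := lt_of_lt_of_le hdl hdl'
    have h5 : κ ^ 4 ≤ Real.exp (-(c * t / 4)) * dl⁻¹ := by
      have h6 : κ ^ 4 ≤ Real.exp (-(c * fr')) / dl' := by
        rw [le_div_iff₀ hdl'0]
        exact h4
      refine h6.trans ?_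
      rw [div_eq_mul_inv]
      refine mul_le_mul ?_ ?_ (by positivity) (by positivity)
      · refine Real.exp_le_exp.mpr ?_
        nlinarith
      · exact inv_anti₀ hdl hdl'
    have h7 : κ ^ 4 ≤ B := by
      have h6 : κ ^ 4 ≤ Real.exp (-(c * fr')) / dl' := by
        rw [le_div_iff₀ hdl'0]
        exact h4
      refine h6.trans ?_
      rw [hB, div_eq_mul_inv]
      calc Real.exp (-(c * fr')) * dl'⁻¹ ≤ 1 * (τ' ^ 2)⁻¹ := by
            refine mul_le_mul ?_ ?_ (by positivity) (by norm_num)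
            · rw [Real.exp_le_one_iff]
              nlinarith
            · exact inv_anti₀ (by positivity) hlow
        _ = _ := one_mul _
    have h11 : κ ^ 11 ≤ B ^ 3 := by
      rcases le_total κ 1 with h8 | h8
      · exact (pow_le_one₀ hκ h8).trans (one_le_pow₀ hB1)
      · calc κ ^ 11 ≤ κ ^ 12 := pow_le_pow_right₀ h8 (by norm_num)
          _ = (κ ^ 4) ^ 3 := by ring
          _ ≤ B ^ 3 := pow_le_pow_left₀ (by positivity) h7 3
    have h12 : κ ^ (4 * m + 3) = (κ ^ 4) ^ (m - 2) * κ ^ 11 := by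
      rw [← pow_mul, ← pow_add]
      congr 1
      omega
    have h13 : (κ ^ 4) ^ (m - 2) ≤ Real.exp (-(c * t / 4 * (m - 2))) * (dl⁻¹) ^ (m - 2) := by
      refine (pow_le_pow_left₀ (by positivity) h5 _).trans (le_of_eq ?_)
      rw [mul_pow, ← Real.exp_nat_mul]
      congr 2
      rw [Nat.cast_sub (by omega)]
      push_cast
      ring
    have h14 : 0 ≤ Real.exp ((4 * m + 3) * (K * t ^ 2)) := by positivity
    have h15 : κ ^ (4 * m + 3) ≤ B ^ 3 * Real.exp (-(c * t / 4 * (m - 2))) * (dl⁻¹) ^ (m - 2) := by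
      rw [h12]
      calc (κ ^ 4) ^ (m - 2) * κ ^ 11
          ≤ (Real.exp (-(c * t / 4 * (m - 2))) * (dl⁻¹) ^ (m - 2)) * B ^ 3 :=
            mul_le_mul h13 h11 (by positivity) (by positivity)
        _ = _ := by ring
    linarith

/-- the limit -/
lemma limit (k : ℕ) (c K K' : ℝ) (hc : 0 < c) :
    Tendsto (fun y : ℝ => Real.exp (4 * K / y) +
      K' * Real.exp c * (y ^ ((18 * k + 15 : ℕ) : ℝ) * Real.exp (-(c / 4) * y))) atTop (𝓝 1) := by
  have h1 : Tendsto (fun y : ℝ => Real.exp (4 * K / y)) atTop (𝓝 1) := by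
    have : Tendsto (fun y : ℝ => 4 * K / y) atTop (𝓝 0) := tendsto_const_nhds.div_atTop tendsto_id
    have h := (Real.continuous_exp.tendsto 0).comp this
    rw [Real.exp_zero] at h
    exact h
  have h2 := tendsto_rpow_mul_exp_neg_mul_atTop_nhds_zero ((18 * k + 15 : ℕ) : ℝ) (c / 4)
    (by positivity)
  have h3 := h1.add (h2.const_mul (K' * Real.exp c))
  rw [mul_zero, add_zero] at h3
  exact h3

end SecLimM

open SecLimM in
theorem specSecLim (hP : SpecProb) (hGS : SpecGS) (hCtr : SpecCtr) (hKI : SpecKI) (hSec : SpecSec)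
    (hDet : SpecDet) (hDl : SpecDlPos) : SpecSecLim := by
  intro k hk ε hε
  obtain ⟨c, K, hc, hK, hKI⟩ := hKI
  obtain ⟨K₁, hK₁⟩ := hDet
  set K' : ℝ := max K₁ 0 with hK'
  have hK'0 : 0 ≤ K' := le_max_right _ _
  have hy : Tendsto (fun m : ℕ => ((m : ℝ) + 2) ^ (1 / 3 : ℝ)) atTop atTop :=
    (tendsto_rpow_atTop (by norm_num)).comp
      (tendsto_atTop_add_const_right _ _ tendsto_natCast_atTop_atTop)
  have hlim := ((limit k c K K' hc).comp hy).eventually_lt_const (show (1 : ℝ) < 1 + ε by linarith)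
  have hy2 := hy.eventually_ge_atTop 2
  filter_upwards [hlim, hy2, eventually_ge_atTop 3] with m hm hym hm3
  simp only [Function.comp_apply] at hm
  set y : ℝ := ((m : ℝ) + 2) ^ (1 / 3 : ℝ) with hydef
  have hy3 : y ^ 3 = (m : ℝ) + 2 := by
    rw [hydef, ← Real.rpow_natCast, ← Real.rpow_mul (by positivity)]
    norm_num
  have hy0 : 0 < y := by linarith
  set τ : ℝ := tau k m with hτ
  have hmk : (2 : ℝ) ≤ ((m : ℝ) + 2) ^ k := by
    calc (2 : ℝ) ≤ (m : ℝ) + 2 := by linarith [Nat.cast_nonneg (α := ℝ) m]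
      _ = ((m : ℝ) + 2) ^ 1 := (pow_one _).symm
      _ ≤ ((m : ℝ) + 2) ^ k := pow_le_pow_right₀ (by linarith [Nat.cast_nonneg (α := ℝ) m]) hk
  have hτ1 : 1 - τ = (((m : ℝ) + 2) ^ k)⁻¹ := by
    rw [hτ]; unfold tau; rw [one_div]; ring
  have hτlt : τ < 1 := by
    have : 0 < (((m : ℝ) + 2) ^ k)⁻¹ := by positivity
    linarith
  have hτhalf : 1 / 2 ≤ τ := by
    have : (((m : ℝ) + 2) ^ k)⁻¹ ≤ 2⁻¹ := inv_anti₀ (by norm_num) hmk
    linarith
  have hτ0 : 0 < τ := by linarith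
  set t : ℝ := 1 / y ^ 2 with ht
  have ht0 : 0 < t := by positivity
  have hthalf : t ≤ 1 / 2 := by
    rw [ht]
    refine one_div_le_one_div_of_le (by norm_num) ?_
    nlinarith
  set B : ℝ := ((1 - τ) ^ 2)⁻¹ with hB
  have hBv : B = (((m : ℝ) + 2) ^ k) ^ 2 := by
    rw [hB, hτ1, inv_pow, inv_inv]
  have hBeq : B ^ 3 = y ^ (18 * k) := by
    rw [hBv, ← hy3]
    ring
  have hB1 : 1 ≤ B := by
    rw [hBv]
    exact one_le_pow₀ (by linarith)
  rw [(hSec τ (4 * m + 3) m hτ0 hτlt).2]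
  have hprob := hP.G (m + 2)
  have hbound : ∀ᵐ ω ∂((G (m + 2)).prod (G (m + 2))),
      ENNReal.ofReal (((ov (fu ω.1) (fv ω.1 ω.2)).smul τ).kap) ^ (4 * m + 3) ≤
        ENNReal.ofReal (Real.exp ((4 * m + 3) * (K * t ^ 2))) +
          ENNReal.ofReal (B ^ 3 * Real.exp (-(c * t / 4 * (m - 2)))) *
            ENNReal.ofReal ((((ov (fu ω.1) (fv ω.1 ω.2)).dl)⁻¹) ^ (m - 2)) := by
    filter_upwards [hGS.on m, hDl m hm3] with ω hON hpos
    set C := ov (fu ω.1) (fv ω.1 ω.2) with hC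
    obtain ⟨hlow, hctr⟩ := hCtr.lower m _ _ hON τ hτ0 hτlt
    have hmono := hCtr.mono m _ _ hON τ hτ0 hτlt
    obtain ⟨hk0, hk4, hk2⟩ := hKI _ hctr
    have hfr := fr_smul τ C
    have hfr0 := fr_nonneg C
    rw [← ENNReal.ofReal_pow hk0, ← ENNReal.ofReal_mul (by positivity),
      ← ENNReal.ofReal_add (by positivity) (by positivity)]
    refine ENNReal.ofReal_le_ofReal ?_
    refine pointwise hm3 hk0 hc hK hpos hmono hlow (by linarith) rfl hB1 hk4 hk2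
      (fr_nonneg _) hthalf ?_
    rw [hfr]
    rcases le_total C.fr t with h | h
    · left
      have : τ ^ 2 * C.fr ≤ 1 * C.fr :=
        mul_le_mul_of_nonneg_right (by nlinarith) hfr0
      linarith
    · right
      have : (1 / 4 : ℝ) * C.fr ≤ τ ^ 2 * C.fr :=
        mul_le_mul_of_nonneg_right (by nlinarith) hfr0
      linarith
  refine (lintegral_mono_ae hbound).trans ?_
  rw [lintegral_add_left measurable_const, lintegral_const, measure_univ, mul_one,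
    lintegral_const_mul' _ _ ENNReal.ofReal_ne_top]
  have hdet : ∫⁻ ω, ENNReal.ofReal ((((ov (fu ω.1) (fv ω.1 ω.2)).dl)⁻¹) ^ (m - 2))
      ∂((G (m + 2)).prod (G (m + 2))) ≤ ENNReal.ofReal (K' * y ^ 15) := by
    refine (hK₁ m hm3).trans (ENNReal.ofReal_le_ofReal ?_)
    have h1 : (m : ℝ) ^ 5 ≤ y ^ 15 := by
      rw [show y ^ 15 = (y ^ 3) ^ 5 by ring, hy3]
      exact pow_le_pow_left₀ (Nat.cast_nonneg m) (by linarith) 5
    exact mul_le_mul (le_max_left _ _) h1 (by positivity) hK'0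
  refine (add_le_add le_rfl (mul_le_mul' le_rfl hdet)).trans ?_
  rw [← ENNReal.ofReal_mul (by positivity), ← ENNReal.ofReal_add (by positivity) (by positivity)]
  refine ENNReal.ofReal_le_ofReal (le_trans ?_ hm.le)
  refine add_le_add ?_ ?_
  · refine Real.exp_le_exp.mpr ?_
    have h1 : (4 * (m : ℝ) + 3) ≤ 4 * y ^ 3 := by rw [hy3]; linarith
    calc (4 * (m : ℝ) + 3) * (K * t ^ 2) ≤ 4 * y ^ 3 * (K * t ^ 2) := by gcongr
      _ = 4 * K / y := by
          rw [ht]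
          field_simp
  · rw [Real.rpow_natCast, hBeq]
    have h1 : Real.exp (-(c * t / 4 * (m - 2))) ≤ Real.exp c * Real.exp (-(c / 4) * y) := by
      rw [← Real.exp_add]
      refine Real.exp_le_exp.mpr ?_
      have h2 : t * ((m : ℝ) - 2) = y - 4 / y ^ 2 := by
        have : (m : ℝ) - 2 = y ^ 3 - 4 := by rw [hy3]; ring
        rw [this, ht]
        field_simp
      have h3 : 4 / y ^ 2 ≤ 4 := by
        rw [div_le_iff₀ (by positivity)]
        nlinarith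
      have h4 : c * t / 4 * ((m : ℝ) - 2) = c / 4 * (t * ((m : ℝ) - 2)) := by ring
      rw [h4, h2]
      nlinarith
    calc y ^ (18 * k) * Real.exp (-(c * t / 4 * (m - 2))) * (K' * y ^ 15)
        ≤ y ^ (18 * k) * (Real.exp c * Real.exp (-(c / 4) * y)) * (K' * y ^ 15) := by gcongr
      _ = K' * Real.exp c * (y ^ (18 * k + 15) * Real.exp (-(c / 4) * y)) := by
          rw [pow_add]
          ring

end MPf1e3
end

section
set_option autoImplicit false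

open MeasureTheory ProbabilityTheory Filter Topology Set
open scoped ENNReal ComplexConjugate

namespace MPf1e3

/-- FINAL: the frozen statement from MAIN and COLL -/
theorem specFinal (hM : SpecMain) (hC : SpecColl) : SpecFinal := by
  unfold SpecFinal
  rw [← tendsto_add_atTop_iff_nat 2]
  refine tendsto_of_tendsto_of_tendsto_of_le_of_le tendsto_const_nhds hM (fun m => zero_le)
    fun m => ?_
  have key : ∀ N : ℕ, GM N (m + 2) {A : Fin N → Fin (m + 2) → ℂ | ∀ x y : Fin (m + 2) → ℂ,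
      (∀ i, ‖(Matrix.of A).mulVec x i‖ = ‖(Matrix.of A).mulVec y i‖) →
        ∃ c : ℂ, ‖c‖ = 1 ∧ y = c • x} ≤ GM N (m + 2) (Coll N (m + 2))ᶜ := fun N =>
    measure_mono fun A hA hc => hC.not_inj N (m + 2) A hc hA
  have e : 4 * (m + 2) - 5 = 4 * m + 3 := by omega
  have h2 := key (4 * (m + 2) - 5)
  have h3 : GM (4 * (m + 2) - 5) (m + 2) (Coll (4 * (m + 2) - 5) (m + 2))ᶜ =
      GM (4 * m + 3) (m + 2) (Coll (4 * m + 3) (m + 2))ᶜ := by rw [e]
  rw [h3] at h2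
  exact h2

end MPf1e3
end

section
/-!
Problem MP_f1e3b4_an, module KI1: reduction of the pair correlation function to one average.
-/
set_option autoImplicit false

open MeasureTheory ProbabilityTheory Filter Topology Set
open scoped ENNReal ComplexConjugate

namespace MPf1e3

namespace KI1

theorem norm_ee (φ : ℝ) : ‖ee φ‖ = 1 := by
  rw [ee]
  exact Complex.norm_exp_ofReal_mul_I φ

theorem continuous_ee : Continuous ee := by
  unfold ee
  fun_prop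

theorem integrable_cav (f : ℝ → ℝ) (hf : Continuous f) : Integrable f cav := by
  rw [cav]
  refine Integrable.smul_measure ?_ ?_
  · exact hf.integrableOn_Ioc
  · simp [Real.pi_pos]

theorem integrable_prod (hP : SpecProb) (f : ℝ × ℝ → ℝ) (hf : Continuous f) :
    Integrable f (cav.prod cav) := by
  have hprob : IsProbabilityMeasure cav := hP.cav
  -- a bound on the compact square
  have hK : IsCompact (Icc (0 : ℝ) (2 * Real.pi) ×ˢ Icc (0 : ℝ) (2 * Real.pi)) :=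
    isCompact_Icc.prod isCompact_Icc
  obtain ⟨b, hb⟩ := hK.exists_bound_of_continuousOn hf.continuousOn
  have hc : ∀ᵐ x ∂cav, x ∈ Icc (0 : ℝ) (2 * Real.pi) := by
    rw [cav]
    apply Measure.ae_smul_measure
    filter_upwards [ae_restrict_mem measurableSet_Ioc] with x hx
    exact Ioc_subset_Icc_self hx
  have hc2 : ∀ᵐ p ∂(cav.prod cav), p ∈ Icc (0 : ℝ) (2 * Real.pi) ×ˢ Icc (0 : ℝ) (2 * Real.pi) := by
    have h1 : ∀ᵐ p ∂(cav.prod cav), p.1 ∈ Icc (0 : ℝ) (2 * Real.pi) :=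
      Measure.quasiMeasurePreserving_fst.ae hc
    have h2 : ∀ᵐ p ∂(cav.prod cav), p.2 ∈ Icc (0 : ℝ) (2 * Real.pi) :=
      Measure.quasiMeasurePreserving_snd.ae hc
    filter_upwards [h1, h2] with p h1 h2
    exact ⟨h1, h2⟩
  refine Integrable.mono' (integrable_const b) hf.aestronglyMeasurable ?_
  filter_upwards [hc2] with p hp
  exact hb p hp

/-- the first half of the majorant -/
noncomputable def H1 (C : OM) (φ ψ : ℝ) : ℝ :=
  2 * (1 - C.yy ψ) ^ 2 / (1 - C.gg φ ψ) ^ 3 - C.dl / (1 - C.gg φ ψ) ^ 2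

theorem gg_adj (C : OM) (φ ψ : ℝ) : C.adj.gg ψ φ = C.gg φ ψ := by
  unfold OM.gg OM.adj
  simp only
  rw [← RCLike.norm_conj]
  congr 3
  simp only [map_sub, map_mul, Complex.conj_conj]
  ring

theorem continuous_yy (C : OM) : Continuous C.yy := by
  have := continuous_ee
  unfold OM.yy
  fun_prop

theorem continuous_xx (C : OM) : Continuous C.xx := continuous_yy C.adj

theorem continuous_gg (C : OM) : Continuous fun p : ℝ × ℝ => C.gg p.1 p.2 := by
  have := continuous_ee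
  unfold OM.gg
  fun_prop

theorem gg_lt (hpos : SpecPos) (C : OM) (hC : C.Ctr) (φ ψ : ℝ) : 0 < 1 - C.gg φ ψ := by
  have h1 := (hpos.gy C φ ψ).1
  have h2 := (hpos.dx C hC ψ).2
  have h3 := hC.1
  linarith

theorem continuous_H1 (hpos : SpecPos) (C : OM) (hC : C.Ctr) :
    Continuous fun p : ℝ × ℝ => H1 C p.1 p.2 := by
  have h1 := continuous_yy C
  have h2 := continuous_gg C
  have h3 : ∀ p : ℝ × ℝ, (1 - C.gg p.1 p.2) ^ 3 ≠ 0 := fun p =>
    (pow_pos (gg_lt hpos C hC _ _) 3).ne'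
  have h4 : ∀ p : ℝ × ℝ, (1 - C.gg p.1 p.2) ^ 2 ≠ 0 := fun p =>
    (pow_pos (gg_lt hpos C hC _ _) 2).ne'
  unfold H1
  have h5 : Continuous fun p : ℝ × ℝ => 2 * (1 - C.yy p.2) ^ 2 := by fun_prop
  have h6 : Continuous fun p : ℝ × ℝ => (1 - C.gg p.1 p.2) ^ 3 := by fun_prop
  have h7 : Continuous fun p : ℝ × ℝ => (1 - C.gg p.1 p.2) ^ 2 := by fun_prop
  exact (h5.div h6 h3).sub (continuous_const.div h7 h4)

theorem continuous_Ph (hpos : SpecPos) (C : OM) (hC : C.Ctr) :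
    Continuous fun p : ℝ × ℝ => C.Ph p.1 p.2 := by
  have h1 := continuous_yy C
  have h1' := continuous_xx C
  have h2 := continuous_gg C
  have h3 : ∀ p : ℝ × ℝ, (1 - C.gg p.1 p.2) ^ 3 ≠ 0 := fun p =>
    (pow_pos (gg_lt hpos C hC _ _) 3).ne'
  have h4 : ∀ p : ℝ × ℝ, (1 - C.gg p.1 p.2) ^ 2 ≠ 0 := fun p =>
    (pow_pos (gg_lt hpos C hC _ _) 2).ne'
  unfold OM.Ph
  have h5 : Continuous fun p : ℝ × ℝ => 2 * (1 - C.xx p.1) * (1 - C.yy p.2) := by fun_prop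
  have h6 : Continuous fun p : ℝ × ℝ => (1 - C.gg p.1 p.2) ^ 3 := by fun_prop
  have h7 : Continuous fun p : ℝ × ℝ => (1 - C.gg p.1 p.2) ^ 2 := by fun_prop
  exact (h5.div h6 h3).sub (continuous_const.div h7 h4)

/-- the pointwise bound -/
theorem Ph_le (hpos : SpecPos) (C : OM) (hC : C.Ctr) (φ ψ : ℝ) :
    C.Ph φ ψ ≤ (H1 C φ ψ + H1 C.adj ψ φ) / 2 := by
  have hg := gg_lt hpos C hC φ ψ
  have ha := hpos.adj C
  unfold OM.Ph H1
  rw [gg_adj, ha.1, (ha.2.2.2 φ).1]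
  have h1 : 2 * (1 - C.xx φ) * (1 - C.yy ψ) / (1 - C.gg φ ψ) ^ 3 ≤
      ((1 - C.xx φ) ^ 2 + (1 - C.yy ψ) ^ 2) / (1 - C.gg φ ψ) ^ 3 := by
    apply div_le_div_of_nonneg_right _ (pow_pos hg 3).le
    nlinarith [sq_nonneg ((1 - C.xx φ) - (1 - C.yy ψ))]
  have h2 : ((1 - C.xx φ) ^ 2 + (1 - C.yy ψ) ^ 2) / (1 - C.gg φ ψ) ^ 3 =
      (2 * (1 - C.yy ψ) ^ 2 / (1 - C.gg φ ψ) ^ 3 + 2 * (1 - C.xx φ) ^ 2 / (1 - C.gg φ ψ) ^ 3) / 2 := by
    ring
  linarith

/-- monotonicity in `R` -/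
theorem mono (s R Δ : ℝ) (hs : 0 < s) (hR : 0 < R) (hsR : s ≤ R ^ 2) (hΔ : Δ ≤ s) :
    2 * s ^ 2 * ((((1 + s) / 2) ^ 2 + (((1 + s) / 2) ^ 2 - R ^ 2) / 2) / R ^ 5)
      - Δ * ((1 + s) / 2 / R ^ 3) ≤ G0 Δ s := by
  set t : ℝ := Real.sqrt s with ht
  have ht0 : 0 < t := Real.sqrt_pos.2 hs
  have hst : s = t ^ 2 := (Real.sq_sqrt hs.le).symm
  have htR : t ≤ R := by
    rw [ht]
    exact Real.sqrt_le_iff.2 ⟨hR.le, hsR⟩
  have e1 : s ^ (-(1 / 2) : ℝ) = t⁻¹ := by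
    rw [Real.rpow_neg hs.le, ht, Real.sqrt_eq_rpow]
  have e2 : s ^ ((1 / 2) : ℝ) = t := by rw [ht, Real.sqrt_eq_rpow]
  have e3 : s ^ ((3 / 2) : ℝ) = t ^ 3 := by
    rw [show ((3 / 2) : ℝ) = 1 + 1 / 2 by norm_num, Real.rpow_add hs, Real.rpow_one, e2, hst]
    ring
  have e4 : s ^ (-(3 / 2) : ℝ) = (t ^ 3)⁻¹ := by
    rw [Real.rpow_neg hs.le, e3]
  set a0 : ℝ := (1 + s) / 2 with ha0
  -- the bracket
  have hG : G0 Δ s = (t ^ 3)⁻¹ * (3 * a0 ^ 2 * s - s ^ 2 - Δ * a0) := by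
    rw [G0, e1, e2, e3, e4, ha0, hst]
    field_simp
    ring
  have hL : 2 * s ^ 2 * ((a0 ^ 2 + (a0 ^ 2 - R ^ 2) / 2) / R ^ 5) - Δ * (a0 / R ^ 3) =
      (R ^ 3)⁻¹ * (3 * a0 ^ 2 * s ^ 2 / R ^ 2 - s ^ 2 - Δ * a0) := by
    field_simp
    ring
  rw [hG, hL]
  have hbt : 0 ≤ 3 * a0 ^ 2 * s - s ^ 2 - Δ * a0 := by
    have h1 : Δ * a0 ≤ s * a0 := mul_le_mul_of_nonneg_right hΔ (by rw [ha0]; positivity)
    have h2 : 0 ≤ s * (3 * a0 ^ 2 - s - a0) := by
      apply mul_nonneg hs.le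
      have : s = 2 * a0 - 1 := by rw [ha0]; ring
      rw [this]
      nlinarith [sq_nonneg (a0 - 1 / 2)]
    nlinarith
  have hbb : 3 * a0 ^ 2 * s ^ 2 / R ^ 2 ≤ 3 * a0 ^ 2 * s := by
    rw [div_le_iff₀ (by positivity)]
    have : 3 * a0 ^ 2 * s ^ 2 = 3 * a0 ^ 2 * s * s := by ring
    rw [this]
    exact mul_le_mul_of_nonneg_left hsR (by positivity)
  have hR3 : (R ^ 3)⁻¹ ≤ (t ^ 3)⁻¹ := by
    apply inv_anti₀ (by positivity)
    exact pow_le_pow_left₀ ht0.le htR 3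
  rcases le_or_gt (3 * a0 ^ 2 * s ^ 2 / R ^ 2 - s ^ 2 - Δ * a0) 0 with h | h
  · have h1 : (R ^ 3)⁻¹ * (3 * a0 ^ 2 * s ^ 2 / R ^ 2 - s ^ 2 - Δ * a0) ≤ 0 :=
      mul_nonpos_of_nonneg_of_nonpos (by positivity) h
    have h2 : 0 ≤ (t ^ 3)⁻¹ * (3 * a0 ^ 2 * s - s ^ 2 - Δ * a0) := by positivity
    linarith
  · apply mul_le_mul hR3 (by linarith) h.le (by positivity)

/-- the inner average -/
theorem inner (hP : SpecProb) (hA : SpecAvg) (hpos : SpecPos) (C : OM) (hC : C.Ctr) (ψ : ℝ) :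
    ∫ φ, H1 C φ ψ ∂cav ≤ G0 C.dl (1 - C.yy ψ) := by
  have hprob : IsProbabilityMeasure cav := hP.cav
  set p : ℂ := C.a - ee ψ * C.b with hp
  set r : ℂ := C.c - ee ψ * C.d with hr
  have hyy : C.yy ψ = (‖p‖ ^ 2 + ‖r‖ ^ 2) / 2 := rfl
  set s : ℝ := 1 - C.yy ψ with hs
  have hdls : C.dl ≤ s := (hpos.dx C hC ψ).2
  have hs0 : 0 < s := lt_of_lt_of_le hC.1 hdls
  set q : ℂ := p * conj r with hq
  obtain ⟨ζ, hζ, hqζ⟩ : ∃ ζ : ℂ, ‖ζ‖ = 1 ∧ q = (‖p‖ * ‖r‖ : ℝ) * ζ := by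
    have hn : ‖q‖ = ‖p‖ * ‖r‖ := by rw [hq, norm_mul, RCLike.norm_conj]
    rcases eq_or_ne q 0 with h0 | h0
    · refine ⟨1, by simp, ?_⟩
      rw [← hn, h0]
      simp
    · refine ⟨q / (‖p‖ * ‖r‖ : ℝ), ?_, ?_⟩
      · rw [norm_div, ← hn]
        simp [h0]
      · have : ((‖p‖ * ‖r‖ : ℝ) : ℂ) ≠ 0 := by
          rw [← hn]
          exact_mod_cast norm_ne_zero_iff.2 h0
        field_simp
  set a0 : ℝ := (1 + s) / 2 with ha0
  set B : ℝ := ‖p‖ * ‖r‖ / 2 with hB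
  have hB0 : 0 ≤ B := by rw [hB]; positivity
  have hBa : B ≤ 1 - a0 := by
    rw [hB, ha0, hs, hyy]
    nlinarith [sq_nonneg (‖p‖ - ‖r‖)]
  have ha1 : a0 ≤ 1 := by linarith
  have ha0pos : 0 < a0 := by rw [ha0]; linarith
  have hsR' : s ≤ a0 ^ 2 - B ^ 2 := by
    have h1 : B ^ 2 ≤ (1 - a0) ^ 2 := pow_le_pow_left₀ hB0 hBa 2
    have h2 : s = 2 * a0 - 1 := by rw [ha0]; ring
    nlinarith
  have hBlt : B < a0 := by
    have : B ^ 2 < a0 ^ 2 := by linarith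
    exact lt_of_pow_lt_pow_left₀ 2 ha0pos.le this
  have hgg : ∀ φ, 1 - C.gg φ ψ = a0 + B * (ζ * ee φ).re := by
    intro φ
    have h1 : ‖p - conj (ee φ) * r‖ ^ 2 = ‖p‖ ^ 2 + ‖r‖ ^ 2 - 2 * (q * ee φ).re := by
      rw [← Complex.normSq_eq_norm_sq, Complex.normSq_sub, Complex.normSq_eq_norm_sq,
        Complex.normSq_eq_norm_sq, norm_mul, RCLike.norm_conj, norm_ee, one_mul]
      have : p * conj (conj (ee φ) * r) = q * ee φ := by
        rw [hq, map_mul, Complex.conj_conj]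
        ring
      rw [this]
    have h2 : (q * ee φ).re = ‖p‖ * ‖r‖ * (ζ * ee φ).re := by
      rw [hqζ, mul_assoc, Complex.re_ofReal_mul]
    have h3 : C.gg φ ψ = ‖p - conj (ee φ) * r‖ ^ 2 / 4 := rfl
    rw [h3, h1, h2, ha0, hs, hyy, hB]
    ring
  set R : ℝ := Real.sqrt (a0 ^ 2 - B ^ 2) with hR
  have hRpos : 0 < R := Real.sqrt_pos.2 (by linarith)
  have hR2 : R ^ 2 = a0 ^ 2 - B ^ 2 := Real.sq_sqrt (by linarith)
  have b2 := hA.two a0 B ζ hB0 hBlt hζ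
  have b3 := hA.three a0 B ζ hB0 hBlt hζ
  rw [← hR] at b2 b3
  have hpos' : ∀ φ, 0 < a0 + B * (ζ * ee φ).re := fun φ => by
    rw [← hgg φ]
    exact gg_lt hpos C hC φ ψ
  have hcont : Continuous fun φ : ℝ => a0 + B * (ζ * ee φ).re := by
    have := continuous_ee
    fun_prop
  have i2 : Integrable (fun φ : ℝ => ((a0 + B * (ζ * ee φ).re) ^ 2)⁻¹) cav :=
    integrable_cav _ ((hcont.pow 2).inv₀ fun φ => (pow_pos (hpos' φ) 2).ne')
  have i3 : Integrable (fun φ : ℝ => ((a0 + B * (ζ * ee φ).re) ^ 3)⁻¹) cav :=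
    integrable_cav _ ((hcont.pow 3).inv₀ fun φ => (pow_pos (hpos' φ) 3).ne')
  have hint : ∫ φ, H1 C φ ψ ∂cav = 2 * s ^ 2 * ((a0 ^ 2 + B ^ 2 / 2) / R ^ 5)
      - C.dl * (a0 / R ^ 3) := by
    have h1 : ∀ φ, H1 C φ ψ = 2 * s ^ 2 * ((a0 + B * (ζ * ee φ).re) ^ 3)⁻¹
        - C.dl * ((a0 + B * (ζ * ee φ).re) ^ 2)⁻¹ := by
      intro φ
      unfold H1
      rw [hgg, ← hs, div_eq_mul_inv, div_eq_mul_inv]
    simp only [h1]
    rw [integral_sub (i3.const_mul _) (i2.const_mul _), integral_const_mul, integral_const_mul,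
      b2, b3]
  rw [hint]
  have hBB : B ^ 2 = a0 ^ 2 - R ^ 2 := by linarith
  rw [hBB]
  exact mono s R C.dl hs0 hRpos (by linarith) hdls

/-- integrability of the majorant -/
theorem integrable_G0 (hpos : SpecPos) (C' : OM) (hC'' : C'.Ctr) :
    Integrable (fun φ => G0 C'.dl (1 - C'.yy φ)) cav := by
  apply integrable_cav
  have hc := continuous_yy C'
  have hp : ∀ φ, 0 < 1 - C'.yy φ := fun φ => lt_of_lt_of_le hC''.1 (hpos.dx C' hC'' φ).2
  have hc1 : Continuous fun φ : ℝ => 1 - C'.yy φ := by fun_prop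
  have hr : ∀ p : ℝ, Continuous fun φ : ℝ => (1 - C'.yy φ) ^ p := fun p =>
    hc1.rpow_const fun φ => Or.inl (hp φ).ne'
  have h1 := hr (-(1 / 2))
  have h2 := hr (1 / 2)
  have h3 := hr (3 / 2)
  have h4 := hr (-(3 / 2))
  unfold G0
  fun_prop

/-- Fubini for three continuous functions of two angles -/
theorem abstract_avg (hP : SpecProb) (P A B : ℝ → ℝ → ℝ) (gA gB : ℝ → ℝ)
    (cP : Continuous fun p : ℝ × ℝ => P p.1 p.2) (cA : Continuous fun p : ℝ × ℝ => A p.1 p.2)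
    (cB : Continuous fun p : ℝ × ℝ => B p.1 p.2) (iA : Integrable gA cav)
    (iB : Integrable gB cav) (hle : ∀ φ ψ, P φ ψ ≤ (A φ ψ + B ψ φ) / 2)
    (hA : ∀ ψ, ∫ φ, A φ ψ ∂cav ≤ gA ψ) (hB : ∀ φ, ∫ ψ, B ψ φ ∂cav ≤ gB φ) :
    ∫ ψ, ∫ φ, P φ ψ ∂cav ∂cav ≤ (∫ φ, gA φ ∂cav + ∫ φ, gB φ ∂cav) / 2 := by
  have hprob : IsProbabilityMeasure cav := hP.cav
  have i3 : Integrable (fun p : ℝ × ℝ => P p.2 p.1) (cav.prod cav) :=
    integrable_prod hP _ (cP.comp (continuous_snd.prodMk continuous_fst))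
  have i1 : Integrable (fun p : ℝ × ℝ => A p.2 p.1) (cav.prod cav) :=
    integrable_prod hP _ (cA.comp (continuous_snd.prodMk continuous_fst))
  have i2 : Integrable (fun p : ℝ × ℝ => B p.1 p.2) (cav.prod cav) :=
    integrable_prod hP _ cB
  have i2' : Integrable (fun p : ℝ × ℝ => B p.2 p.1) (cav.prod cav) :=
    integrable_prod hP _ (cB.comp (continuous_snd.prodMk continuous_fst))
  have e3 : ∫ ψ, ∫ φ, P φ ψ ∂cav ∂cav = ∫ p : ℝ × ℝ, P p.2 p.1 ∂(cav.prod cav) :=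
    (integral_prod _ i3).symm
  have e1 : ∫ ψ, ∫ φ, A φ ψ ∂cav ∂cav = ∫ p : ℝ × ℝ, A p.2 p.1 ∂(cav.prod cav) :=
    (integral_prod _ i1).symm
  have e2 : ∫ φ, ∫ ψ, B ψ φ ∂cav ∂cav = ∫ p : ℝ × ℝ, B p.1 p.2 ∂(cav.prod cav) :=
    (integral_prod_symm _ i2).symm
  have h1 : ∫ ψ, ∫ φ, A φ ψ ∂cav ∂cav ≤ ∫ φ, gA φ ∂cav :=
    integral_mono i1.integral_prod_left iA hA
  have h2 : ∫ φ, ∫ ψ, B ψ φ ∂cav ∂cav ≤ ∫ φ, gB φ ∂cav :=
    integral_mono i2'.integral_prod_left iB hB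
  have h3 : ∫ p : ℝ × ℝ, P p.2 p.1 ∂(cav.prod cav) ≤
      ∫ p : ℝ × ℝ, (A p.2 p.1 + B p.1 p.2) / 2 ∂(cav.prod cav) :=
    integral_mono i3 ((i1.add i2).div_const 2) fun p => hle p.2 p.1
  have h4 : ∫ p : ℝ × ℝ, (A p.2 p.1 + B p.1 p.2) / 2 ∂(cav.prod cav) =
      (∫ p : ℝ × ℝ, A p.2 p.1 ∂(cav.prod cav) + ∫ p : ℝ × ℝ, B p.1 p.2 ∂(cav.prod cav)) / 2 := by
    rw [integral_div, integral_add i1 i2]
  rw [e3]
  rw [e1] at h1
  rw [e2] at h2
  linarith

end KI1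

/-- B4. KI1 -/
theorem specKI1 (hP : SpecProb) (hA : SpecAvg) (hpos : SpecPos) : SpecKI1 := by
  intro C hC
  have ha := hpos.adj C
  have hC' : C.adj.Ctr := ha.2.2.1 hC
  have e1 : ∀ φ, G0 C.adj.dl (1 - C.adj.yy φ) = G0 C.dl (1 - C.xx φ) := by
    intro φ
    rw [ha.1, (ha.2.2.2 φ).1]
  have key := KI1.abstract_avg hP C.Ph (KI1.H1 C) (KI1.H1 C.adj)
    (fun φ => G0 C.dl (1 - C.yy φ)) (fun φ => G0 C.adj.dl (1 - C.adj.yy φ))
    (KI1.continuous_Ph hpos C hC) (KI1.continuous_H1 hpos C hC)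
    (KI1.continuous_H1 hpos C.adj hC') (KI1.integrable_G0 hpos C hC)
    (KI1.integrable_G0 hpos C.adj hC') (KI1.Ph_le hpos C hC)
    (KI1.inner hP hA hpos C hC) (KI1.inner hP hA hpos C.adj hC')
  simp only [e1] at key
  exact key

end MPf1e3
end
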