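import Pool.Agent.Lib.MP_f1e3b4_an.Defs

/-!
Problem MP_f1e3b4_an: exact statements of the modules.
Paper proofs: /team-store/MP_f1e3b4_an_MODULES.md (same names).  Every module may assume the other
Specs as hypotheses.
-/

set_option autoImplicit false

open MeasureTheory ProbabilityTheory Filter Topology Set
open scoped ENNReal ComplexConjugate

namespace MPf1e3

/-! ## A. Gaussian toolkit -/

/-- A1. PROB: basic measures -/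
structure SpecProb : Prop where
  cg : IsProbabilityMeasure cg
  G : ∀ n, IsProbabilityMeasure (G n)
  GM : ∀ N n, IsProbabilityMeasure (GM N n)
  cav : IsProbabilityMeasure cav
  /-- density of the complex Gaussian -/
  dens : MPf1e3.cg = (volume : Measure ℂ).withDensity
    fun z => ENNReal.ofReal ((2 * Real.pi)⁻¹ * Real.exp (-(‖z‖ ^ 2 / 2)))

/-- A2. INV: unitary invariance, rows and columns -/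
structure SpecInv : Prop where
  row : ∀ (n : ℕ) (V : Matrix (Fin n) (Fin n) ℂ), V ∈ Matrix.unitaryGroup (Fin n) ℂ →
    MeasurePreserving (fun a => Matrix.vecMul a V) (G n) (G n)
  col : ∀ (n : ℕ) (V : Matrix (Fin n) (Fin n) ℂ), V ∈ Matrix.unitaryGroup (Fin n) ℂ →
    MeasurePreserving (fun a => Matrix.mulVec V a) (G n) (G n)
  mat : ∀ (N n : ℕ) (V : Matrix (Fin n) (Fin n) ℂ), V ∈ Matrix.unitaryGroup (Fin n) ℂ →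
    MeasurePreserving (fun A : Fin N → Fin n → ℂ => fun i => Matrix.vecMul (A i) V)
      (GM N n) (GM N n)

/-- A3. EXT: every orthonormal pair is the image of the standard one -/
def SpecExt : Prop := ∀ (m : ℕ) (u v : Fin (m + 2) → ℂ), ON u v →
  ∃ V ∈ Matrix.unitaryGroup (Fin (m + 2)) ℂ, (∀ j, V j 0 = u j) ∧ ∀ j, V j 1 = v j

/-- A3'. EXT1: every unit vector is the image of `e_0` -/
def SpecExt1 : Prop := ∀ (m : ℕ) (u : Fin (m + 1) → ℂ), nsq u = 1 →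
  ∃ V ∈ Matrix.unitaryGroup (Fin (m + 1)) ℂ, ∀ j, V j 0 = u j

/-- A4. GS: Gram-Schmidt frames -/
structure SpecGS : Prop where
  /-- almost surely the frame is orthonormal -/
  on : ∀ m : ℕ, ∀ᵐ ω ∂((G (m + 2)).prod (G (m + 2))), ON (fu ω.1) (fv ω.1 ω.2)
  /-- equivariance -/
  equ : ∀ (n : ℕ) (V : Matrix (Fin n) (Fin n) ℂ), V ∈ Matrix.unitaryGroup (Fin n) ℂ →
    ∀ g h : Fin n → ℂ, fu (Matrix.mulVec V g) = Matrix.mulVec V (fu g) ∧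
      fv (Matrix.mulVec V g) (Matrix.mulVec V h) = Matrix.mulVec V (fv g h)
  meas_u : ∀ n : ℕ, Measurable fun ω : (Fin n → ℂ) × (Fin n → ℂ) => fu ω.1
  meas_v : ∀ n : ℕ, Measurable fun ω : (Fin n → ℂ) × (Fin n → ℂ) => fv ω.1 ω.2

/-- A5. GAM: law of the squared norm -/
def SpecGam : Prop := ∀ (n : ℕ) (F : ℝ → ℝ≥0∞), Measurable F →
  ∫⁻ a, F (nsq a) ∂(G (n + 1)) =
    ∫⁻ y in Ioi (0 : ℝ), F y * ENNReal.ofReal (y ^ n * Real.exp (-(y / 2)) / (2 ^ (n + 1) * n.factorial))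

/-- A6. CONS: splitting off coordinates -/
def SpecCons : Prop := ∀ (m : ℕ) (F : (Fin (m + 2) → ℂ) → ℝ≥0∞), Measurable F →
  ∫⁻ a, F a ∂(G (m + 2)) =
    ∫⁻ α, ∫⁻ β, ∫⁻ r, F (Fin.cons α (Fin.cons β r)) ∂(G m) ∂cg ∂cg

/-- A6'. CONS1: splitting off one coordinate -/
def SpecCons1 : Prop := ∀ (m : ℕ) (F : (Fin (m + 1) → ℂ) → ℝ≥0∞), Measurable F →
  ∫⁻ a, F a ∂(G (m + 1)) = ∫⁻ α, ∫⁻ r, F (Fin.cons α r) ∂(G m) ∂cg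

/-! ## B. The pair correlation function -/

/-- B1. KAPPA: the overlap integral, standard frame against `(u, v)` -/
def SpecKappa : Prop := ∀ (m : ℕ) (u v : Fin (m + 2) → ℂ), ON u v → ∀ τ : ℝ, 0 < τ → τ < 1 →
  ∫⁻ a, kern τ (a 0) (a 1) * kern τ (dot a u) (dot a v) ∂(G (m + 2)) =
    ENNReal.ofReal ((ov u v).smul τ).kap

/-- B2. CTR: overlaps are contractions -/
structure SpecCtr : Prop where
  fr : ∀ (m : ℕ) (u v : Fin (m + 2) → ℂ), ON u v → (ov u v).fr ≤ 2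
  dl : ∀ (m : ℕ) (u v : Fin (m + 2) → ℂ), ON u v → 0 ≤ (ov u v).dl
  /-- `det (1 - C* C)` is the Gram determinant of the remaining coordinates -/
  gram : ∀ (m : ℕ) (u v : Fin (m + 2) → ℂ), ON u v →
    (ov u v).dl = nsq (tl u) * nsq (tl v) - ‖herm (tl u) (tl v)‖ ^ 2
  mono : ∀ (m : ℕ) (u v : Fin (m + 2) → ℂ), ON u v → ∀ τ : ℝ, 0 < τ → τ < 1 →
    (ov u v).dl ≤ ((ov u v).smul τ).dl
  lower : ∀ (m : ℕ) (u v : Fin (m + 2) → ℂ), ON u v → ∀ τ : ℝ, 0 < τ → τ < 1 →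
    (1 - τ) ^ 2 ≤ ((ov u v).smul τ).dl ∧ ((ov u v).smul τ).Ctr

/-- B3. AVG: averages over the circle; `A > B ≥ 0`; the integrand depends on a phase `ζ` -/
structure SpecAvg : Prop where
  one : ∀ A B : ℝ, ∀ ζ : ℂ, 0 ≤ B → B < A → ‖ζ‖ = 1 →
    ∫ φ, (A + B * (ζ * ee φ).re)⁻¹ ∂cav = (Real.sqrt (A ^ 2 - B ^ 2))⁻¹
  two : ∀ A B : ℝ, ∀ ζ : ℂ, 0 ≤ B → B < A → ‖ζ‖ = 1 →
    ∫ φ, ((A + B * (ζ * ee φ).re) ^ 2)⁻¹ ∂cav = A / Real.sqrt (A ^ 2 - B ^ 2) ^ 3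
  three : ∀ A B : ℝ, ∀ ζ : ℂ, 0 ≤ B → B < A → ‖ζ‖ = 1 →
    ∫ φ, ((A + B * (ζ * ee φ).re) ^ 3)⁻¹ ∂cav =
      (A ^ 2 + B ^ 2 / 2) / Real.sqrt (A ^ 2 - B ^ 2) ^ 5
  lin : ∀ A B : ℝ, ∀ ζ : ℂ, ‖ζ‖ = 1 → ∫ φ, (A + B * (ζ * ee φ).re) ∂cav = A
  quad : ∀ A B : ℝ, ∀ ζ : ℂ, ‖ζ‖ = 1 →
    ∫ φ, (A + B * (ζ * ee φ).re) ^ 2 ∂cav = A ^ 2 + B ^ 2 / 2

/-- the majorant of the averaged integrand -/
noncomputable def G0 (Δ s : ℝ) : ℝ :=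
  (3 / 4) * s ^ (-(1 / 2) : ℝ) + (1 / 2) * s ^ ((1 / 2) : ℝ) + (3 / 4) * s ^ ((3 / 2) : ℝ)
    - (Δ / 2) * (s ^ (-(1 / 2) : ℝ) + s ^ (-(3 / 2) : ℝ))

/-- B4. KI1: reduction to one average -/
def SpecKI1 : Prop := ∀ C : OM, C.Ctr →
  C.kap ≤ (∫ φ, G0 C.dl (1 - C.yy φ) ∂cav + ∫ φ, G0 C.dl (1 - C.xx φ) ∂cav) / 2

/-- B5. KI2: the average is bounded by elementary functions; `D² = det (1 - C* C)` -/
def SpecKI2 : Prop := ∀ C : OM, C.Ctr → ∀ D : ℝ, 0 < D → D ^ 2 = C.dl →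
  ∃ y s : ℝ, D ≤ y ∧ y ≤ s ∧ s = 1 - C.fr / 2 ∧ 2 * s - 1 ≤ D ^ 2 ∧
    ∀ l : ℝ, 0 < l → Real.sqrt D * (∫ φ, G0 C.dl (1 - C.yy φ) ∂cav) ≤
      3 / 8 - D ^ 2 / 4 + D / 4 + D / y * (3 / 8 - D ^ 2 / 4 - 3 / 4 * D)
        + (l * D + s / l) / 4 + 3 / 8 * (l * D * s + (3 * s ^ 2 - y ^ 2) / (2 * l))

/-- B6. KI3: the elementary inequality behind the key inequality -/
def SpecKI3 : Prop := ∃ c : ℝ, 0 < c ∧ ∀ D y s : ℝ, 0 < D → D ≤ y → y ≤ s → s ≤ 1 →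
  2 * s - 1 ≤ D ^ 2 → ∃ l : ℝ, 0 < l ∧
    3 / 8 - D ^ 2 / 4 + D / 4 + D / y * (3 / 8 - D ^ 2 / 4 - 3 / 4 * D)
        + (l * D + s / l) / 4 + 3 / 8 * (l * D * s + (3 * s ^ 2 - y ^ 2) / (2 * l)) ≤
      1 - c * (1 - D)

/-- B7. KI4: behaviour near `C = 0` -/
def SpecKI4 : Prop := ∃ K : ℝ, 0 < K ∧ ∀ D y s : ℝ, 1 / 4 ≤ D → D ≤ y → y ≤ s → s ≤ 1 →
  2 * s - 1 ≤ D ^ 2 →
    3 / 8 - D ^ 2 / 4 + D / 4 + D / y * (3 / 8 - D ^ 2 / 4 - 3 / 4 * D)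
        + (D + s) / 4 + 3 / 8 * (D * s + (3 * s ^ 2 - y ^ 2) / 2) ≤
      Real.sqrt D * (1 + K * (1 - D) ^ 2)

/-- B8. POS: positivity of the integrand -/
structure SpecPos : Prop where
  /-- `(1 - x)(1 - y) - Δ (1 - g)` is a square -/
  sq : ∀ (C : OM) (φ ψ : ℝ), C.dl * (1 - C.gg φ ψ) ≤ (1 - C.xx φ) * (1 - C.yy ψ)
  gy : ∀ (C : OM) (φ ψ : ℝ), C.gg φ ψ ≤ C.yy ψ ∧ C.gg φ ψ ≤ C.xx φ
  /-- `0 < Δ ≤ 1 - x`, `Δ ≤ 1 - y` -/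
  dx : ∀ C : OM, C.Ctr → ∀ φ : ℝ, C.dl ≤ 1 - C.xx φ ∧ C.dl ≤ 1 - C.yy φ
  Ph : ∀ C : OM, C.Ctr → ∀ φ ψ : ℝ, 0 ≤ C.Ph φ ψ
  kap : ∀ C : OM, C.Ctr → 0 ≤ C.kap
  adj : ∀ C : OM, C.adj.dl = C.dl ∧ C.adj.fr = C.fr ∧ (C.Ctr → C.adj.Ctr) ∧
    ∀ φ : ℝ, C.adj.yy φ = C.xx φ ∧ C.adj.xx φ = C.yy φ

/-- B9. KI: the key inequality -/
def SpecKI : Prop := ∃ c K : ℝ, 0 < c ∧ 0 < K ∧ ∀ C : OM, C.Ctr →
  0 ≤ C.kap ∧ C.kap ^ 4 * C.dl ≤ Real.exp (-(c * C.fr)) ∧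
  (C.fr ≤ 1 / 2 → C.kap ≤ 1 + K * C.fr ^ 2)

/-! ## C. The second moment -/

/-- C1. KMEAS: measurability and total mass of the kernel -/
structure SpecKmeas : Prop where
  meas : ∀ τ : ℝ, Measurable fun p : ℂ × ℂ => kern τ p.1 p.2
  one : ∀ (m : ℕ) (τ : ℝ), 0 < τ → τ < 1 → ∫⁻ a, kern τ (a 0) (a 1) ∂(G (m + 2)) = 1
  LL : ∀ (τ : ℝ) (N n : ℕ), Measurable fun A : Fin N → Fin n → ℂ => LL τ A

/-- C2. MIX: the planted mixture, events invariant under unitary matrices -/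
structure SpecMix : Prop where
  inv : ∀ (τ : ℝ) (N n : ℕ) (V : Matrix (Fin n) (Fin n) ℂ), V ∈ Matrix.unitaryGroup (Fin n) ℂ →
    ∀ A : Fin N → Fin n → ℂ, LL τ (fun i => Matrix.vecMul (A i) V) = LL τ A
  mix : ∀ (τ : ℝ) (N m : ℕ), 0 < τ → τ < 1 → ∀ F : (Fin N → Fin (m + 2) → ℂ) → ℝ≥0∞,
    Measurable F → (∀ V ∈ Matrix.unitaryGroup (Fin (m + 2)) ℂ, ∀ A,
      F (fun i => Matrix.vecMul (A i) V) = F A) →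
    ∫⁻ A, F A * LL τ A ∂(GM N (m + 2)) =
      ∫⁻ A, F A * ∏ i, kern τ (A i 0) (A i 1) ∂(GM N (m + 2))

/-- C3. SEC: the second moment as an integral over one frame -/
def SpecSec : Prop := ∀ (τ : ℝ) (N m : ℕ), 0 < τ → τ < 1 →
  ∫⁻ A, LL τ A ∂(GM N (m + 2)) = 1 ∧
  ∫⁻ A, LL τ A ^ 2 ∂(GM N (m + 2)) =
    ∫⁻ ω, ENNReal.ofReal (((ov (fu ω.1) (fv ω.1 ω.2)).smul τ).kap) ^ N
      ∂((G (m + 2)).prod (G (m + 2)))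

/-- C4. DET: negative moments of `det (1 - C* C)` -/
def SpecDet : Prop := ∃ K : ℝ, ∀ m : ℕ, 3 ≤ m →
  ∫⁻ ω, ENNReal.ofReal ((((ov (fu ω.1) (fv ω.1 ω.2)).dl)⁻¹) ^ (m - 2))
      ∂((G (m + 2)).prod (G (m + 2))) ≤ ENNReal.ofReal (K * (m : ℝ) ^ 5)

/-- the smoothing parameter -/
noncomputable def tau (k m : ℕ) : ℝ := 1 - 1 / ((m : ℝ) + 2) ^ k

/-- C5. SECLIM: the second moment tends to one -/
def SpecSecLim : Prop := ∀ k : ℕ, 1 ≤ k → ∀ ε : ℝ, 0 < ε → ∀ᶠ m : ℕ in atTop,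
  ∫⁻ A, LL (tau k m) A ^ 2 ∂(GM (4 * m + 3) (m + 2)) ≤ ENNReal.ofReal (1 + ε)

/-- C6. CS: change of measure -/
def SpecCS : Prop := ∀ (Ω : Type) [MeasurableSpace Ω] (P : Measure Ω) [IsProbabilityMeasure P]
  (L : Ω → ℝ≥0∞) (δ : ℝ), Measurable L → 0 ≤ δ → ∫⁻ x, L x ∂P = 1 →
  ∫⁻ x, L x ^ 2 ∂P ≤ ENNReal.ofReal (1 + δ ^ 2) → ∀ E : Set Ω, MeasurableSet E →
    P E ≤ ∫⁻ x in E, L x ∂P + ENNReal.ofReal δ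

/-! ## D. The planted model -/

/-- D1. COLL: collisions -/
structure SpecColl : Prop where
  meas : ∀ N n, MeasurableSet (Coll N n)
  inv : ∀ (N n : ℕ) (V : Matrix (Fin n) (Fin n) ℂ), V ∈ Matrix.unitaryGroup (Fin n) ℂ →
    ∀ A : Fin N → Fin n → ℂ, (fun i => Matrix.vecMul (A i) V) ∈ Coll N n ↔ A ∈ Coll N n
  /-- matrices with a collision are not injective -/
  not_inj : ∀ (N n : ℕ) (A : Fin N → Fin n → ℂ), A ∈ Coll N n →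
    ¬ ∀ x y : Fin n → ℂ, (∀ i, ‖(Matrix.of A).mulVec x i‖ = ‖(Matrix.of A).mulVec y i‖) →
      ∃ c : ℂ, ‖c‖ = 1 ∧ y = c • x

/-- D2. ROW: the planted law of a row -/
def SpecRow : Prop := ∀ (m : ℕ) (τ : ℝ), 0 < τ → τ < 1 → ∀ F : (Fin (m + 2) → ℂ) → ℝ≥0∞,
  Measurable F → ∫⁻ a, F a ∂(nu τ m) =
    ∫⁻ φ, ∫⁻ z₁, ∫⁻ z₂, ∫⁻ r, F (mkrow φ z₁ z₂ r) ∂(G m) ∂(mu2 τ) ∂(mu1 τ) ∂cav

/-- D3. MU: the one dimensional laws -/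
structure SpecMu : Prop where
  p1 : ∀ τ : ℝ, 0 < τ → τ < 1 → IsProbabilityMeasure (mu1 τ)
  p2 : ∀ τ : ℝ, 0 < τ → τ < 1 → IsProbabilityMeasure (mu2 τ)
  p3 : ∀ (τ : ℝ) (m : ℕ), 0 < τ → τ < 1 → IsProbabilityMeasure (nu τ m)
  m1 : ∀ τ : ℝ, 0 < τ → τ < 1 → ∫⁻ z, ENNReal.ofReal (‖z‖ ^ 2) ∂(mu1 τ) ≤ ENNReal.ofReal (2 * (1 - τ))
  m2 : ∀ τ : ℝ, 0 < τ → τ < 1 → ∫⁻ z, ENNReal.ofReal (‖z‖ ^ 2) ∂(mu2 τ) ≤ 4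
  mg : ∫⁻ z, ENNReal.ofReal (‖z‖ ^ 2) ∂cg = 2
  /-- bounded density of `mu2` -/
  d2 : ∀ τ : ℝ, 0 < τ → τ < 1 → mu2 τ ≤ volume
  /-- bounded density of `mu2` in polar coordinates -/
  pol : ∀ τ : ℝ, 0 < τ → τ < 1 → ∀ F : ℂ → ℝ≥0∞, Measurable F →
    ∫⁻ z, F z ∂(mu2 τ) ≤ ∫⁻ ψ, (∫⁻ r in Ioi (0 : ℝ), F (r * ee ψ) * ENNReal.ofReal (10 * Real.exp (-(r / 2)))) ∂cav

/-- D4. MOM: moments of the planted row -/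
structure SpecMom : Prop where
  e : ∀ (m : ℕ) (τ : ℝ), 0 < τ → τ < 1 → ∀ j, ∫⁻ a, ENNReal.ofReal (‖a j‖ ^ 2) ∂(nu τ m) ≤ 8
  f : ∀ (m : ℕ) (τ : ℝ), 0 < τ → τ < 1 →
    ∫⁻ a, ENNReal.ofReal ((‖a 0‖ ^ 2 - ‖a 1‖ ^ 2) ^ 2) ∂(nu τ m) ≤ ENNReal.ofReal (64 * (1 - τ))

/-- D5. QUAD: sublevel sets of quadratic polynomials -/
def SpecQuad : Prop := ∀ (A b d t : ℝ), A ≠ 0 → 0 < t →
  volume {r : ℝ | |A * r ^ 2 + b * r + d| ≤ t} ≤ ENNReal.ofReal (4 * Real.sqrt (t / |A|))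

/-- D6. SBX: small ball estimate, Gaussian directions -/
def SpecSBX : Prop := ∃ K : ℝ, ∀ (m : ℕ) (τ : ℝ), 1 / 2 ≤ τ → τ < 1 → ∀ w : Dir m,
  1 ≤ nsq w.2.2.1 + nsq w.2.2.2 → ∀ t : ℝ, 0 < t → t ≤ 1 →
    nu τ m {a | |jrow a w| ≤ t} ≤ ENNReal.ofReal (K * t ^ ((1 / 4) : ℝ))

/-- D7. SBS: small ball estimate, the other directions -/
def SpecSBS : Prop := ∃ K : ℝ, ∀ (m : ℕ) (τ : ℝ), 1 / 2 ≤ τ → τ < 1 → ∀ w : Dir m,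
  1 ≤ w.1 ^ 2 + ‖w.2.1‖ ^ 2 → ∀ t : ℝ, 0 < t → t ≤ 1 →
    nu τ m {a | |jrow a w| ≤ t} ≤ ENNReal.ofReal (K * t ^ ((1 / 8) : ℝ))

/-- D8. LA: linear algebra -/
def SpecLA : Prop := ∀ (m : ℕ) (J : Fin (4 * m + 3) → (Dir m →ₗ[ℝ] ℝ)) (σ : ℝ), 0 ≤ σ →
  (∃ w, w ≠ 0 ∧ ∀ i, |J i w| ≤ σ * ‖w‖) →
    ∃ j, ∀ v, (∀ i, i ≠ j → J i v = 0) → |J j v| ≤ (4 * m + 3) * σ * ‖v‖

/-- D9. FUB: the smallest singular value of the Jacobian -/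
def SpecFub : Prop := ∀ (m : ℕ) (ν : Measure (Fin (m + 2) → ℂ)) [IsProbabilityMeasure ν]
  (σ b : ℝ), 0 ≤ σ → 0 ≤ b →
  (∀ w : Dir m, ‖w‖ = 1 → ν {a | |jrow a w| ≤ (4 * m + 3) * σ} ≤ ENNReal.ofReal b) →
    (Measure.pi fun _ : Fin (4 * m + 3) => ν) {A | ∃ w : Dir m, w ≠ 0 ∧
      ∀ i, |jrow (A i) w| ≤ σ * ‖w‖} ≤ ENNReal.ofReal ((4 * m + 3) * b)

/-- D10. NEWT: exact solutions -/
def SpecNewt : Prop := ∀ (m : ℕ) (A : Fin (4 * m + 3) → Fin (m + 2) → ℂ) (H σ δ : ℝ),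
  1 ≤ H → 0 < σ → σ ≤ 1 → 0 ≤ δ → (∀ i j, ‖A i j‖ ≤ H) →
  (∀ i, |‖A i 0‖ ^ 2 - ‖A i 1‖ ^ 2| ≤ δ) →
  (∀ w : Dir m, w ≠ 0 → ∃ i, σ * ‖w‖ < |jrow (A i) w|) →
  8 * ((m : ℝ) + 2) ^ 2 * H ^ 2 * δ ≤ σ ^ 2 →
    ∃ w : Dir m, ‖w‖ ≤ 1 / (4 * ((m : ℝ) + 2) ^ 2) ∧
      ∀ i, ‖dot (A i) (Xw w)‖ = ‖dot (A i) (Yw w)‖

/-- D11. INK: the solutions found by Newton's method are in `Kset` -/
def SpecInK : Prop := ∀ (m : ℕ) (w : Dir m), ‖w‖ ≤ 1 / (4 * ((m : ℝ) + 2) ^ 2) →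
  (Xw w, Yw w) ∈ Kset (m + 2)

/-- D12. PID: products of densities -/
def SpecPid : Prop := ∀ (N m : ℕ) (τ : ℝ), 0 < τ → τ < 1 →
  ∀ E : Set (Fin N → Fin (m + 2) → ℂ), MeasurableSet E →
    ∫⁻ A in E, ∏ i, kern τ (A i 0) (A i 1) ∂(GM N (m + 2)) =
      (Measure.pi fun _ : Fin N => nu τ m) E

/-- D13. GOOD: the planted matrix has a collision with probability tending to one -/
def SpecGood : Prop := ∃ k : ℕ, 1 ≤ k ∧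
  Tendsto (fun m : ℕ => (Measure.pi fun _ : Fin (4 * m + 3) => nu (tau k m) m)
    (Coll (4 * m + 3) (m + 2))ᶜ) atTop (𝓝 0)

/-! ## E. The result -/

/-- E1. MAIN: collisions occur with probability tending to one -/
def SpecMain : Prop :=
  Tendsto (fun m : ℕ => GM (4 * m + 3) (m + 2) (Coll (4 * m + 3) (m + 2))ᶜ) atTop (𝓝 0)

/-- E2. FINAL: the frozen statement -/
def SpecFinal : Prop :=
  Filter.Tendsto (fun M : ℕ =>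
      (Measure.pi (fun _ : Fin (4 * M - 5) => Measure.pi (fun _ : Fin M =>
        ((gaussianReal 0 1).prod (gaussianReal 0 1)).map
          (fun p : ℝ × ℝ => (p.1 : ℂ) + (p.2 : ℂ) * Complex.I))))
        {A : Fin (4 * M - 5) → Fin M → ℂ | ∀ x y : Fin M → ℂ,
          (∀ i, ‖(Matrix.of A).mulVec x i‖ = ‖(Matrix.of A).mulVec y i‖) →
            ∃ c : ℂ, ‖c‖ = 1 ∧ y = c • x})
      Filter.atTop (nhds 0)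

end MPf1e3
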