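import Mathlib
import Pool.Agent.Lib.MP_f1e3b4_an.G2
import Pool.Agent.Lib.MP_f1e3b4_an.Spec

section
set_option autoImplicit false

open MeasureTheory ProbabilityTheory Matrix
open scoped ENNReal ComplexConjugate

namespace MPf1e3

namespace G3

open G1 G2

lemma conjTranspose_unit {M : ℕ} {U : Matrix (Fin M) (Fin M) ℂ} (hU : U * Uᴴ = 1) :
    Uᴴ * U = 1 := mul_eq_one_comm.mp hU

/-- the linear map contracting the direction `v` by the factor `s` -/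
noncomputable def dil {n : ℕ} (s : ℝ) (v a : Fin n → ℂ) : Fin n → ℂ :=
  fun j => a j + (((s - 1) / nsq v : ℝ) : ℂ) * dot a v * conj (v j)

/-- its transpose -/
noncomputable def tw {n : ℕ} (s : ℝ) (v w : Fin n → ℂ) : Fin n → ℂ :=
  fun j => w j + (((s - 1) / nsq v : ℝ) : ℂ) * herm v w * v j

lemma dot_dil {n : ℕ} (s : ℝ) (v a w : Fin n → ℂ) : dot (dil s v a) w = dot a (tw s v w) := by
  unfold dil tw dot herm
  simp only [add_mul, mul_add, Finset.sum_add_distrib]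
  congr 1
  simp only [Finset.mul_sum, Finset.sum_mul]
  rw [Finset.sum_comm]
  refine Finset.sum_congr rfl fun i _ => Finset.sum_congr rfl fun j _ => ?_
  ring

lemma meas_dot' {n : ℕ} (v : Fin n → ℂ) : Measurable (fun a : Fin n → ℂ => dot a v) := meas_dot v

lemma meas_dil {n : ℕ} (s : ℝ) (v : Fin n → ℂ) : Measurable (fun a => dil s v a) := by
  refine measurable_pi_lambda _ fun j => ?_
  unfold dil
  have := meas_dot' v
  fun_prop

lemma herm_conj {n : ℕ} (u v : Fin n → ℂ) : conj (herm u v) = herm v u := by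
  unfold herm
  rw [map_sum]
  refine Finset.sum_congr rfl fun j _ => ?_
  rw [map_mul, Complex.conj_conj, mul_comm]

lemma herm_add_smul {n : ℕ} (u v w : Fin n → ℂ) (c : ℂ) :
    herm u (fun j => v j + c * w j) = herm u v + c * herm u w := by
  unfold herm
  rw [Finset.mul_sum, ← Finset.sum_add_distrib]
  refine Finset.sum_congr rfl fun j _ => ?_
  ring

lemma herm_tw {n : ℕ} (s : ℝ) (v w z : Fin n → ℂ) (hv : nsq v ≠ 0) :
    herm (tw s v w) (tw s v z) =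
      herm w z - (((1 - s ^ 2) / nsq v : ℝ) : ℂ) * herm w v * herm v z := by
  have e1 : ∀ u : Fin n → ℂ, herm u (tw s v z) = herm u z +
      ((((s - 1) / nsq v : ℝ) : ℂ) * herm v z) * herm u v := fun u => by
    unfold tw
    exact herm_add_smul u z v _
  have e2 : ∀ u : Fin n → ℂ, herm (tw s v w) u = herm w u +
      ((((s - 1) / nsq v : ℝ) : ℂ) * herm w v) * herm v u := fun u => by
    rw [← herm_conj u (tw s v w)]
    have : herm u (tw s v w) = herm u w + ((((s - 1) / nsq v : ℝ) : ℂ) * herm v w) * herm u v := by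
      unfold tw
      exact herm_add_smul u w v _
    rw [this, map_add, map_mul, map_mul, Complex.conj_ofReal, herm_conj, herm_conj, herm_conj]
  rw [e2, e1, e1, ← nsq_eq_herm v]
  have hv' : ((nsq v : ℝ) : ℂ) ≠ 0 := by exact_mod_cast hv
  push_cast
  field_simp
  ring

/-- exponential tilt of the Gaussian law in the direction `v` -/
lemma tilt_dir (n : ℕ) (v : Fin (n + 2) → ℂ) (hv : 0 < nsq v) (s lam : ℝ) (hs : 0 < s)
    (hl : s ^ 2 * (1 + lam * nsq v) = 1) (h : (Fin (n + 2) → ℂ) → ℝ≥0∞) (hh : Measurable h) :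
    ∫⁻ a, h a * ENNReal.ofReal (Real.exp (-(lam / 2) * ‖dot a v‖ ^ 2)) ∂(G (n + 2)) =
      ENNReal.ofReal (s ^ 2) * ∫⁻ a, h (dil s v a) ∂(G (n + 2)) := by
  obtain ⟨U, hU, x, -, -, hx, -, hnx, -, -⟩ := exists_unitary n v v
  have hUH := conjTranspose_unit hU
  have hback : ∀ a : Fin (n + 2) → ℂ, (a ᵥ* U) ᵥ* Uᴴ = a := fun a => by
    rw [vecMul_vecMul, hU, vecMul_one]
  have hmU := meas_vecMul (M := n + 2) Uᴴ
  have e1 : ∀ a : Fin (n + 2) → ℂ, h a * ENNReal.ofReal (Real.exp (-(lam / 2) * ‖dot a v‖ ^ 2)) =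
      (fun b : Fin (n + 2) → ℂ => h (b ᵥ* Uᴴ) *
        ENNReal.ofReal (Real.exp (-((lam * nsq v) / 2) * ‖b 0‖ ^ 2))) (a ᵥ* U) := by
    intro a
    simp only [hback]
    congr 3
    rw [hx a, norm_mul, hnx]
    ring
  simp_rw [e1]
  rw [lintegral_unitary U hU (fun b : Fin (n + 2) → ℂ => h (b ᵥ* Uᴴ) *
        ENNReal.ofReal (Real.exp (-((lam * nsq v) / 2) * ‖b 0‖ ^ 2)))
    ((hh.comp hmU).mul (by fun_prop))]
  rw [tilt_zero (n + 1) s (lam * nsq v) hs hl (fun b => h (b ᵥ* Uᴴ)) (hh.comp hmU)]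
  congr 1
  have hm1 : Measurable (fun a : Fin (n + 2) → ℂ => Function.update a 0 ((s : ℂ) * a 0)) := by
    refine measurable_pi_lambda _ fun i => ?_
    rcases eq_or_ne i 0 with rfl | hi
    · simp only [Function.update_self]; fun_prop
    · simp only [Function.update_of_ne hi]; fun_prop
  rw [← lintegral_unitary U hU (fun b : Fin (n + 2) → ℂ =>
    h ((Function.update b 0 ((s : ℂ) * b 0)) ᵥ* Uᴴ)) ((hh.comp hmU).comp hm1)]
  refine lintegral_congr fun a => ?_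
  congr 1
  have hupd : Function.update (a ᵥ* U) 0 ((s : ℂ) * (a ᵥ* U) 0) =
      a ᵥ* U + Pi.single 0 (((s : ℂ) - 1) * (a ᵥ* U) 0) := by
    funext i
    rcases eq_or_ne i 0 with rfl | hi
    · simp only [Function.update_self, Pi.add_apply, Pi.single_eq_same]; ring
    · simp only [Function.update_of_ne hi, Pi.add_apply, Pi.single_eq_of_ne hi, add_zero]
  rw [hupd, add_vecMul, hback]
  funext j
  simp only [Pi.add_apply, dil]
  congr 1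
  have h2 : v j = x * U j 0 := by
    have := hx (Pi.single j 1)
    unfold dot vecMul dotProduct at this
    simpa [Pi.single_apply] using this
  have h3 : (Pi.single (0 : Fin (n+2)) (((s : ℂ) - 1) * (a ᵥ* U) 0) ᵥ* Uᴴ) j =
      (((s : ℂ) - 1) * (a ᵥ* U) 0) * conj (U j 0) := by
    rw [single_vecMul]
    simp [conjTranspose_apply]
  rw [h3, hx a, h2, map_mul]
  have hx2 : ((nsq v : ℝ) : ℂ) = x * conj x := by
    rw [hnx, Complex.mul_conj']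
    push_cast
    ring
  have hx3 : x * conj x ≠ 0 := by
    rw [← hx2]; exact_mod_cast hv.ne'
  have hx4 : x ≠ 0 := left_ne_zero_of_mul hx3
  have hx5 : conj x ≠ 0 := right_ne_zero_of_mul hx3
  push_cast
  rw [hx2]
  field_simp

/-- Isserlis formula for two linear forms -/
lemma mom2 (n : ℕ) (p q : Fin (n + 2) → ℂ) (al be : ℝ) (ha : 0 ≤ al) (hb : 0 ≤ be) :
    ∫⁻ a, ENNReal.ofReal ((al + be * (‖dot a p‖ ^ 2 / 2)) * (al + be * (‖dot a q‖ ^ 2 / 2)))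
      ∂(G (n + 2)) =
      ENNReal.ofReal ((al + be * nsq p) * (al + be * nsq q) + be ^ 2 * ‖herm p q‖ ^ 2) := by
  obtain ⟨U, hU, x, y, z, hp, hq, hnp, hnq, hh⟩ := exists_unitary n p q
  have e1 : ∀ a : Fin (n + 2) → ℂ, ENNReal.ofReal ((al + be * (‖dot a p‖ ^ 2 / 2)) *
      (al + be * (‖dot a q‖ ^ 2 / 2))) =
      (fun b : Fin (n + 2) → ℂ => ENNReal.ofReal ((al + be * (‖x * b 0‖ ^ 2 / 2)) *
      (al + be * (‖y * b 0 + z * b 1‖ ^ 2 / 2)))) (a ᵥ* U) := by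
    intro a
    simp only [hp, hq]
  simp_rw [e1]
  rw [lintegral_unitary U hU (fun b : Fin (n + 2) → ℂ => ENNReal.ofReal ((al + be * (‖x * b 0‖ ^ 2 / 2)) *
      (al + be * (‖y * b 0 + z * b 1‖ ^ 2 / 2)))) (by fun_prop)]
  rw [row_cons (n + 1) _ (by fun_prop)]
  rw [hnp, hnq, hh, ← cg2_moment al be ha hb x y z]
  refine lintegral_congr fun w => ?_
  rw [row_cons n _ (by
    have : Measurable (fun a : Fin (n + 1) → ℂ => (Fin.cons w a : Fin (n + 2) → ℂ)) :=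
      (meas_cons (n + 1)).comp (by fun_prop : Measurable fun b : Fin (n + 1) → ℂ => (w, b))
    have h2 : Measurable (fun b : Fin (n + 2) → ℂ => ENNReal.ofReal ((al + be * (‖x * b 0‖ ^ 2 / 2)) *
      (al + be * (‖y * b 0 + z * b 1‖ ^ 2 / 2)))) := by fun_prop
    exact h2.comp this)]
  refine lintegral_congr fun w' => ?_
  have e2 : ∀ b : Fin n → ℂ, (Fin.cons w (Fin.cons w' b) : Fin (n + 2) → ℂ) 1 = w' := fun b => by
    rw [show (1 : Fin (n + 2)) = Fin.succ 0 from rfl, Fin.cons_succ, Fin.cons_zero]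
  simp only [Fin.cons_zero, e2]
  rw [lintegral_const, measure_univ, mul_one]

end G3

end MPf1e3
end

section
set_option autoImplicit false

open MeasureTheory ProbabilityTheory Matrix
open scoped ENNReal ComplexConjugate

namespace MPf1e3

namespace Kap

open G1 G2 G3

lemma nsq_tw {n : ℕ} (s : ℝ) (v w : Fin n → ℂ) (hv : nsq v ≠ 0) :
    nsq (tw s v w) = nsq w - (1 - s ^ 2) / nsq v * ‖herm v w‖ ^ 2 := by
  have h := herm_tw s v w w hv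
  rw [← nsq_eq_herm, ← nsq_eq_herm, mul_assoc, ← herm_conj v w, Complex.conj_mul'] at h
  exact_mod_cast h

/-- Cauchy-Schwarz for unit vectors -/
lemma herm_le_one {n : ℕ} (u v : Fin n → ℂ) (hu : nsq u = 1) (hv : nsq v = 1) :
    ‖herm u v‖ ^ 2 ≤ 1 := by
  have h := nsq_tw 0 u v (by rw [hu]; norm_num)
  have h2 := nsq_nonneg (tw 0 u v)
  rw [h, hu, hv] at h2
  norm_num at h2
  nlinarith [norm_nonneg (herm u v)]

/-- the overlap integral of two kernels -/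
lemma pair (n : ℕ) (f e f' e' : Fin (n + 2) → ℂ) (hf : nsq f = 1) (he : nsq e = 1)
    (hfe : herm f e = 0) (hf' : nsq f' = 1) (he' : nsq e' = 1) (hfe' : herm f' e' = 0)
    (τ : ℝ) (h0 : 0 < τ) (h1 : τ < 1) :
    ∫⁻ a, ENNReal.ofReal ((1 - τ)⁻¹ * Real.exp (-(τ / (1 - τ)) * (‖dot a f‖ ^ 2 / 2)) *
        ((1 - τ) + τ * (‖dot a e‖ ^ 2 / 2))) *
      ENNReal.ofReal ((1 - τ)⁻¹ * Real.exp (-(τ / (1 - τ)) * (‖dot a f'‖ ^ 2 / 2)) *
        ((1 - τ) + τ * (‖dot a e'‖ ^ 2 / 2))) ∂(G (n + 2)) =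
    ENNReal.ofReal (((1 - τ ^ 2 * ‖herm f f'‖ ^ 2 - τ ^ 2 * ‖herm e f'‖ ^ 2) *
        (1 - τ ^ 2 * ‖herm f f'‖ ^ 2 - τ ^ 2 * ‖herm f e'‖ ^ 2) +
        ‖(τ : ℂ) * herm e e' * (1 - τ ^ 2 * (‖herm f f'‖ ^ 2 : ℝ)) +
          τ ^ 3 * herm e f' * conj (herm f f') * herm f e'‖ ^ 2) /
        (1 - τ ^ 2 * ‖herm f f'‖ ^ 2) ^ 3) := by
  set lam : ℝ := τ / (1 - τ) with hlam
  have h1' : 0 < 1 - τ := by linarith
  have hlam0 : 0 < lam := by positivity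
  have hg1 : ‖herm f f'‖ ^ 2 ≤ 1 := herm_le_one f f' hf hf'
  set γ : ℝ := ‖herm f f'‖ ^ 2 with hγ
  have hγ0 : 0 ≤ γ := by positivity
  have hD : 0 < 1 - τ ^ 2 * γ := by nlinarith
  -- first tilt
  set s1 : ℝ := Real.sqrt (1 - τ) with hs1
  have hs1p : 0 < s1 := Real.sqrt_pos.mpr h1'
  have hs1sq : s1 ^ 2 = 1 - τ := Real.sq_sqrt h1'.le
  set v : Fin (n + 2) → ℂ := tw s1 f f' with hv
  have hnv : nsq v = 1 - τ * γ := by
    rw [hv, nsq_tw s1 f f' (by rw [hf]; norm_num), hf, hf', hs1sq]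
    ring
  have hnvp : 0 < nsq v := by rw [hnv]; nlinarith
  set ν : ℝ := 1 - τ * γ with hν
  have hlv : 0 < 1 + lam * ν := by rw [hnv] at hnvp; positivity
  set s2 : ℝ := Real.sqrt (1 / (1 + lam * ν)) with hs2
  have hs2p : 0 < s2 := Real.sqrt_pos.mpr (by positivity)
  have hs2sq : s2 ^ 2 = 1 / (1 + lam * ν) := Real.sq_sqrt (by positivity)
  have hm : ∀ w : Fin (n + 2) → ℂ, Measurable (fun a : Fin (n + 2) → ℂ => dot a w) :=
    fun w => meas_dot' w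
  have hme := hm e
  have hmf' := hm f'
  have hme' := hm e'
  -- rewrite the integrand
  have E0 : ∀ a : Fin (n + 2) → ℂ,
      ENNReal.ofReal ((1 - τ)⁻¹ * Real.exp (-lam * (‖dot a f‖ ^ 2 / 2)) *
        ((1 - τ) + τ * (‖dot a e‖ ^ 2 / 2))) *
      ENNReal.ofReal ((1 - τ)⁻¹ * Real.exp (-lam * (‖dot a f'‖ ^ 2 / 2)) *
        ((1 - τ) + τ * (‖dot a e'‖ ^ 2 / 2))) =
      (ENNReal.ofReal ((1 - τ)⁻¹ ^ 2) *
        (ENNReal.ofReal (((1 - τ) + τ * (‖dot a e‖ ^ 2 / 2)) * ((1 - τ) + τ * (‖dot a e'‖ ^ 2 / 2))) *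
          ENNReal.ofReal (Real.exp (-(lam / 2) * ‖dot a f'‖ ^ 2)))) *
        ENNReal.ofReal (Real.exp (-(lam / 2) * ‖dot a f‖ ^ 2)) := by
    intro a
    rw [← ENNReal.ofReal_mul (by positivity), ← ENNReal.ofReal_mul (by positivity),
      ← ENNReal.ofReal_mul (by positivity), ← ENNReal.ofReal_mul (by positivity)]
    congr 1
    rw [show -lam * (‖dot a f‖ ^ 2 / 2) = -(lam / 2) * ‖dot a f‖ ^ 2 by ring,
      show -lam * (‖dot a f'‖ ^ 2 / 2) = -(lam / 2) * ‖dot a f'‖ ^ 2 by ring]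
    ring
  simp_rw [E0]
  rw [tilt_dir n f (by rw [hf]; norm_num) s1 lam hs1p (by
      rw [hs1sq, hf, hlam]; field_simp; ring) (fun a => ENNReal.ofReal ((1 - τ)⁻¹ ^ 2) *
        (ENNReal.ofReal (((1 - τ) + τ * (‖dot a e‖ ^ 2 / 2)) * ((1 - τ) + τ * (‖dot a e'‖ ^ 2 / 2))) *
          ENNReal.ofReal (Real.exp (-(lam / 2) * ‖dot a f'‖ ^ 2)))) (by fun_prop)]
  simp only [dot_dil]
  rw [← hv]
  have hm1 := hm (tw s1 f e)
  have hm2 := hm (tw s1 f e')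
  have hm3 := hm v
  rw [lintegral_const_mul _ (by fun_prop)]
  rw [tilt_dir n v hnvp s2 lam hs2p (by
      rw [hs2sq, hnv]; field_simp) (fun a =>
        ENNReal.ofReal (((1 - τ) + τ * (‖dot a (tw s1 f e)‖ ^ 2 / 2)) *
          ((1 - τ) + τ * (‖dot a (tw s1 f e')‖ ^ 2 / 2)))) (by fun_prop)]
  simp only [dot_dil]
  rw [mom2 n _ _ (1 - τ) τ h1'.le h0.le]
  rw [← ENNReal.ofReal_mul (by positivity), ← ENNReal.ofReal_mul (by positivity),
    ← ENNReal.ofReal_mul (by positivity)]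
  congr 1
  -- real computation
  have hf0 : nsq f ≠ 0 := by rw [hf]; norm_num
  have hv0 : nsq v ≠ 0 := hnvp.ne'
  have hef : herm e f = 0 := by rw [← herm_conj f e, hfe, map_zero]
  have hzeta : (1 - s2 ^ 2) / nsq v = τ / (1 - τ ^ 2 * γ) := by
    rw [hs2sq, hnv]
    have h3 : 1 + lam * ν = (1 - τ ^ 2 * γ) / (1 - τ) := by
      rw [hlam, hν]; field_simp; ring
    have hν0 : ν ≠ 0 := by rw [← hnv]; exact hv0
    rw [h3, hν] at *
    rw [div_eq_div_iff hν0 hD.ne']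
    field_simp
    ring
  have hve : herm v (tw s1 f e) = herm f' e := by
    rw [hv, herm_tw s1 f f' e hf0, hfe]; ring
  have hev : herm (tw s1 f e) v = herm e f' := by
    rw [hv, herm_tw s1 f e f' hf0, hef]; ring
  have hve' : herm v (tw s1 f e') = -(τ * conj (herm f f') * herm f e') := by
    rw [hv, herm_tw s1 f f' e' hf0, hfe', hf, hs1sq, ← herm_conj f f']
    push_cast
    ring
  have hne : nsq (tw s1 f e) = 1 := by
    rw [nsq_tw s1 f e hf0, hfe, he]; simp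
  have hne' : nsq (tw s1 f e') = 1 - τ * ‖herm f e'‖ ^ 2 := by
    rw [nsq_tw s1 f e' hf0, hf, he', hs1sq]; ring
  have A1 : nsq (tw s2 v (tw s1 f e)) = 1 - τ / (1 - τ ^ 2 * γ) * ‖herm e f'‖ ^ 2 := by
    rw [nsq_tw s2 v _ hv0, hne, hve, hzeta, ← herm_conj e f', RCLike.norm_conj]
  have A2 : nsq (tw s2 v (tw s1 f e')) = 1 - τ * ‖herm f e'‖ ^ 2 -
      τ / (1 - τ ^ 2 * γ) * (τ ^ 2 * γ * ‖herm f e'‖ ^ 2) := by
    rw [nsq_tw s2 v _ hv0, hne', hve', hzeta]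
    congr 2
    rw [norm_neg, norm_mul, norm_mul, RCLike.norm_conj, Complex.norm_real, Real.norm_eq_abs,
      abs_of_pos h0, hγ]
    ring
  have A3 : herm (tw s2 v (tw s1 f e)) (tw s2 v (tw s1 f e')) =
      herm e e' + ((τ / (1 - τ ^ 2 * γ) : ℝ) : ℂ) * (herm e f' * (τ * conj (herm f f') * herm f e')) := by
    rw [herm_tw s2 v _ _ hv0, hzeta, hev, hve', herm_tw s1 f e e' hf0, hef]
    ring
  rw [A1, A2, A3, hs1sq, hs2sq]
  have h3 : 1 + lam * ν = (1 - τ ^ 2 * γ) / (1 - τ) := by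
    rw [hlam, hν]; field_simp; ring
  rw [h3]
  have A4 : ((τ : ℂ) * herm e e' * (1 - τ ^ 2 * (γ : ℝ)) +
          τ ^ 3 * herm e f' * conj (herm f f') * herm f e') =
      (τ * ((1 - τ ^ 2 * γ : ℝ) : ℂ)) * (herm e e' +
        ((τ / (1 - τ ^ 2 * γ) : ℝ) : ℂ) * (herm e f' * (τ * conj (herm f f') * herm f e'))) := by
    have hDc : ((1 - τ ^ 2 * γ : ℝ) : ℂ) ≠ 0 := by exact_mod_cast hD.ne'
    rw [Complex.ofReal_div]
    field_simp
    push_cast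
    ring
  rw [A4, norm_mul, norm_mul, Complex.norm_real, Complex.norm_real, Real.norm_eq_abs,
    Real.norm_eq_abs, abs_of_pos h0, abs_of_pos hD]
  generalize ‖herm e e' + ((τ / (1 - τ ^ 2 * γ) : ℝ) : ℂ) *
    (herm e f' * (τ * conj (herm f f') * herm f e'))‖ = X
  have hD' := hD.ne'
  field_simp
  ring

/-! ### the frame vectors -/

lemma norm_ee (φ : ℝ) : ‖ee φ‖ = 1 := Complex.norm_exp_ofReal_mul_I φ

lemma ee_conj (φ : ℝ) : ee φ * conj (ee φ) = 1 := by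
  rw [Complex.mul_conj', norm_ee]; norm_num

/-- `(u + σ e^{iφ} v)/√2` -/
noncomputable def fr {n : ℕ} (σ : ℝ) (u v : Fin n → ℂ) (φ : ℝ) : Fin n → ℂ :=
  fun j => (u j + σ * ee φ * v j) / (Real.sqrt 2 : ℂ)

lemma sqrt2_sq : ((Real.sqrt 2 : ℝ) : ℂ) * ((Real.sqrt 2 : ℝ) : ℂ) = 2 := by
  rw [← Complex.ofReal_mul, Real.mul_self_sqrt (by norm_num)]; norm_num

lemma sqrt2_ne : ((Real.sqrt 2 : ℝ) : ℂ) ≠ 0 := by
  have : Real.sqrt 2 ≠ 0 := by positivity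
  exact_mod_cast this

lemma herm_fr {n : ℕ} (σ ρ : ℝ) (u v u' v' : Fin n → ℂ) (φ ψ : ℝ) :
    herm (fr σ u v φ) (fr ρ u' v' ψ) =
      (herm u u' + ρ * ee ψ * herm u v' + σ * conj (ee φ) * herm v u' +
        σ * ρ * (conj (ee φ) * ee ψ) * herm v v') / 2 := by
  unfold herm fr
  rw [Finset.mul_sum, Finset.mul_sum, Finset.mul_sum, ← Finset.sum_add_distrib,
    ← Finset.sum_add_distrib, ← Finset.sum_add_distrib, Finset.sum_div]
  refine Finset.sum_congr rfl fun j _ => ?_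
  rw [map_div₀, map_add, map_mul, map_mul, Complex.conj_ofReal, Complex.conj_ofReal]
  rw [div_mul_div_comm, sqrt2_sq]
  ring

lemma nsq_fr {n : ℕ} (σ : ℝ) (hσ : σ * σ = 1) (u v : Fin n → ℂ) (h : ON u v) (φ : ℝ) :
    nsq (fr σ u v φ) = 1 := by
  have h2 : ((nsq (fr σ u v φ) : ℝ) : ℂ) = ((1 : ℝ) : ℂ) := by
    rw [nsq_eq_herm, herm_fr, ← nsq_eq_herm, ← nsq_eq_herm, h.uu, h.vv, h.uv,
      ← herm_conj u v, h.uv, map_zero, mul_comm (conj (ee φ)), ee_conj]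
    have : (σ : ℂ) * σ = 1 := by exact_mod_cast hσ
    rw [this]
    push_cast
    ring
  exact_mod_cast h2

lemma herm_fr_neg {n : ℕ} (u v : Fin n → ℂ) (h : ON u v) (φ : ℝ) :
    herm (fr (-1) u v φ) (fr 1 u v φ) = 0 := by
  rw [herm_fr, ← nsq_eq_herm, ← nsq_eq_herm, h.uu, h.vv, h.uv,
      ← herm_conj u v, h.uv, map_zero, mul_comm (conj (ee φ)), ee_conj]
  push_cast
  ring

lemma dot_fr {n : ℕ} (σ : ℝ) (a u v : Fin n → ℂ) (φ : ℝ) :
    dot a (fr σ u v φ) = (dot a u + σ * ee φ * dot a v) / (Real.sqrt 2 : ℂ) := by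
  unfold dot fr
  rw [Finset.mul_sum, ← Finset.sum_add_distrib, Finset.sum_div]
  refine Finset.sum_congr rfl fun j _ => ?_
  ring

lemma norm_div_sqrt2 (z : ℂ) : ‖z / (Real.sqrt 2 : ℂ)‖ ^ 2 = ‖z‖ ^ 2 / 2 := by
  rw [norm_div, Complex.norm_real, Real.norm_eq_abs, abs_of_pos (by positivity), div_pow,
    Real.sq_sqrt (by norm_num)]

lemma kphi_eq {n : ℕ} (τ φ : ℝ) (a u v : Fin n → ℂ) :
    kphi τ φ (dot a u) (dot a v) =
      (1 - τ)⁻¹ * Real.exp (-(τ / (1 - τ)) * (‖dot a (fr (-1) u v φ)‖ ^ 2 / 2)) *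
        ((1 - τ) + τ * (‖dot a (fr 1 u v φ)‖ ^ 2 / 2)) := by
  unfold kphi
  rw [dot_fr, dot_fr, norm_div_sqrt2, norm_div_sqrt2]
  have e1 : dot a u + ((-1 : ℝ) : ℂ) * ee φ * dot a v = dot a u - ee φ * dot a v := by
    push_cast; ring
  have e2 : dot a u + ((1 : ℝ) : ℂ) * ee φ * dot a v = dot a u + ee φ * dot a v := by
    push_cast; ring
  rw [e1, e2, div_div, div_div]
  norm_num

lemma dot_single {n : ℕ} (a : Fin n → ℂ) (i : Fin n) : dot a (Pi.single i 1) = a i := by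
  unfold dot
  simp [Pi.single_apply]

lemma herm_single {n : ℕ} (u : Fin n → ℂ) (i : Fin n) : herm (Pi.single i 1) u = u i := by
  unfold herm
  rw [Finset.sum_eq_single i]
  · simp
  · intro j _ hj
    rw [Pi.single_eq_of_ne hj]; simp
  · intro h; exact absurd (Finset.mem_univ _) h

lemma on_std (m : ℕ) : ON (Pi.single 0 1 : Fin (m + 2) → ℂ) (Pi.single 1 1) := by
  have h01 : (0 : Fin (m + 2)) ≠ 1 := by
    intro h; have := congrArg Fin.val h; simp at this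
  refine ⟨?_, ?_, ?_⟩
  · have : ((nsq (Pi.single 0 1 : Fin (m + 2) → ℂ) : ℝ) : ℂ) = ((1 : ℝ) : ℂ) := by
      rw [nsq_eq_herm, herm_single, Pi.single_eq_same]; simp
    exact_mod_cast this
  · have : ((nsq (Pi.single 1 1 : Fin (m + 2) → ℂ) : ℝ) : ℂ) = ((1 : ℝ) : ℂ) := by
      rw [nsq_eq_herm, herm_single, Pi.single_eq_same]; simp
    exact_mod_cast this
  · rw [herm_single, Pi.single_eq_of_ne h01]

/-! ### the algebraic identity -/

section alg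
variable (C : OM) (φ ψ : ℝ)

/-- entries of `R_φ^* C R_ψ` -/
noncomputable def ent (σ ρ : ℝ) : ℂ :=
  (C.a + ρ * ee ψ * C.b + σ * conj (ee φ) * C.c + σ * ρ * (conj (ee φ) * ee ψ) * C.d) / 2

lemma gg_ent : C.gg φ ψ = ‖ent C φ ψ (-1) (-1)‖ ^ 2 := by
  unfold OM.gg ent
  rw [norm_div, div_pow, Complex.norm_ofNat]
  norm_num
  congr 2
  ring

lemma normSq_add_sub (p q : ℂ) : ‖p + q‖ ^ 2 + ‖p - q‖ ^ 2 = 2 * (‖p‖ ^ 2 + ‖q‖ ^ 2) := by
  have := parallelogram_law_with_norm ℝ p q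
  nlinarith

lemma yy_ent : C.yy ψ = ‖ent C φ ψ (-1) (-1)‖ ^ 2 + ‖ent C φ ψ 1 (-1)‖ ^ 2 := by
  unfold OM.yy ent
  set P := C.a - ee ψ * C.b with hP
  set Q := conj (ee φ) * (C.c - ee ψ * C.d) with hQ
  have hQn : ‖Q‖ = ‖C.c - ee ψ * C.d‖ := by
    rw [hQ, norm_mul, RCLike.norm_conj, norm_ee, one_mul]
  have e1 : (C.a + ((-1 : ℝ) : ℂ) * ee ψ * C.b + ((-1 : ℝ) : ℂ) * conj (ee φ) * C.c +
      ((-1 : ℝ) : ℂ) * ((-1 : ℝ) : ℂ) * (conj (ee φ) * ee ψ) * C.d) = P - Q := by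
    rw [hP, hQ]; push_cast; ring
  have e2 : (C.a + ((-1 : ℝ) : ℂ) * ee ψ * C.b + ((1 : ℝ) : ℂ) * conj (ee φ) * C.c +
      ((1 : ℝ) : ℂ) * ((-1 : ℝ) : ℂ) * (conj (ee φ) * ee ψ) * C.d) = P + Q := by
    rw [hP, hQ]; push_cast; ring
  rw [e1, e2, norm_div, norm_div, div_pow, div_pow, Complex.norm_ofNat, ← hQn]
  have := normSq_add_sub P Q
  linarith

lemma xx_ent : C.xx φ = ‖ent C φ ψ (-1) (-1)‖ ^ 2 + ‖ent C φ ψ (-1) 1‖ ^ 2 := by
  unfold OM.xx OM.yy OM.adj ent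
  simp only
  set P := C.a - conj (ee φ) * C.c with hP
  set Q := ee ψ * (C.b - conj (ee φ) * C.d) with hQ
  have h1 : ‖conj C.a - ee φ * conj C.c‖ = ‖P‖ := by
    rw [← RCLike.norm_conj P, hP, map_sub, map_mul, Complex.conj_conj]
  have h2 : ‖conj C.b - ee φ * conj C.d‖ = ‖Q‖ := by
    rw [hQ, norm_mul, norm_ee, one_mul, ← RCLike.norm_conj (C.b - conj (ee φ) * C.d), map_sub,
      map_mul, Complex.conj_conj]
  rw [h1, h2]
  have e1 : (C.a + ((-1 : ℝ) : ℂ) * ee ψ * C.b + ((-1 : ℝ) : ℂ) * conj (ee φ) * C.c +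
      ((-1 : ℝ) : ℂ) * ((-1 : ℝ) : ℂ) * (conj (ee φ) * ee ψ) * C.d) = P - Q := by
    rw [hP, hQ]; push_cast; ring
  have e2 : (C.a + ((1 : ℝ) : ℂ) * ee ψ * C.b + ((-1 : ℝ) : ℂ) * conj (ee φ) * C.c +
      ((-1 : ℝ) : ℂ) * ((1 : ℝ) : ℂ) * (conj (ee φ) * ee ψ) * C.d) = P + Q := by
    rw [hP, hQ]; push_cast; ring
  rw [e1, e2, norm_div, norm_div, div_pow, div_pow, Complex.norm_ofNat]
  have := normSq_add_sub P Q
  linarith

lemma fr_ent : C.fr = ‖ent C φ ψ (-1) (-1)‖ ^ 2 + ‖ent C φ ψ 1 (-1)‖ ^ 2 +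
    ‖ent C φ ψ (-1) 1‖ ^ 2 + ‖ent C φ ψ 1 1‖ ^ 2 := by
  have e1 := yy_ent C φ ψ
  have e2 : (‖C.a + ee ψ * C.b‖ ^ 2 + ‖C.c + ee ψ * C.d‖ ^ 2) / 2 =
      ‖ent C φ ψ (-1) 1‖ ^ 2 + ‖ent C φ ψ 1 1‖ ^ 2 := by
    unfold ent
    set P := C.a + ee ψ * C.b with hP
    set Q := conj (ee φ) * (C.c + ee ψ * C.d) with hQ
    have hQn : ‖Q‖ = ‖C.c + ee ψ * C.d‖ := by
      rw [hQ, norm_mul, RCLike.norm_conj, norm_ee, one_mul]
    have e1 : (C.a + ((1 : ℝ) : ℂ) * ee ψ * C.b + ((-1 : ℝ) : ℂ) * conj (ee φ) * C.c +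
        ((-1 : ℝ) : ℂ) * ((1 : ℝ) : ℂ) * (conj (ee φ) * ee ψ) * C.d) = P - Q := by
      rw [hP, hQ]; push_cast; ring
    have e2 : (C.a + ((1 : ℝ) : ℂ) * ee ψ * C.b + ((1 : ℝ) : ℂ) * conj (ee φ) * C.c +
        ((1 : ℝ) : ℂ) * ((1 : ℝ) : ℂ) * (conj (ee φ) * ee ψ) * C.d) = P + Q := by
      rw [hP, hQ]; push_cast; ring
    rw [e1, e2, norm_div, norm_div, div_pow, div_pow, Complex.norm_ofNat, ← hQn]
    have := normSq_add_sub P Q
    linarith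
  have e3 := normSq_add_sub C.a (ee ψ * C.b)
  have e4 := normSq_add_sub C.c (ee ψ * C.d)
  rw [norm_mul, norm_ee, one_mul] at e3 e4
  unfold OM.yy at e1
  unfold OM.fr
  linarith

lemma det_ent : ‖C.a * C.d - C.b * C.c‖ ^ 2 =
    ‖ent C φ ψ (-1) (-1) * ent C φ ψ 1 1 - ent C φ ψ (-1) 1 * ent C φ ψ 1 (-1)‖ ^ 2 := by
  have : ent C φ ψ (-1) (-1) * ent C φ ψ 1 1 - ent C φ ψ (-1) 1 * ent C φ ψ 1 (-1) =
      (conj (ee φ) * ee ψ) * (C.a * C.d - C.b * C.c) := by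
    unfold ent; push_cast; ring
  rw [this, norm_mul, norm_mul, RCLike.norm_conj, norm_ee, norm_ee]
  ring

/-- the identity between the two forms of the integrand, for the entries `g b / c d` -/
lemma alg_id (g b c d : ℂ) :
    (1 - ‖g‖ ^ 2 - ‖c‖ ^ 2) * (1 - ‖g‖ ^ 2 - ‖b‖ ^ 2) +
      ‖d * (1 - (‖g‖ ^ 2 : ℝ)) + c * conj g * b‖ ^ 2 =
    2 * (1 - ‖g‖ ^ 2 - ‖b‖ ^ 2) * (1 - ‖g‖ ^ 2 - ‖c‖ ^ 2) -
      (1 - (‖g‖ ^ 2 + ‖c‖ ^ 2 + ‖b‖ ^ 2 + ‖d‖ ^ 2) + ‖g * d - b * c‖ ^ 2) * (1 - ‖g‖ ^ 2) := by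
  obtain ⟨g1, g2⟩ := g
  obtain ⟨b1, b2⟩ := b
  obtain ⟨c1, c2⟩ := c
  obtain ⟨d1, d2⟩ := d
  simp only [← Complex.normSq_eq_norm_sq, Complex.normSq_apply, Complex.add_re, Complex.add_im,
    Complex.mul_re, Complex.mul_im, Complex.sub_re, Complex.sub_im, Complex.conj_re,
    Complex.conj_im, Complex.ofReal_re, Complex.ofReal_im, Complex.one_re, Complex.one_im]
  ring

lemma Ph_ent (hg : C.gg φ ψ < 1) :
    C.Ph φ ψ =
      ((1 - ‖ent C φ ψ (-1) (-1)‖ ^ 2 - ‖ent C φ ψ 1 (-1)‖ ^ 2) *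
        (1 - ‖ent C φ ψ (-1) (-1)‖ ^ 2 - ‖ent C φ ψ (-1) 1‖ ^ 2) +
        ‖ent C φ ψ 1 1 * (1 - (‖ent C φ ψ (-1) (-1)‖ ^ 2 : ℝ)) +
          ent C φ ψ 1 (-1) * conj (ent C φ ψ (-1) (-1)) * ent C φ ψ (-1) 1‖ ^ 2) /
        (1 - ‖ent C φ ψ (-1) (-1)‖ ^ 2) ^ 3 := by
  rw [alg_id]
  unfold OM.Ph OM.dl
  rw [xx_ent C φ ψ, yy_ent C φ ψ, gg_ent, fr_ent C φ ψ, det_ent C φ ψ]
  rw [gg_ent] at hg
  have h1 : 1 - ‖ent C φ ψ (-1) (-1)‖ ^ 2 ≠ 0 := by linarith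
  field_simp
  ring

end alg

/-! ### the integrals over the circle -/

instance instCav : IsProbabilityMeasure cav := by
  constructor
  unfold cav
  rw [Measure.smul_apply, Measure.restrict_apply MeasurableSet.univ, Set.univ_inter, Real.volume_Ioc,
    smul_eq_mul, sub_zero]
  exact ENNReal.inv_mul_cancel (by
    rw [Ne, ENNReal.ofReal_eq_zero, not_le]; positivity) ENNReal.ofReal_ne_top

lemma bessel {n : ℕ} (f e w : Fin n → ℂ) (hf : nsq f = 1) (he : nsq e = 1) (hfe : herm f e = 0) :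
    ‖herm f w‖ ^ 2 + ‖herm e w‖ ^ 2 ≤ nsq w := by
  have hf0 : nsq f ≠ 0 := by rw [hf]; norm_num
  have he0 : nsq e ≠ 0 := by rw [he]; norm_num
  have hef : herm e f = 0 := by rw [← herm_conj f e, hfe, map_zero]
  have h1 := nsq_tw 0 f w hf0
  have h2 := nsq_tw 0 e (tw 0 f w) he0
  have h3 : herm e (tw 0 f w) = herm e w := by
    have : herm e (tw 0 f w) = herm e w + ((((0 - 1) / nsq f : ℝ) : ℂ) * herm f w) * herm e f := by
      unfold tw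
      exact herm_add_smul e w f _
    rw [this, hef]; ring
  rw [h3, h1, hf, he] at h2
  have h4 := nsq_nonneg (tw 0 e (tw 0 f w))
  rw [h2] at h4
  norm_num at h4
  linarith

variable {m : ℕ}

lemma ent_ov (u v : Fin (m + 2) → ℂ) (φ ψ σ ρ : ℝ) :
    herm (fr σ (Pi.single 0 1) (Pi.single 1 1) φ) (fr ρ u v ψ) = ent (ov u v) φ ψ σ ρ := by
  rw [herm_fr, herm_single, herm_single, herm_single, herm_single]
  rfl

lemma ent_smul (C : OM) (τ φ ψ σ ρ : ℝ) : ent (C.smul τ) φ ψ σ ρ = τ * ent C φ ψ σ ρ := by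
  unfold ent OM.smul
  simp only
  ring

lemma norm_ent_smul (C : OM) (τ : ℝ) (h0 : 0 < τ) (φ ψ σ ρ : ℝ) :
    ‖ent (C.smul τ) φ ψ σ ρ‖ ^ 2 = τ ^ 2 * ‖ent C φ ψ σ ρ‖ ^ 2 := by
  rw [ent_smul, norm_mul, Complex.norm_real, Real.norm_eq_abs, abs_of_pos h0, mul_pow]

/-- bounds for the entries -/
lemma ent_bounds (u v : Fin (m + 2) → ℂ) (h : ON u v) (φ ψ : ℝ) :
    ‖ent (ov u v) φ ψ (-1) (-1)‖ ^ 2 + ‖ent (ov u v) φ ψ 1 (-1)‖ ^ 2 ≤ 1 ∧
    ‖ent (ov u v) φ ψ (-1) (-1)‖ ^ 2 + ‖ent (ov u v) φ ψ (-1) 1‖ ^ 2 ≤ 1 := by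
  have hs := on_std m
  have hm1 : ((-1 : ℝ)) * (-1) = 1 := by norm_num
  have h11 : ((1 : ℝ)) * 1 = 1 := by norm_num
  constructor
  · have := bessel (fr (-1) (Pi.single 0 1 : Fin (m + 2) → ℂ) (Pi.single 1 1) φ)
      (fr 1 (Pi.single 0 1) (Pi.single 1 1) φ) (fr (-1) u v ψ)
      (nsq_fr _ hm1 _ _ hs φ) (nsq_fr _ h11 _ _ hs φ) (herm_fr_neg _ _ hs φ)
    rwa [ent_ov, ent_ov, nsq_fr _ hm1 _ _ h ψ] at this
  · have := bessel (fr (-1) u v ψ) (fr 1 u v ψ)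
      (fr (-1) (Pi.single 0 1 : Fin (m + 2) → ℂ) (Pi.single 1 1) φ)
      (nsq_fr _ hm1 _ _ h ψ) (nsq_fr _ h11 _ _ h ψ) (herm_fr_neg _ _ h ψ)
    rw [← herm_conj, ← herm_conj (fr (-1) (Pi.single 0 1 : Fin (m + 2) → ℂ) (Pi.single 1 1) φ)
      (fr 1 u v ψ), RCLike.norm_conj, RCLike.norm_conj] at this
    rwa [ent_ov, ent_ov, nsq_fr _ hm1 _ _ hs φ] at this

/-- the overlap integral for two phases -/
lemma pair_Ph (u v : Fin (m + 2) → ℂ) (h : ON u v) (τ : ℝ) (h0 : 0 < τ) (h1 : τ < 1) (φ ψ : ℝ) :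
    ∫⁻ a, ENNReal.ofReal (kphi τ φ (a 0) (a 1)) * ENNReal.ofReal (kphi τ ψ (dot a u) (dot a v))
      ∂(G (m + 2)) = ENNReal.ofReal (((ov u v).smul τ).Ph φ ψ) := by
  have hs := on_std m
  have hm1 : ((-1 : ℝ)) * (-1) = 1 := by norm_num
  have h11 : ((1 : ℝ)) * 1 = 1 := by norm_num
  have hb := ent_bounds u v h φ ψ
  have e0 : ∀ a : Fin (m + 2) → ℂ, kphi τ φ (a 0) (a 1) =
      kphi τ φ (dot a (Pi.single 0 1)) (dot a (Pi.single 1 1)) := fun a => by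
    rw [dot_single, dot_single]
  simp_rw [e0, kphi_eq]
  rw [pair m _ _ _ _ (nsq_fr _ hm1 _ _ hs φ) (nsq_fr _ h11 _ _ hs φ) (herm_fr_neg _ _ hs φ)
    (nsq_fr _ hm1 _ _ h ψ) (nsq_fr _ h11 _ _ h ψ) (herm_fr_neg _ _ h ψ) τ h0 h1]
  rw [ent_ov, ent_ov, ent_ov, ent_ov]
  have hg : ((ov u v).smul τ).gg φ ψ < 1 := by
    rw [gg_ent, norm_ent_smul _ _ h0]
    have h2 : ‖ent (ov u v) φ ψ (-1) (-1)‖ ^ 2 ≤ 1 := by
      have := sq_nonneg ‖ent (ov u v) φ ψ 1 (-1)‖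
      linarith [hb.1]
    nlinarith [sq_nonneg ‖ent (ov u v) φ ψ (-1) (-1)‖]
  rw [Ph_ent _ _ _ hg]
  simp only [norm_ent_smul _ _ h0]
  congr 2
  congr 3
  rw [ent_smul, ent_smul, ent_smul, ent_smul, map_mul, Complex.conj_ofReal]
  push_cast
  ring

/-- positivity and boundedness of the integrand -/
lemma Ph_bounds (u v : Fin (m + 2) → ℂ) (h : ON u v) (τ : ℝ) (h0 : 0 < τ) (h1 : τ < 1) :
    ∃ B : ℝ, ∀ φ ψ : ℝ, 0 ≤ ((ov u v).smul τ).Ph φ ψ ∧ ((ov u v).smul τ).Ph φ ψ ≤ B := by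
  refine ⟨(2 * 1 + |((ov u v).smul τ).dl|) / (1 - τ ^ 2) ^ 3, fun φ ψ => ?_⟩
  have hb := ent_bounds u v h φ ψ
  have hτ : 0 < 1 - τ ^ 2 := by nlinarith
  have hg2 : ‖ent (ov u v) φ ψ (-1) (-1)‖ ^ 2 ≤ 1 := by
    have := sq_nonneg ‖ent (ov u v) φ ψ 1 (-1)‖
    linarith [hb.1]
  have hgle : ((ov u v).smul τ).gg φ ψ ≤ τ ^ 2 := by
    rw [gg_ent, norm_ent_smul _ _ h0]
    nlinarith [sq_nonneg τ]
  have hg : ((ov u v).smul τ).gg φ ψ < 1 := by linarith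
  have hg0 : 0 ≤ ((ov u v).smul τ).gg φ ψ := by rw [gg_ent]; positivity
  have hx : 0 ≤ 1 - ((ov u v).smul τ).xx φ ∧ 1 - ((ov u v).smul τ).xx φ ≤ 1 := by
    rw [xx_ent _ φ ψ, norm_ent_smul _ _ h0, norm_ent_smul _ _ h0]
    have h3 := hb.2
    have h4 : 0 ≤ ‖ent (ov u v) φ ψ (-1) (-1)‖ ^ 2 + ‖ent (ov u v) φ ψ (-1) 1‖ ^ 2 := by positivity
    constructor <;> nlinarith [sq_nonneg τ]
  have hy : 0 ≤ 1 - ((ov u v).smul τ).yy ψ ∧ 1 - ((ov u v).smul τ).yy ψ ≤ 1 := by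
    rw [yy_ent _ φ ψ, norm_ent_smul _ _ h0, norm_ent_smul _ _ h0]
    have h3 := hb.1
    have h4 : 0 ≤ ‖ent (ov u v) φ ψ (-1) (-1)‖ ^ 2 + ‖ent (ov u v) φ ψ 1 (-1)‖ ^ 2 := by positivity
    constructor <;> nlinarith [sq_nonneg τ]
  constructor
  · rw [Ph_ent _ _ _ hg]
    have hx' := hx.1
    have hy' := hy.1
    rw [xx_ent _ φ ψ] at hx'
    rw [yy_ent _ φ ψ] at hy'
    have h5 : 0 < 1 - ‖ent ((ov u v).smul τ) φ ψ (-1) (-1)‖ ^ 2 := by
      rw [← gg_ent]; linarith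
    have h6 : 0 ≤ 1 - ‖ent ((ov u v).smul τ) φ ψ (-1) (-1)‖ ^ 2 -
        ‖ent ((ov u v).smul τ) φ ψ 1 (-1)‖ ^ 2 := by linarith
    have h7 : 0 ≤ 1 - ‖ent ((ov u v).smul τ) φ ψ (-1) (-1)‖ ^ 2 -
        ‖ent ((ov u v).smul τ) φ ψ (-1) 1‖ ^ 2 := by linarith
    positivity
  · unfold OM.Ph
    set w := 1 - ((ov u v).smul τ).gg φ ψ with hw
    have hw1 : 1 - τ ^ 2 ≤ w := by rw [hw]; linarith
    have hw0 : 0 < w := by linarith
    have hw2 : w ≤ 1 := by rw [hw]; linarith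
    have hAB : (1 - ((ov u v).smul τ).xx φ) * (1 - ((ov u v).smul τ).yy ψ) ≤ 1 := by
      nlinarith [hx.1, hx.2, hy.1, hy.2]
    have hAB0 : 0 ≤ (1 - ((ov u v).smul τ).xx φ) * (1 - ((ov u v).smul τ).yy ψ) :=
      mul_nonneg hx.1 hy.1
    have e1 : 2 * (1 - ((ov u v).smul τ).xx φ) * (1 - ((ov u v).smul τ).yy ψ) / w ^ 3 -
        ((ov u v).smul τ).dl / w ^ 2 =
        (2 * ((1 - ((ov u v).smul τ).xx φ) * (1 - ((ov u v).smul τ).yy ψ)) -
          ((ov u v).smul τ).dl * w) / w ^ 3 := by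
      field_simp
    rw [e1]
    have hnum : 2 * ((1 - ((ov u v).smul τ).xx φ) * (1 - ((ov u v).smul τ).yy ψ)) -
          ((ov u v).smul τ).dl * w ≤ 2 * 1 + |((ov u v).smul τ).dl| := by
      have h8 : -(((ov u v).smul τ).dl * w) ≤ |((ov u v).smul τ).dl| := by
        have h9 : |((ov u v).smul τ).dl * w| ≤ |((ov u v).smul τ).dl| := by
          rw [abs_mul, abs_of_pos hw0]
          exact mul_le_of_le_one_right (abs_nonneg _) hw2
        linarith [neg_le_abs (((ov u v).smul τ).dl * w)]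
      linarith
    have hpos : 0 ≤ 2 * 1 + |((ov u v).smul τ).dl| := by positivity
    calc (2 * ((1 - ((ov u v).smul τ).xx φ) * (1 - ((ov u v).smul τ).yy ψ)) -
          ((ov u v).smul τ).dl * w) / w ^ 3 ≤ (2 * 1 + |((ov u v).smul τ).dl|) / w ^ 3 := by
          exact div_le_div_of_nonneg_right hnum (by positivity)
      _ ≤ (2 * 1 + |((ov u v).smul τ).dl|) / (1 - τ ^ 2) ^ 3 := by
          apply div_le_div_of_nonneg_left hpos (by positivity)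
          exact pow_le_pow_left₀ hτ.le hw1 3

lemma meas_ee : Measurable ee := by unfold ee; fun_prop

lemma meas_Ph (C : OM) : Measurable (fun p : ℝ × ℝ => C.Ph p.2 p.1) := by
  have := meas_ee
  unfold OM.Ph OM.xx OM.yy OM.gg OM.adj
  fun_prop

lemma meas_kphi (τ : ℝ) : Measurable (fun p : ℝ × (ℂ × ℂ) => kphi τ p.1 p.2.1 p.2.2) := by
  have := meas_ee
  unfold kphi
  fun_prop

lemma kap_lintegral (u v : Fin (m + 2) → ℂ) (h : ON u v) (τ : ℝ) (h0 : 0 < τ) (h1 : τ < 1) :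
    ENNReal.ofReal ((ov u v).smul τ).kap =
      ∫⁻ ψ, ∫⁻ φ, ENNReal.ofReal (((ov u v).smul τ).Ph φ ψ) ∂cav ∂cav := by
  obtain ⟨B, hB⟩ := Ph_bounds u v h τ h0 h1
  set C := (ov u v).smul τ with hC
  have hint : Integrable (fun p : ℝ × ℝ => C.Ph p.2 p.1) (cav.prod cav) := by
    refine Integrable.mono' (integrable_const B) (meas_Ph C).aestronglyMeasurable
      (Filter.Eventually.of_forall fun p => ?_)
    rw [Real.norm_eq_abs, abs_of_nonneg (hB _ _).1]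
    exact (hB _ _).2
  unfold OM.kap
  rw [ofReal_integral_eq_lintegral_ofReal hint.integral_prod_left
    (Filter.Eventually.of_forall fun ψ => integral_nonneg fun φ => (hB φ ψ).1)]
  refine lintegral_congr fun ψ => ?_
  refine ofReal_integral_eq_lintegral_ofReal ?_ (Filter.Eventually.of_forall fun φ => (hB φ ψ).1)
  refine Integrable.mono' (integrable_const B)
    ((meas_Ph C).comp (by fun_prop : Measurable fun φ : ℝ => (ψ, φ))).aestronglyMeasurable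
      (Filter.Eventually.of_forall fun φ => ?_)
  rw [Real.norm_eq_abs, abs_of_nonneg (hB φ ψ).1]
  exact (hB φ ψ).2

lemma meas_F (m : ℕ) (τ : ℝ) : Measurable (fun p : (Fin (m + 2) → ℂ) × ℝ =>
      ENNReal.ofReal (kphi τ p.2 (p.1 0) (p.1 1))) := by
  have h2 := (meas_kphi τ)
  have h1 : Measurable fun p : (Fin (m + 2) → ℂ) × ℝ => (p.2, (p.1 0, p.1 1)) := by fun_prop
  have h3 := h2.comp h1
  exact h3.ennreal_ofReal

lemma meas_H (u v : Fin (m + 2) → ℂ) (τ : ℝ) : Measurable (fun p : (Fin (m + 2) → ℂ) × ℝ =>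
      ENNReal.ofReal (kphi τ p.2 (dot p.1 u) (dot p.1 v))) := by
  have hdu := meas_dot' u
  have hdv := meas_dot' v
  have h2 := (meas_kphi τ)
  have h1 : Measurable fun p : (Fin (m + 2) → ℂ) × ℝ => (p.2, (dot p.1 u, dot p.1 v)) := by fun_prop
  have h3 := h2.comp h1
  exact h3.ennreal_ofReal

lemma kern_mul (u v : Fin (m + 2) → ℂ) (τ : ℝ) (a : Fin (m + 2) → ℂ) :
    kern τ (a 0) (a 1) * kern τ (dot a u) (dot a v) =
      ∫⁻ ψ, ∫⁻ φ, ENNReal.ofReal (kphi τ φ (a 0) (a 1)) *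
        ENNReal.ofReal (kphi τ ψ (dot a u) (dot a v)) ∂cav ∂cav := by
  have h0 : Measurable (fun φ : ℝ => (a, φ)) := by fun_prop
  have hFa := (meas_F m τ).comp h0
  have hHa := (meas_H u v τ).comp h0
  simp only [Function.comp_def] at hFa hHa
  unfold kern
  rw [← lintegral_const_mul _ hHa]
  refine lintegral_congr fun ψ => ?_
  rw [lintegral_mul_const _ hFa]

/-- abstract Tonelli -/
lemma tonelli3 {X : Type*} [MeasurableSpace X] (μ : Measure X) [SFinite μ] (κ : Measure ℝ)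
    [SFinite κ] (F H : X × ℝ → ℝ≥0∞) (hF : Measurable F) (hH : Measurable H) :
    ∫⁻ a, ∫⁻ ψ, ∫⁻ φ, F (a, φ) * H (a, ψ) ∂κ ∂κ ∂μ = ∫⁻ ψ, ∫⁻ φ, ∫⁻ a, F (a, φ) * H (a, ψ) ∂μ ∂κ ∂κ := by
  have hm1 : Measurable (fun p : (X × ℝ) × ℝ => F (p.1.1, p.2) * H (p.1.1, p.1.2)) := by
    fun_prop
  rw [lintegral_lintegral_swap (Measurable.lintegral_prod_right' hm1).aemeasurable]
  refine lintegral_congr fun ψ => ?_
  have h0 : Measurable (fun p : X × ℝ => ((p.1, ψ), p.2)) := by fun_prop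
  have h1 := (hm1.comp h0).aemeasurable (μ := μ.prod κ)
  rw [lintegral_lintegral_swap]
  exact h1

theorem kappa_main (u v : Fin (m + 2) → ℂ) (h : ON u v) (τ : ℝ) (h0 : 0 < τ) (h1 : τ < 1) :
    ∫⁻ a, kern τ (a 0) (a 1) * kern τ (dot a u) (dot a v) ∂(G (m + 2)) =
    ENNReal.ofReal ((ov u v).smul τ).kap := by
  have h3 := tonelli3 (G (m + 2)) cav _ _ (meas_F m τ) (meas_H u v τ)
  simp only at h3
  calc ∫⁻ a, kern τ (a 0) (a 1) * kern τ (dot a u) (dot a v) ∂(G (m + 2))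
      = ∫⁻ a, ∫⁻ ψ, ∫⁻ φ, ENNReal.ofReal (kphi τ φ (a 0) (a 1)) *
        ENNReal.ofReal (kphi τ ψ (dot a u) (dot a v)) ∂cav ∂cav ∂(G (m + 2)) :=
        lintegral_congr fun a => kern_mul u v τ a
    _ = ∫⁻ ψ, ∫⁻ φ, ∫⁻ a, ENNReal.ofReal (kphi τ φ (a 0) (a 1)) *
        ENNReal.ofReal (kphi τ ψ (dot a u) (dot a v)) ∂(G (m + 2)) ∂cav ∂cav := h3
    _ = ∫⁻ ψ, ∫⁻ φ, ENNReal.ofReal (((ov u v).smul τ).Ph φ ψ) ∂cav ∂cav :=
        lintegral_congr fun ψ => lintegral_congr fun φ => pair_Ph u v h τ h0 h1 φ ψ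
    _ = _ := (kap_lintegral u v h τ h0 h1).symm

end Kap

theorem specKappa : SpecKappa := fun _ u v h τ h0 h1 => Kap.kappa_main u v h τ h0 h1

end MPf1e3
end
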