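import Pool.Agent.Lib.MP_f1e3b4_an.Gam

section
/-!
Problem MP_f1e3b4_an, module MU (helper42): the one dimensional laws
-/
set_option autoImplicit false

open MeasureTheory ProbabilityTheory Filter Topology Set
open scoped ENNReal ComplexConjugate

namespace MPf1e3.MuM

lemma int_pow (n : ℕ) {b : ℝ} (hb : 0 < b) :
    ∫⁻ y in Ioi (0 : ℝ), ENNReal.ofReal (y ^ n * Real.exp (-(b * y))) =
      ENNReal.ofReal (n.factorial / b ^ (n + 1)) := by
  have key := Real.integral_rpow_mul_exp_neg_mul_Ioi (a := (n : ℝ) + 1) (r := b)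
    (by positivity) hb
  have e1 : ∀ t : ℝ, t ^ ((n : ℝ) + 1 - 1) * Real.exp (-(b * t)) =
      t ^ n * Real.exp (-(b * t)) := by
    intro t
    rw [add_sub_cancel_right, Real.rpow_natCast]
  simp_rw [e1] at key
  have e2 : (1 / b) ^ ((n : ℝ) + 1) * Real.Gamma ((n : ℝ) + 1) = n.factorial / b ^ (n + 1) := by
    rw [Real.Gamma_nat_eq_factorial, show (n : ℝ) + 1 = ((n + 1 : ℕ) : ℝ) by push_cast; ring,
      Real.rpow_natCast, one_div, inv_pow]
    field_simp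
  rw [e2] at key
  have hint : Integrable (fun t : ℝ => t ^ n * Real.exp (-(b * t))) (volume.restrict (Ioi 0)) :=
    .of_integral_ne_zero (by rw [key]; positivity)
  rw [← ofReal_integral_eq_lintegral_ofReal hint, key]
  refine (ae_restrict_iff' measurableSet_Ioi).2 (Eventually.of_forall fun t ht => ?_)
  have : (0 : ℝ) < t := ht
  show 0 ≤ t ^ n * Real.exp (-(b * t))
  positivity

lemma int_cpow (n : ℕ) {b c : ℝ} (hb : 0 < b) (hc : 0 ≤ c) :
    ∫⁻ y in Ioi (0 : ℝ), ENNReal.ofReal (c * (y ^ n * Real.exp (-(b * y)))) =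
      ENNReal.ofReal (c * (n.factorial / b ^ (n + 1))) := by
  have h1 : ∀ y : ℝ, ENNReal.ofReal (c * (y ^ n * Real.exp (-(b * y)))) =
      ENNReal.ofReal c * ENNReal.ofReal (y ^ n * Real.exp (-(b * y))) := fun y =>
    ENNReal.ofReal_mul hc
  simp_rw [h1]
  rw [lintegral_const_mul _ (by fun_prop), int_pow n hb, ← ENNReal.ofReal_mul hc]

/-- the density of `mu1` with respect to `cg` -/
noncomputable def g1 (τ y : ℝ) : ℝ≥0∞ :=
  ENNReal.ofReal ((1 - τ)⁻¹ * Real.exp (-(τ / (1 - τ)) * (y / 2)))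

/-- the density of `mu2` with respect to `cg` -/
noncomputable def g2 (τ y : ℝ) : ℝ≥0∞ := ENNReal.ofReal ((1 - τ) + τ * (y / 2))

lemma meas_g1 (τ : ℝ) : Measurable (g1 τ) := by unfold g1; fun_prop
lemma meas_g2 (τ : ℝ) : Measurable (g2 τ) := by unfold g2; fun_prop

lemma mu1_eq (τ : ℝ) : mu1 τ = cg.withDensity fun z => g1 τ (‖z‖ ^ 2) := rfl
lemma mu2_eq (τ : ℝ) : mu2 τ = cg.withDensity fun z => g2 τ (‖z‖ ^ 2) := rfl

lemma rad (hP : SpecProb) (g F : ℝ → ℝ≥0∞) (hg : Measurable g) (hF : Measurable F) :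
    ∫⁻ z, F (‖z‖ ^ 2) ∂(cg.withDensity fun z => g (‖z‖ ^ 2)) =
      ∫⁻ y in Ioi (0 : ℝ), F y * (g y * GamM.dens 0 y) := by
  rw [lintegral_withDensity_eq_lintegral_mul _ (by fun_prop) (by fun_prop)]
  have h := GamM.base hP (fun y => g y * F y) (by fun_prop)
  refine Eq.trans ?_ (h.trans ?_)
  · rfl
  · refine lintegral_congr fun y => ?_
    ring

lemma g1_dens {τ : ℝ} (h1 : τ < 1) (y : ℝ) : g1 τ y * GamM.dens 0 y =
    ENNReal.ofReal ((2 * (1 - τ))⁻¹ * (y ^ 0 * Real.exp (-((2 * (1 - τ))⁻¹ * y)))) := by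
  have hv : 0 < 1 - τ := by linarith
  unfold g1 GamM.dens
  rw [← ENNReal.ofReal_mul (by positivity)]
  congr 1
  have e : Real.exp (-(τ / (1 - τ)) * (y / 2)) * Real.exp (-(y / 2)) =
      Real.exp (-((2 * (1 - τ))⁻¹ * y)) := by
    rw [← Real.exp_add]
    congr 1
    field_simp
    ring
  rw [← e]
  simp only [pow_zero, Nat.factorial_zero, Nat.cast_one]
  field_simp
  ring

lemma g2_dens {τ : ℝ} (h0 : 0 < τ) (h1 : τ < 1) {y : ℝ} (hy : 0 < y) : g2 τ y * GamM.dens 0 y =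
    ENNReal.ofReal ((1 - τ) / 2 * (y ^ 0 * Real.exp (-(1 / 2 * y)))) +
      ENNReal.ofReal (τ / 4 * (y ^ 1 * Real.exp (-(1 / 2 * y)))) := by
  have hv : 0 < 1 - τ := by linarith
  unfold g2 GamM.dens
  rw [← ENNReal.ofReal_mul (by positivity), ← ENNReal.ofReal_add (by positivity) (by positivity)]
  congr 1
  rw [show -(1 / 2 * y) = -(y / 2) by ring]
  simp only [pow_zero, Nat.factorial_zero, Nat.cast_one]
  ring

lemma exp_bound {τ r : ℝ} (h0 : 0 < τ) (h1 : τ < 1) (hr : 0 < r) :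
    r * Real.exp (-(r ^ 2 / 2)) * ((1 - τ) + τ * (r ^ 2 / 2)) ≤ 10 * Real.exp (-(r / 2)) := by
  have e1 : (1 - τ) + τ * (r ^ 2 / 2) ≤ 1 + r ^ 2 / 2 := by
    have : τ * (r ^ 2 / 2) ≤ 1 * (r ^ 2 / 2) :=
      mul_le_mul_of_nonneg_right h1.le (by positivity)
    linarith
  have e2 : r * (1 + r ^ 2 / 2) ≤ 10 * Real.exp ((r ^ 2 - r) / 2) := by
    rcases le_total r 1 with h | h
    · have h3 := Real.add_one_le_exp ((r ^ 2 - r) / 2)
      nlinarith [sq_nonneg (r - 1 / 2), mul_nonneg hr.le (sq_nonneg r)]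
    · have h3 := Real.quadratic_le_exp_of_nonneg (x := (r ^ 2 - r) / 2) (by nlinarith)
      nlinarith [sq_nonneg (r - 1), sq_nonneg (r ^ 2 - r), sq_nonneg (r ^ 2 - 2 * r),
        mul_nonneg hr.le (sub_nonneg.mpr h)]
  have e3 : Real.exp (-(r / 2)) = Real.exp ((r ^ 2 - r) / 2) * Real.exp (-(r ^ 2 / 2)) := by
    rw [← Real.exp_add]
    congr 1
    ring
  rw [e3]
  calc r * Real.exp (-(r ^ 2 / 2)) * ((1 - τ) + τ * (r ^ 2 / 2))
      ≤ r * Real.exp (-(r ^ 2 / 2)) * (1 + r ^ 2 / 2) := by gcongr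
    _ = (r * (1 + r ^ 2 / 2)) * Real.exp (-(r ^ 2 / 2)) := by ring
    _ ≤ (10 * Real.exp ((r ^ 2 - r) / 2)) * Real.exp (-(r ^ 2 / 2)) := by gcongr
    _ = _ := by ring

lemma meas_ee : Measurable ee := by unfold ee; fun_prop

lemma mu2_vol (hP : SpecProb) (τ : ℝ) : mu2 τ = (volume : Measure ℂ).withDensity
    fun z => ENNReal.ofReal ((2 * Real.pi)⁻¹ * Real.exp (-(‖z‖ ^ 2 / 2))) * g2 τ (‖z‖ ^ 2) := by
  have hm1 : Measurable fun z : ℂ =>
      ENNReal.ofReal ((2 * Real.pi)⁻¹ * Real.exp (-(‖z‖ ^ 2 / 2))) := by fun_prop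
  have hm2 : Measurable fun z : ℂ => g2 τ (‖z‖ ^ 2) := (meas_g2 τ).comp (by fun_prop)
  rw [mu2_eq, hP.dens, ← withDensity_mul _ hm1 hm2]
  rfl

lemma cav_int (f : ℝ → ℝ≥0∞) : ∫⁻ ψ, f ψ ∂cav =
    (ENNReal.ofReal (2 * Real.pi))⁻¹ * ∫⁻ ψ in Ioc 0 (2 * Real.pi), f ψ := by
  unfold cav
  exact lintegral_smul_measure _ _

lemma neg_polar (p : ℝ × ℝ) : -Complex.polarCoord.symm p = (p.1 : ℂ) * ee (p.2 + Real.pi) := by
  rw [Complex.polarCoord_symm_apply]
  unfold ee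
  rw [Complex.exp_mul_I, ← Complex.ofReal_cos, ← Complex.ofReal_sin, Real.cos_add_pi,
    Real.sin_add_pi]
  push_cast
  ring

lemma polar (F : ℂ → ℝ≥0∞) (R : ℝ → ℝ≥0∞) (hF : Measurable F) (hR : Measurable R) :
    ∫⁻ z, F z * R (‖z‖ ^ 2) =
      ∫⁻ ψ in Ioo 0 (2 * Real.pi), ∫⁻ r in Ioi (0 : ℝ),
        ENNReal.ofReal r * (F (r * ee ψ) * R (r ^ 2)) := by
  have hme := meas_ee
  rw [← lintegral_neg_eq_self, ← Complex.lintegral_comp_polarCoord_symm]
  have h1 : ∀ p : ℝ × ℝ, ENNReal.ofReal p.1 • (F (-Complex.polarCoord.symm p) *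
      R (‖-Complex.polarCoord.symm p‖ ^ 2)) =
      ENNReal.ofReal p.1 * (F ((p.1 : ℂ) * ee (p.2 + Real.pi)) * R (p.1 ^ 2)) := by
    intro p
    rw [norm_neg, Complex.norm_polarCoord_symm, sq_abs, neg_polar, smul_eq_mul]
  simp_rw [h1]
  have ht : polarCoord.target = Ioi (0 : ℝ) ×ˢ Ioo (-Real.pi) Real.pi := rfl
  rw [ht, Measure.volume_eq_prod, ← Measure.prod_restrict]
  have hm : Measurable fun p : ℝ × ℝ =>
      ENNReal.ofReal p.1 * (F ((p.1 : ℂ) * ee (p.2 + Real.pi)) * R (p.1 ^ 2)) := by fun_prop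
  rw [lintegral_prod_symm _ hm.aemeasurable]
  rw [← lintegral_indicator measurableSet_Ioo, ← lintegral_indicator measurableSet_Ioo,
    ← lintegral_sub_right_eq_self _ Real.pi]
  refine lintegral_congr fun ψ => ?_
  by_cases hψ : ψ ∈ Ioo 0 (2 * Real.pi)
  · rw [indicator_of_mem hψ, indicator_of_mem (show ψ - Real.pi ∈ Ioo (-Real.pi) Real.pi by
      obtain ⟨a, b⟩ := hψ
      constructor <;> linarith)]
    simp only [sub_add_cancel]
  · rw [indicator_of_notMem hψ, indicator_of_notMem (show ψ - Real.pi ∉ Ioo (-Real.pi) Real.pi by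
      intro h
      apply hψ
      obtain ⟨a, b⟩ := h
      constructor <;> linarith)]

end MPf1e3.MuM

open MPf1e3 MPf1e3.MuM in
theorem MPf1e3.specMu (hP : SpecProb) (hK : SpecKmeas) : SpecMu where
  p1 := by
    intro τ h0 h1
    constructor
    have h := rad hP (g1 τ) (fun _ => 1) (meas_g1 τ) measurable_const
    rw [← mu1_eq] at h
    rw [lintegral_one] at h
    rw [h]
    simp_rw [one_mul, g1_dens h1]
    have hv : 0 < 1 - τ := by linarith
    rw [int_cpow 0 (by positivity) (by positivity)]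
    rw [← ENNReal.ofReal_one]
    congr 1
    simp only [Nat.factorial_zero, Nat.cast_one, zero_add, pow_one]
    field_simp
  p2 := by
    intro τ h0 h1
    constructor
    have hv : 0 < 1 - τ := by linarith
    have h := rad hP (g2 τ) (fun _ => 1) (meas_g2 τ) measurable_const
    rw [← mu2_eq] at h
    rw [lintegral_one] at h
    rw [h]
    rw [setLIntegral_congr_fun measurableSet_Ioi (g := fun y =>
      ENNReal.ofReal ((1 - τ) / 2 * (y ^ 0 * Real.exp (-(1 / 2 * y)))) +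
      ENNReal.ofReal (τ / 4 * (y ^ 1 * Real.exp (-(1 / 2 * y))))) (by
        intro y hy
        simp only [one_mul]
        exact g2_dens h0 h1 hy)]
    rw [lintegral_add_left (by fun_prop), int_cpow 0 (by norm_num) (by positivity),
      int_cpow 1 (by norm_num) (by positivity), ← ENNReal.ofReal_add (by positivity) (by positivity),
      ← ENNReal.ofReal_one]
    congr 1
    simp only [Nat.factorial_zero, Nat.cast_one, zero_add, pow_one, Nat.factorial_one]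
    ring
  p3 := by
    intro τ m h0 h1
    constructor
    unfold nu
    rw [withDensity_apply _ MeasurableSet.univ, setLIntegral_univ]
    exact hK.one m τ h0 h1
  m1 := by
    intro τ h0 h1
    have hv : 0 < 1 - τ := by linarith
    have h := rad hP (g1 τ) (fun y => ENNReal.ofReal y) (meas_g1 τ) (by fun_prop)
    rw [← mu1_eq] at h
    rw [h]
    rw [setLIntegral_congr_fun measurableSet_Ioi (g := fun y =>
      ENNReal.ofReal ((2 * (1 - τ))⁻¹ * (y ^ 1 * Real.exp (-((2 * (1 - τ))⁻¹ * y))))) (by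
        intro y hy
        have hy' : (0 : ℝ) < y := hy
        simp only
        rw [g1_dens h1, ← ENNReal.ofReal_mul hy'.le]
        congr 1
        ring)]
    rw [int_cpow 1 (by positivity) (by positivity)]
    refine ENNReal.ofReal_le_ofReal (le_of_eq ?_)
    simp only [Nat.cast_one, Nat.factorial_one]
    set x : ℝ := 2 * (1 - τ) with hx
    have hx0 : x ≠ 0 := by positivity
    rw [show (1 + 1 : ℕ) = 2 from rfl, inv_pow]
    field_simp
  m2 := by
    intro τ h0 h1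
    have hv : 0 < 1 - τ := by linarith
    have h := rad hP (g2 τ) (fun y => ENNReal.ofReal y) (meas_g2 τ) (by fun_prop)
    rw [← mu2_eq] at h
    rw [h]
    rw [setLIntegral_congr_fun measurableSet_Ioi (g := fun y =>
      ENNReal.ofReal ((1 - τ) / 2 * (y ^ 1 * Real.exp (-(1 / 2 * y)))) +
      ENNReal.ofReal (τ / 4 * (y ^ 2 * Real.exp (-(1 / 2 * y))))) (by
        intro y hy
        have hy' : (0 : ℝ) < y := hy
        simp only
        rw [g2_dens h0 h1 hy', mul_add, ← ENNReal.ofReal_mul hy'.le, ← ENNReal.ofReal_mul hy'.le]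
        congr 2 <;> ring)]
    rw [lintegral_add_left (by fun_prop), int_cpow 1 (by norm_num) (by positivity),
      int_cpow 2 (by norm_num) (by positivity), ← ENNReal.ofReal_add (by positivity) (by positivity)]
    rw [show (4 : ℝ≥0∞) = ENNReal.ofReal 4 by norm_num]
    refine ENNReal.ofReal_le_ofReal ?_
    simp only [Nat.factorial_one, Nat.cast_one, Nat.factorial_two, Nat.cast_ofNat]
    norm_num
    linarith
  mg := by
    have h := GamM.base hP (fun y => ENNReal.ofReal y) (by fun_prop)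
    rw [h]
    rw [setLIntegral_congr_fun measurableSet_Ioi (g := fun y =>
      ENNReal.ofReal (1 / 2 * (y ^ 1 * Real.exp (-(1 / 2 * y))))) (by
        intro y hy
        have hy' : (0 : ℝ) < y := hy
        simp only
        unfold GamM.dens
        rw [← ENNReal.ofReal_mul hy'.le]
        congr 1
        rw [show -(1 / 2 * y) = -(y / 2) by ring]
        simp only [pow_zero, Nat.factorial_zero, Nat.cast_one]
        ring)]
    rw [int_cpow 1 (by norm_num) (by norm_num)]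
    rw [show (2 : ℝ≥0∞) = ENNReal.ofReal 2 by norm_num]
    congr 1
    simp only [Nat.factorial_one, Nat.cast_one]
    norm_num
  d2 := by
    intro τ h0 h1
    rw [mu2_vol hP]
    conv_rhs => rw [← withDensity_one (μ := (volume : Measure ℂ))]
    refine withDensity_mono (Eventually.of_forall fun z => ?_)
    show ENNReal.ofReal ((2 * Real.pi)⁻¹ * Real.exp (-(‖z‖ ^ 2 / 2))) *
      ENNReal.ofReal ((1 - τ) + τ * (‖z‖ ^ 2 / 2)) ≤ 1
    rw [← ENNReal.ofReal_mul (by positivity), ← ENNReal.ofReal_one]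
    refine ENNReal.ofReal_le_ofReal ?_
    set x := ‖z‖ ^ 2 / 2 with hx
    have hx0 : 0 ≤ x := by positivity
    have e1 : (2 * Real.pi)⁻¹ ≤ 1 := inv_le_one_of_one_le₀ (by linarith [Real.pi_gt_three])
    have e2 : Real.exp (-x) * ((1 - τ) + τ * x) ≤ 1 := by
      have e3 : (1 - τ) + τ * x ≤ Real.exp x := by
        have := Real.add_one_le_exp x
        nlinarith
      calc Real.exp (-x) * ((1 - τ) + τ * x) ≤ Real.exp (-x) * Real.exp x := by gcongr
        _ = 1 := by rw [← Real.exp_add]; simp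
    have e4 : 0 ≤ Real.exp (-x) * ((1 - τ) + τ * x) := by
      have : 0 ≤ (1 - τ) + τ * x := by nlinarith
      positivity
    calc (2 * Real.pi)⁻¹ * Real.exp (-x) * ((1 - τ) + τ * x)
        = (2 * Real.pi)⁻¹ * (Real.exp (-x) * ((1 - τ) + τ * x)) := by ring
      _ ≤ 1 * 1 := mul_le_mul e1 e2 e4 (by norm_num)
      _ = 1 := by norm_num
  pol := by
    intro τ h0 h1 F hF
    have hme := meas_ee
    have hv : 0 < 1 - τ := by linarith
    rw [mu2_vol hP, lintegral_withDensity_eq_lintegral_mul _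
      (by have := meas_g2 τ; fun_prop) hF]
    have e1 : ∀ z : ℂ, ((fun z : ℂ => ENNReal.ofReal ((2 * Real.pi)⁻¹ *
        Real.exp (-(‖z‖ ^ 2 / 2))) * g2 τ (‖z‖ ^ 2)) * F) z =
        F z * (fun y : ℝ => ENNReal.ofReal ((2 * Real.pi)⁻¹ * Real.exp (-(y / 2))) * g2 τ y)
          (‖z‖ ^ 2) := by
      intro z
      simp only [Pi.mul_apply]
      ring
    simp_rw [e1]
    rw [polar F (fun y : ℝ => ENNReal.ofReal ((2 * Real.pi)⁻¹ * Real.exp (-(y / 2))) * g2 τ y) hF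
      (by have := meas_g2 τ; fun_prop)]
    rw [cav_int]
    have e2 : ∀ ψ : ℝ, ∫⁻ r in Ioi (0 : ℝ), ENNReal.ofReal r * (F (r * ee ψ) *
        (ENNReal.ofReal ((2 * Real.pi)⁻¹ * Real.exp (-(r ^ 2 / 2))) * g2 τ (r ^ 2))) ≤
        (ENNReal.ofReal (2 * Real.pi))⁻¹ *
          ∫⁻ r in Ioi (0 : ℝ), F (r * ee ψ) * ENNReal.ofReal (10 * Real.exp (-(r / 2))) := by
      intro ψ
      rw [← lintegral_const_mul _ (by fun_prop)]
      refine setLIntegral_mono (by fun_prop) fun r hr => ?_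
      have hr' : (0 : ℝ) < r := hr
      have e3 : ENNReal.ofReal r * (ENNReal.ofReal ((2 * Real.pi)⁻¹ * Real.exp (-(r ^ 2 / 2))) *
          g2 τ (r ^ 2)) ≤ (ENNReal.ofReal (2 * Real.pi))⁻¹ *
            ENNReal.ofReal (10 * Real.exp (-(r / 2))) := by
        unfold g2
        rw [← ENNReal.ofReal_inv_of_pos (by positivity), ← ENNReal.ofReal_mul (by positivity),
          ← ENNReal.ofReal_mul hr'.le, ← ENNReal.ofReal_mul (by positivity)]
        refine ENNReal.ofReal_le_ofReal ?_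
        have := exp_bound h0 h1 hr'
        calc r * ((2 * Real.pi)⁻¹ * Real.exp (-(r ^ 2 / 2)) * ((1 - τ) + τ * (r ^ 2 / 2)))
            = (2 * Real.pi)⁻¹ * (r * Real.exp (-(r ^ 2 / 2)) * ((1 - τ) + τ * (r ^ 2 / 2))) := by
              ring
          _ ≤ _ := mul_le_mul_of_nonneg_left this (by positivity)
      calc ENNReal.ofReal r * (F (r * ee ψ) *
          (ENNReal.ofReal ((2 * Real.pi)⁻¹ * Real.exp (-(r ^ 2 / 2))) * g2 τ (r ^ 2)))
          = F (r * ee ψ) * (ENNReal.ofReal r * (ENNReal.ofReal ((2 * Real.pi)⁻¹ *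
            Real.exp (-(r ^ 2 / 2))) * g2 τ (r ^ 2))) := by ring
        _ ≤ F (r * ee ψ) * ((ENNReal.ofReal (2 * Real.pi))⁻¹ *
            ENNReal.ofReal (10 * Real.exp (-(r / 2)))) := by gcongr
        _ = _ := by ring
    calc ∫⁻ ψ in Ioo 0 (2 * Real.pi), ∫⁻ r in Ioi (0 : ℝ), ENNReal.ofReal r * (F (r * ee ψ) *
        (ENNReal.ofReal ((2 * Real.pi)⁻¹ * Real.exp (-(r ^ 2 / 2))) * g2 τ (r ^ 2)))
        ≤ ∫⁻ ψ in Ioo 0 (2 * Real.pi), (ENNReal.ofReal (2 * Real.pi))⁻¹ *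
          ∫⁻ r in Ioi (0 : ℝ), F (r * ee ψ) * ENNReal.ofReal (10 * Real.exp (-(r / 2))) :=
          lintegral_mono fun ψ => e2 ψ
      _ ≤ ∫⁻ ψ in Ioc 0 (2 * Real.pi), (ENNReal.ofReal (2 * Real.pi))⁻¹ *
          ∫⁻ r in Ioi (0 : ℝ), F (r * ee ψ) * ENNReal.ofReal (10 * Real.exp (-(r / 2))) :=
          lintegral_mono_set Ioo_subset_Ioc_self
      _ = _ := by
          rw [lintegral_const_mul _ ?_]
          exact Measurable.lintegral_prod_right' (f := fun p : ℝ × ℝ =>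
              F ((p.2 : ℂ) * ee p.1) * ENNReal.ofReal (10 * Real.exp (-(p.2 / 2)))) (by fun_prop)
end

section
/-!
Problem MP_f1e3b4_an, module MOM (helper42): moments of the planted row
-/
set_option autoImplicit false

open MeasureTheory ProbabilityTheory Filter Topology Set
open scoped ENNReal ComplexConjugate

namespace MPf1e3.MomM

lemma norm_ee (φ : ℝ) : ‖ee φ‖ = 1 := by
  unfold ee
  exact Complex.norm_exp_ofReal_mul_I φ

lemma norm_sqrt2 : ‖((Real.sqrt 2 : ℝ) : ℂ)‖ ^ 2 = 2 := by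
  rw [Complex.norm_real, Real.norm_eq_abs, sq_abs, Real.sq_sqrt (by norm_num)]

lemma sq_add (x y : ℂ) : ‖x + y‖ ^ 2 = ‖x‖ ^ 2 + ‖y‖ ^ 2 + 2 * (x * conj y).re := by
  rw [Complex.sq_norm, Complex.normSq_add, Complex.sq_norm, Complex.sq_norm]

lemma a0 {m : ℕ} (φ : ℝ) (z₁ z₂ : ℂ) (r : Fin m → ℂ) :
    ‖mkrow φ z₁ z₂ r 0‖ ^ 2 = (‖z₁‖ ^ 2 + ‖z₂‖ ^ 2) / 2 + (z₁ * conj z₂).re := by
  have h : mkrow φ z₁ z₂ r 0 = (z₁ + z₂) / (Real.sqrt 2 : ℂ) := rfl
  rw [h, norm_div, div_pow, norm_sqrt2, sq_add]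
  ring

lemma a1 {m : ℕ} (φ : ℝ) (z₁ z₂ : ℂ) (r : Fin m → ℂ) :
    ‖mkrow φ z₁ z₂ r 1‖ ^ 2 = (‖z₁‖ ^ 2 + ‖z₂‖ ^ 2) / 2 - (z₁ * conj z₂).re := by
  have h : mkrow φ z₁ z₂ r 1 = conj (ee φ) * (z₂ - z₁) / (Real.sqrt 2 : ℂ) := rfl
  rw [h, norm_div, div_pow, norm_sqrt2, norm_mul, Complex.norm_conj, norm_ee, one_mul,
    show z₂ - z₁ = z₂ + (-z₁) by ring, sq_add, norm_neg]
  have e : (z₂ * conj (-z₁)).re = -(z₁ * conj z₂).re := by
    simp [Complex.mul_re, Complex.neg_re]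
    ring
  rw [e]
  ring

lemma re_sq_le (x y : ℂ) : (x * conj y).re ^ 2 ≤ ‖x‖ ^ 2 * ‖y‖ ^ 2 := by
  have h1 := Complex.abs_re_le_norm (x * conj y)
  rw [norm_mul, Complex.norm_conj] at h1
  have h2 : |(x * conj y).re| ^ 2 ≤ (‖x‖ * ‖y‖) ^ 2 := pow_le_pow_left₀ (abs_nonneg _) h1 2
  rw [sq_abs, mul_pow] at h2
  exact h2

end MPf1e3.MomM

open MPf1e3 MPf1e3.MomM in
theorem MPf1e3.specMom (hP : SpecProb) (hMu : SpecMu) (hR : SpecRow) : SpecMom where
  e := by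
    intro m τ h0 h1 j
    have := hP.G m
    have := hP.cav
    have := hMu.p1 τ h0 h1
    have := hMu.p2 τ h0 h1
    rw [hR m τ h0 h1 (fun a => ENNReal.ofReal (‖a j‖ ^ 2)) (by fun_prop)]
    have hm2 := hMu.m2 τ h0 h1
    have hm1 : ∫⁻ z, ENNReal.ofReal (‖z‖ ^ 2) ∂(mu1 τ) ≤ 2 := by
      refine (hMu.m1 τ h0 h1).trans ?_
      rw [show (2 : ℝ≥0∞) = ENNReal.ofReal 2 by norm_num]
      exact ENNReal.ofReal_le_ofReal (by linarith)
    have hmg : ∫⁻ z, ENNReal.ofReal (‖z‖ ^ 2) ∂cg = 2 := hMu.mg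
    have key : ∀ (φ : ℝ) (z₁ z₂ : ℂ),
        ∫⁻ r : Fin m → ℂ, ENNReal.ofReal (‖mkrow φ z₁ z₂ r j‖ ^ 2) ∂(G m) ≤
          ENNReal.ofReal (‖z₁‖ ^ 2) + ENNReal.ofReal (‖z₂‖ ^ 2) + 2 := by
      intro φ z₁ z₂
      have hre := re_sq_le z₁ z₂
      have habs : |(z₁ * conj z₂).re| ≤ (‖z₁‖ ^ 2 + ‖z₂‖ ^ 2) / 2 := by
        have h3 := Complex.abs_re_le_norm (z₁ * conj z₂)
        rw [norm_mul, Complex.norm_conj] at h3
        nlinarith [sq_nonneg (‖z₁‖ - ‖z₂‖)]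
      have hab := abs_le.mp habs
      have hconst : ∀ c : ℝ, c ≤ ‖z₁‖ ^ 2 + ‖z₂‖ ^ 2 →
          ∫⁻ _r : Fin m → ℂ, ENNReal.ofReal c ∂(G m) ≤
          ENNReal.ofReal (‖z₁‖ ^ 2) + ENNReal.ofReal (‖z₂‖ ^ 2) + 2 := by
        intro c hc
        rw [lintegral_const, measure_univ, mul_one, ← ENNReal.ofReal_add (by positivity)
          (by positivity)]
        exact (ENNReal.ofReal_le_ofReal hc).trans le_self_add
      refine Fin.cases ?_ (fun i => ?_) j
      · simp_rw [a0]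
        exact hconst _ (by linarith)
      · refine Fin.cases ?_ (fun i => ?_) i
        · have e1 : ∀ r : Fin m → ℂ, ‖mkrow φ z₁ z₂ r (Fin.succ 0)‖ ^ 2 =
              (‖z₁‖ ^ 2 + ‖z₂‖ ^ 2) / 2 - (z₁ * conj z₂).re := fun r => a1 φ z₁ z₂ r
          simp_rw [e1]
          exact hconst _ (by linarith)
        · have e1 : ∀ r : Fin m → ℂ, mkrow φ z₁ z₂ r (Fin.succ (Fin.succ i)) = r i := fun r => rfl
          simp_rw [e1]
          have h4 : ∫⁻ r : Fin m → ℂ, ENNReal.ofReal (‖r i‖ ^ 2) ∂(G m) = 2 := by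
            have := hP.cg
            have h5 := (measurePreserving_eval (fun _ : Fin m => cg) i).lintegral_comp
              (f := fun z => ENNReal.ofReal (‖z‖ ^ 2)) (by fun_prop)
            rw [hmg] at h5
            exact h5
          rw [h4]
          exact le_add_self
    calc ∫⁻ φ, ∫⁻ z₁, ∫⁻ z₂, ∫⁻ r : Fin m → ℂ, ENNReal.ofReal (‖mkrow φ z₁ z₂ r j‖ ^ 2)
          ∂(G m) ∂(mu2 τ) ∂(mu1 τ) ∂cav
        ≤ ∫⁻ _φ, ∫⁻ z₁, ∫⁻ z₂, (ENNReal.ofReal (‖z₁‖ ^ 2) + ENNReal.ofReal (‖z₂‖ ^ 2) + 2)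
          ∂(mu2 τ) ∂(mu1 τ) ∂cav := by
          gcongr with φ z₁ z₂
          exact key φ z₁ z₂
      _ = ∫⁻ z₁, (ENNReal.ofReal (‖z₁‖ ^ 2) + ∫⁻ z₂, ENNReal.ofReal (‖z₂‖ ^ 2) ∂(mu2 τ) + 2)
          ∂(mu1 τ) := by
          simp only [lintegral_const, measure_univ, mul_one]
          refine lintegral_congr fun z₁ => ?_
          rw [lintegral_add_right _ measurable_const, lintegral_add_left measurable_const]
          simp
      _ = ∫⁻ z, ENNReal.ofReal (‖z‖ ^ 2) ∂(mu1 τ) + ∫⁻ z₂, ENNReal.ofReal (‖z₂‖ ^ 2) ∂(mu2 τ) +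
          2 := by
          rw [lintegral_add_right _ measurable_const, lintegral_add_right _ measurable_const]
          simp
      _ ≤ 2 + 4 + 2 := by gcongr
      _ = 8 := by norm_num
  f := by
    intro m τ h0 h1
    have := hP.G m
    have := hP.cav
    have := hMu.p1 τ h0 h1
    have := hMu.p2 τ h0 h1
    rw [hR m τ h0 h1 (fun a => ENNReal.ofReal ((‖a 0‖ ^ 2 - ‖a 1‖ ^ 2) ^ 2)) (by fun_prop)]
    have hb : ∀ (φ : ℝ) (z₁ z₂ : ℂ) (r : Fin m → ℂ),
        ENNReal.ofReal ((‖mkrow φ z₁ z₂ r 0‖ ^ 2 - ‖mkrow φ z₁ z₂ r 1‖ ^ 2) ^ 2) ≤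
          4 * ENNReal.ofReal (‖z₁‖ ^ 2) * ENNReal.ofReal (‖z₂‖ ^ 2) := by
      intro φ z₁ z₂ r
      rw [a0, a1, show (4 : ℝ≥0∞) = ENNReal.ofReal 4 by norm_num,
        ← ENNReal.ofReal_mul (by norm_num), ← ENNReal.ofReal_mul (by positivity)]
      refine ENNReal.ofReal_le_ofReal ?_
      have := re_sq_le z₁ z₂
      nlinarith
    calc ∫⁻ φ, ∫⁻ z₁, ∫⁻ z₂, ∫⁻ r : Fin m → ℂ,
          ENNReal.ofReal ((‖mkrow φ z₁ z₂ r 0‖ ^ 2 - ‖mkrow φ z₁ z₂ r 1‖ ^ 2) ^ 2)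
          ∂(G m) ∂(mu2 τ) ∂(mu1 τ) ∂cav
        ≤ ∫⁻ _φ, ∫⁻ z₁, ∫⁻ z₂, ∫⁻ _r : Fin m → ℂ,
          4 * ENNReal.ofReal (‖z₁‖ ^ 2) * ENNReal.ofReal (‖z₂‖ ^ 2)
          ∂(G m) ∂(mu2 τ) ∂(mu1 τ) ∂cav := by
          gcongr with φ z₁ z₂ r
          exact hb φ z₁ z₂ r
      _ = ∫⁻ _φ, ∫⁻ z₁, 4 * ENNReal.ofReal (‖z₁‖ ^ 2) *
            ∫⁻ z₂, ENNReal.ofReal (‖z₂‖ ^ 2) ∂(mu2 τ) ∂(mu1 τ) ∂cav := by
          simp only [lintegral_const, measure_univ, mul_one]
          refine lintegral_congr fun z₁ => ?_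
          rw [lintegral_const_mul _ (by fun_prop)]
      _ ≤ ∫⁻ _φ, ∫⁻ z₁, 4 * ENNReal.ofReal (‖z₁‖ ^ 2) * 4 ∂(mu1 τ) ∂cav := by
          gcongr with φ z₁
          exact hMu.m2 τ h0 h1
      _ = 16 * ∫⁻ z₁, ENNReal.ofReal (‖z₁‖ ^ 2) ∂(mu1 τ) := by
          simp only [lintegral_const, measure_univ, mul_one]
          rw [← lintegral_const_mul _ (by fun_prop)]
          refine lintegral_congr fun z₁ => ?_
          rw [mul_right_comm]
          norm_num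
      _ ≤ 16 * ENNReal.ofReal (2 * (1 - τ)) := by
          gcongr
          exact hMu.m1 τ h0 h1
      _ ≤ ENNReal.ofReal (64 * (1 - τ)) := by
          rw [show (16 : ℝ≥0∞) = ENNReal.ofReal 16 by norm_num, ← ENNReal.ofReal_mul (by norm_num)]
          exact ENNReal.ofReal_le_ofReal (by linarith)
end
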