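import Pool.Agent.Lib.MP_f1e3b4_an.MeasAux
import Pool.Agent.Lib.MP_f1e3b4_an.SBS
import Pool.Agent.Lib.MP_f1e3b4_an.Cons
import Pool.Agent.Lib.MP_f1e3b4_an.Det
import Pool.Agent.Lib.MP_f1e3b4_an.Gam
import Pool.Agent.Lib.MP_f1e3b4_an.Inv
import Pool.Agent.Lib.MP_f1e3b4_an.Mom
import Pool.Agent.Lib.MP_f1e3b4_an.Prob
import Pool.Agent.Lib.MP_f1e3b4_an.KI1
import Pool.Agent.Lib.MP_f1e3b4_an.Kappa

section
/-! Problem MP_f1e3b4_an, module KMEAS: measurability and total mass of the kernel. -/
set_option autoImplicit false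

open MeasureTheory ProbabilityTheory Filter Topology Set
open scoped ENNReal

namespace MPf1e3

namespace KmeasM

theorem nu_univ (τ : ℝ) (m : ℕ) : nu τ m univ = ∫⁻ a, kern τ (a 0) (a 1) ∂(G (m + 2)) := by
  unfold nu
  rw [withDensity_apply _ MeasurableSet.univ, Measure.restrict_univ]

end KmeasM

theorem specKmeas (hP : SpecProb) (hGS : SpecGS) (hM : SpecMu) : SpecKmeas where
  meas := MA.meas_kern_pair
  one := by
    intro m τ h0 h1
    have hp : IsProbabilityMeasure (nu τ m) := hM.p3 τ m h0 h1
    rw [← KmeasM.nu_univ, measure_univ]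
  LL := MA.meas_LL hP hGS

end MPf1e3
end

section
/-! Problem MP_f1e3b4_an, module MIX: the planted mixture. -/
set_option autoImplicit false

open MeasureTheory ProbabilityTheory Filter Topology Set
open scoped ENNReal

namespace MPf1e3

namespace MixM

theorem dot_vecMul {n : ℕ} (a u : Fin n → ℂ) (V : Matrix (Fin n) (Fin n) ℂ) :
    dot (Matrix.vecMul a V) u = dot a (Matrix.mulVec V u) := by
  show Matrix.vecMul a V ⬝ᵥ u = a ⬝ᵥ Matrix.mulVec V u
  rw [Matrix.dotProduct_mulVec]

theorem dot_col {n : ℕ} (a u : Fin n → ℂ) (V : Matrix (Fin n) (Fin n) ℂ) (j : Fin n)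
    (h : ∀ i, V i j = u i) : dot a u = Matrix.vecMul a V j := by
  show a ⬝ᵥ u = a ⬝ᵥ fun i => V i j
  congr 1
  funext i
  exact (h i).symm

theorem inv (hP : SpecProb) (hI : SpecInv) (hGS : SpecGS) (τ : ℝ) (N n : ℕ)
    (V : Matrix (Fin n) (Fin n) ℂ) (hV : V ∈ Matrix.unitaryGroup (Fin n) ℂ)
    (A : Fin N → Fin n → ℂ) : LL τ (fun i => Matrix.vecMul (A i) V) = LL τ A := by
  have i1 := hP.G n
  have i2 : SFinite (G n) := inferInstance
  have i3 := MA.sfinite_prod (G n)
  have hm : MeasurePreserving (Prod.map (fun a : Fin n → ℂ => Matrix.mulVec V a)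
      (fun a : Fin n → ℂ => Matrix.mulVec V a)) ((G n).prod (G n)) ((G n).prod (G n)) :=
    (hI.col n V hV).prod (hI.col n V hV)
  rw [MA.LL_eq, MA.LL_eq]
  have hmeas : Measurable fun ω : (Fin n → ℂ) × (Fin n → ℂ) => MA.intg τ A ω := by
    have := (MA.meas_intg hGS τ N n).comp (measurable_const (a := A) |>.prodMk measurable_id)
    simpa [Function.comp_def] using this
  rw [← hm.lintegral_comp hmeas]
  refine lintegral_congr fun ω => ?_
  unfold MA.intg
  refine Finset.prod_congr rfl fun i _ => ?_
  have e := hGS.equ n V hV ω.1 ω.2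
  rw [dot_vecMul, dot_vecMul]
  show _ = kern τ (dot (A i) (fu (Matrix.mulVec V ω.1)))
    (dot (A i) (fv (Matrix.mulVec V ω.1) (Matrix.mulVec V ω.2)))
  rw [e.1, e.2]

end MixM

theorem specMix (hP : SpecProb) (hI : SpecInv) (hE : SpecExt) (hGS : SpecGS) : SpecMix where
  inv := MixM.inv hP hI hGS
  mix := by
    intro τ N m h0 h1 F hF hFV
    have i1 := hP.G (m + 2)
    have i2 : SFinite (G (m + 2)) := inferInstance
    have i3 := MA.sfinite_prod (G (m + 2))
    have i4 : SFinite (GM N (m + 2)) := MA.sfinite_pi (G (m + 2))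
    have i5 : IsProbabilityMeasure ((G (m + 2)).prod (G (m + 2))) :=
      Measure.prod.instIsProbabilityMeasure _ _
    have hmeas := MA.meas_intg hGS τ N (m + 2)
    have hA : ∀ A : Fin N → Fin (m + 2) → ℂ, Measurable fun ω => MA.intg τ A ω := by
      intro A
      have := hmeas.comp (measurable_const (a := A) |>.prodMk measurable_id)
      simpa [Function.comp_def] using this
    have e1 : ∀ A : Fin N → Fin (m + 2) → ℂ, F A * LL τ A =
        ∫⁻ ω, F A * MA.intg τ A ω ∂((G (m + 2)).prod (G (m + 2))) := by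
      intro A
      rw [MA.LL_eq, lintegral_const_mul _ (hA A)]
    simp_rw [e1]
    rw [lintegral_lintegral_swap]
    · have e2 : ∀ᵐ ω ∂((G (m + 2)).prod (G (m + 2))),
          ∫⁻ A, F A * MA.intg τ A ω ∂(GM N (m + 2)) =
            ∫⁻ A, F A * ∏ i, kern τ (A i 0) (A i 1) ∂(GM N (m + 2)) := by
        filter_upwards [hGS.on m] with ω hω
        obtain ⟨V, hV, hu, hv⟩ := hE m _ _ hω
        have hm := hI.mat N (m + 2) V hV
        have hmeas2 : Measurable fun A : Fin N → Fin (m + 2) → ℂ =>
            F A * ∏ i, kern τ (A i 0) (A i 1) :=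
          hF.mul (Finset.measurable_prod _ fun i _ =>
            (MA.meas_kern01 MA.meas_kern_pair τ m).comp (measurable_pi_apply i))
        rw [← hm.lintegral_comp hmeas2]
        refine lintegral_congr fun A => ?_
        rw [hFV V hV A]
        unfold MA.intg
        congr 1
        refine Finset.prod_congr rfl fun i _ => ?_
        rw [MixM.dot_col (A i) (fu ω.1) V 0 hu, MixM.dot_col (A i) (fv ω.1 ω.2) V 1 hv]
      rw [lintegral_congr_ae e2, lintegral_const, measure_univ, mul_one]
    · apply Measurable.aemeasurable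
      exact (hF.comp measurable_fst).mul hmeas

end MPf1e3
end

section
/-! Problem MP_f1e3b4_an, module PID: products of densities. -/
set_option autoImplicit false

open MeasureTheory ProbabilityTheory Filter Topology Set
open scoped ENNReal

namespace MPf1e3

theorem specPid (hP : SpecProb) (hM : SpecMu) : SpecPid := by
  intro N m τ h0 h1 E hE
  have i1 : IsProbabilityMeasure (G (m + 2)) := hP.G (m + 2)
  have hp : IsProbabilityMeasure (nu τ m) := hM.p3 τ m h0 h1
  have hf := MA.meas_kern01 MA.meas_kern_pair τ m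
  have hs0 : SigmaFinite (nu τ m) := inferInstance
  have hs : SigmaFinite ((G (m + 2)).withDensity fun a => kern τ (a 0) (a 1)) := hs0
  have e : (Measure.pi fun _ : Fin N => nu τ m) =
      (GM N (m + 2)).withDensity fun A => ∏ i, kern τ (A i 0) (A i 1) :=
    MA.pi_withDensity (N := N) (G (m + 2)) (fun a => kern τ (a 0) (a 1)) hf
  rw [e, withDensity_apply _ hE]

end MPf1e3
end

section
/-! Problem MP_f1e3b4_an, module SEC: the second moment. -/
set_option autoImplicit false

open MeasureTheory ProbabilityTheory Filter Topology Set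
open scoped ENNReal

namespace MPf1e3

namespace SecM

/-- Tonelli for the rows of a matrix -/
theorem rows {N n : ℕ} (hP : SpecProb) (g : (Fin n → ℂ) → ℝ≥0∞) (hg : Measurable g) :
    ∫⁻ A, ∏ i : Fin N, g (A i) ∂(GM N n) = (∫⁻ a, g a ∂(G n)) ^ N := by
  have i1 := hP.G n
  unfold GM
  rw [MA.lintegral_pi_prod (fun _ : Fin N => G n) (fun _ => g) fun _ => hg]
  simp

end SecM

theorem specSec (hP : SpecProb) (hGS : SpecGS) (hK : SpecKmeas) (hMix : SpecMix)
    (hKap : SpecKappa) : SpecSec := by
  intro τ N m h0 h1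
  have i1 := hP.G (m + 2)
  have i2 : SFinite (G (m + 2)) := inferInstance
  have i3 := MA.sfinite_prod (G (m + 2))
  have i4 : SFinite (GM N (m + 2)) := MA.sfinite_pi (G (m + 2))
  have hmeas := MA.meas_intg hGS τ N (m + 2)
  have hk01 := MA.meas_kern01 MA.meas_kern_pair τ m
  constructor
  · have h := hMix.mix τ N m h0 h1 (fun _ => 1) measurable_const (fun _ _ _ => rfl)
    simp only [one_mul] at h
    rw [h, SecM.rows hP (fun a => kern τ (a 0) (a 1)) hk01, hK.one m τ h0 h1, one_pow]
  · have h := hMix.mix τ N m h0 h1 (fun A => LL τ A) (hK.LL τ N (m + 2))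
      (fun V hV A => hMix.inv τ N (m + 2) V hV A)
    have e0 : ∫⁻ A : Fin N → Fin (m + 2) → ℂ, LL τ A ^ 2 ∂(GM N (m + 2)) =
        ∫⁻ A, LL τ A * LL τ A ∂(GM N (m + 2)) := by
      simp_rw [sq]
    rw [e0, h]
    have hA : ∀ A : Fin N → Fin (m + 2) → ℂ, Measurable fun ω => MA.intg τ A ω := by
      intro A
      have := hmeas.comp (measurable_const (a := A) |>.prodMk measurable_id)
      simpa [Function.comp_def] using this
    have e1 : ∀ A : Fin N → Fin (m + 2) → ℂ, LL τ A * ∏ i, kern τ (A i 0) (A i 1) =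
        ∫⁻ ω, MA.intg τ A ω * ∏ i, kern τ (A i 0) (A i 1) ∂((G (m + 2)).prod (G (m + 2))) := by
      intro A
      rw [MA.LL_eq, lintegral_mul_const _ (hA A)]
    simp_rw [e1]
    rw [lintegral_lintegral_swap]
    · refine lintegral_congr_ae ?_
      filter_upwards [hGS.on m] with ω hω
      have e2 : ∀ A : Fin N → Fin (m + 2) → ℂ, MA.intg τ A ω * ∏ i, kern τ (A i 0) (A i 1) =
          ∏ i, (kern τ (A i 0) (A i 1) * kern τ (dot (A i) (fu ω.1)) (dot (A i) (fv ω.1 ω.2))) := by
        intro A
        unfold MA.intg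
        rw [← Finset.prod_mul_distrib]
        exact Finset.prod_congr rfl fun i _ => mul_comm _ _
      simp_rw [e2]
      have hd : Measurable fun a : Fin (m + 2) → ℂ => kern τ (a 0) (a 1) *
          kern τ (dot a (fu ω.1)) (dot a (fv ω.1 ω.2)) :=
        hk01.mul (MA.meas_kern MA.meas_kern_pair τ (MA.meas_dot measurable_id measurable_const)
          (MA.meas_dot measurable_id measurable_const))
      rw [SecM.rows hP (fun a : Fin (m + 2) → ℂ => kern τ (a 0) (a 1) *
          kern τ (dot a (fu ω.1)) (dot a (fv ω.1 ω.2))) hd, hKap m _ _ hω τ h0 h1]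
    · apply Measurable.aemeasurable
      refine hmeas.mul ?_
      refine Finset.measurable_prod _ fun i _ => ?_
      exact hk01.comp ((measurable_pi_apply i).comp measurable_fst)

end MPf1e3
end

section
/-!
Problem MP_f1e3b4_an: assembly of the modules.
-/
set_option autoImplicit false

open MeasureTheory ProbabilityTheory Filter Topology Set
open scoped ENNReal ComplexConjugate

namespace MPf1e3.All

open MPf1e3

theorem prob : SpecProb := specProb
theorem inv : SpecInv := specInv
theorem gs : SpecGS := specGS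
theorem gam : SpecGam := specGam prob
theorem row : SpecRow := specRow prob inv specCons

/-! ### mass of the kernel (breaks the circle between `specKmeas` and `specMu`) -/

theorem mass1 {τ : ℝ} (h1 : τ < 1) : mu1 τ univ = 1 := by
  have h := MuM.rad prob (MuM.g1 τ) (fun _ => 1) (MuM.meas_g1 τ) measurable_const
  rw [← MuM.mu1_eq] at h
  rw [lintegral_one] at h
  rw [h]
  simp_rw [one_mul, MuM.g1_dens h1]
  have hv : 0 < 1 - τ := by linarith
  rw [MuM.int_cpow 0 (by positivity) (by positivity)]
  rw [← ENNReal.ofReal_one]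
  congr 1
  simp only [Nat.factorial_zero, Nat.cast_one, zero_add, pow_one]
  field_simp

theorem mass2 {τ : ℝ} (h0 : 0 < τ) (h1 : τ < 1) : mu2 τ univ = 1 := by
  have hv : 0 < 1 - τ := by linarith
  have h := MuM.rad prob (MuM.g2 τ) (fun _ => 1) (MuM.meas_g2 τ) measurable_const
  rw [← MuM.mu2_eq] at h
  rw [lintegral_one] at h
  rw [h]
  rw [setLIntegral_congr_fun measurableSet_Ioi (g := fun y =>
    ENNReal.ofReal ((1 - τ) / 2 * (y ^ 0 * Real.exp (-(1 / 2 * y)))) +
    ENNReal.ofReal (τ / 4 * (y ^ 1 * Real.exp (-(1 / 2 * y))))) (by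
      intro y hy
      simp only [one_mul]
      exact MuM.g2_dens h0 h1 hy)]
  rw [lintegral_add_left (by fun_prop), MuM.int_cpow 0 (by norm_num) (by positivity),
    MuM.int_cpow 1 (by norm_num) (by positivity),
    ← ENNReal.ofReal_add (by positivity) (by positivity), ← ENNReal.ofReal_one]
  congr 1
  simp only [Nat.factorial_zero, Nat.cast_one, zero_add, pow_one, Nat.factorial_one]
  ring

theorem kern_one (m : ℕ) {τ : ℝ} (h0 : 0 < τ) (h1 : τ < 1) :
    ∫⁻ a, kern τ (a 0) (a 1) ∂(G (m + 2)) = 1 := by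
  rw [← KmeasM.nu_univ, ← lintegral_one, row m τ h0 h1 (fun _ => 1) measurable_const]
  have i1 := prob.G m
  have i2 := prob.cav
  simp only [lintegral_one, measure_univ, mass1 h1, mass2 h0 h1]

theorem kmeas : SpecKmeas where
  meas := MA.meas_kern_pair
  one := fun m _ h0 h1 => kern_one m h0 h1
  LL := MA.meas_LL prob gs

theorem mu : SpecMu := specMu prob kmeas
theorem mix : SpecMix := specMix prob inv specExt gs
theorem sec : SpecSec := specSec prob gs kmeas mix specKappa
theorem det : SpecDet := specDet prob gs specCtr gam specExt1 inv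
theorem pid : SpecPid := specPid prob mu
theorem sbx : SpecSBX := specSBX prob inv specExt1 row mu
theorem sbs : SpecSBS := specSBS prob row mu
theorem fub : SpecFub := specFub specLA
theorem mom : SpecMom := specMom prob mu row
theorem good : SpecGood := Good.specGood fub sbx sbs Newt.specNewt InK.specInK mom mu
theorem ki2 : SpecKI2 := specKI2 prob specAvg
theorem ki (hKI1 : SpecKI1) : SpecKI := specKI hKI1 ki2 specKI3 specKI4 specPos
theorem secLim (hKI1 : SpecKI1) : SpecSecLim :=
  specSecLim prob gs specCtr (ki hKI1) sec det (dl_pos_ae gs specCtr)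
theorem main (hKI1 : SpecKI1) : SpecMain :=
  Main.specMain prob kmeas (secLim hKI1) sec specCS mix Collis.specColl pid good

end MPf1e3.All
end
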