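import Pool.Agent.Lib.MP_f1e3b4_an.All
import Pool.Agent.Lib.MP_f1e3b4_an.KI1
import Pool.Agent.Lib.MP_f1e3b4_an.SBS

/-!
# MP_f1e3b4_an: own statement, at most `4M - 5` measurements, every variance
-/

set_option autoImplicit false

open MeasureTheory ProbabilityTheory Filter Topology Set
open scoped ENNReal NNReal

namespace MPf1e3.Own

/-- `A` is injective for complex phase retrieval: the squared moduli of the entries of `A x`
determine `x` up to a factor of modulus one. -/
def InjectivePR {N M : ℕ} (A : Matrix (Fin N) (Fin M) ℂ) : Prop :=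
  ∀ x y : Fin M → ℂ, (∀ i, ‖A.mulVec x i‖ ^ 2 = ‖A.mulVec y i‖ ^ 2) →
    ∃ c : ℂ, ‖c‖ = 1 ∧ y = c • x

/-- The centred circular complex Gaussian law with `E|z|² = 2v`: independent real and imaginary
parts of variance `v`. -/
noncomputable def complexGaussian (v : ℝ≥0) : Measure ℂ :=
  ((gaussianReal 0 v).prod (gaussianReal 0 v)).map
    (fun p : ℝ × ℝ => (p.1 : ℂ) + (p.2 : ℂ) * Complex.I)

/-- The law of an `N × M` matrix with independent entries of law `complexGaussian v`. -/
noncomputable def gaussianMatrix (N M : ℕ) (v : ℝ≥0) : Measure (Fin N → Fin M → ℂ) :=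
  Measure.pi fun _ => Measure.pi fun _ => complexGaussian v

theorem measurable_mk : Measurable (fun p : ℝ × ℝ => (p.1 : ℂ) + (p.2 : ℂ) * Complex.I) := by
  fun_prop

instance (v : ℝ≥0) : IsProbabilityMeasure (complexGaussian v) :=
  Measure.isProbabilityMeasure_map measurable_mk.aemeasurable

theorem complexGaussian_one : complexGaussian 1 = cg := rfl

theorem GM_eq (N n : ℕ) : gaussianMatrix N n 1 = GM N n := rfl

instance (N M : ℕ) (v : ℝ≥0) : IsProbabilityMeasure (gaussianMatrix N M v) := by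
  unfold gaussianMatrix
  infer_instance

/-! ### Changing the variance -/

theorem mp_real (v : ℝ≥0) : MeasurePreserving (fun x : ℝ => Real.sqrt v * x)
    (gaussianReal 0 1) (gaussianReal 0 v) := by
  refine ⟨by fun_prop, ?_⟩
  rw [gaussianReal_map_const_mul]
  congr 1
  · simp
  · ext
    simp [Real.sq_sqrt]

theorem mp_complex (v : ℝ≥0) : MeasurePreserving (fun z : ℂ => (Real.sqrt v : ℂ) * z)
    cg (complexGaussian v) := by
  refine ⟨by fun_prop, ?_⟩
  unfold cg complexGaussian
  have h := (mp_real v).prod (mp_real v)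
  rw [Measure.map_map (by fun_prop) measurable_mk, ← h.map_eq,
    Measure.map_map measurable_mk h.measurable]
  congr 1
  funext p
  simp only [Function.comp_apply, Prod.map]
  push_cast
  ring

theorem mp_matrix (N M : ℕ) (v : ℝ≥0) :
    MeasurePreserving (fun (A : Fin N → Fin M → ℂ) (i : Fin N) (j : Fin M) =>
      (Real.sqrt v : ℂ) * A i j) (GM N M) (gaussianMatrix N M v) := by
  have h1 : MeasurePreserving (fun (a : Fin M → ℂ) (j : Fin M) => (Real.sqrt v : ℂ) * a j)
      (G M) (Measure.pi fun _ => complexGaussian v) := by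
    have h0 : IsProbabilityMeasure cg := inferInstanceAs (IsProbabilityMeasure (complexGaussian 1))
    exact measurePreserving_pi (fun _ => cg) (fun _ => complexGaussian v) (fun _ => mp_complex v)
  have h2 : IsProbabilityMeasure (G M) :=
    inferInstanceAs (IsProbabilityMeasure (Measure.pi fun _ : Fin M => complexGaussian 1))
  exact measurePreserving_pi (fun _ => G M) (fun _ => Measure.pi fun _ => complexGaussian v)
    (fun _ => h1)

theorem coll_smul (N n : ℕ) (c : ℂ) (hc : c ≠ 0) (A : Fin N → Fin n → ℂ) :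
    (fun i j => c * A i j) ∈ Coll N n ↔ A ∈ Coll N n := by
  have hd : ∀ (i : Fin N) (u : Fin n → ℂ), dot (fun j => c * A i j) u = c * dot (A i) u := by
    intro i u
    unfold dot
    rw [Finset.mul_sum]
    exact Finset.sum_congr rfl fun j _ => by ring
  constructor
  · rintro ⟨p, hp, h⟩
    refine ⟨p, hp, fun i => ?_⟩
    have := h i
    simp only [hd, norm_mul] at this
    exact mul_left_cancel₀ (norm_ne_zero_iff.2 hc) this
  · rintro ⟨p, hp, h⟩
    refine ⟨p, hp, fun i => ?_⟩
    simp only [hd, norm_mul]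
    rw [h i]

theorem compl_coll_variance (N M : ℕ) (v : ℝ≥0) (hv : v ≠ 0) :
    gaussianMatrix N M v (Coll N M)ᶜ = GM N M (Coll N M)ᶜ := by
  rw [← (mp_matrix N M v).measure_preimage
    ((Collis.specColl.meas N M).compl.nullMeasurableSet)]
  congr 1
  ext A
  simp only [mem_preimage, mem_compl_iff]
  rw [coll_smul]
  simpa using hv

/-! ### Fewer rows -/

theorem mp_rows (N k M : ℕ) :
    MeasurePreserving (fun (A : Fin (N + k) → Fin M → ℂ) (i : Fin N) => A (Fin.castAdd k i))
      (GM (N + k) M) (GM N M) := by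
  have h2 : IsProbabilityMeasure (G M) :=
    inferInstanceAs (IsProbabilityMeasure (Measure.pi fun _ : Fin M => complexGaussian 1))
  refine ⟨by fun_prop, ?_⟩
  symm
  refine Measure.pi_eq fun s hs => ?_
  rw [Measure.map_apply (by fun_prop) (MeasurableSet.univ_pi hs)]
  have h3 : (fun (A : Fin (N + k) → Fin M → ℂ) (i : Fin N) => A (Fin.castAdd k i)) ⁻¹'
      (univ.pi s) = univ.pi (Fin.addCases (motive := fun _ => Set (Fin M → ℂ)) s
        (fun _ => univ)) := by
    ext A
    simp only [mem_preimage, mem_univ_pi]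
    constructor
    · intro h i
      refine Fin.addCases (fun i => ?_) (fun i => ?_) i
      · simpa using h i
      · simp
    · intro h i
      simpa using h (Fin.castAdd k i)
  rw [h3]
  unfold GM
  rw [Measure.pi_pi, Fin.prod_univ_add]
  simp

theorem compl_coll_mono (N k M : ℕ) :
    GM N M (Coll N M)ᶜ ≤ GM (N + k) M (Coll (N + k) M)ᶜ := by
  rw [← (mp_rows N k M).measure_preimage ((Collis.specColl.meas N M).compl.nullMeasurableSet)]
  refine measure_mono fun A hA hc => hA ?_
  obtain ⟨p, hp, h⟩ := hc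
  exact ⟨p, hp, fun i => h (Fin.castAdd k i)⟩

theorem inj_subset (N M : ℕ) :
    {A : Fin N → Fin M → ℂ | InjectivePR (Matrix.of A)} ⊆ (Coll N M)ᶜ := by
  intro A hA hc
  refine Collis.specColl.not_inj N M A hc fun x y hxy => hA x y fun i => ?_
  rw [hxy i]

theorem main (hM : SpecMain) (ε : ℝ) (hε : 0 < ε) : ∃ M₀ : ℕ, ∀ M ≥ M₀, ∀ N ≤ 4 * M - 5,
    ∀ v : ℝ≥0, v ≠ 0 →
      gaussianMatrix N M v {A | InjectivePR (Matrix.of A)} ≤ ENNReal.ofReal ε := by
  have h := (ENNReal.tendsto_atTop_zero.1 hM) (ENNReal.ofReal ε) (by simpa using hε)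
  obtain ⟨m₀, hm⟩ := h
  refine ⟨m₀ + 2, fun M hM N hN v hv => ?_⟩
  obtain ⟨m, rfl⟩ : ∃ m, M = m + 2 := ⟨M - 2, by omega⟩
  obtain ⟨k, hk⟩ : ∃ k, 4 * m + 3 = N + k := ⟨4 * m + 3 - N, by omega⟩
  refine (measure_mono (inj_subset N (m + 2))).trans ?_
  rw [compl_coll_variance _ _ _ hv]
  refine (compl_coll_mono N k (m + 2)).trans ?_
  rw [← hk]
  exact hm m (by omega)

end MPf1e3.Own
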